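import Pool.Agent.Lib.MP_0ba2dd_ag.H45Kos

/-! Endomorphisms of the diagonal in degrees `(2, 0)` and `(4, 0)`. -/

namespace Pool.Agent.Lib.MP_0ba2dd_ag

open MvPolynomial Matrix

variable {k : Type*} [Field k]

theorem isMF_Δ {f : Q k} (hf : f.IsHomogeneous 3) : IsMF wS cG (inX f - inY f) Δν (ΔD f) :=
  isMF_cov hf (isMF_D0 hf)

namespace HH

/-- Homotopies for multiplication by `z j` on the Koszul factorisation. -/
def th (R : Type*) [CommRing R] : ∀ n, ℕ → Matrix (Kι n) (Kι n) R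
  | 0 => fun _ => 0
  | n + 1 => fun j => if j = n then Matrix.fromBlocks 0 0 (1 : Matrix (Kι n) (Kι n) R) 0
      else Matrix.fromBlocks (th R n j) 0 0 (-th R n j)

section Blocks

variable {R : Type*} [CommRing R]

theorem th_last (n : ℕ) :
    th R (n + 1) n = Matrix.fromBlocks 0 0 (1 : Matrix (Kι n) (Kι n) R) 0 := if_pos rfl

theorem th_ne {n j : ℕ} (h : j ≠ n) :
    th R (n + 1) j = Matrix.fromBlocks (th R n j) 0 0 (-th R n j) := if_neg h

theorem blkA {ι : Type*} [Fintype ι] [DecidableEq ι] (D : Matrix ι ι R) (z w : R) :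
    Matrix.fromBlocks D (z • (1 : Matrix ι ι R)) (w • (1 : Matrix ι ι R)) (-D) *
        Matrix.fromBlocks 0 0 (1 : Matrix ι ι R) 0 +
      Matrix.fromBlocks 0 0 (1 : Matrix ι ι R) 0 *
        Matrix.fromBlocks D (z • (1 : Matrix ι ι R)) (w • (1 : Matrix ι ι R)) (-D) =
      z • (1 : Matrix (ι ⊕ ι) (ι ⊕ ι) R) := by
  rw [Matrix.fromBlocks_multiply, Matrix.fromBlocks_multiply, Matrix.fromBlocks_add,
    ← Matrix.fromBlocks_one, Matrix.fromBlocks_smul]
  simp

theorem blkB {ι : Type*} [Fintype ι] [DecidableEq ι] {D T : Matrix ι ι R} (z w : R) {u : R}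
    (h : D * T + T * D = u • (1 : Matrix ι ι R)) :
    Matrix.fromBlocks D (z • (1 : Matrix ι ι R)) (w • (1 : Matrix ι ι R)) (-D) *
        Matrix.fromBlocks T 0 0 (-T) +
      Matrix.fromBlocks T 0 0 (-T) *
        Matrix.fromBlocks D (z • (1 : Matrix ι ι R)) (w • (1 : Matrix ι ι R)) (-D) =
      u • (1 : Matrix (ι ⊕ ι) (ι ⊕ ι) R) := by
  rw [Matrix.fromBlocks_multiply, Matrix.fromBlocks_multiply, Matrix.fromBlocks_add,
    ← Matrix.fromBlocks_one, Matrix.fromBlocks_smul]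
  simp [h]

theorem th_comm (z w : ℕ → R) : ∀ n j, j < n →
    KD z w n * th R n j + th R n j * KD z w n = z j • (1 : Matrix (Kι n) (Kι n) R)
  | 0, _, h => absurd h (Nat.not_lt_zero _)
  | n + 1, j, h => by
    by_cases e : j = n
    · subst e
      rw [th_last]
      exact blkA (KD z w j) (z j) (w j)
    · rw [th_ne e]
      exact blkB (z n) (w n) (th_comm z w n j (by omega))

theorem KD_top (z w : ℕ → R) : ∀ (n : ℕ) (a : Kι n),
    KD z w n a (Ktop n) = ∑ j ∈ Finset.range n, w j * th R n j a (Ktop n)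
  | 0, _ => rfl
  | n + 1, a => by
    rw [Finset.sum_range_succ, th_last, Finset.sum_congr rfl fun j hj => by
      rw [th_ne (Finset.mem_range.1 hj).ne]]
    rcases a with a | a
    · exact (KD_top z w n a).trans
        ((add_zero _).symm.trans (congrArg (HAdd.hAdd _) (mul_zero (w n)).symm))
    · exact (zero_add _).symm.trans
        (congrArg (· + _) (Finset.sum_eq_zero fun j _ => mul_zero (w j)).symm)

theorem exists_th : ∀ (n : ℕ) (a : Kι n), a ≠ Ktop n →
    ∃ j < n, ∃ a', Kν n a' = Kν n a + 1 ∧ ∀ b, th R n j b a' = if b = a then 1 else 0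
  | 0, _, h => absurd rfl h
  | n + 1, Sum.inr a, _ => by
    refine ⟨n, Nat.lt_succ_self n, Sum.inl a, (sub_add_cancel (Kν n a) 1).symm, fun b => ?_⟩
    rw [th_last]
    rcases b with b | b
    · exact (if_neg Sum.inl_ne_inr).symm
    · by_cases e : b = a
      · subst e
        exact (Matrix.one_apply_eq b).trans (if_pos rfl).symm
      · exact (Matrix.one_apply_ne e).trans (if_neg fun c => e (Sum.inr_injective c)).symm
  | n + 1, Sum.inl a, h => by
    obtain ⟨j, hj, a', e1, e2⟩ := exists_th n a fun c => h (congrArg Sum.inl c)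
    refine ⟨j, by omega, Sum.inl a', e1, fun b => ?_⟩
    rw [th_ne hj.ne]
    rcases b with b | b
    · refine (e2 b).trans ?_
      by_cases e : b = a
      · subst e
        exact (if_pos rfl).trans (if_pos rfl).symm
      · exact (if_neg e).trans (if_neg fun c => e (Sum.inl_injective c)).symm
    · exact (if_neg Sum.inr_ne_inl).symm

theorem row_th {n : ℕ} {a : Kι n} (h : a ≠ Ktop n) : ∃ j < n, ∃ a', Kν n a' = Kν n a + 1 ∧
    ∀ ρ : Matrix Unit (Kι n) R, (ρ * th R n j) () a' = ρ () a := by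
  obtain ⟨j, hj, a', e1, e2⟩ := exists_th (R := R) n a h
  exact ⟨j, hj, a', e1, fun ρ => by simp [Matrix.mul_apply, e2]⟩

theorem row_top (z w : ℕ → R) (n : ℕ) (ρ : Matrix Unit (Kι n) R) :
    (ρ * KD z w n) () (Ktop n) = ∑ j ∈ Finset.range n, w j * (ρ * th R n j) () (Ktop n) := by
  simp only [Matrix.mul_apply, KD_top, Finset.mul_sum]
  rw [Finset.sum_comm]
  exact Finset.sum_congr rfl fun j _ => Finset.sum_congr rfl fun a _ => by ring

theorem row_step (z w : ℕ → R) {n j : ℕ} (hj : j < n) (ρ : Matrix Unit (Kι n) R) :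
    ρ * th R n j * KD z w n = z j • ρ - ρ * KD z w n * th R n j := by
  rw [eq_sub_iff_add_eq, Matrix.mul_assoc, Matrix.mul_assoc, ← Matrix.mul_add, add_comm,
    th_comm z w n j hj, Matrix.mul_smul, Matrix.mul_one]

end Blocks

theorem hg_th {σ : Type*} (w : σ → ℤ) : ∀ n j, Hg w (Kν n) (Kν n) (-1) (th (MvPolynomial σ k) n j)
  | 0, _ => Hg.zero
  | n + 1, j => by
    by_cases e : j = n
    · subst e
      rw [th_last]
      exact Hg.fromBlocks Hg.zero Hg.zero (Hg.one.of_eq fun a b => by ring) Hg.zero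
    · rw [th_ne e]
      exact Hg.fromBlocks (hg_th w n j) Hg.zero Hg.zero
        ((hg_th w n j).neg.of_eq fun a b => by ring)

/-- rows of degree `d` -/
def Row (d : ℤ) (ρ : Matrix Unit (Kι 5) (Q k)) : Prop := Hg wQ (Kν 5) (fun _ => 0) d ρ

theorem Row.th {d : ℤ} {ρ : Matrix Unit (Kι 5) (Q k)} (h : Row d ρ) (j : ℕ) :
    Row (d - 1) (ρ * th (Q k) 5 j) := Hg.mul h (hg_th wQ 5 j) (by ring)

theorem Row.zero {d : ℤ} {ρ : Matrix Unit (Kι 5) (Q k)} (h : Row d ρ) {a : Kι 5}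
    (ha : Kν 5 a + d < 0) : ρ () a = 0 :=
  IsWH.eq_zero_of_neg N0 N0_wQ (h () a) (by simpa using ha)

theorem Row.const {d : ℤ} {ρ : Matrix Unit (Kι 5) (Q k)} (h : Row d ρ) (hd : d ≤ 1) (a : Kι 5) :
    ∃ c : k, ρ () a = C c :=
  ⟨_, IsWH.eq_C N0 N0_wQ (h () a) (by have := Kν_nonpos 5 a; simp only [N0_apply]; omega)⟩

theorem exists_ne (j l : Fin 5) : ∃ m : Fin 5, j ≠ m ∧ l ≠ m := by
  revert j l
  decide

/-- Closed rows of degree two vanish when the `z j` are the variables. -/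
theorem row_eq_zero {z w : ℕ → Q k} {c : k} (hc : c ≠ 0) (hz : ∀ j : Fin 5, z j = C c * X j)
    {ρ : Matrix Unit (Kι 5) (Q k)} (h : Row 2 ρ) (h0 : ρ * KD z w 5 = 0) : ρ = 0 := by
  have s1 : ∀ j : Fin 5, ρ * th (Q k) 5 j * KD z w 5 = z j • ρ := fun j => by
    rw [row_step z w j.2, h0, Matrix.zero_mul, sub_zero]
  have s2 : ∀ j l : Fin 5, ρ * th (Q k) 5 j * th (Q k) 5 l * KD z w 5 =
      z l • (ρ * th (Q k) 5 j) - z j • (ρ * th (Q k) 5 l) := fun j l => by
    rw [row_step z w l.2, s1, Matrix.smul_mul]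
  have t2 : ∀ j l : Fin 5, ρ * th (Q k) 5 j * th (Q k) 5 l = 0 := fun j l => by
    obtain ⟨m, h1, h2⟩ := exists_ne j l
    have e := row_step z w m.2 (ρ * th (Q k) 5 j * th (Q k) 5 l)
    have e0 : ρ * th (Q k) 5 j * th (Q k) 5 l * th (Q k) 5 m = 0 := by
      ext u a : 1
      exact (((h.th j).th l).th m).zero (by have := Kν_nonpos 5 a; omega)
    rw [e0, s2, Matrix.zero_mul, Matrix.sub_mul, Matrix.smul_mul, Matrix.smul_mul] at e
    ext u a : 1
    have e1 := congrFun (congrFun e ()) a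
    obtain ⟨c1, d1⟩ := ((h.th j).th l).const (by norm_num) a
    obtain ⟨c2, d2⟩ := ((h.th j).th m).const (by norm_num) a
    obtain ⟨c3, d3⟩ := ((h.th l).th m).const (by norm_num) a
    simp only [Matrix.sub_apply, Matrix.smul_apply, d1, d2, d3, hz, Matrix.zero_apply,
      smul_eq_mul] at e1
    have e2 := congrArg (eval (Pi.single m (1 : k))) e1
    simp [Pi.single_eq_of_ne h1, Pi.single_eq_of_ne h2, hc] at e2
    rw [show u = () from rfl, d1, e2, C_0, Matrix.zero_apply]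
  have t1 : ∀ j : Fin 5, ρ * th (Q k) 5 j = 0 := fun j => by
    obtain ⟨l, h1, -⟩ := exists_ne j j
    have e := s2 j l
    rw [t2, Matrix.zero_mul] at e
    ext u a : 1
    have e1 := congrFun (congrFun e ()) a
    obtain ⟨c1, d1⟩ := (h.th j).const (by norm_num) a
    obtain ⟨c2, d2⟩ := (h.th l).const (by norm_num) a
    simp only [Matrix.sub_apply, Matrix.smul_apply, d1, d2, hz, Matrix.zero_apply,
      smul_eq_mul] at e1
    have e2 := congrArg (eval (Pi.single l (1 : k))) e1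
    simp [Pi.single_eq_of_ne h1, hc] at e2
    rw [show u = () from rfl, d1, e2, C_0, Matrix.zero_apply]
  have e := s1 0
  rw [t1, Matrix.zero_mul, hz] at e
  ext u a : 1
  have e1 := congrFun (congrFun e u) a
  simp only [Matrix.zero_apply, Matrix.smul_apply, smul_eq_mul] at e1
  exact (mul_eq_zero.1 e1.symm).resolve_left (mul_ne_zero (C_ne_zero.2 hc) (X_ne_zero _))

/-- The top entry of the boundary of a row of degree one. -/
theorem row_one_top {z w : ℕ → Q k} {g : Fin 5 → Q k} (hw : ∀ j : Fin 5, w j = g j)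
    {ρ : Matrix Unit (Kι 5) (Q k)} (h : Row 1 ρ) : ∃ c : Fin 5 → k,
      (∀ j : Fin 5, (ρ * th (Q k) 5 j) () (Ktop 5) = C (c j)) ∧
        (ρ * KD z w 5) () (Ktop 5) = ∑ j, c j • g j := by
  choose c hc using fun j : Fin 5 => (h.th j).const (by norm_num) (Ktop 5)
  refine ⟨c, hc, ?_⟩
  rw [row_top, Finset.sum_range]
  exact Finset.sum_congr rfl fun j _ => by rw [hc, hw, smul_eq_C_mul, mul_comm]

theorem row_one_eq_zero {z w : ℕ → Q k} {g : Fin 5 → Q k} (hw : ∀ j : Fin 5, w j = g j)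
    (hg : LinearIndependent k g) {ρ : Matrix Unit (Kι 5) (Q k)} (h : Row 1 ρ)
    (h0 : ρ * KD z w 5 = 0) (a : Kι 5) : ρ () a = 0 := by
  obtain ⟨c, hc, e⟩ := row_one_top (z := z) hw h
  rw [h0] at e
  have c0 := Fintype.linearIndependent_iff.1 hg c e.symm
  by_cases ha : a = Ktop 5
  · exact IsWH.eq_zero_of_odd N0 N0_wQ (h () a) (by simp [ha, Kν_top])
  · obtain ⟨j, hj, a', e1, e2⟩ := row_th (R := Q k) ha
    by_cases ha' : a' = Ktop 5
    · rw [← e2 ρ, ha', hc ⟨j, hj⟩, c0, C_0]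
    · obtain ⟨-, -, a'', e3, -⟩ := row_th (R := Q k) ha'
      exact h.zero (by have := Kν_nonpos 5 a''; omega)

/-- Closed rows of degree two are supported at the top when the `z j` vanish. -/
theorem row_two_supp {z w : ℕ → Q k} (hz : ∀ j, z j = 0) {g : Fin 5 → Q k}
    (hw : ∀ j : Fin 5, w j = g j) (hg : LinearIndependent k g) {ρ : Matrix Unit (Kι 5) (Q k)}
    (h : Row 2 ρ) (h0 : ρ * KD z w 5 = 0) {a : Kι 5} (ha : a ≠ Ktop 5) : ρ () a = 0 := by
  obtain ⟨j, hj, a', -, e2⟩ := row_th (R := Q k) ha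
  rw [← e2 ρ]
  refine row_one_eq_zero (z := z) hw hg (h.th j) ?_ a'
  rw [row_step z w hj, h0, hz, zero_smul, Matrix.zero_mul, sub_zero]

/-- restriction to a twisted diagonal -/
noncomputable def TDχ (χ : ZMod 3 → k) : S k →ₐ[k] Q k :=
  aeval (Sum.elim X fun i => C (χ 2) * X i)

section Char

variable {χ : ZMod 3 → k} (h0 : χ 0 = 1) (ha : ∀ a b, χ (a + b) = χ a * χ b)
include h0 ha

theorem TDχ_monomial (d : Fin 5 ⊕ Fin 5 →₀ ℕ) :
    TDχ χ (monomial d 1) = C (χ (Finsupp.weight wY d)) * TD (monomial d 1) := by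
  induction d using Finsupp.induction_linear with
  | zero => simp [h0]
  | add d e h1 h2 =>
    rw [← mul_one (1 : k), ← monomial_mul, map_mul, map_mul, h1, h2, map_add, ha, C_mul]
    ring
  | single i n =>
    have p : ∀ (n : ℕ) (t : ZMod 3), χ (n • t) = χ t ^ n := fun n t => by
      induction n with
      | zero => simpa using h0
      | succ n ih => rw [succ_nsmul, ha, ih, pow_succ]
    rw [← X_pow_eq_monomial, Finsupp.weight_single, p, map_pow, map_pow, map_pow, ← mul_pow]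
    congr 1
    rcases i with i | i <;> simp [TDχ, TD, wY, h0]

theorem TDχ_hom {p : S k} {c : ZMod 3} (hp : p.IsWeightedHomogeneous wY c) :
    TDχ χ p = C (χ c) * TD p := by
  rw [p.as_sum, map_sum, map_sum, Finset.mul_sum]
  refine Finset.sum_congr rfl fun d hd => ?_
  rw [← mul_one (coeff d p), ← smul_eq_mul, ← smul_monomial, map_smul, map_smul,
    TDχ_monomial h0 ha, hp (mem_support_iff.1 hd), mul_smul_comm]

theorem TDχ_eq (p : S k) :
    TDχ χ p = ∑ c, C (χ c) * TD (weightedHomogeneousComponent wY c p) := by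
  conv_lhs => rw [← sum_weightedHomogeneousComponent wY p, finsum_eq_sum_of_fintype, map_sum]
  exact Finset.sum_congr rfl fun c _ =>
    TDχ_hom h0 ha (weightedHomogeneousComponent_isWeightedHomogeneous _ _)

end Char

/-- Fourier component of a row on the cover -/
noncomputable def four (χ : ZMod 3 → k) (η : Δι → Q k) : Matrix Unit (Kι 5) (Q k) :=
  Matrix.of fun _ a => ∑ t, C (χ t) * η (a, t)

theorem four_mul {χ : ZMod 3 → k} (h0 : χ 0 = 1) (ha : ∀ a b, χ (a + b) = χ a * χ b)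
    (η : Δι → Q k) (f : Q k) (b : Kι 5) :
    (four χ η * KD (TDχ χ ∘ zK k) (TDχ χ ∘ wK f) 5) () b =
      ∑ u, C (χ u) * ∑ x, η x * TD (ΔD f x (b, u)) := by
  have e : KD (TDχ χ ∘ zK k) (TDχ χ ∘ wK f) 5 = (D0 f).map (TDχ χ) :=
    (KD_map (TDχ χ : S k →+* Q k) (zK k) (wK f) 5).symm
  rw [e]
  simp only [Matrix.mul_apply, four, Matrix.of_apply, Matrix.map_apply, TDχ_eq h0 ha,
    Finset.mul_sum, Finset.sum_mul, Fintype.sum_prod_type, ΔD, cov]
  rw [Finset.sum_comm (γ := ZMod 3)]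
  refine Finset.sum_congr rfl fun a _ => ?_
  rw [Finset.sum_comm, Finset.sum_comm (f := fun u t => C (χ u) * (η (a, t) * _))]
  refine Finset.sum_congr rfl fun t _ => ?_
  refine Fintype.sum_equiv (Equiv.addRight t) _ _ fun c => ?_
  rw [Equiv.coe_addRight, add_sub_cancel_right, ha, C_mul]
  ring

theorem row_four (χ : ZMod 3 → k) {η : Δι → Q k} {d : ℤ}
    (h : ∀ x, (η x).IsWeightedHomogeneous wQ (Kν 5 x.1 + d)) : Row d (four χ η) := fun _ a =>
  IsWH.cast (IsWeightedHomogeneous.sum Finset.univ (fun t => C (χ t) * η (a, t)) (Kν 5 a + d)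
    fun t _ => (h (a, t)).C_mul _) (sub_zero _).symm

/-- the top row of a matrix on the cover, summed over the sheets and restricted to the diagonal -/
noncomputable def top (φ : Matrix Δι Δι (S k)) (x : Δι) : Q k :=
  TD ((Sm k (Equiv.refl Δι) * φ) (Ktop 5) x)

theorem top_hom {φ : Matrix Δι Δι (S k)} {γ : G} (h : Hg wS Δν Δν γ φ) (x : Δι) :
    (top φ x).IsWeightedHomogeneous wQ (Kν 5 x.1 + γ.1) :=
  IsWH.cast ((sm_hg (Equiv.refl Δι) (ν := Kν 5) (fun _ => rfl) h).map_TD (Ktop 5) x)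
    (by rw [Kν_top, sub_zero]; rfl)

theorem top_mul_left (f : Q k) (φ : Matrix Δι Δι (S k)) (x : Δι) : top (ΔD f * φ) x = 0 := by
  rw [top, ← Matrix.mul_assoc, ΔD, sm_cov, Matrix.mul_assoc, Matrix.mul_apply, map_sum]
  exact Finset.sum_eq_zero fun b _ => by rw [map_mul, TD_D0_top, zero_mul]

theorem top_mul_right (φ ψ : Matrix Δι Δι (S k)) (y : Δι) :
    top (φ * ψ) y = ∑ x, top φ x * TD (ψ x y) := by
  rw [top, ← Matrix.mul_assoc, Matrix.mul_apply, map_sum]
  exact Finset.sum_congr rfl fun b _ => map_mul _ _ _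

theorem top_add (φ ψ : Matrix Δι Δι (S k)) (x : Δι) : top (φ + ψ) x = top φ x + top ψ x := by
  rw [top, Matrix.mul_add, Matrix.add_apply, map_add, top, top]

theorem top_sub (φ ψ : Matrix Δι Δι (S k)) (x : Δι) : top (φ - ψ) x = top φ x - top ψ x := by
  rw [top, Matrix.mul_sub, Matrix.sub_apply, map_sub, top, top]

theorem top_smul (q : Q k) (x : Δι) :
    top (inX q • (1 : Matrix Δι Δι (S k))) x = if x.1 = Ktop 5 then q else 0 := by
  rw [top, Matrix.mul_smul, Matrix.mul_one, Matrix.smul_apply, smul_eq_mul, map_mul, TD_inX, Sm,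
    Matrix.of_apply, Equiv.refl_apply]
  split_ifs <;> simp

theorem TDχ_one : TDχ (fun _ => (1 : k)) = TD := by
  rw [TDχ, TD]
  simp

theorem TDχ_zK (χ : ZMod 3 → k) (j : Fin 5) : (TDχ χ ∘ zK k) j = C (1 - χ 2) * X j := by
  rw [Function.comp_apply, zK, dif_pos j.2]
  simp [TDχ, sub_mul]

theorem pow_val {ω : k} (h : ω ^ 3 = 1) (a b : ZMod 3) :
    ω ^ (a + b).val = ω ^ a.val * ω ^ b.val := by
  rw [ZMod.val_add, ← pow_eq_pow_mod _ h, pow_add]

theorem sum_three {M : Type*} [AddCommMonoid M] (g : ZMod 3 → M) : ∑ t, g t = g 0 + g 1 + g 2 :=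
  Fin.sum_univ_three g

theorem exists_root [IsAlgClosed k] : ∃ ω : k, ω ^ 2 + ω + 1 = 0 := by
  obtain ⟨ω, h⟩ := IsAlgClosed.exists_root (Polynomial.X ^ 2 + Polynomial.X + 1 : Polynomial k)
    (by rw [show (Polynomial.X ^ 2 + Polynomial.X + 1 : Polynomial k).degree = 2 by
          compute_degree!]; norm_num)
  exact ⟨ω, by simpa using h⟩

end HH

open HH in
theorem hh2 [IsAlgClosed k] (h3 : (3 : k) ≠ 0) {f : Q k} (hf : f.IsHomogeneous 3)
    (hli : LinearIndependent k (fun i : Fin 5 => pderiv i f)) {φ : Matrix Δι Δι (S k)}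
    (hφ : Hg wS Δν Δν (2, 0) φ) (cφ : Closed 1 (ΔD f) (ΔD f) φ) :
    ∃ l : Q k, l.IsHomogeneous 1 ∧
      Exact wS cG (2, 0) Δν (ΔD f) Δν (ΔD f) 1 (φ - inX l • (1 : Matrix Δι Δι (S k))) := by
  have deg := top_hom hφ
  have cl : ∀ χ : ZMod 3 → k, χ 0 = 1 → (∀ a b, χ (a + b) = χ a * χ b) →
      four χ (top φ) * KD (TDχ χ ∘ zK k) (TDχ χ ∘ wK f) 5 = 0 := fun χ h0 ha => by
    ext u b : 1
    rw [show u = () from rfl, four_mul h0 ha]
    refine Finset.sum_eq_zero fun u _ => ?_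
    have c : ΔD f * φ = φ * ΔD f := by simpa [Closed] using cφ
    rw [← top_mul_right, ← c, top_mul_left, mul_zero]
  have van : ∀ ω : k, ω ^ 2 + ω + 1 = 0 → ∀ a,
      top φ (a, 0) + C ω * top φ (a, 1) + C ω ^ 2 * top φ (a, 2) = 0 := fun ω h a => by
    have c3 : ω ^ 3 = 1 := by linear_combination (ω - 1) * h
    have c2 : 1 - ω ^ (2 : ZMod 3).val ≠ 0 := fun c => h3 (by
      change 1 - ω ^ 2 = 0 at c
      linear_combination (1 - ω) * c + (2 - ω) * h)
    have := row_eq_zero c2 (TDχ_zK fun t => ω ^ t.val) (row_four _ deg)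
      (cl (fun t => ω ^ t.val) (pow_zero ω) (pow_val c3))
    have e := congrFun (congrFun this ()) a
    rw [four, Matrix.of_apply, sum_three] at e
    change C (ω ^ 0) * _ + C (ω ^ 1) * _ + C (ω ^ 2) * _ = 0 at e
    simpa using e
  obtain ⟨ω, hω⟩ := exists_root (k := k)
  have hC : (C ω : Q k) ^ 2 + C ω + 1 = 0 := by simpa using congrArg (C : k → Q k) hω
  have three : (3 : Q k) ≠ 0 := fun c => h3 (C_injective (Fin 5) k (by rw [map_ofNat, c, C_0]))
  have same : ∀ a t, top φ (a, t) = top φ (a, 0) := fun a t => by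
    have e1 := van ω hω a
    have e2 := van (ω ^ 2) (by linear_combination (ω ^ 2 - ω + 1) * hω) a
    rw [C_pow] at e2
    have u1 : top φ (a, 1) = top φ (a, 0) := mul_left_cancel₀ three (by
      linear_combination (C ω ^ 2 - 1) * e1 + (C ω - 1) * e2 + hC * (-top φ (a, 0) +
        (3 - 2 * C ω) * top φ (a, 1) + C ω ^ 2 * (1 - C ω) * top φ (a, 2)))
    have u2 : top φ (a, 2) = top φ (a, 0) := mul_left_cancel₀ three (by
      linear_combination (C ω - 1) * e1 + (C ω ^ 2 - 1) * e2 + hC * (-top φ (a, 0) +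
        C ω * (1 - C ω) * top φ (a, 1) +
        (-C ω ^ 4 + C ω ^ 3 + C ω ^ 2 - 3 * C ω + 3) * top φ (a, 2)))
    fin_cases t
    exacts [rfl, u1, u2]
  have supp : ∀ a, a ≠ Ktop 5 → top φ (a, 0) = 0 := fun a h => by
    have e := row_two_supp (fun j => by rw [TDχ_one]; exact TD_zK j)
      (fun j => by rw [TDχ_one]; exact TD_wK f j) hli (row_four _ deg)
      (cl (fun _ => 1) rfl fun _ _ => (mul_one _).symm) h
    rw [four, Matrix.of_apply, sum_three, same a 1, same a 2, C_1] at e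
    exact mul_left_cancel₀ three (by linear_combination e)
  have hl : (top φ (Ktop 5, 0)).IsWeightedHomogeneous wQ 2 :=
    IsWH.cast (deg (Ktop 5, 0)) (by rw [Kν_top]; rfl)
  have hΔ := isMF_Δ hf
  have hψ := hφ.sub (Hg.smul_one (ν := Δν) (isWH_inX hl))
  have cψ := cφ.sub (Closed.one.smul (inX (top φ (Ktop 5, 0))))
  refine ⟨top φ (Ktop 5, 0), isWH_wQ_iff.1 hl, (sm_exact (Equiv.refl Δι) (ν := Kν 5)
    (fun _ => rfl) hΔ.1 (sm_cov _) hΔ.1 hψ).2 (ll_inj_D0 hf ⟨hΔ.1.forget, hΔ.2⟩ 1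
      (sm_hg (Equiv.refl Δι) (fun _ => rfl) hψ) ((sm_closed (Equiv.refl Δι) (ν := Kν 5)
        (fun _ => rfl) hΔ.1 (sm_cov _) hΔ.1 hψ).1 cψ) fun x => ?_)⟩
  obtain ⟨a, t⟩ := x
  refine (top_sub _ _ _).trans ?_
  rw [top_smul, same]
  split_ifs with h
  · rw [show a = Ktop 5 from h, sub_self]
  · rw [supp a h, sub_zero]

open HH in
theorem hh4 (h3 : (3 : k) ≠ 0) {f : Q k} (hf : f.IsHomogeneous 3) {q : Q k}
    (h : Exact wS cG (4, 0) Δν (ΔD f) Δν (ΔD f) 1 (inX q • (1 : Matrix Δι Δι (S k)))) :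
    q ∈ Submodule.span k (Set.range fun i : Fin 5 => pderiv i f) := by
  obtain ⟨a, ha, e⟩ := h
  have e1 : ∀ u : ZMod 3, ∑ x, top a x * TD (ΔD f x (Ktop 5, u)) = q := fun u => by
    have := congrArg (fun φ => top φ (Ktop 5, u)) e
    simp only [top_smul, if_true, one_smul, HH.top_add, top_mul_left, zero_add] at this
    rw [← top_mul_right, ← this]
  have e2 := four_mul (χ := fun _ => (1 : k)) rfl (fun _ _ => (mul_one _).symm) (top a) f (Ktop 5)
  obtain ⟨c, -, e3⟩ := row_one_top (z := TDχ (fun _ => (1 : k)) ∘ zK k)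
    (w := TDχ (fun _ => (1 : k)) ∘ wK f) (g := fun i : Fin 5 => pderiv i f)
    (fun j => by rw [TDχ_one]; exact TD_wK f j) (row_four (fun _ => (1 : k)) (top_hom ha))
  rw [e3, sum_three, e1, e1, e1, C_1] at e2
  have e4 : q = (3 : k)⁻¹ • ∑ j, c j • pderiv j f := by
    rw [e2, eq_inv_smul_iff₀ h3, smul_eq_C_mul, map_ofNat]
    ring
  rw [e4]
  exact Submodule.smul_mem _ _ (Submodule.sum_mem _ fun j _ =>
    Submodule.smul_mem _ _ (Submodule.subset_span ⟨j, rfl⟩))

end Pool.Agent.Lib.MP_0ba2dd_ag
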