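import Pool.Agent.Lib.MP_0ba2dd_ag.H45GenF
import Pool.Agent.Lib.MP_0ba2dd_ag.H45Core

/-! Transfer of indecomposability along Orlov's equivalence. -/

namespace Pool.Agent.Lib.MP_0ba2dd_ag

open CategoryTheory Limits MvPolynomial Pretriangulated

universe u

variable {k : Type u} [Field k] {f : Q k}

theorem Smooth.ne_zero (hs : Smooth f) : f ≠ 0 := by
  rintro rfl
  have := congrFun (hs 1 (by simp) (by simp)) 0
  simp at this

variable {A : Type*} [Category A] [Abelian A] [HasDerivedCategory A] (π : Gr f ⥤ A) [π.Additive]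
  [PreservesFiniteLimits π] [PreservesFiniteColimits π] [π.IsLocalization (Tors f).isoModSerre]

theorem vanZ_of_hom (hf : f.IsHomogeneous 3) (hf0 : f ≠ 0) {b a : MF f}
    (h : ∀ (p : ℤ) (φ : (Φ π b)⟦p⟧ ⟶ Φ π a), φ = 0) : VanZ 0 b.ν b.D a.ν a.D := by
  intro n hn s φ hφ cφ
  obtain ⟨p, rfl⟩ := (ZMod.intCast_zmod_eq_zero_iff_dvd n 3).1 hn
  have hu : Hg wQ (b.tw p s).ν a.ν 0 φ := hφ.of_eq fun x y => by simp [MF.tw]
  have cu : Closed 1 (b.tw p s).D a.D φ :=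
    cφ.trans ((Matrix.mul_smul φ s b.D).symm.trans (one_smul _ _).symm)
  obtain ⟨e⟩ := Φ_tw π b p s
  obtain ⟨g, hg, eg⟩ := (Φ_faithful π hf hf0 hu cu).1 (by
    rw [← cancel_epi e.inv, comp_zero]
    exact h _ _)
  refine ⟨g, hg.of_eq fun x y => by simp [MF.tw]; ring, eg.trans ?_⟩
  exact congrArg (a.D * g + ·) ((one_smul _ _).trans (Matrix.mul_smul g s b.D))

theorem isZero_of_contr (hf : f.IsHomogeneous 3) (hf0 : f ≠ 0) {E : MF f} (h : E.Contr) :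
    IsZero (Φ π E) := by
  have := (Φ_faithful π hf hf0 Hg.one Closed.one).2 h
  rw [ΦcMap_one, CategoryTheory.Functor.map_id] at this
  exact (IsZero.iff_id_eq_zero _).2 this

theorem indecomposable_Ku [IsAlgClosed k] (h2 : (2 : k) ≠ 0) (h3 : (3 : k) ≠ 0)
    (hf : f.IsHomogeneous 3) (hs : Smooth f) : Indecomposable (Ku π) := by
  intro 𝒜 ℬ _ _ hA hB h0 hT
  have hf0 := hs.ne_zero
  have van : ∀ {b a : MF f}, ℬ.isoClosure (Φ π b) → 𝒜.isoClosure (Φ π a) →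
      VanZ 0 b.ν b.D a.ν a.D := by
    rintro b a hb ⟨A₀, hA₀, ⟨e⟩⟩
    refine vanZ_of_hom π hf hf0 fun p φ => ?_
    obtain ⟨B₀, hB₀, ⟨e'⟩⟩ := ℬ.isoClosure.le_shift p _ hb
    rw [← cancel_epi e'.inv, ← cancel_mono e.hom, comp_zero, zero_comp]
    exact h0 _ _ hA₀ hB₀ _
  rcases core h2 h3 hf hs (fun b => ℬ.isoClosure (Φ π b)) (fun E => by
    obtain ⟨B₀, A₀, u₀, v, w, hB₀, hA₀, hd⟩ := hT _ (ku_Φ π hf hf0 E)
    obtain ⟨b, ⟨e⟩⟩ := Φ_essSurj π hf hf0 (hB _ hB₀)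
    obtain ⟨u, hu, cu, eu⟩ := Φ_full π hf hf0 (e.hom ≫ u₀)
    refine ⟨b, ⟨B₀, hB₀, ⟨e⟩⟩, u, hu, cu, fun b' hb' => van (a := MF.cone u hu cu) hb' ?_⟩
    obtain ⟨c⟩ := Φc_cone u hu cu
    have hd' := π.mapDerivedCategory.map_distinguished _
      (DerivedCategory.mappingCone_triangle_distinguished (ΦcMap u hu cu))
    exact ⟨A₀, hA₀, ⟨((PD π).mapIso c).symm ≪≫ Triangle.π₃.mapIso
      (isoTriangleOfIso₁₂ _ _ hd' hd e (Iso.refl _) (by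
        change (PD π).map (ΦcMap u hu cu) ≫ 𝟙 _ = e.hom ≫ u₀
        rw [Category.comp_id, eu]))⟩⟩) with h | h
  · refine Or.inr fun B₀ hB₀ => ?_
    obtain ⟨b, ⟨e⟩⟩ := Φ_essSurj π hf hf0 (hB _ hB₀)
    exact (isZero_of_contr π hf hf0 (h b ⟨B₀, hB₀, ⟨e⟩⟩)).of_iso e.symm
  · refine Or.inl fun A₀ hA₀ => ?_
    obtain ⟨a, ⟨e⟩⟩ := Φ_essSurj π hf hf0 (hA _ hA₀)
    exact (isZero_of_contr π hf hf0 (h a fun b hb => van hb ⟨A₀, hA₀, ⟨e⟩⟩)).of_iso e.symm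

end Pool.Agent.Lib.MP_0ba2dd_ag
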