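import Pool.Agent.Lib.MP_0ba2dd_ag.H45QL

/-! Cokernels of maps of quasi-coherent sheaves. -/

namespace Pool.Agent.Lib.MP_0ba2dd_ag

open CategoryTheory Limits AlgebraicGeometry MvPolynomial Opposite

universe u

namespace CohA

/-- A right adjoint with invertible unit carries cokernels of maps between objects with
invertible counit to cokernels. -/
theorem adj_coker {C D : Type*} [Category C] [Category D] [HasZeroMorphisms C]
    [HasZeroMorphisms D] {L : C ⥤ D} {G : D ⥤ C} (adj : L ⊣ G) [L.PreservesZeroMorphisms]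
    [IsIso adj.unit] {A B : D} (φ : A ⟶ B) [IsIso (adj.counit.app A)] [IsIso (adj.counit.app B)]
    [HasCokernel (G.map φ)] (c : CokernelCofork φ) (hc : IsColimit c) :
    ∃ e : cokernel (G.map φ) ⟶ G.obj c.pt, IsIso e ∧ cokernel.π (G.map φ) ≫ e = G.map c.π := by
  have := adj.isLeftAdjoint
  have h1 : IsColimit ((CokernelCofork.ofπ (cokernel.π (G.map φ))
      (cokernel.condition _)).map L) :=
    CokernelCofork.mapIsColimit _ (cokernelIsCokernel (G.map φ)) L
  have hn : L.map (G.map φ) ≫ adj.counit.app B = adj.counit.app A ≫ φ := adj.counit.naturality φ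
  have h2 : IsColimit (CokernelCofork.ofπ (f := L.map (G.map φ)) (adj.counit.app B ≫ c.π)
      (by rw [← Category.assoc, hn, Category.assoc, c.condition, comp_zero])) :=
    IsCokernel.ofIso φ hc _ (asIso (adj.counit.app A)).symm (asIso (adj.counit.app B)).symm
      (Iso.refl _) (by simp [← cancel_epi (adj.counit.app A), ← reassoc_of% hn]) (by simp)
  let e : L.obj (cokernel (G.map φ)) ≅ c.pt := IsColimit.coconePointUniqueUpToIso h1 h2
  have he : L.map (cokernel.π (G.map φ)) ≫ e.hom = adj.counit.app B ≫ c.π :=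
    IsColimit.comp_coconePointUniqueUpToIso_hom h1 h2 WalkingParallelPair.one
  refine ⟨adj.unit.app (cokernel (G.map φ)) ≫ G.map e.hom, inferInstance, ?_⟩
  have h3 := adj.unit.naturality (cokernel.π (G.map φ))
  dsimp at h3
  rw [← Category.assoc, h3, Category.assoc, ← G.map_comp, he, G.map_comp,
    adj.right_triangle_components_assoc]

theorem mod_coker {R : Type u} [Ring R] {A B Z : ModuleCat.{u} R} (g : A ⟶ B) (p : B ⟶ Z)
    (e : cokernel g ⟶ Z) [IsIso e] (h : cokernel.π g ≫ e = p) :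
    Function.Surjective p ∧ ∀ s, p s = 0 → ∃ t, g t = s := by
  subst h
  refine ⟨(ModuleCat.epi_iff_surjective _).1 inferInstance, fun s hs => ?_⟩
  have h1 : cokernel.π g s = 0 := by
    apply (ModuleCat.mono_iff_injective e).1 inferInstance
    rw [map_zero]
    exact hs
  exact (ShortComplex.moduleCat_exact_iff _).1 (ShortComplex.exact_cokernel g) s h1

set_option backward.isDefEq.respectTransparency false in
theorem spec_coker {R : CommRingCat.{u}} {A B : (Spec R).Modules} [A.IsQuasicoherent]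
    [B.IsQuasicoherent] (φ : A ⟶ B) (c : CokernelCofork φ) (hc : IsColimit c) :
    Function.Surjective (c.π.app ⊤) ∧ ∀ s, c.π.app ⊤ s = 0 → ∃ t, φ.app ⊤ t = s := by
  have hA : IsIso ((tilde.adjunction (R := R)).counit.app A) :=
    Scheme.Modules.isIso_fromTildeΓ_of_isQuasicoherent A
  have hB : IsIso ((tilde.adjunction (R := R)).counit.app B) :=
    Scheme.Modules.isIso_fromTildeΓ_of_isQuasicoherent B
  obtain ⟨e, he, h⟩ := adj_coker (tilde.adjunction (R := R)) φ c hc
  have h' := mod_coker _ _ e h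
  exact h'

set_option backward.isDefEq.respectTransparency false in
theorem aff_coker {Y : Scheme.{u}} {F F' : Y.Modules} [F.IsQuasicoherent] [F'.IsQuasicoherent]
    (φ : F ⟶ F') {V : Y.Opens} (hV : IsAffineOpen V) :
    Function.Surjective ((cokernel.π φ).app V) ∧
      ∀ s, (cokernel.π φ).app V s = 0 → ∃ t, φ.app V t = s := by
  have h := spec_coker ((Scheme.Modules.restrictFunctor hV.fromSpec).map φ) _
    (CokernelCofork.mapIsColimit _ (cokernelIsCokernel φ)
      (Scheme.Modules.restrictFunctor hV.fromSpec))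
  have h' : Function.Surjective ((cokernel.π φ).app (hV.fromSpec ''ᵁ ⊤)) ∧
      ∀ s, (cokernel.π φ).app (hV.fromSpec ''ᵁ ⊤) s = 0 →
        ∃ t, φ.app (hV.fromSpec ''ᵁ ⊤) t = s := h
  rwa [Scheme.Hom.image_top_eq_opensRange, hV.opensRange_fromSpec] at h'

end CohA

variable {Y : Scheme.{u}} {F F' : Y.Modules} [F.IsQuasicoherent] [F'.IsQuasicoherent]
  (φ : F ⟶ F') {V : Y.Opens}

theorem coker_surj (hV : IsAffineOpen V) : Function.Surjective ((cokernel.π φ).app V) :=
  (CohA.aff_coker φ hV).1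

theorem coker_exact (hV : IsAffineOpen V) (s : Γ(F', V)) (h : (cokernel.π φ).app V s = 0) :
    ∃ t, φ.app V t = s :=
  (CohA.aff_coker φ hV).2 s h

theorem CohA.coker_ql (hV : IsAffineOpen V) : QL (cokernel φ) V := by
  intro r
  have hc : ∀ (U : Y.Opens) (t : Γ(F, U)), (cokernel.π φ).app U (φ.app U t) = 0 := fun U t =>
    congrArg (fun ψ : F ⟶ cokernel φ => ψ.app U t) (cokernel.condition φ)
  refine ⟨fun s => ?_, fun t ht => ?_⟩
  · obtain ⟨s', rfl⟩ := coker_surj φ (hV.basicOpen r) s
    obtain ⟨n, t, ht⟩ := (ql_of_qc F' hV r).1 s'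
    refine ⟨n, (cokernel.π φ).app V t, ?_⟩
    rw [← app_res, ht, Scheme.Modules.Hom.app_smul]
  · obtain ⟨t', rfl⟩ := coker_surj φ hV t
    rw [← app_res] at ht
    obtain ⟨u, hu⟩ := coker_exact φ (hV.basicOpen r) _ ht
    obtain ⟨n, u', hu'⟩ := (ql_of_qc F hV r).1 u
    obtain ⟨m, hm⟩ := (ql_of_qc F' hV r).2 (r ^ n • t' - φ.app V u') (by
      rw [map_sub, res_smul, ← app_res, hu', Scheme.Modules.Hom.app_smul, hu, map_pow, sub_self])
    refine ⟨m + n, ?_⟩
    rw [smul_sub, sub_eq_zero, smul_smul, ← pow_add] at hm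
    rw [← Scheme.Modules.Hom.app_smul, hm, Scheme.Modules.Hom.app_smul, hc, smul_zero]

theorem coker_qc : (cokernel φ).IsQuasicoherent :=
  qc_of_ql (cokernel φ) (fun U : Y.affineOpens => U.1) (iSup_affineOpens_eq_top Y)
    (fun U => U.2) fun U => CohA.coker_ql φ U.2

theorem surj_of_epi [Epi φ] (hV : IsAffineOpen V) : Function.Surjective (φ.app V) := fun s =>
  coker_exact φ hV s (by rw [cokernel.π_of_epi]; rfl)

end Pool.Agent.Lib.MP_0ba2dd_ag
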