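import Pool.Agent.Lib.MP_0ba2dd_ag.H45GrA

/-! The subquotient complexes of the unfolded complex of a matrix factorisation. -/

namespace Pool.Agent.Lib.MP_0ba2dd_ag

open CategoryTheory Limits MvPolynomial Pretriangulated

universe u

variable {k : Type u} [Field k] {f : Q k}

section GRep

variable {ι κ ρ : Type} [Fintype ι] [Fintype κ] [Fintype ρ] {n : ι → ℤ} {n' : κ → ℤ}
  {n'' : ρ → ℤ}

/-- Generators of internal degree at least one. -/
def Ge1 (n : ι → ℤ) : ι → Prop := fun a => 2 * 1 ≤ n a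

/-- The map of free modules on generators of internal degree at least one given by a matrix. -/
noncomputable abbrev geMap (M : Matrix κ ι (Q k)) (hM : Hg wQ n n' 0 M) :
    Fr f n (Ge1 n) ⟶ Fr f n' (Ge1 n') := frMap M hM _ _

/-- The map `φ` is given by the matrix `M`. -/
def GRep (φ : Fr f n (Ge1 n) ⟶ Fr f n' (Ge1 n')) (M : Matrix κ ι (Q k)) : Prop :=
  ∃ hM : Hg wQ n n' 0 M, φ = geMap M hM

variable {φ ψ : Fr f n (Ge1 n) ⟶ Fr f n' (Ge1 n')} {M N : Matrix κ ι (Q k)}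

omit [Fintype κ] in
theorem GRep.mk (hM : Hg wQ n n' 0 M) : GRep (geMap (f := f) M hM) M := ⟨hM, rfl⟩

omit [Fintype κ] in
theorem GRep.eq (h : GRep φ M) (h' : GRep ψ N) (e : M = N) : φ = ψ := by
  subst e
  exact h.2.trans h'.2.symm

omit [Fintype ρ] in
theorem GRep.comp (h : GRep φ M) {χ : Fr f n' (Ge1 n') ⟶ Fr f n'' (Ge1 n'')}
    {M' : Matrix ρ κ (Q k)} (h' : GRep χ M') : GRep (φ ≫ χ) (M' * M) := by
  obtain ⟨hM, rfl⟩ := h
  obtain ⟨hM', rfl⟩ := h'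
  refine ⟨_, frMap_comp' hM hM' fun a b c ha _ hb => ?_⟩
  rw [IsWH.eq_zero_of_neg N0 N0_wQ (hM' a b) (by
    simp only [N0_apply, Ge1] at ha hb ⊢; omega), zero_mul]

omit [Fintype κ] in
theorem GRep.add (h : GRep φ M) (h' : GRep ψ N) : GRep (φ + ψ) (M + N) := by
  obtain ⟨hM, rfl⟩ := h
  obtain ⟨hN, rfl⟩ := h'
  exact ⟨_, (frMap_add hM hN).symm⟩

omit [Fintype κ] in
theorem GRep.neg (h : GRep φ M) : GRep (-φ) (-M) := by
  obtain ⟨hM, rfl⟩ := h
  exact ⟨_, (frMap_neg hM).symm⟩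

omit [Fintype κ] in
theorem GRep.sub (h : GRep φ M) (h' : GRep ψ N) : GRep (φ - ψ) (M - N) := by
  rw [sub_eq_add_neg, sub_eq_add_neg]
  exact h.add h'.neg

omit [Fintype κ] in
theorem GRep.smul (h : GRep φ M) (s : ℤˣ) : GRep (s • φ) (s • M) := by
  rcases Int.units_eq_one_or s with rfl | rfl
  · simpa using h
  · simpa using h.neg

omit [Fintype κ] in
theorem GRep.zero : GRep (0 : Fr f n (Ge1 n) ⟶ Fr f n' (Ge1 n')) 0 := ⟨_, frMap_zero.symm⟩

theorem GRep.one [DecidableEq ι] : GRep (𝟙 (Fr f n (Ge1 n))) 1 := ⟨_, frMap_one.symm⟩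

theorem GRep.d (E : MF f) {p q : ℤ} (h : p + 1 = q) :
    GRep (n := colν E.ν p) (n' := colν E.ν q) ((Φc E).d p q) E.D := ⟨_, Cx_d _ _ _ h⟩

end GRep

theorem Φc_comm {E F : MF f} {u : Matrix F.ι E.ι (Q k)} (hu : Hg wQ E.ν F.ν 0 u)
    (cu : Closed 1 E.D F.D u) (p q : ℤ) (h : p + 1 = q) :
    frMap (f := f) u (hg_col hu (add_zero _)) (GEi E 1 p) (GEi F 1 p) ≫
        frMap F.D (F.hg_col h) (GEi F 1 p) (GEi F 1 q) =
      frMap E.D (E.hg_col h) (GEi E 1 p) (GEi E 1 q) ≫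
        frMap u (hg_col hu (add_zero _)) (GEi E 1 q) (GEi F 1 q) :=
  ((GRep.mk _).comp (GRep.mk _)).eq ((GRep.mk _).comp (GRep.mk _)) (by simpa [Closed] using cu)

/-- Orlov's functor on morphisms, at the level of complexes. -/
noncomputable def ΦcMap {E F : MF f} (u : Matrix F.ι E.ι (Q k)) (hu : Hg wQ E.ν F.ν 0 u)
    (cu : Closed 1 E.D F.D u) : Φc E ⟶ Φc F :=
  cxMap u hu (Φc_comm hu cu)

theorem ΦcMap_f {E F : MF f} (u : Matrix F.ι E.ι (Q k)) (hu : Hg wQ E.ν F.ν 0 u)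
    (cu : Closed 1 E.D F.D u) (p : ℤ) :
    (ΦcMap u hu cu).f p = frMap u (hg_col hu (add_zero _)) (GEi E 1 p) (GEi F 1 p) := rfl

theorem GRep.map {E F : MF f} {u : Matrix F.ι E.ι (Q k)} (hu : Hg wQ E.ν F.ν 0 u)
    (cu : Closed 1 E.D F.D u) (p : ℤ) :
    GRep (n := colν E.ν p) (n' := colν F.ν p) ((ΦcMap u hu cu).f p) u := ⟨_, rfl⟩

theorem ΦcMap_mul {E F H : MF f} {u : Matrix F.ι E.ι (Q k)} (hu : Hg wQ E.ν F.ν 0 u)
    (cu : Closed 1 E.D F.D u) {v : Matrix H.ι F.ι (Q k)} (hv : Hg wQ F.ν H.ν 0 v)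
    (cv : Closed 1 F.D H.D v) (cw : Closed 1 E.D H.D (v * u)) :
    ΦcMap (v * u) (hv.mul hu (add_zero _)) cw = ΦcMap u hu cu ≫ ΦcMap v hv cv :=
  HomologicalComplex.hom_ext _ _ fun p =>
    (GRep.map _ cw p).eq ((GRep.map hu cu p).comp (GRep.map hv cv p)) rfl

theorem ΦcMap_one (E : MF f) : ΦcMap (1 : Matrix E.ι E.ι (Q k)) Hg.one Closed.one = 𝟙 _ :=
  HomologicalComplex.hom_ext _ _ fun p => (GRep.map _ _ p).eq GRep.one rfl

theorem ΦcMap_sub {E F : MF f} {u v : Matrix F.ι E.ι (Q k)} (hu : Hg wQ E.ν F.ν 0 u)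
    (cu : Closed 1 E.D F.D u) (hv : Hg wQ E.ν F.ν 0 v) (cv : Closed 1 E.D F.D v) :
    ΦcMap (u - v) (hu.sub hv) (cu.sub cv) = ΦcMap u hu cu - ΦcMap v hv cv :=
  HomologicalComplex.hom_ext _ _ fun p =>
    (GRep.map _ _ p).eq ((GRep.map hu cu p).sub (GRep.map hv cv p)) rfl

theorem homotopy_of_exact {E F : MF f} {u : Matrix F.ι E.ι (Q k)} (hu : Hg wQ E.ν F.ν 0 u)
    (cu : Closed 1 E.D F.D u) (h : Exact wQ 3 0 E.ν E.D F.ν F.D 1 u) :
    Nonempty (Homotopy (ΦcMap u hu cu) 0) := by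
  obtain ⟨a, ha, e⟩ := h
  let H : ∀ {p q}, q + 1 = p → ((Φc E).X p ⟶ (Φc F).X q) := fun h =>
    geMap a (hg_col ha (by omega))
  refine ⟨⟨fun p q => if h : q + 1 = p then H h else 0, fun p q h => dif_neg h, fun p => ?_⟩⟩
  rw [dNext_eq _ (show (ComplexShape.up ℤ).Rel p (p + 1) from rfl),
    prevD_eq _ (show (ComplexShape.up ℤ).Rel (p - 1) p from sub_add_cancel p 1), dif_pos rfl,
    dif_pos (sub_add_cancel p 1)]
  exact (GRep.map hu cu p).eq ((((GRep.d E rfl).comp (GRep.mk _)).add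
    ((GRep.mk _).comp (GRep.d F (sub_add_cancel p 1)))).add GRep.zero) (by simp [e, add_comm])

theorem Φc_tw (E : MF f) (p : ℤ) (s : ℤˣ) : Nonempty (Φc (E.tw p s) ≅ (Φc E)⟦-p⟧) := by
  have h1 : ∀ q, Hg wQ (colν (E.tw p s).ν q) (colν E.ν (q + -p)) 0 (1 : Matrix E.ι E.ι (Q k)) :=
    fun q => (Hg.one (ν := E.ν)).of_eq fun a b => by simp only [colν, MF.tw]; ring
  have h2 : ∀ q, Hg wQ (colν E.ν (q + -p)) (colν (E.tw p s).ν q) 0 (1 : Matrix E.ι E.ι (Q k)) :=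
    fun q => (Hg.one (ν := E.ν)).of_eq fun a b => by simp only [colν, MF.tw]; ring
  let e : ∀ q, (Φc (E.tw p s)).X q ≅ ((Φc E)⟦-p⟧).X q := fun q =>
    { hom := geMap _ (h1 q)
      inv := geMap _ (h2 q)
      hom_inv_id := ((GRep.mk _).comp (GRep.mk _)).eq GRep.one (mul_one _)
      inv_hom_id := ((GRep.mk _).comp (GRep.mk _)).eq GRep.one (mul_one _) }
  refine ⟨HomologicalComplex.Hom.isoOfComponents
    (fun q => (s * (-p).negOnePow) ^ q • e q) fun q r h => ?_⟩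
  obtain rfl : q + 1 = r := h
  refine ((((GRep.mk (h1 q)).smul _).comp ((GRep.d E (by ring)).smul _)).eq
    ((GRep.d (E.tw p s) rfl).comp ((GRep.mk (h1 (q + 1))).smul _))) ?_
  change ((-p).negOnePow • E.D) * ((s * (-p).negOnePow) ^ q • (1 : Matrix E.ι E.ι (Q k))) =
    ((s * (-p).negOnePow) ^ (q + 1) • (1 : Matrix E.ι E.ι (Q k))) * (s • E.D)
  rw [Matrix.mul_smul, Matrix.smul_mul, Matrix.smul_mul, Matrix.mul_one, Matrix.one_mul,
    smul_smul, smul_smul, zpow_add_one, mul_assoc, mul_right_comm s, Int.units_mul_self, one_mul]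

section Blocks

open Matrix

variable {ι κ R : Type*} [Fintype ι] [Fintype κ] [DecidableEq ι] [DecidableEq κ] [CommRing R]

omit [DecidableEq κ] in
theorem cblk1 : fromCols (0 : Matrix ι κ R) (1 : Matrix ι ι R) *
    fromRows (0 : Matrix κ ι R) (1 : Matrix ι ι R) = 1 := by
  simp [fromCols_mul_fromRows]

theorem cblk2 : fromCols (1 : Matrix κ κ R) (0 : Matrix κ ι R) *
    fromRows (0 : Matrix κ ι R) (1 : Matrix ι ι R) = 0 := by
  simp [fromCols_mul_fromRows]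

theorem cblk3 : fromCols (0 : Matrix ι κ R) (1 : Matrix ι ι R) *
    fromRows (1 : Matrix κ κ R) (0 : Matrix ι κ R) = 0 := by
  simp [fromCols_mul_fromRows]

omit [DecidableEq ι] in
theorem cblk4 : fromCols (1 : Matrix κ κ R) (0 : Matrix κ ι R) *
    fromRows (1 : Matrix κ κ R) (0 : Matrix ι κ R) = 1 := by
  simp [fromCols_mul_fromRows]

theorem cblk5 : fromRows (0 : Matrix κ ι R) 1 * fromCols (0 : Matrix ι κ R) 1 +
    fromRows 1 (0 : Matrix ι κ R) * fromCols 1 (0 : Matrix κ ι R) = 1 := by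
  rw [fromRows_mul_fromCols, fromRows_mul_fromCols, fromBlocks_add]
  simp

theorem cblk6 (D : Matrix ι ι R) (D' : Matrix κ κ R) (u : Matrix κ ι R) :
    coneD D D' u * fromRows (0 : Matrix κ ι R) 1 =
      fromRows 1 (0 : Matrix ι κ R) * u - fromRows (0 : Matrix κ ι R) 1 * D := by
  simp only [coneD, fromBlocks_mul_fromRows, fromRows_mul]
  ext (a | a) b <;> simp

omit [DecidableEq ι] in
theorem cblk7 (D : Matrix ι ι R) (D' : Matrix κ κ R) (u : Matrix κ ι R) :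
    coneD D D' u * fromRows 1 (0 : Matrix ι κ R) = fromRows 1 (0 : Matrix ι κ R) * D' := by
  simp [coneD, fromBlocks_mul_fromRows, fromRows_mul]

end Blocks

open CochainComplex.mappingCone in
theorem Φc_cone {E F : MF f} (u : Matrix F.ι E.ι (Q k)) (hu : Hg wQ E.ν F.ν 0 u)
    (cu : Closed 1 E.D F.D u) :
    Nonempty (CochainComplex.mappingCone (ΦcMap u hu cu) ≅ Φc (MF.cone u hu cu)) := by
  let C := MF.cone u hu cu
  have jE : ∀ {p q}, p + 1 = q → Hg wQ (colν E.ν q) (colν C.ν p) 0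
      (Matrix.fromRows (0 : Matrix F.ι E.ι (Q k)) 1) := fun {p q} h =>
    (Hg.fromRows (ν := colν E.ν q) (μ := colν F.ν p) Hg.zero Hg.one).of_eq (by
      rintro (a | a) b
      all_goals simp only [C, MF.cone, coneν, colν, Sum.elim_inl, Sum.elim_inr]
      omega)
  have jF : ∀ p, Hg wQ (colν F.ν p) (colν C.ν p) 0
      (Matrix.fromRows 1 (0 : Matrix E.ι F.ι (Q k))) := fun p =>
    (Hg.fromRows (ν := colν F.ν p) (μ' := colν E.ν (p + 1)) Hg.one Hg.zero).of_eq (by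
      rintro (a | a) b
      all_goals simp only [C, MF.cone, coneν, colν, Sum.elim_inl, Sum.elim_inr]
      omega)
  have qE : ∀ {p q}, p + 1 = q → Hg wQ (colν C.ν p) (colν E.ν q) 0
      (Matrix.fromCols (0 : Matrix E.ι F.ι (Q k)) 1) := fun {p q} h =>
    (Hg.fromCols (ν := colν F.ν p) (μ := colν E.ν q) Hg.zero Hg.one).of_eq (by
      rintro a (b | b)
      all_goals simp only [C, MF.cone, coneν, colν, Sum.elim_inl, Sum.elim_inr]
      omega)
  have qF : ∀ p, Hg wQ (colν C.ν p) (colν F.ν p) 0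
      (Matrix.fromCols 1 (0 : Matrix F.ι E.ι (Q k))) := fun p =>
    (Hg.fromCols (ν' := colν E.ν (p + 1)) (μ := colν F.ν p) Hg.one Hg.zero).of_eq (by
      rintro a (b | b)
      all_goals simp only [C, MF.cone, coneν, colν, Sum.elim_inl, Sum.elim_inr]
      omega)
  let JE : ∀ {p q}, p + 1 = q → ((Φc E).X q ⟶ (Φc C).X p) := fun h => geMap _ (jE h)
  let JF : ∀ p, (Φc F).X p ⟶ (Φc C).X p := fun p => geMap _ (jF p)
  let QE : ∀ {p q}, p + 1 = q → ((Φc C).X p ⟶ (Φc E).X q) := fun h => geMap _ (qE h)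
  let QF : ∀ p, (Φc C).X p ⟶ (Φc F).X p := fun p => geMap _ (qF p)
  have a1 : ∀ p, JE (p := p) rfl ≫ QE rfl = 𝟙 _ := fun p =>
    ((GRep.mk _).comp (GRep.mk _)).eq GRep.one cblk1
  have a2 : ∀ p, JE (p := p) rfl ≫ QF p = 0 := fun p =>
    ((GRep.mk _).comp (GRep.mk _)).eq GRep.zero cblk2
  have a3 : ∀ p, JF p ≫ QE (p := p) rfl = 0 := fun p =>
    ((GRep.mk _).comp (GRep.mk _)).eq GRep.zero cblk3
  have a4 : ∀ p, JF p ≫ QF p = 𝟙 _ := fun p =>
    ((GRep.mk _).comp (GRep.mk _)).eq GRep.one cblk4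
  have a5 : ∀ p, QE (p := p) rfl ≫ JE rfl + QF p ≫ JF p = 𝟙 _ := fun p =>
    (((GRep.mk _).comp (GRep.mk _)).add ((GRep.mk _).comp (GRep.mk _))).eq GRep.one cblk5
  have a6 : ∀ p, JE (p := p) rfl ≫ (Φc C).d p (p + 1) =
      (ΦcMap u hu cu).f (p + 1) ≫ JF (p + 1) - (Φc E).d (p + 1) (p + 1 + 1) ≫ JE rfl := fun p =>
    ((GRep.mk _).comp (GRep.d C rfl)).eq (((GRep.map hu cu _).comp (GRep.mk _)).sub
      ((GRep.d E rfl).comp (GRep.mk _))) (cblk6 _ _ _)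
  have a7 : ∀ p, JF p ≫ (Φc C).d p (p + 1) = (Φc F).d p (p + 1) ≫ JF (p + 1) := fun p =>
    ((GRep.mk _).comp (GRep.d C rfl)).eq ((GRep.d F rfl).comp (GRep.mk _)) (cblk7 _ _ _)
  change Nonempty (_ ≅ Φc C)
  clear_value JE JF QE QF
  refine ⟨HomologicalComplex.Hom.isoOfComponents (fun p =>
    { hom := (fst _).1.v p (p + 1) rfl ≫ JE rfl + (snd _).v p p (add_zero p) ≫ JF p
      inv := QE rfl ≫ (inl _).v (p + 1) p (by omega) + QF p ≫ (inr _).f p
      hom_inv_id := ?_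
      inv_hom_id := ?_ }) fun p q h => ?_⟩
  · simp [reassoc_of% a1, reassoc_of% a2, reassoc_of% a3, reassoc_of% a4, id_X]
  · simp [a5]
  · obtain rfl : p + 1 = q := h
    refine ext_from _ (p + 1) p rfl ?_ ?_
    · simp [a6, inl_v_d_assoc _ (p + 1) p (p + 1 + 1) (by omega) (by omega), sub_eq_neg_add]
    · simp [a7]

end Pool.Agent.Lib.MP_0ba2dd_ag
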