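import Pool.Agent.Lib.MP_0ba2dd_ag.H45GrA

/-! The subquotient complexes of the unfolded complex of a matrix factorisation. -/

namespace Pool.Agent.Lib.MP_0ba2dd_ag

open CategoryTheory Limits MvPolynomial Pretriangulated

universe u

variable {k : Type u} [Field k] {f : Q k}

section Aux

variable {ι : Type} {n : ι → ℤ} {U U' : ι → Prop}

theorem cxa_entry_zero {j : ℤ} (v : FrSub f n U j) {a : ι} (h : ¬ (U a ∧ Even (n a))) :
    v.1 a = 0 := by
  by_cases hU : U a
  · obtain ⟨q, hq, e⟩ := (v.2 a).1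
    have ho : Odd (n a) := Int.not_even_iff_odd.1 fun h' => h ⟨hU, h'⟩
    have : q = 0 := IsWH.eq_zero_of_odd N0 N0_wQ hq (by
      obtain ⟨r, hr⟩ := ho
      exact ⟨j - r - 1, by simp only [N0_apply]; omega⟩)
    rw [← e, this, map_zero]
  · exact (v.2 a).2 hU

open Classical in
theorem cxa_one_apply [Fintype ι] [DecidableEq ι] (h1 : Hg wQ n n 0 (1 : Matrix ι ι (Q k)))
    (j : Deg k) (v : FrSub f n U j.n) (a : ι) :
    ((frMap (f := f) 1 h1 U U').hom.app j v).1 a = if U' a then v.1 a else 0 := by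
  rw [frMap_apply]
  split_ifs
  · rw [Finset.sum_eq_single a (fun b _ hb => by simp [Matrix.one_apply_ne (Ne.symm hb)])
      (fun h => absurd (Finset.mem_univ a) h)]
    simp
  · rfl

theorem cxa_isZero (h : ∀ a, U a → Odd (n a)) : IsZero (Fr f n U) :=
  (Gr.isZero_iff _).2 fun j => Fr_subsingleton j fun a ha => Or.inr (h a ha)

end Aux

theorem cxa_one_comm (E : MF f) {P P' : ℤ → E.ι → Prop}
    (hA : ∀ p a b, P' (p + 1) a → P p b → Even (E.ν b - 3 * p) → ¬ P' p b → E.D a b = 0)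
    (hB : ∀ p a b, P' (p + 1) a → P p b → Even (E.ν b - 3 * p) → ¬ P (p + 1) a → E.D a b = 0)
    (p q : ℤ) (h : p + 1 = q) :
    frMap (f := f) (1 : Matrix E.ι E.ι (Q k)) (hg_col (Hg.one (ν := E.ν)) (add_zero _))
        (P p) (P' p) ≫ frMap E.D (E.hg_col h) (P' p) (P' q) =
      frMap E.D (E.hg_col h) (P p) (P q) ≫
        frMap (1 : Matrix E.ι E.ι (Q k)) (hg_col (Hg.one (ν := E.ν)) (add_zero _))
          (P q) (P' q) := by
  classical
  obtain rfl := h
  refine Fr.hom_ext (fun j v a => ?_)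
  have e1 := frMap_apply (f := f) E.D (E.hg_col (p := p) rfl) (P' p) (P' (p + 1)) j
    ((frMap (f := f) (1 : Matrix E.ι E.ι (Q k)) (hg_col (Hg.one (ν := E.ν)) (add_zero _))
      (P p) (P' p)).hom.app j v) a
  have e2 := cxa_one_apply (f := f) (U := P (p + 1)) (U' := P' (p + 1))
    (hg_col (Hg.one (ν := E.ν)) (add_zero _)) j
    ((frMap (f := f) E.D (E.hg_col (p := p) rfl) (P p) (P (p + 1))).hom.app j v) a
  refine e1.trans (Eq.trans ?_ e2.symm)
  split_ifs with ha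
  · rw [frMap_apply]
    have z : ∀ b, ¬ (P p b ∧ Even (E.ν b - 3 * p)) → (v : FrSub f _ (P p) j.n).1 b = 0 :=
      fun b hb => cxa_entry_zero (n := colν E.ν p) v hb
    have e3 : ∀ b, mkR f (E.D a b) * ((frMap (f := f) (1 : Matrix E.ι E.ι (Q k))
        (hg_col (Hg.one (ν := E.ν)) (add_zero _)) (P p) (P' p)).hom.app j v).1 b =
        mkR f (E.D a b) * (v : FrSub f _ (P p) j.n).1 b := by
      intro b
      rw [cxa_one_apply]
      split_ifs with hb
      · rfl
      · by_cases hb' : P p b ∧ Even (E.ν b - 3 * p)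
        · rw [hA p a b ha hb'.1 hb'.2 hb, map_zero, zero_mul, zero_mul]
        · rw [z b hb']
    rw [Finset.sum_congr rfl fun b _ => e3 b]
    split_ifs with ha'
    · rfl
    · refine Finset.sum_eq_zero fun b _ => ?_
      by_cases hb' : P p b ∧ Even (E.ν b - 3 * p)
      · rw [hB p a b ha hb'.1 hb'.2 ha', map_zero, zero_mul]
      · rw [z b hb', mul_zero]
  · rfl

theorem cx_ses (E : MF f) {P₁ P₂ P₃ U : ℤ → E.ι → Prop} (c₁ : Cvx E P₁) (c₂ : Cvx E P₂)
    (c₃ : Cvx E P₃) (hU : Up E U) (h₁ : ∀ p a, P₁ p a ↔ P₂ p a ∧ U p a)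
    (h₃ : ∀ p a, P₃ p a ↔ P₂ p a ∧ ¬ U p a) :
    ∃ (i : Cx E P₁ c₁ ⟶ Cx E P₂ c₂) (q : Cx E P₂ c₂ ⟶ Cx E P₃ c₃) (w : i ≫ q = 0),
      (ShortComplex.mk i q w).ShortExact := by
  let i : Cx E P₁ c₁ ⟶ Cx E P₂ c₂ := cxMap 1 Hg.one (cxa_one_comm E
    (fun p a b _ hb _ hb' => absurd ((h₁ p b).1 hb).1 hb')
    (fun p a b ha hb _ ha' => by
      by_contra h0
      exact ha' ((h₁ _ a).2 ⟨ha, hU p a b ((h₁ p b).1 hb).2 h0⟩)))
  let q : Cx E P₂ c₂ ⟶ Cx E P₃ c₃ := cxMap 1 Hg.one (cxa_one_comm E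
    (fun p a b ha hb _ hb' => by
      by_contra h0
      refine ((h₃ _ a).1 ha).2 (hU p a b ?_ h0)
      by_contra hu
      exact hb' ((h₃ p b).2 ⟨hb, hu⟩))
    (fun p a b ha _ _ ha' => absurd ((h₃ _ a).1 ha).1 ha'))
  have key := fun p => Fr_ses (f := f) (n := colν E.ν p) (P₁ p) (P₂ p) (P₃ p) (U p) (h₁ p) (h₃ p)
  refine ⟨i, q, HomologicalComplex.hom_ext _ _ fun p => (key p).1, ?_⟩
  exact HomologicalComplex.shortExact_of_degreewise_shortExact _ fun p => (key p).2

theorem cx_exactAt (hf0 : f ≠ 0) (E : MF f) {P : ℤ → E.ι → Prop} (c : Cvx E P) (q : ℤ)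
    (h : ∀ p a, q - 1 ≤ p → p ≤ q + 1 → P p a) : (Cx E P c).ExactAt q := by
  classical
  have hp : q - 1 + 1 = q := by ring
  rw [Gr.exactAt_iff _ hp rfl]
  intro j y hy
  rw [Cx_d _ _ _ rfl] at hy
  rw [Cx_d _ _ _ hp]
  choose yt hyt e using fun a => ((y : FrSub f (colν E.ν q) (P q) j.n).2 a).1
  have e' : ∀ a, mkR f (yt a) = (y : FrSub f (colν E.ν q) (P q) j.n).1 a := e
  have h1 : ∀ a, ∃ w, (E.D.mulVec yt) a = f * w := by
    intro a
    have h2 := frMap_apply (f := f) E.D (E.hg_col (p := q) rfl) (P q) (P (q + 1)) j y a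
    rw [if_pos (h _ a (by omega) le_rfl)] at h2
    have h3 : mkR f ((E.D.mulVec yt) a) = 0 := by
      rw [Matrix.mulVec, dotProduct, map_sum]
      simp only [map_mul, e']
      rw [← h2]
      exact congrArg (fun z : FrSub f (colν E.ν (q + 1)) (P (q + 1)) j.n => z.1 a) hy
    exact Ideal.mem_span_singleton.1 (Ideal.Quotient.eq_zero_iff_mem.1 h3)
  choose w hw using h1
  have h4 : yt = E.D.mulVec w := by
    have h5 : E.D.mulVec yt = f • w := funext hw
    have h6 := congrArg E.D.mulVec h5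
    rw [Matrix.mulVec_mulVec, E.isMF.2, Matrix.smul_mulVec, Matrix.one_mulVec,
      Matrix.mulVec_smul] at h6
    funext a
    exact mul_left_cancel₀ hf0 (congrFun h6 a)
  refine ⟨(⟨fun b => mkR f (weightedHomogeneousComponent wQ (2 * j.n - colν E.ν (q - 1) b) (w b)),
    fun b => ⟨⟨_, weightedHomogeneousComponent_isWeightedHomogeneous _ _, rfl⟩,
      fun hb => absurd (h _ b le_rfl (by omega)) hb⟩⟩ : FrSub f (colν E.ν (q - 1)) (P (q - 1)) j.n),
    Subtype.ext (funext fun a => ?_)⟩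
  refine (frMap_apply (f := f) E.D (E.hg_col hp) (P (q - 1)) (P q) j _ a).trans ?_
  rw [if_pos (h _ a (by omega) (by omega))]
  refine Eq.trans ?_ (e' a)
  have h7 : yt a = ∑ b, E.D a b *
      weightedHomogeneousComponent wQ (2 * j.n - colν E.ν (q - 1) b) (w b) := by
    have h8 : IsWeightedHomogeneous wQ (yt a) (2 * j.n - colν E.ν q a) := hyt a
    rw [← h8.weightedHomogeneousComponent_same, h4, Matrix.mulVec, dotProduct, map_sum]
    refine Finset.sum_congr rfl fun b _ => ?_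
    rw [← comp_mul_left (E.hg_col hp a b)]
    congr 2
    ring
  rw [h7, map_sum]
  simp only [map_mul]

theorem cxa_odd_entry (E : MF f) {p : ℤ} {a b : E.ι} (hb : Even (E.ν b - 3 * p))
    (ha : ¬ Even (E.ν a - 3 * (p + 1))) : E.D a b = 0 := by
  refine IsWH.eq_zero_of_odd N0 N0_wQ (E.isMF.1 a b) ?_
  obtain ⟨r, hr⟩ := hb
  obtain ⟨s, hs⟩ := Int.not_even_iff_odd.1 ha
  exact ⟨r - s - 1, by simp only [N0_apply]; omega⟩

theorem cx_iso_of_iff (E : MF f) {P P' : ℤ → E.ι → Prop} (c : Cvx E P) (c' : Cvx E P')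
    (h : ∀ p a, Even (E.ν a - 3 * p) → (P p a ↔ P' p a)) : Nonempty (Cx E P c ≅ Cx E P' c') := by
  classical
  let φ : Cx E P c ⟶ Cx E P' c' := cxMap 1 Hg.one (cxa_one_comm E
    (fun p a b _ hb he hb' => absurd ((h p b he).1 hb) hb')
    (fun p a b ha _ he ha' => cxa_odd_entry E he fun h0 => ha' ((h _ a h0).2 ha)))
  have : ∀ p, IsIso (φ.f p) := by
    intro p
    refine Gr.isIso_of_bij _ fun j => ⟨(injective_iff_map_eq_zero _).2 fun v hv => ?_, fun v => ?_⟩
    · refine Subtype.ext (funext fun a => ?_)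
      by_cases ha : P p a ∧ Even (E.ν a - 3 * p)
      · have h1 := cxa_one_apply (f := f) (U := P p) (U' := P' p)
          (hg_col (Hg.one (ν := E.ν)) (add_zero _)) j v a
        rw [if_pos ((h p a ha.2).1 ha.1)] at h1
        exact h1.symm.trans
          (congrArg (fun z : FrSub f (colν E.ν p) (P' p) j.n => z.1 a) hv)
      · exact cxa_entry_zero (n := colν E.ν p) v ha
    · refine ⟨(⟨(v : FrSub f (colν E.ν p) (P' p) j.n).1, fun a =>
        ⟨((v : FrSub f (colν E.ν p) (P' p) j.n).2 a).1, fun ha =>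
          cxa_entry_zero (n := colν E.ν p) v fun h' => ha ((h p a h'.2).2 h'.1)⟩⟩ :
          FrSub f (colν E.ν p) (P p) j.n), Subtype.ext (funext fun a => ?_)⟩
      refine (cxa_one_apply (f := f) (U := P p) (U' := P' p)
        (hg_col (Hg.one (ν := E.ν)) (add_zero _)) j _ a).trans ?_
      split_ifs with ha
      · rfl
      · exact (((v : FrSub f (colν E.ν p) (P' p) j.n).2 a).2 ha).symm
  have := HomologicalComplex.Hom.isIso_of_components φ
  exact ⟨asIso φ⟩

theorem cx_single (E : MF f) {P : ℤ → E.ι → Prop} (c : Cvx E P) (q : ℤ)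
    (h : ∀ p a, P p a → Even (E.ν a - 3 * p) → p = q) :
    Nonempty (Cx E P c ≅ (CochainComplex.singleFunctor (Gr f) q).obj (Fr f (colν E.ν q) (P q))) := by
  have hz : ∀ p, p ≠ q → IsZero ((Cx E P c).X p) := fun p hp =>
    cxa_isZero fun a ha => Int.not_even_iff_odd.1 fun he => hp (h p a ha he)
  let φ : Cx E P c ⟶ (HomologicalComplex.single (Gr f) (ComplexShape.up ℤ) q).obj
      (Fr f (colν E.ν q) (P q)) :=
    HomologicalComplex.mkHomToSingle (K := Cx E P c) (𝟙 _) fun i hi =>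
      (hz i (by have : i + 1 = q := hi; omega)).eq_of_src _ _
  have : ∀ p, IsIso (φ.f p) := by
    intro p
    by_cases hp : p = q
    · subst hp
      rw [HomologicalComplex.mkHomToSingle_f]
      exact (Iso.refl (Fr f (colν E.ν p) (P p)) ≪≫
        (HomologicalComplex.singleObjXSelf (ComplexShape.up ℤ) p _).symm).isIso_hom
    · exact (hz p hp).isIso (HomologicalComplex.isZero_single_obj_X _ _ _ _ hp) _
  have hφ := HomologicalComplex.Hom.isIso_of_components φ
  exact ⟨@asIso _ _ _ _ φ hφ⟩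

theorem cx_isZero (E : MF f) {P : ℤ → E.ι → Prop} (c : Cvx E P)
    (h : ∀ p a, P p a → Odd (E.ν a - 3 * p)) : IsZero (Cx E P c) := by
  rw [IsZero.iff_id_eq_zero]
  exact HomologicalComplex.hom_ext _ _ fun p =>
    (cxa_isZero (f := f) (n := colν E.ν p) (h p)).eq_of_src _ _

theorem cxa_res_aux (E : MF f) {M : Gr f}
    (φ : Fr f (colν E.ν 0) (fun _ => True) ⟶ M) [Epi φ]
    (w : frMap E.D (E.hg_col (p := -1) (q := 0) rfl) (fun _ => True) (fun _ => True) ≫ φ = 0)
    (hex : (ShortComplex.mk _ _ w).Exact) (U₀ U₁ : E.ι → Prop) (h₀ : ∀ a, U₀ a) (h₁ : ∀ a, U₁ a) :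
    ∃ (φ' : Fr f (colν E.ν 0) U₀ ⟶ M)
      (w' : frMap E.D (E.hg_col (p := -1) (q := 0) rfl) U₁ U₀ ≫ φ' = 0),
      Epi φ' ∧ (ShortComplex.mk _ _ w').Exact := by
  obtain rfl : U₀ = fun _ => True := funext fun a => eq_true (h₀ a)
  obtain rfl : U₁ = fun _ => True := funext fun a => eq_true (h₁ a)
  exact ⟨φ, w, inferInstance, hex⟩

/-- The left half of the unfolded complex resolves the cokernel. -/
theorem cx_res (hf0 : f ≠ 0) (E : MF f) (c : Cvx E (fun p _ => p ≤ 0)) {M : Gr f}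
    (φ : Fr f (colν E.ν 0) (fun _ => True) ⟶ M) [Epi φ]
    (w : frMap E.D (E.hg_col (p := -1) (q := 0) rfl) (fun _ => True) (fun _ => True) ≫ φ = 0)
    (hex : (ShortComplex.mk _ _ w).Exact) :
    Nonempty (DerivedCategory.Q.obj (Cx E (fun p _ => p ≤ 0) c) ≅
      (DerivedCategory.singleFunctor (Gr f) 0).obj M) := by
  obtain ⟨φ', w', hepi, hex'⟩ := cxa_res_aux E φ w hex (fun _ => (0 : ℤ) ≤ 0)
    (fun _ => (-1 : ℤ) ≤ 0) (fun _ => le_rfl) (fun _ => by omega)
  have hd : (Cx E (fun p _ => p ≤ 0) c).d (-1) 0 = frMap E.D (E.hg_col (p := -1) (q := 0) rfl)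
      (fun _ => (-1 : ℤ) ≤ 0) (fun _ => (0 : ℤ) ≤ 0) := Cx_d _ _ _ rfl
  have hz : ∀ p, 0 < p → IsZero ((Cx E (fun p _ => p ≤ 0) c).X p) := fun p hp =>
    cxa_isZero fun a (ha : p ≤ 0) => absurd ha (by omega)
  have hφ : ∀ i, (ComplexShape.up ℤ).Rel i 0 → (Cx E (fun p _ => p ≤ 0) c).d i 0 ≫ φ' = 0 := by
    intro i hi
    obtain rfl : i = -1 := by have : i + 1 = 0 := hi; omega
    rw [hd]
    exact w'
  let ψ : Cx E (fun p _ => p ≤ 0) c ⟶
      (HomologicalComplex.single (Gr f) (ComplexShape.up ℤ) 0).obj M :=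
    HomologicalComplex.mkHomToSingle (K := Cx E (fun p _ => p ≤ 0) c) φ' hφ
  have hψ : ψ.f 0 = φ' ≫ (HomologicalComplex.singleObjXSelf (ComplexShape.up ℤ) 0 M).inv :=
    HomologicalComplex.mkHomToSingle_f _ _
  have hq : QuasiIso ψ := by
    rw [quasiIso_iff]
    intro n
    by_cases hn : n = 0
    · subst hn
      rw [quasiIsoAt_iff' ψ (-1) 0 1 (by simp) (by simp),
        ShortComplex.quasiIso_iff_of_zeros' _ ((hz 1 one_pos).eq_of_tgt _ _)
          ((HomologicalComplex.isZero_single_obj_X (ComplexShape.up ℤ) 0 M (-1) (by omega)).eq_of_src _ _)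
          ((HomologicalComplex.isZero_single_obj_X (ComplexShape.up ℤ) 0 M 1 (by omega)).eq_of_tgt _ _)]
      constructor
      · refine (ShortComplex.exact_iff_of_iso (ShortComplex.isoMk (Iso.refl _) (Iso.refl _)
          (HomologicalComplex.singleObjXSelf (ComplexShape.up ℤ) 0 M).symm ?_ ?_)).1 hex'
        · exact (Category.id_comp _).trans (hd.trans (Category.comp_id _).symm)
        · exact (Category.id_comp _).trans hψ
      · change Epi (ψ.f 0)
        rw [hψ]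
        exact epi_comp' hepi inferInstance
    · rw [quasiIsoAt_iff_exactAt' ψ n (HomologicalComplex.ExactAt.of_isZero
        (HomologicalComplex.isZero_single_obj_X (ComplexShape.up ℤ) 0 M n hn))]
      rcases lt_or_gt_of_ne hn with hn | hn
      · exact cx_exactAt hf0 E c n fun p a _ _ => by omega
      · exact HomologicalComplex.ExactAt.of_isZero (hz n hn)
  have := (DerivedCategory.isIso_Q_map_iff_quasiIso (Gr f) ψ).2 hq
  exact ⟨asIso (DerivedCategory.Q.map ψ) ≪≫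
    ((DerivedCategory.singleFunctorIsoCompQ (Gr f) 0).app M).symm⟩

theorem cxa_bound (E : MF f) : ∃ B : ℤ, 0 ≤ B ∧ ∀ a, -B ≤ E.ν a ∧ E.ν a ≤ B :=
  ⟨∑ a, |E.ν a|, Finset.sum_nonneg fun _ _ => abs_nonneg _, fun a => abs_le.1
    (Finset.single_le_sum (f := fun a => |E.ν a|) (fun _ _ => abs_nonneg _) (Finset.mem_univ a))⟩

theorem Φc_le (E : MF f) : ∃ b : ℤ, (Φc E).IsStrictlyLE b := by
  obtain ⟨B, hB, h⟩ := cxa_bound E
  refine ⟨B, (CochainComplex.isStrictlyLE_iff _ _).2 fun i hi => cxa_isZero fun a ha => ?_⟩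
  have := h a
  simp only [GEi] at ha
  omega

theorem Φc_ge (hf0 : f ≠ 0) (E : MF f) : ∃ a : ℤ, (Φc E).IsGE a := by
  obtain ⟨B, hB, h⟩ := cxa_bound E
  refine ⟨-B - 1, (CochainComplex.isGE_iff _ _).2 fun i hi =>
    cx_exactAt hf0 E _ i fun p a _ hp => ?_⟩
  have := h a
  simp only [GEi]
  omega

theorem isKProjective_Φc (hf : f.IsHomogeneous 3) (E : MF f) : (Φc E).IsKProjective := by
  obtain ⟨b, hb⟩ := Φc_le E
  have : ∀ n, Projective ((Φc E).X n) := fun n => projective_Fr hf _ _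
  exact CochainComplex.isKProjective_of_projective _ b

theorem Φc_subsingleton (E : MF f) (p : ℤ) (j : Deg k) (hj : j.n < 1) :
    Subsingleton (((Φc E).X p).obj.obj j) := by
  refine Fr_subsingleton (n := colν E.ν p) (U := GEi E 1 p) j fun a ha => Or.inl ?_
  simp only [GEi] at ha
  simp only [colν]
  omega

end Pool.Agent.Lib.MP_0ba2dd_ag
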