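import Pool.Agent.Lib.MP_0ba2dd_ag.H45KLa
import Mathlib.Algebra.Homology.DerivedCategory.FullyFaithful
import Mathlib.Algebra.Homology.DerivedCategory.Ext.Map

/-! Comparison of Ext groups along an exact fully faithful functor. -/

namespace Pool.Agent.Lib.MP_0ba2dd_ag

open CategoryTheory Limits Pretriangulated

variable {C A : Type*} [Category C] [Abelian C] [Category A] [Abelian A] [HasDerivedCategory C]
  [HasDerivedCategory A] (ι : C ⥤ A) [ι.Additive] [PreservesFiniteLimits ι]
  [PreservesFiniteColimits ι]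

/-- Every epimorphism onto an object of `C` is refined by one from an object of `C`. -/
def Lifts (ι : C ⥤ A) : Prop :=
  ∀ (M : C) (P : A) (p : P ⟶ ι.obj M), Epi p → ∃ (M' : C) (q : ι.obj M' ⟶ P), Epi (q ≫ p)

theorem efface (M N : C) (n : ℤ) (hn : 0 < n)
    (φ : (DerivedCategory.singleFunctor C 0).obj M ⟶
      ((DerivedCategory.singleFunctor C 0).obj N)⟦n⟧) :
    ∃ (P : C) (p : P ⟶ M), Epi p ∧ (DerivedCategory.singleFunctor C 0).map p ≫ φ = 0 := by
  let e := (DerivedCategory.Q.commShiftIso n).app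
    ((HomologicalComplex.single C (ComplexShape.up ℤ) 0).obj N)
  obtain ⟨Z, s, hs, g, hg⟩ := DerivedCategory.right_fac
    (X := (HomologicalComplex.single C (ComplexShape.up ℤ) 0).obj M) (φ ≫ e.inv)
  have := (DerivedCategory.isIso_Q_map_iff_quasiIso C s).1 hs
  let j : (HomologicalComplex.single C (ComplexShape.up ℤ) 0).obj (Z.cycles 0) ⟶ Z :=
    HomologicalComplex.mkHomFromSingle (Z.iCycles 0) fun k _ => Z.iCycles_d 0 k
  refine ⟨Z.cycles 0, Z.homologyπ 0 ≫ HomologicalComplex.homologyMap s 0 ≫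
    (HomologicalComplex.singleObjHomologySelfIso _ _ _).hom, inferInstance, ?_⟩
  have h1 : (HomologicalComplex.single C (ComplexShape.up ℤ) 0).map (Z.homologyπ 0 ≫
      HomologicalComplex.homologyMap s 0 ≫
        (HomologicalComplex.singleObjHomologySelfIso _ _ _).hom) = j ≫ s := by
    refine HomologicalComplex.from_single_hom_ext ?_
    simp [j, HomologicalComplex.single_map_f_self, HomologicalComplex.singleObjCyclesSelfIso_hom]
  have h2 : j ≫ g = 0 := HomologicalComplex.from_single_hom_ext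
    ((HomologicalComplex.isZero_single_obj_X (ComplexShape.up ℤ) 0 N (0 + n) (by omega)).eq_of_tgt
      _ _)
  have h3 : DerivedCategory.Q.map (j ≫ s) ≫ φ ≫ e.inv = 0 := by
    rw [hg, Functor.map_comp, Category.assoc, IsIso.hom_inv_id_assoc, ← Functor.map_comp, h2,
      Functor.map_zero]
  rw [← h1, ← Category.assoc, Preadditive.IsIso.comp_right_eq_zero] at h3
  exact h3

theorem deva_van (M N : C) (n : ℤ) (hn : n < 0)
    (φ : (DerivedCategory.singleFunctor C 0).obj M ⟶
      ((DerivedCategory.singleFunctor C 0).obj N)⟦n⟧) : φ = 0 := by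
  have := DerivedCategory.TStructure.t.isGE_shift ((DerivedCategory.singleFunctor C 0).obj N) 0 n
    (-n) (by omega)
  exact DerivedCategory.TStructure.t.zero φ 0 (-n) (by omega)

theorem deva_yon {T : Triangle (DerivedCategory C)} (hT : T ∈ distTriang _) {X : DerivedCategory A}
    (ψ : ι.mapDerivedCategory.obj T.obj₃ ⟶ X) (h : ι.mapDerivedCategory.map T.mor₂ ≫ ψ = 0) :
    ∃ g, ψ = ι.mapDerivedCategory.map T.mor₃ ≫ g := by
  obtain ⟨g, hg⟩ := Triangle.yoneda_exact₃ _ (ι.mapDerivedCategory.map_distinguished T hT) ψ h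
  exact ⟨(ι.mapDerivedCategory.commShiftIso (1 : ℤ)).hom.app _ ≫ g, hg.trans (Category.assoc _ _ _)⟩

/-- The image of a shifted single object. -/
noncomputable def devaIso (N : C) (n : ℤ) :
    ι.mapDerivedCategory.obj (((DerivedCategory.singleFunctor C 0).obj N)⟦n⟧) ≅
      ((DerivedCategory.singleFunctor A 0).obj (ι.obj N))⟦n⟧ :=
  (ι.mapDerivedCategory.commShiftIso n).app _ ≪≫
    (shiftFunctor _ n).mapIso ((ι.mapDerivedCategorySingleFunctor 0).app N)

omit [HasDerivedCategory C] in
theorem deva_ses {M' M : C} (p : M' ⟶ M) [Epi p] :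
    (ShortComplex.mk _ _ (kernel.condition p)).ShortExact := { exact := ShortComplex.exact_kernel p }

theorem deva_step [ι.Full] [ι.Faithful] (h : Lifts ι) (n : ℤ) (hn : 0 ≤ n) (N : C)
    (ih : ∀ M, Bij ι.mapDerivedCategory ((DerivedCategory.singleFunctor C 0).obj M)
      (((DerivedCategory.singleFunctor C 0).obj N)⟦n⟧)) (M : C) :
    Bij ι.mapDerivedCategory ((DerivedCategory.singleFunctor C 0).obj M)
      (((DerivedCategory.singleFunctor C 0).obj N)⟦n + 1⟧) := by
  have ih' : ∀ M, Bij ι.mapDerivedCategory (((DerivedCategory.singleFunctor C 0).obj M)⟦(1 : ℤ)⟧)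
      (((DerivedCategory.singleFunctor C 0).obj N)⟦n + 1⟧) := fun M =>
    ((ih M).shift 1).of_iso (Iso.refl _) ((shiftFunctorAdd _ n 1).app _).symm
  refine ⟨(injective_iff_map_eq_zero (ι.mapDerivedCategory.mapAddHom)).2 fun φ hφ => ?_,
    fun ψ => ?_⟩
  · obtain ⟨P, p, _, hp⟩ := efface M N (n + 1) (by omega) φ
    have hT := (deva_ses p).singleTriangle_distinguished
    obtain ⟨χ, hχ⟩ := Triangle.yoneda_exact₃ _ hT φ hp
    have hT' := rot_of_distTriang _ hT
    obtain ⟨g, hg⟩ := deva_yon ι hT' (ι.mapDerivedCategory.map χ)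
      ((Functor.map_comp _ _ _).symm.trans ((congrArg _ hχ.symm).trans hφ))
    obtain ⟨ω, rfl⟩ := (ih' P).2 g
    have h1 : χ = _ ≫ ω := (ih' _).1 (hg.trans (Functor.map_comp _ _ _).symm)
    rw [hχ, h1]
    exact (Category.assoc _ _ _).symm.trans
      ((congrArg (· ≫ ω) (comp_distTriang_mor_zero₂₃ _ hT')).trans zero_comp)
  · obtain ⟨P, p, hp, h0⟩ := efface (ι.obj M) (ι.obj N) (n + 1) (by omega)
      ((ι.mapDerivedCategorySingleFunctor 0).inv.app M ≫ ψ ≫ (devaIso ι N (n + 1)).hom)
    obtain ⟨M', q, hq⟩ := h M P p hp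
    obtain ⟨π, hπ⟩ := ι.map_surjective (q ≫ p)
    have : Epi π := ι.epi_of_epi_map (hπ ▸ hq)
    have hT := (deva_ses π).singleTriangle_distinguished
    have h1 := (ι.mapDerivedCategorySingleFunctor 0).inv.naturality π
    have h2 : ι.mapDerivedCategory.map ((DerivedCategory.singleFunctor C 0).map π) ≫ ψ = 0 := by
      rw [← cancel_epi ((ι.mapDerivedCategorySingleFunctor 0).inv.app M'),
        ← cancel_mono (devaIso ι N (n + 1)).hom, comp_zero, zero_comp]
      simp only [Functor.comp_map, hπ, Functor.map_comp] at h1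
      simp only [Category.assoc]
      rw [← reassoc_of% h1, h0, comp_zero]
    obtain ⟨g, hg⟩ := deva_yon ι hT ψ h2
    obtain ⟨χ, rfl⟩ := (ih' _).2 g
    exact ⟨_ ≫ χ, (Functor.map_comp _ _ _).trans hg.symm⟩

theorem dev_single [ι.Full] [ι.Faithful] (h : Lifts ι) (n : ℤ) (M N : C) :
    Bij ι.mapDerivedCategory ((DerivedCategory.singleFunctor C 0).obj M)
      (((DerivedCategory.singleFunctor C 0).obj N)⟦n⟧) := by
  rcases lt_or_ge n 0 with hn | hn
  · refine ⟨fun φ φ' _ => by rw [deva_van M N n hn φ, deva_van M N n hn φ'], fun ψ => ⟨0, ?_⟩⟩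
    have h1 := deva_van (ι.obj M) (ι.obj N) n hn
      ((ι.mapDerivedCategorySingleFunctor 0).inv.app M ≫ ψ ≫ (devaIso ι N n).hom)
    rw [Preadditive.IsIso.comp_left_eq_zero, Preadditive.IsIso.comp_right_eq_zero] at h1
    exact (Functor.map_zero _ _ _).trans h1.symm
  · induction n, hn using Int.leInduction generalizing M with
    | base =>
      exact ((Bij.of_ff (DerivedCategory.singleFunctor C 0) M N).of_comp
        ((Bij.of_ff (ι ⋙ DerivedCategory.singleFunctor A 0) M N).of_natIso
          (ι.mapDerivedCategorySingleFunctor 0).symm)).of_iso (Iso.refl _)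
        ((shiftFunctorZero _ ℤ).app _).symm
    | succ n hn ih => exact deva_step ι h n hn N ih M

end Pool.Agent.Lib.MP_0ba2dd_ag
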