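import Pool.Agent.Lib.MP_0ba2dd_ag.H45DevA
import Mathlib.CategoryTheory.Triangulated.TStructure.TruncLTGE

/-! Comparison of bounded derived categories. -/

namespace Pool.Agent.Lib.MP_0ba2dd_ag

open CategoryTheory Limits Pretriangulated

namespace DevB

/-- The class of sources on which the functor is bijective on morphisms to all objects of a
shift-stable class is triangulated (five lemma). -/
theorem bij_ses_src {C D : Type*} [Category C] [Category D] [HasZeroObject C] [HasZeroObject D]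
    [HasShift C ℤ] [HasShift D ℤ] [Preadditive C] [Preadditive D]
    [∀ n : ℤ, (shiftFunctor C n).Additive] [∀ n : ℤ, (shiftFunctor D n).Additive]
    [Pretriangulated C] [Pretriangulated D] (F : C ⥤ D) [F.CommShift ℤ] [F.IsTriangulated]
    (𝒳 : ObjectProperty C) (h𝒳 : ∀ B (n : ℤ), 𝒳 B → 𝒳 (B⟦n⟧)) :
    ObjectProperty.IsTriangulated (fun Y : C => ∀ B, 𝒳 B → Bij F Y B) := by
  have hs : ∀ (Y : C) (n : ℤ), (∀ B, 𝒳 B → Bij F Y B) → ∀ B, 𝒳 B → Bij F (Y⟦n⟧) B :=
    fun Y n h B hB => ((h _ (h𝒳 B (-n) hB)).shift n).of_iso (Iso.refl _) (shiftNegShift B n)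
  have inj0 : ∀ {Y B : C}, Bij F Y B → ∀ φ : Y ⟶ B, F.map φ = 0 → φ = 0 :=
    fun h φ e => h.1 (e.trans (F.map_zero _ _).symm)
  exact
    { exists_zero := ⟨_, isZero_zero C, fun B _ =>
        ⟨fun φ φ' _ => (isZero_zero C).eq_of_src _ _,
          fun ψ => ⟨0, (F.map_isZero (isZero_zero C)).eq_of_src _ _⟩⟩⟩
      isStableUnderShiftBy := fun n => ⟨fun Y h => hs Y n h⟩
      ext₂' := fun T hT h₁ h₃ => ObjectProperty.le_isoClosure _ _ (fun B hB => by
        refine ⟨(injective_iff_map_eq_zero (F.mapAddHom (X := T.obj₂) (Y := B))).mpr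
          (fun φ hφ => ?_), fun ψ => ?_⟩
        · have hφ' : F.map φ = 0 := hφ
          obtain ⟨β, rfl⟩ := Triangle.yoneda_exact₂ T hT φ
            (inj0 (h₁ B hB) _ (by rw [F.map_comp, hφ', comp_zero]))
          have hT' := rot_of_distTriang T hT
          obtain ⟨χ, hχ⟩ := Triangle.yoneda_exact₂ _ (F.map_distinguished _ hT') (F.map β)
            ((F.map_comp T.mor₂ β).symm.trans hφ')
          obtain ⟨χ', rfl⟩ := (hs _ 1 h₁ B hB).2 χ
          have e : β = T.mor₃ ≫ χ' :=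
            (h₃ B hB).1 (hχ.trans (F.map_comp T.mor₃ χ').symm)
          rw [e, ← Category.assoc, comp_distTriang_mor_zero₂₃ _ hT, zero_comp]
        · obtain ⟨α, hα⟩ := (h₁ B hB).2 (F.map T.mor₁ ≫ ψ)
          have hα' : F.map α = F.map T.mor₁ ≫ ψ := hα
          have hT' := inv_rot_of_distTriang T hT
          obtain ⟨δ, hδ⟩ : ∃ δ : T.obj₃⟦(-1 : ℤ)⟧ ⟶ T.obj₁, δ = T.invRotate.mor₁ := ⟨_, rfl⟩
          have h0 : δ ≫ T.mor₁ = 0 := hδ ▸ comp_distTriang_mor_zero₁₂ _ hT'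
          have h1 : δ ≫ α = 0 := inj0 (hs _ (-1) h₃ B hB) _ (by
            rw [F.map_comp, hα', ← Category.assoc, ← F.map_comp, h0, F.map_zero, zero_comp])
          obtain ⟨β, hβ'⟩ : ∃ β : T.obj₂ ⟶ B, α = T.mor₁ ≫ β :=
            Triangle.yoneda_exact₂ _ hT' α (by subst hδ; exact h1)
          obtain ⟨γ, hγ⟩ := Triangle.yoneda_exact₂ _ (F.map_distinguished _ hT) (ψ - F.map β)
            (by
              change F.map T.mor₁ ≫ (ψ - F.map β) = 0
              rw [Preadditive.comp_sub, ← hα', hβ', F.map_comp, sub_self])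
          obtain ⟨γ', rfl⟩ := (h₃ B hB).2 γ
          have hγ' : ψ - F.map β = F.map T.mor₂ ≫ F.map γ' := hγ
          refine ⟨β + T.mor₂ ≫ γ', ?_⟩
          change F.map (β + T.mor₂ ≫ γ') = ψ
          rw [F.map_add, F.map_comp, ← hγ', add_sub_cancel]) }

variable {A : Type*} [Category A] [Abelian A] [HasDerivedCategory A]

theorem aux (P : ObjectProperty A) [P.IsClosedUnderIsomorphisms]
    (𝒢 : ObjectProperty (DerivedCategory A)) [𝒢.IsTriangulated] [𝒢.IsClosedUnderIsomorphisms]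
    (h : ∀ M : A, P M → 𝒢 ((DerivedCategory.singleFunctor A 0).obj M)) (n : ℕ) :
    ∀ (a : ℤ) (K : DerivedCategory A), K.IsGE a → K.IsLE (a + n - 1) →
      (∀ i, a ≤ i → P ((DerivedCategory.homologyFunctor A i).obj K)) → 𝒢 K := by
  induction n with
  | zero =>
    intro a K h1 h2 _
    exact 𝒢.prop_of_isZero
      (DerivedCategory.TStructure.t.isZero K (a + (0 : ℕ) - 1) a (by omega))
  | succ n ih =>
    intro a K h1 h2 h3
    obtain ⟨X, Y, hX, hY, u, v, w, hT⟩ :=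
      DerivedCategory.TStructure.t.exists_triangle K a (a + 1) rfl
    have hX : X.IsLE a := ⟨hX⟩
    have hY : Y.IsGE (a + 1) := ⟨hY⟩
    have zX := fun i hi => DerivedCategory.isZero_of_isLE X a i hi
    have zY := fun i hi => DerivedCategory.isZero_of_isGE Y (a + 1) i hi
    have hX' : X.IsGE a := (DerivedCategory.isGE_iff _ _).2 fun i hi =>
      (DerivedCategory.HomologySequence.exact₁ _ hT (i - 1) i (by omega)).isZero_of_both_isZero
        (zY _ (by omega)) (DerivedCategory.isZero_of_isGE K a i hi)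
    have hY' : Y.IsLE (a + 1 + n - 1) := (DerivedCategory.isLE_iff _ _).2 fun i hi =>
      (DerivedCategory.HomologySequence.exact₃ _ hT i (i + 1) rfl).isZero_of_both_isZero
        (DerivedCategory.isZero_of_isLE K (a + (n + 1 : ℕ) - 1) i (by push_cast; omega))
        (zX _ (by omega))
    refine 𝒢.ext_of_isTriangulatedClosed₂ _ hT ?_ (ih (a + 1) Y hY hY' fun i hi => ?_)
    · obtain ⟨Z, ⟨e⟩⟩ := DerivedCategory.exists_iso_singleFunctor_obj_of_isGE_of_isLE X a
      have m : Mono ((DerivedCategory.homologyFunctor A a).map u) :=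
        (DerivedCategory.HomologySequence.mono_homologyMap_mor₁_iff _ hT (a - 1) a (by omega)).2
          ((zY _ (by omega)).eq_of_src _ _)
      have ep : Epi ((DerivedCategory.homologyFunctor A a).map u) :=
        (DerivedCategory.HomologySequence.epi_homologyMap_mor₁_iff _ hT a).2
          ((zY _ (by omega)).eq_of_tgt _ _)
      have := isIso_of_mono_of_epi ((DerivedCategory.homologyFunctor A a).map u)
      let e₁ : (DerivedCategory.homologyFunctor A a).obj K ≅ Z :=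
        (asIso ((DerivedCategory.homologyFunctor A a).map u)).symm ≪≫
        (DerivedCategory.homologyFunctor A a).mapIso e ≪≫
        (DerivedCategory.singleFunctorCompHomologyFunctorIso A a).app Z
      exact 𝒢.prop_of_iso
        (((DerivedCategory.singleFunctors A).shiftIso (-a) a 0 (neg_add_cancel a)).app _ ≪≫
          (DerivedCategory.singleFunctor A a).mapIso e₁ ≪≫ e.symm)
        (𝒢.le_shift (-a) _ (h _ (h3 a le_rfl)))
    · have m : Mono ((DerivedCategory.homologyFunctor A i).map v) :=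
        (DerivedCategory.HomologySequence.mono_homologyMap_mor₂_iff _ hT i).2
          ((zX _ (by omega)).eq_of_src _ _)
      have ep : Epi ((DerivedCategory.homologyFunctor A i).map v) :=
        (DerivedCategory.HomologySequence.epi_homologyMap_mor₂_iff _ hT i (i + 1) rfl).2
          ((zX _ (by omega)).eq_of_tgt _ _)
      have := isIso_of_mono_of_epi ((DerivedCategory.homologyFunctor A i).map v)
      exact P.prop_of_iso (asIso ((DerivedCategory.homologyFunctor A i).map v)) (h3 i (by omega))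

/-- Devissage for objects with bounded cohomology. -/
theorem dev (P : ObjectProperty A) [P.IsClosedUnderIsomorphisms]
    (𝒢 : ObjectProperty (DerivedCategory A)) [𝒢.IsTriangulated] [𝒢.IsClosedUnderIsomorphisms]
    (h : ∀ M : A, P M → 𝒢 ((DerivedCategory.singleFunctor A 0).obj M)) {K : DerivedCategory A}
    {a b : ℤ} (h1 : K.IsGE a) (h2 : K.IsLE b)
    (h3 : ∀ i, P ((DerivedCategory.homologyFunctor A i).obj K)) : 𝒢 K :=
  aux P 𝒢 h (b + 1 - a).toNat a K h1
    (DerivedCategory.TStructure.t.isLE_of_le K b _ (by omega)) fun i _ => h3 i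

end DevB

variable {C A : Type*} [Category C] [Abelian C] [Category A] [Abelian A] [HasDerivedCategory C]
  [HasDerivedCategory A] (ι : C ⥤ A) [ι.Additive] [PreservesFiniteLimits ι]
  [PreservesFiniteColimits ι]

/-- Bounded cohomology. -/
def Bdd (K : DerivedCategory C) : Prop := ∃ a b : ℤ, K.IsGE a ∧ K.IsLE b

theorem DevB.bdd_iff (K : DerivedCategory C) :
    Bdd K ↔ DerivedCategory.TStructure.t.bounded K :=
  ⟨fun ⟨a, b, h1, h2⟩ => ⟨⟨a, h1⟩, ⟨b, h2⟩⟩, fun ⟨⟨a, h1⟩, ⟨b, h2⟩⟩ => ⟨a, b, h1, h2⟩⟩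

theorem DevB.bdd_shift {K : DerivedCategory C} (hK : Bdd K) (n : ℤ) : Bdd (K⟦n⟧) :=
  (DevB.bdd_iff _).2 (DerivedCategory.TStructure.t.bounded.le_shift n _ ((DevB.bdd_iff _).1 hK))

theorem DevB.bdd_ext (T : Triangle (DerivedCategory C)) (hT : T ∈ distTriang _) (h₁ : Bdd T.obj₁)
    (h₃ : Bdd T.obj₃) : Bdd T.obj₂ :=
  (DevB.bdd_iff _).2 (DerivedCategory.TStructure.t.bounded.ext_of_isTriangulatedClosed₂ T hT
    ((DevB.bdd_iff _).1 h₁) ((DevB.bdd_iff _).1 h₃))

theorem dev_homology (K : DerivedCategory C) (n : ℤ) :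
    Nonempty ((DerivedCategory.homologyFunctor A n).obj (ι.mapDerivedCategory.obj K) ≅
      ι.obj ((DerivedCategory.homologyFunctor C n).obj K)) := by
  obtain ⟨Y, ⟨e⟩⟩ : ∃ Y : CochainComplex C ℤ, Nonempty (DerivedCategory.Q.obj Y ≅ K) :=
    ⟨_, ⟨DerivedCategory.Q.objObjPreimageIso K⟩⟩
  exact ⟨(DerivedCategory.homologyFunctor A n).mapIso
      (ι.mapDerivedCategory.mapIso e.symm ≪≫ ι.mapDerivedCategoryFactors.app Y) ≪≫
    (DerivedCategory.homologyFunctorFactors A n).app _ ≪≫ (Y.sc n).mapHomologyIso ι ≪≫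
    ι.mapIso (((DerivedCategory.homologyFunctorFactors C n).app Y).symm ≪≫
      (DerivedCategory.homologyFunctor C n).mapIso e)⟩

theorem dev_bdd {K : DerivedCategory C} (hK : Bdd K) : Bdd (ι.mapDerivedCategory.obj K) := by
  obtain ⟨a, b, h1, h2⟩ := hK
  refine ⟨a, b, (DerivedCategory.isGE_iff _ _).2 fun i hi => ?_,
    (DerivedCategory.isLE_iff _ _).2 fun i hi => ?_⟩
  · obtain ⟨e⟩ := dev_homology ι K i
    exact (ι.map_isZero (DerivedCategory.isZero_of_isGE K a i hi)).of_iso e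
  · obtain ⟨e⟩ := dev_homology ι K i
    exact (ι.map_isZero (DerivedCategory.isZero_of_isLE K b i hi)).of_iso e

theorem DevB.bij_single [ι.Full] [ι.Faithful] (h : Lifts ι) (M : C) {L : DerivedCategory C}
    (hL : Bdd L) : Bij ι.mapDerivedCategory ((DerivedCategory.singleFunctor C 0).obj M) L := by
  obtain ⟨a, b, h1, h2⟩ := hL
  let 𝒳 : ObjectProperty (DerivedCategory C) := fun Y =>
    ∃ n : ℤ, Nonempty (((DerivedCategory.singleFunctor C 0).obj M)⟦n⟧ ≅ Y)
  have h𝒳 : ∀ Y (n : ℤ), 𝒳 Y → 𝒳 (Y⟦n⟧) := by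
    rintro Y n ⟨m, ⟨e⟩⟩
    exact ⟨m + n, ⟨(shiftFunctorAdd _ m n).app _ ≪≫ (shiftFunctor _ n).mapIso e⟩⟩
  let 𝒢 : ObjectProperty (DerivedCategory C) := fun B =>
    ∀ Y, 𝒳 Y → Bij ι.mapDerivedCategory Y B
  have : 𝒢.IsTriangulated := bij_ses ι.mapDerivedCategory 𝒳 h𝒳
  have : 𝒢.IsClosedUnderIsomorphisms :=
    ⟨fun e hB Y hY => (hB Y hY).of_iso (Iso.refl _) e⟩
  refine DevB.dev ⊤ 𝒢 (fun N _ => ?_) h1 h2 (fun _ => trivial) _
    ⟨0, ⟨(shiftFunctorZero _ ℤ).app _⟩⟩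
  rintro Y ⟨n, ⟨e⟩⟩
  exact ((dev_single ι h (-n) M N).shift n).of_iso e (shiftNegShift _ n)

theorem dev_bij [ι.Full] [ι.Faithful] (h : Lifts ι) {K L : DerivedCategory C} (hK : Bdd K)
    (hL : Bdd L) : Bij ι.mapDerivedCategory K L := by
  obtain ⟨a, b, h1, h2⟩ := hK
  let 𝒢 : ObjectProperty (DerivedCategory C) := fun Y =>
    ∀ B, Bdd B → Bij ι.mapDerivedCategory Y B
  have : 𝒢.IsTriangulated :=
    DevB.bij_ses_src ι.mapDerivedCategory Bdd fun _ n hB => DevB.bdd_shift hB n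
  have : 𝒢.IsClosedUnderIsomorphisms :=
    ⟨fun e hY B hB => (hY B hB).of_iso e (Iso.refl _)⟩
  exact DevB.dev ⊤ 𝒢 (fun M _ B hB => DevB.bij_single ι h M hB) h1 h2 (fun _ => trivial) L hL

theorem dev_ess [ι.Full] [ι.Faithful] (h : Lifts ι) {Z : DerivedCategory A} (hZ : Bdd Z)
    (hH : ∀ n, ι.essImage ((DerivedCategory.homologyFunctor A n).obj Z)) :
    ∃ K, Bdd K ∧ Nonempty (ι.mapDerivedCategory.obj K ≅ Z) := by
  obtain ⟨a, b, h1, h2⟩ := hZ
  let 𝒢 : ObjectProperty (DerivedCategory A) := fun Z =>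
    ∃ K, Bdd K ∧ Nonempty (ι.mapDerivedCategory.obj K ≅ Z)
  have : 𝒢.IsClosedUnderIsomorphisms :=
    ⟨fun e ⟨K, hK, ⟨e'⟩⟩ => ⟨K, hK, ⟨e' ≪≫ e⟩⟩⟩
  have : 𝒢.IsTriangulated :=
    { exists_zero := by
        obtain ⟨K, hK, hK'⟩ :=
          (DerivedCategory.TStructure.t (C := C)).bounded.exists_prop_of_containsZero
        exact ⟨_, ι.mapDerivedCategory.map_isZero hK, K, (DevB.bdd_iff K).2 hK', ⟨Iso.refl _⟩⟩
      isStableUnderShiftBy := fun n => ⟨fun Z ⟨K, hK, ⟨e⟩⟩ =>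
        ⟨K⟦n⟧, DevB.bdd_shift hK n,
          ⟨(ι.mapDerivedCategory.commShiftIso n).app K ≪≫ (shiftFunctor _ n).mapIso e⟩⟩⟩
      ext₂' := by
        rintro T hT ⟨K₁, hK₁, ⟨e₁⟩⟩ ⟨K₃, hK₃, ⟨e₃⟩⟩
        obtain ⟨δ, hδ⟩ := (dev_bij ι h hK₃ (DevB.bdd_shift hK₁ 1)).2
          (e₃.hom ≫ T.mor₃ ≫ (shiftFunctor _ (1 : ℤ)).map e₁.inv ≫
            (ι.mapDerivedCategory.commShiftIso (1 : ℤ)).inv.app K₁)
        have hδ' : ι.mapDerivedCategory.map δ = e₃.hom ≫ T.mor₃ ≫
            (shiftFunctor _ (1 : ℤ)).map e₁.inv ≫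
            (ι.mapDerivedCategory.commShiftIso (1 : ℤ)).inv.app K₁ := hδ
        obtain ⟨K₂, u, v, hT'⟩ := distinguished_cocone_triangle₂ δ
        refine ObjectProperty.le_isoClosure _ _ ⟨K₂, DevB.bdd_ext _ hT' hK₁ hK₃,
          ⟨Triangle.π₂.mapIso (isoTriangleOfIso₁₃ _ T
            (ι.mapDerivedCategory.map_distinguished _ hT') hT e₁ e₃ ?_)⟩⟩
        change (ι.mapDerivedCategory.map δ ≫
          (ι.mapDerivedCategory.commShiftIso (1 : ℤ)).hom.app K₁) ≫
            (shiftFunctor _ (1 : ℤ)).map e₁.hom = e₃.hom ≫ T.mor₃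
        rw [hδ']
        simp only [Category.assoc, Iso.inv_hom_id_app_assoc, ← Functor.map_comp, Iso.inv_hom_id,
          CategoryTheory.Functor.map_id, Category.comp_id] }
  refine DevB.dev ι.essImage 𝒢 ?_ h1 h2 hH
  rintro M ⟨N, ⟨e⟩⟩
  exact ⟨(DerivedCategory.singleFunctor C 0).obj N, ⟨0, 0, inferInstance, inferInstance⟩,
    ⟨(ι.mapDerivedCategorySingleFunctor 0).app N ≪≫ (DerivedCategory.singleFunctor A 0).mapIso e⟩⟩

end Pool.Agent.Lib.MP_0ba2dd_ag
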