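import Pool.Agent.Lib.MP_0ba2dd_ag.H45Set

/-! Graded linear algebra over the ground field for the fibre argument. -/

namespace Pool.Agent.Lib.MP_0ba2dd_ag.Fib

open Matrix

variable {k : Type*} [Field k] {ι : Type*}

/-- The matrix `M` raises generator degrees by `γ`. -/
def Dg (ν : ι → ℤ) (γ : ℤ) (M : Matrix ι ι k) : Prop := ∀ a b, M a b ≠ 0 → ν a = ν b + γ

/-- The vector `v` is supported in degree `N`. -/
def Sp (ν : ι → ℤ) (N : ℤ) (v : ι → k) : Prop := ∀ a, v a ≠ 0 → ν a = N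

/-- The part of `v` in degree `N`. -/
def cut (ν : ι → ℤ) (N : ℤ) (v : ι → k) : ι → k := fun a => if ν a = N then v a else 0

variable {ν : ι → ℤ} {γ N : ℤ} {M d : Matrix ι ι k} {v w : ι → k}

theorem sp_cut (v : ι → k) : Sp ν N (cut ν N v) := fun a h => by
  by_contra e
  exact h (by simp [cut, e])

theorem Sp.cut_eq (h : Sp ν N v) : cut ν N v = v := by
  funext a
  by_cases e : v a = 0
  · simp [cut, e]
  · simp [cut, h a e]

theorem Sp.sub (h : Sp ν N v) (h' : Sp ν N w) : Sp ν N (v - w) := fun a e => by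
  by_cases e1 : v a = 0
  · exact h' a (fun e2 => e (by simp [e1, e2]))
  · exact h a e1

theorem Sp.zero : Sp ν N (0 : ι → k) := fun _ e => absurd rfl e

variable [Fintype ι]

theorem Dg.cut_mulVec (h : Dg ν γ M) (N : ℤ) (v : ι → k) :
    cut ν (N + γ) (M *ᵥ v) = M *ᵥ cut ν N v := by
  funext a
  simp only [cut, mulVec, dotProduct]
  split_ifs with e
  · refine Finset.sum_congr rfl (fun b _ => ?_)
    by_cases e1 : M a b = 0
    · simp [e1]
    · have := h a b e1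
      rw [if_pos (by omega)]
  · symm
    refine Finset.sum_eq_zero (fun b _ => ?_)
    by_cases e1 : M a b = 0
    · simp [e1]
    · have := h a b e1
      rw [if_neg (by omega), mul_zero]

theorem Dg.sp (h : Dg ν γ M) (hv : Sp ν N v) : Sp ν (N + γ) (M *ᵥ v) := by
  have := h.cut_mulVec N v
  rw [hv.cut_eq] at this
  rw [← this]
  exact sp_cut _

/-- The image of a matrix. -/
def Im (d : Matrix ι ι k) (v : ι → k) : Prop := ∃ u, d *ᵥ u = v

theorem Im.graded (h : Dg ν γ d) (hv : Sp ν N v) (e : Im d v) :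
    ∃ u, Sp ν (N - γ) u ∧ d *ᵥ u = v := by
  obtain ⟨u, rfl⟩ := e
  refine ⟨cut ν (N - γ) u, sp_cut _, ?_⟩
  rw [← h.cut_mulVec, sub_add_cancel, hv.cut_eq]

theorem Im.add (h : Im d v) (h' : Im d w) : Im d (v + w) := by
  obtain ⟨a, rfl⟩ := h
  obtain ⟨b, rfl⟩ := h'
  exact ⟨a + b, mulVec_add _ _ _⟩

theorem Im.neg (h : Im d v) : Im d (-v) := by
  obtain ⟨a, rfl⟩ := h
  exact ⟨-a, mulVec_neg _ _⟩

theorem Im.sub (h : Im d v) (h' : Im d w) : Im d (v - w) := by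
  rw [sub_eq_add_neg]; exact h.add h'.neg

theorem anti_mulVec (hM : d * M + M * d = 0) (v : ι → k) : d *ᵥ (M *ᵥ v) = -(M *ᵥ (d *ᵥ v)) := by
  rw [mulVec_mulVec, mulVec_mulVec, eq_neg_of_add_eq_zero_left hM, neg_mulVec]

theorem Im.anti (hM : d * M + M * d = 0) (h : Im d v) : Im d (M *ᵥ v) := by
  obtain ⟨a, rfl⟩ := h
  exact ⟨-(M *ᵥ a), by rw [mulVec_neg, anti_mulVec hM, neg_neg]⟩

theorem ker_anti (hM : d * M + M * d = 0) (h : d *ᵥ v = 0) : d *ᵥ (M *ᵥ v) = 0 := by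
  rw [anti_mulVec hM, h, mulVec_zero, neg_zero]

variable [DecidableEq ι]

/-- Creation and annihilation operators up to homotopy. -/
structure CAR (d : Matrix ι ι k) (ξ η : Fin 5 → Matrix ι ι k) : Prop where
  hξ : ∀ i, d * ξ i + ξ i * d = 0
  hη : ∀ i, d * η i + η i * d = 0
  rel : ∀ i j, ∃ a, ξ j * η i + η i * ξ j + (d * a + a * d) = if i = j then 1 else 0

theorem CAR.im {ξ η : Fin 5 → Matrix ι ι k} (h : CAR d ξ η) (i j : Fin 5) (hv : d *ᵥ v = 0)
    (h1 : Im d (η i *ᵥ v)) : Im d (η i *ᵥ (ξ j *ᵥ v) - if i = j then v else 0) := by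
  obtain ⟨a, e⟩ := h.rel i j
  have e1 := congrArg (· *ᵥ v) e
  simp only [add_mulVec, ← mulVec_mulVec, hv, mulVec_zero, add_zero] at e1
  have e2 : (if i = j then (1 : Matrix ι ι k) else 0) *ᵥ v = if i = j then v else 0 := by
    split_ifs <;> simp
  rw [e2] at e1
  rw [← e1]
  have := ((h1.anti (h.hξ j)).add (⟨a *ᵥ v, rfl⟩ : Im d (d *ᵥ (a *ᵥ v)))).neg
  convert this using 1
  abel

theorem CAR.step {ξ η : Fin 5 → Matrix ι ι k} (h : CAR d ξ η) {i j : Fin 5} (hij : i ≠ j)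
    (hv : d *ᵥ v = 0) (h1 : Im d (η i *ᵥ v)) : Im d (η i *ᵥ (ξ j *ᵥ v)) := by
  simpa [hij] using h.im i j hv h1

theorem CAR.down {ξ η : Fin 5 → Matrix ι ι k} (h : CAR d ξ η) (i : Fin 5)
    (hv : d *ᵥ v = 0) (h1 : Im d (η i *ᵥ v)) (h2 : Im d (ξ i *ᵥ v)) : Im d v := by
  have := (h2.anti (h.hη i)).sub (h.im i i hv h1)
  simpa using this

/-- A vacuum vector killed by three creation operators is a boundary. -/
theorem CAR.vac {ξ η : Fin 5 → Matrix ι ι k} (h : CAR d ξ η) (hv : d *ᵥ v = 0)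
    (h1 : ∀ i, Im d (η i *ᵥ v)) (h2 : Im d (ξ 0 *ᵥ (ξ 1 *ᵥ (ξ 2 *ᵥ v)))) : Im d v := by
  have z2 := ker_anti (h.hξ 2) hv
  have z1 := ker_anti (h.hξ 1) z2
  have w1 := h.down 0 z1 (h.step (by decide) z2 (h.step (by decide) hv (h1 0))) h2
  have w2 := h.down 1 z2 (h.step (by decide) hv (h1 1)) w1
  exact h.down 2 hv (h1 2) w2

omit [DecidableEq ι] in
/-- Exactness degree by degree, from below. -/
theorem exact_of_step (hd : Dg ν 3 d)
    (H : ∀ N, (∀ N' < N, ∀ w, Sp ν N' w → d *ᵥ w = 0 → Im d w) →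
      ∀ v, Sp ν N v → d *ᵥ v = 0 → Im d v) (hv : d *ᵥ v = 0) : Im d v := by
  classical
  obtain ⟨B, hB⟩ := (Set.finite_range ν).bddBelow
  have key : ∀ N, ∀ w, Sp ν N w → d *ᵥ w = 0 → Im d w := by
    by_contra hc
    push Not at hc
    obtain ⟨N, hN, hmin⟩ := Int.exists_least_of_bdd
      (P := fun N => ∃ w, Sp ν N w ∧ d *ᵥ w = 0 ∧ ¬ Im d w) ⟨B, by
        rintro N ⟨w, h1, -, h3⟩
        by_contra hlt
        refine h3 ⟨0, ?_⟩
        rw [mulVec_zero]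
        funext a
        by_contra e
        have := hB (Set.mem_range_self a)
        have := h1 a (Ne.symm e)
        omega⟩ hc
    obtain ⟨w, h1, h2, h3⟩ := hN
    refine h3 (H N (fun N' hN' w' a1 a2 => ?_) w h1 h2)
    by_contra a3
    have := hmin N' ⟨w', a1, a2, a3⟩
    omega
  have e : v = ∑ N ∈ Finset.univ.image ν, cut ν N v := by
    funext a
    simp [cut, Finset.sum_apply]
  rw [e]
  refine Finset.sum_induction _ _ (fun _ _ => Im.add) ⟨0, mulVec_zero _⟩ (fun N _ => ?_)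
  refine key N _ (sp_cut _) ?_
  rw [← hd.cut_mulVec, hv]
  funext a
  simp [cut]

theorem exists_ginv (d : Matrix ι ι k) : ∃ g : Matrix ι ι k, d * g * d = d := by
  obtain ⟨g, hg⟩ := (toLin' d).rangeRestrict.exists_rightInverse_of_surjective
    (toLin' d).range_rangeRestrict
  refine ⟨LinearMap.toMatrix' (g ∘ₗ (LinearMap.range (toLin' d)).subtype.leftInverse), ?_⟩
  apply toLin'.injective
  rw [toLin'_mul, toLin'_mul, toLin'_toMatrix']
  refine LinearMap.ext (fun v => ?_)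
  have h1 : (LinearMap.range (toLin' d)).subtype.leftInverse (toLin' d v) =
      ⟨toLin' d v, LinearMap.mem_range_self _ v⟩ :=
    LinearMap.leftInverse_apply_of_inj (Submodule.ker_subtype _)
      (⟨toLin' d v, LinearMap.mem_range_self _ v⟩ : LinearMap.range (toLin' d))
  have h2 := congrArg Subtype.val (LinearMap.congr_fun hg
    (⟨toLin' d v, LinearMap.mem_range_self _ v⟩ : LinearMap.range (toLin' d)))
  simp only [LinearMap.comp_apply, h1]
  exact h2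

theorem det_ne_zero {g : Matrix ι ι k} (hdd : d * d = 0) (hg : d * g * d = d)
    (hex : ∀ v, d *ᵥ v = 0 → Im d v) : (d * g + g * d).det ≠ 0 := by
  rw [Ne, ← Matrix.exists_mulVec_eq_zero_iff]
  rintro ⟨v, h0, hv⟩
  have h1 : d *ᵥ v = 0 := by
    have := congrArg (d *ᵥ ·) hv
    simp only [mulVec_mulVec, Matrix.mul_add, ← Matrix.mul_assoc, hdd, hg, Matrix.zero_mul,
      zero_add, mulVec_zero] at this
    exact this
  obtain ⟨u, rfl⟩ := hex v h1
  rw [mulVec_mulVec, Matrix.add_mul, hg, Matrix.mul_assoc g, hdd, Matrix.mul_zero, add_zero] at hv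
  exact h0 hv

omit [Fintype ι] [DecidableEq ι] in
theorem Sp.inl {u : ι ⊕ ι → k} (h : Sp (Sum.elim ν ν) N u) : Sp ν N (u ∘ Sum.inl) :=
  fun a e => h (Sum.inl a) e

omit [Fintype ι] [DecidableEq ι] in
theorem Sp.inr {u : ι ⊕ ι → k} (h : Sp (Sum.elim ν ν) N u) : Sp ν N (u ∘ Sum.inr) :=
  fun a e => h (Sum.inr a) e

/-- The inductive step: the self-extension along `ξ 0 ξ 1 ξ 2` forces exactness. -/
theorem step_ext {ξ : Fin 5 → Matrix ι ι k} {b : Fin 5 → Matrix ι ι k}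
    {η : Fin 5 → Matrix (ι ⊕ ι) (ι ⊕ ι) k} {φ : Matrix ι ι k} (hd : Dg ν 3 d) (hφ : Dg ν 3 φ)
    (cφ : d * φ + φ * d = 0) (eφ : φ = ξ 0 * ξ 1 * ξ 2)
    (hη : ∀ i, Dg (Sum.elim ν ν) (-1) (η i))
    (h : CAR (fromBlocks d φ 0 d) (fun i => fromBlocks (ξ i) (b i) 0 (ξ i)) η)
    (H : ∀ N' < N, ∀ w, Sp ν N' w → d *ᵥ w = 0 → Im d w) (hv : Sp ν N v) (h0 : d *ᵥ v = 0) :
    Im d v := by
  have blk : ∀ (A B : Matrix ι ι k) (u : ι ⊕ ι → k), fromBlocks A B 0 A *ᵥ u =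
      Sum.elim (A *ᵥ (u ∘ Sum.inl) + B *ᵥ (u ∘ Sum.inr)) (A *ᵥ (u ∘ Sum.inr)) := by
    intro A B u
    rw [fromBlocks_mulVec, zero_mulVec, zero_add]
  have blk0 : ∀ (A B : Matrix ι ι k) (u : ι → k),
      fromBlocks A B 0 A *ᵥ Sum.elim u 0 = Sum.elim (A *ᵥ u) 0 := by
    intro A B u
    rw [blk]; simp
  have hd' : Dg (Sum.elim ν ν) 3 (fromBlocks d φ 0 d) := by
    rintro (a | a) (c | c) e
    · exact hd a c e
    · exact hφ a c e
    · exact absurd rfl e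
    · exact hd a c e
  have hv' : Sp (Sum.elim ν ν) N (Sum.elim v (0 : ι → k)) := by
    rintro (a | a) e
    · exact hv a e
    · exact absurd rfl e
  have z' : fromBlocks d φ 0 d *ᵥ Sum.elim v (0 : ι → k) = 0 := by
    rw [blk0, h0]; simp
  have low : ∀ u, Sp (Sum.elim ν ν) (N + -1) u → fromBlocks d φ 0 d *ᵥ u = 0 →
      Im (fromBlocks d φ 0 d) u := by
    intro u hu e
    rw [blk] at e
    have e1 : d *ᵥ (u ∘ Sum.inl) + φ *ᵥ (u ∘ Sum.inr) = 0 := funext fun a => congrFun e (Sum.inl a)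
    have e2 : d *ᵥ (u ∘ Sum.inr) = 0 := funext fun a => congrFun e (Sum.inr a)
    obtain ⟨u2, s2, f2⟩ := (H _ (by omega) _ hu.inr e2).graded hd hu.inr
    have s3 := hφ.sp s2
    rw [sub_add_cancel] at s3
    obtain ⟨u1, f1⟩ := H _ (by omega) _ (hu.inl.sub s3) (by
      rw [mulVec_sub, anti_mulVec cφ, f2, sub_neg_eq_add, e1])
    refine ⟨Sum.elim u1 u2, ?_⟩
    rw [blk]
    funext a
    cases a <;> simp [f1, f2]
  have key := h.vac z' (fun i => low _ ((hη i).sp hv') (ker_anti (h.hη i) z')) ⟨Sum.elim 0 v, by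
    rw [blk0, blk0, blk0, blk, eφ]
    simp [h0, mulVec_mulVec, Matrix.mul_assoc]⟩
  obtain ⟨u, su, e⟩ := key.graded hd' hv'
  rw [blk] at e
  have e1 : d *ᵥ (u ∘ Sum.inl) + φ *ᵥ (u ∘ Sum.inr) = v := funext fun a => congrFun e (Sum.inl a)
  have e2 : d *ᵥ (u ∘ Sum.inr) = 0 := funext fun a => congrFun e (Sum.inr a)
  rw [← e1]
  exact Im.add ⟨_, rfl⟩ ((H _ (by omega) _ su.inr e2).anti cφ)

end Pool.Agent.Lib.MP_0ba2dd_ag.Fib
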