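import Pool.Agent.Lib.MP_0ba2dd_ag.H45GA

/-! Twisted global sections: fullness. -/

namespace Pool.Agent.Lib.MP_0ba2dd_ag

open CategoryTheory Limits AlgebraicGeometry MvPolynomial Opposite

universe u

variable {k : Type u} [Field k] {f : Q k} {Y : Scheme.{u}} (c : Chart f Y) {F F' : Y.Modules}

namespace GB

theorem X_pow_mem (a : Fin 5) (n : ℕ) : (X a ^ n : Q k) ∈ Hom5 k n := by
  simpa using (isWeightedHomogeneous_X k (fun _ => (1 : ℤ)) a).pow n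

/-- Every function on a chart is the dehomogenisation of a form. -/
theorem exists_form (a : Fin 5) (r : Γ(Y, c.U a)) :
    ∃ (d : ℕ) (p : Q k), p ∈ Hom5 k d ∧ c.deh a p = r := by
  obtain ⟨q, rfl⟩ := c.surj a r
  induction q using MvPolynomial.induction_on with
  | C r => exact ⟨0, C r, Chart.C_mem r, rfl⟩
  | add p q hp hq =>
    obtain ⟨d, p', hp', ep⟩ := hp
    obtain ⟨e, q', hq', eq⟩ := hq
    refine ⟨d + e, p' * X a ^ e + X a ^ d * q', Submodule.add_mem _ ?_ ?_, ?_⟩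
    · rw [Nat.cast_add]
      exact IsWeightedHomogeneous.mul hp' (X_pow_mem a e)
    · rw [Nat.cast_add]
      exact IsWeightedHomogeneous.mul (X_pow_mem a d) hq'
    · simp only [map_add, map_mul, map_pow, c.deh_X, one_pow, mul_one, one_mul, ep, eq]
  | mul_X p b hp =>
    obtain ⟨d, p', hp', ep⟩ := hp
    refine ⟨d + 1, p' * X b, ?_, by rw [map_mul, map_mul, ep]⟩
    rw [Nat.cast_add]
    exact IsWeightedHomogeneous.mul hp' (isWeightedHomogeneous_X k (fun _ => (1 : ℤ)) b)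

theorem isUnit_res {V W : Y.Opens} (r : Γ(Y, V)) (h : W ≤ Y.basicOpen r) :
    IsUnit (resO (h.trans (Y.basicOpen_le r)) r) := by
  have h1 : IsUnit (resO (Y.basicOpen_le r) r) :=
    Y.toLocallyRingedSpace.toRingedSpace.isUnit_res_basicOpen r
  have h2 := h1.map (resO h)
  rwa [resO_resO] at h2

theorem exists_num {V : Y.Opens} (hV : IsAffineOpen V) (r : Γ(Y, V)) (z : Γ(Y, Y.basicOpen r)) :
    ∃ (n : ℕ) (w : Γ(Y, V)), resO (Y.basicOpen_le r) r ^ n * z = resO (Y.basicOpen_le r) w := by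
  have := hV.isLocalization_basicOpen r
  obtain ⟨n, w, h⟩ := IsLocalization.Away.surj r z
  exact ⟨n, w, (mul_comm _ _).trans h⟩

theorem exists_basic {V : Y.Opens} {x : Y} (hx : x ∈ V) :
    ∃ (a : Fin 5) (r : Γ(Y, c.U a)), Y.basicOpen r ≤ V ∧ x ∈ Y.basicOpen r := by
  have h1 : x ∈ ⨆ a, c.U a := by rw [c.cover]; trivial
  obtain ⟨a, ha⟩ := TopologicalSpace.Opens.mem_iSup.1 h1
  obtain ⟨r, h2, h3⟩ := (c.aff a).exists_basicOpen_le (V := V) ⟨x, hx⟩ ha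
  exact ⟨a, r, h2, h3⟩

variable {c} (g : c.G.obj F ⟶ c.G.obj F')

/-- The action of `g` in degree `j`. -/
noncomputable def gam (j : ℤ) (s : c.GSub F j) : c.GSub F' j := g.hom.app ⟨j⟩ s

/-- The graph of `g` in degree `j`. -/
def Rg (j : ℤ) (s : c.Sec F) (s' : c.Sec F') : Prop :=
  ∃ hs : s ∈ c.GSub F j, (gam g j ⟨s, hs⟩).1 = s'

variable {g}

theorem Rg.add {j : ℤ} {s t : c.Sec F} {s' t' : c.Sec F'} (h : Rg g j s s') (h' : Rg g j t t') :
    Rg g j (s + t) (s' + t') := by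
  obtain ⟨hs, rfl⟩ := h
  obtain ⟨ht, rfl⟩ := h'
  exact ⟨Submodule.add_mem _ hs ht, congrArg Subtype.val
    (map_add (g.hom.app ⟨j⟩).hom (⟨s, hs⟩ : c.GSub F j) (⟨t, ht⟩ : c.GSub F j))⟩

theorem Rg.smul {i j d : ℤ} {s : c.Sec F} {s' : c.Sec F'} (h : Rg g i s s') {p : Q k}
    (hp : p ∈ Hom5 k d) (e : j = d + i) : Rg g j (p • s) (p • s') := by
  obtain ⟨hs, rfl⟩ := h
  let p' : (⟨i⟩ : Deg k) ⟶ ⟨j⟩ := ⟨p, by
    have e' : j - i = d := by omega
    change p ∈ Hom5 k (j - i)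
    rw [e']
    exact hp⟩
  exact ⟨Chart.Glues.smul c hs hp e,
    congrArg Subtype.val (Gr.nat g p' (⟨s, hs⟩ : c.GSub F i))⟩

theorem Rg.zero {j : ℤ} {s' : c.Sec F'} (h : Rg g j 0 s') : s' = 0 := by
  obtain ⟨hs, rfl⟩ := h
  exact congrArg Subtype.val (map_zero (g.hom.app ⟨j⟩).hom)

theorem Rg.glues {j : ℤ} {s : c.Sec F} {s' : c.Sec F'} (h : Rg g j s s') :
    c.Glues j s ∧ c.Glues j s' := by
  obtain ⟨hs, rfl⟩ := h
  exact ⟨hs, (gam g j ⟨s, hs⟩).2⟩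

variable (g) in
/-- The graph of the map induced by `g` on a chart. -/
def MM (a : Fin 5) (σ : Γ(F, c.U a)) (σ' : Γ(F', c.U a)) : Prop :=
  ∃ (j : ℤ) (s : c.Sec F) (s' : c.Sec F'), Rg g j s s' ∧ s a = σ ∧ s' a = σ'

theorem MM.smul {a : Fin 5} {σ : Γ(F, c.U a)} {σ' : Γ(F', c.U a)} (h : MM g a σ σ')
    (r : Γ(Y, c.U a)) : MM g a (r • σ) (r • σ') := by
  obtain ⟨j, s, s', h, rfl, rfl⟩ := h
  obtain ⟨d, p, hp, rfl⟩ := exists_form c a r
  exact ⟨_, _, _, h.smul hp rfl, rfl, rfl⟩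

theorem MM.add {a : Fin 5} {σ τ : Γ(F, c.U a)} {σ' τ' : Γ(F', c.U a)} (h : MM g a σ σ')
    (h' : MM g a τ τ') : MM g a (σ + τ) (σ' + τ') := by
  obtain ⟨i, s, s', h, rfl, rfl⟩ := h
  obtain ⟨j, t, t', h', rfl, rfl⟩ := h'
  refine ⟨max i j, _, _, (h.smul (X_pow_mem a (max i j - i).toNat) (by omega)).add
    (h'.smul (X_pow_mem a (max i j - j).toNat) (by omega)), ?_, ?_⟩ <;>
  simp only [Chart.add_apply, Chart.smul_apply, map_pow, c.deh_X, one_pow, one_smul]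

theorem MM.zero [F.IsQuasicoherent] {a : Fin 5} {σ' : Γ(F', c.U a)} (h : MM g a 0 σ') :
    σ' = 0 := by
  obtain ⟨j, s, s', h, h0, rfl⟩ := h
  obtain ⟨n, hn⟩ := c.G_tors (j := ⟨j⟩) (⟨s, h.glues.1⟩ : c.GSub F j) a h0
  have h1 : (X a ^ n : Q k) • s = 0 := congrArg Subtype.val hn
  have h2 := h.smul (X_pow_mem a n) rfl
  rw [h1] at h2
  have h3 := congrFun h2.zero a
  simpa only [Chart.smul_apply, Chart.zero_apply, map_pow, c.deh_X, one_pow, one_smul] using h3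

variable (g) in
theorem MM.total [F.IsQuasicoherent] (a : Fin 5) (σ : Γ(F, c.U a)) : ∃ σ', MM g a σ σ' := by
  obtain ⟨n, s, hs⟩ := c.G_ext a σ 0
  exact ⟨_, _, s.1, _, ⟨s.2, rfl⟩, hs, rfl⟩

variable (g) in
/-- The graph of the map induced by `g` on a basic open of a chart. -/
def NN (a : Fin 5) (r : Γ(Y, c.U a)) (τ : Γ(F, Y.basicOpen r)) (τ' : Γ(F', Y.basicOpen r)) :
    Prop :=
  ∃ (n : ℕ) (σ : Γ(F, c.U a)) (σ' : Γ(F', c.U a)), MM g a σ σ' ∧
    resO (Y.basicOpen_le r) r ^ n • τ = res F (Y.basicOpen_le r) σ ∧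
    resO (Y.basicOpen_le r) r ^ n • τ' = res F' (Y.basicOpen_le r) σ'

variable {a : Fin 5} {r : Γ(Y, c.U a)}

theorem NN.smul {τ : Γ(F, Y.basicOpen r)} {τ' : Γ(F', Y.basicOpen r)} (h : NN g a r τ τ')
    (z : Γ(Y, Y.basicOpen r)) : NN g a r (z • τ) (z • τ') := by
  obtain ⟨n, σ, σ', h, h1, h2⟩ := h
  obtain ⟨m, w, hw⟩ := exists_num (c.aff a) r z
  refine ⟨m + n, _, _, h.smul w, ?_, ?_⟩
  · rw [res_smul, ← h1, ← hw, smul_smul, smul_smul]
    congr 1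
    ring
  · rw [res_smul, ← h2, ← hw, smul_smul, smul_smul]
    congr 1
    ring

theorem NN.add {τ ρ : Γ(F, Y.basicOpen r)} {τ' ρ' : Γ(F', Y.basicOpen r)} (h : NN g a r τ τ')
    (h' : NN g a r ρ ρ') : NN g a r (τ + ρ) (τ' + ρ') := by
  obtain ⟨n, σ, σ', h, h1, h2⟩ := h
  obtain ⟨m, υ, υ', h', h3, h4⟩ := h'
  refine ⟨m + n, _, _, (h.smul (r ^ m)).add (h'.smul (r ^ n)), ?_, ?_⟩
  · rw [map_add, res_smul, res_smul, ← h1, ← h3, smul_smul, smul_smul, smul_add, map_pow, map_pow,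
      ← pow_add, ← pow_add, add_comm n m]
  · rw [map_add, res_smul, res_smul, ← h2, ← h4, smul_smul, smul_smul, smul_add, map_pow, map_pow,
      ← pow_add, ← pow_add, add_comm n m]

theorem NN.zero [F.IsQuasicoherent] {τ' : Γ(F', Y.basicOpen r)} (h : NN g a r 0 τ') : τ' = 0 := by
  obtain ⟨n, σ, σ', h, h1, h2⟩ := h
  rw [smul_zero] at h1
  obtain ⟨m, hm⟩ := (ql_of_qc F (c.aff a) r).2 σ h1.symm
  have h3 := h.smul (r ^ m)
  rw [hm] at h3
  have h4 := congrArg (res F' (Y.basicOpen_le r)) h3.zero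
  rw [res_smul, ← h2, map_pow, smul_smul, ← pow_add, map_zero] at h4
  exact (((isUnit_res r le_rfl).pow (m + n)).smul_eq_zero).1 h4

theorem NN.unique [F.IsQuasicoherent] {τ : Γ(F, Y.basicOpen r)} {τ' ρ' : Γ(F', Y.basicOpen r)}
    (h : NN g a r τ τ') (h' : NN g a r τ ρ') : τ' = ρ' := by
  have h1 := h.add (h'.smul (-1))
  rw [neg_smul, one_smul, add_neg_cancel, neg_smul, one_smul] at h1
  exact add_neg_eq_zero.1 h1.zero

variable (g) in
theorem NN.total [F.IsQuasicoherent] (τ : Γ(F, Y.basicOpen r)) : ∃ τ', NN g a r τ τ' := by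
  obtain ⟨n, σ, hσ⟩ := (ql_of_qc F (c.aff a) r).1 τ
  obtain ⟨σ', h⟩ := MM.total g a σ
  obtain ⟨v, hv⟩ := ((isUnit_res r le_rfl).pow n).exists_right_inv
  refine ⟨v • res F' (Y.basicOpen_le r) σ', n, σ, σ', h, hσ.symm, ?_⟩
  rw [smul_smul]
  exact (congrArg (· • res F' (Y.basicOpen_le r) σ') hv).trans (one_smul _ _)

theorem glues_res {F : Y.Modules} {j : ℤ} {s : c.Sec F} (h : c.Glues j s) {b e : Fin 5}
    {W : Y.Opens} (hb : W ≤ c.U b) (he : W ≤ c.U e) :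
    res F hb (s b) = resO (le_inf hb he) ((c.tr b e ^ j : _ˣ) : Γ(Y, c.U b ⊓ c.U e)) •
      res F he (s e) := by
  have h1 := congrArg (res F (le_inf hb he)) (h b e)
  rwa [res_smul, res_res, res_res] at h1

theorem MM.nn {b : Fin 5} {σ : Γ(F, c.U b)} {σ' : Γ(F', c.U b)} (h : MM g b σ σ')
    (hb : Y.basicOpen r ≤ c.U b) : NN g a r (res F hb σ) (res F' hb σ') := by
  obtain ⟨j, s, s', h, rfl, rfl⟩ := h
  rw [glues_res h.glues.1 hb (Y.basicOpen_le r), glues_res h.glues.2 hb (Y.basicOpen_le r)]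
  refine NN.smul ⟨0, s a, s' a, ⟨j, s, s', h, rfl, rfl⟩, ?_, ?_⟩ _ <;>
  rw [pow_zero, one_smul]

theorem NN.res {τ : Γ(F, Y.basicOpen r)} {τ' : Γ(F', Y.basicOpen r)} (h : NN g a r τ τ')
    {b : Fin 5} {r' : Γ(Y, c.U b)} (hr : Y.basicOpen r' ≤ Y.basicOpen r) :
    NN g b r' (res F hr τ) (res F' hr τ') := by
  obtain ⟨n, σ, σ', h, h1, h2⟩ := h
  obtain ⟨v, hv⟩ := ((isUnit_res r hr).pow n).exists_left_inv
  have h3 := (h.nn (r := r') (hr.trans (Y.basicOpen_le r))).smul v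
  rw [← res_res (Y.basicOpen_le r) hr, ← res_res (Y.basicOpen_le r) hr, ← h1, ← h2, res_smul,
    res_smul, map_pow, resO_resO, smul_smul, smul_smul, hv, one_smul, one_smul] at h3
  exact h3

variable (g) in
/-- The graph of the morphism of sheaves induced by `g`. -/
def Rel (V : Y.Opens) (t : Γ(F, V)) (t' : Γ(F', V)) : Prop :=
  ∀ (a : Fin 5) (r : Γ(Y, c.U a)) (h : Y.basicOpen r ≤ V), NN g a r (res F h t) (res F' h t')

theorem Rel.unique [F.IsQuasicoherent] {V : Y.Opens} {t : Γ(F, V)} {t₁ t₂ : Γ(F', V)}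
    (h₁ : Rel g V t t₁) (h₂ : Rel g V t t₂) : t₁ = t₂ :=
  sec_ext fun x hx => by
    obtain ⟨a, r, h, hr⟩ := exists_basic c hx
    exact ⟨_, h, hr, (h₁ a r h).unique (h₂ a r h)⟩

variable (g) in
theorem Rel.total [F.IsQuasicoherent] (V : Y.Opens) (t : Γ(F, V)) : ∃ t', Rel g V t t' := by
  let ι := {p : Σ a, Γ(Y, c.U a) // Y.basicOpen p.2 ≤ V}
  have h1 : ∀ i : ι, ∃ τ', NN g i.1.1 i.1.2 (res F i.2 t) τ' := fun i => NN.total g _
  choose τ hτ using h1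
  obtain ⟨t', ht'⟩ := sec_glue (F := F') (fun i : ι => Y.basicOpen i.1.2) (fun i => i.2)
    (fun x hx => by
      obtain ⟨a, r, h, hr⟩ := exists_basic c hx
      exact TopologicalSpace.Opens.mem_iSup.2 ⟨⟨⟨a, r⟩, h⟩, hr⟩) τ
    (fun i j => sec_ext fun x hx => by
      obtain ⟨a, r, h, hr⟩ := exists_basic c hx
      refine ⟨_, h, hr, ?_⟩
      have h2 := (hτ i).res (h.trans inf_le_left)
      have h3 := (hτ j).res (h.trans inf_le_right)
      rw [res_res] at h2 h3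
      rw [res_res, res_res]
      exact h2.unique h3)
  refine ⟨t', fun a r h => ?_⟩
  have h2 := hτ ⟨⟨a, r⟩, h⟩
  rw [← ht' ⟨⟨a, r⟩, h⟩] at h2
  exact h2

end GB

theorem Chart.G_full [F.IsQuasicoherent] (g : c.G.obj F ⟶ c.G.obj F') :
    ∃ φ : F ⟶ F', c.G.map φ = g := by
  choose ψ hψ using GB.Rel.total g
  refine ⟨homOfSec (fun V =>
    { toFun := ψ V
      map_add' := fun s t => (hψ V (s + t)).unique fun a r h => by
        rw [map_add, map_add]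
        exact (hψ V s a r h).add (hψ V t a r h)
      map_smul' := fun z s => (hψ V (z • s)).unique fun a r h => by
        rw [RingHom.id_apply, res_smul, res_smul]
        exact (hψ V s a r h).smul _ })
    (fun U V hV s => (hψ V (res F hV s)).unique fun a r h => by
      rw [res_res, res_res]
      exact hψ U s a r _), ?_⟩
  ext j s
  refine Subtype.ext (funext fun a => ?_)
  refine (hψ (c.U a) (s.1 a)).unique fun b r h => ?_
  exact GB.MM.nn ⟨j.n, s.1, _, ⟨s.2, rfl⟩, rfl, rfl⟩ h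

end Pool.Agent.Lib.MP_0ba2dd_ag
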