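import Pool.Agent.Lib.MP_0ba2dd_ag.H45GrA
import Mathlib.RingTheory.Polynomial.Basic

/-! Finitely generated graded modules: noetherianity. -/

namespace Pool.Agent.Lib.MP_0ba2dd_ag

open CategoryTheory Limits MvPolynomial Pretriangulated

universe u

variable {k : Type u} [Field k] {f : Q k}

theorem FG.of_epi {M N : Gr f} (φ : M ⟶ N) [Epi φ] (h : FG f M) : FG f N := by
  obtain ⟨n, g, m, h⟩ := h
  refine ⟨n, g, fun a => φ.hom.app _ (m a), fun j v => ?_⟩
  obtain ⟨v, rfl⟩ := Gr.surj φ j v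
  obtain ⟨p, rfl⟩ := h j v
  exact ⟨p, by simp only [map_sum, Gr.nat]⟩

theorem FG.exists_epi (hf : f.IsHomogeneous 3) {M : Gr f} (h : FG f M) :
    ∃ (m : ℕ) (n : Fin m → ℤ) (φ : Fr f n (fun _ => True) ⟶ M), (∀ a, Even (n a)) ∧ Epi φ := by
  obtain ⟨n, g, m, h⟩ := h
  obtain ⟨φ, hφ⟩ := Fr.exists_desc (n := fun a => 2 * (g a).n) (U := fun _ => True) hf M
    (fun a g' _ hg => M.obj.map (show g a ⟶ ⟨g'⟩ from ⟨1, by
      have := isWeightedHomogeneous_one k (fun _ : Fin 5 => (1 : ℤ))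
      rwa [show (0 : ℤ) = g' - (g a).n by omega] at this⟩) (m a))
  refine ⟨n, _, φ, fun a => even_two_mul _, Gr.epi_of_surj φ fun j v => ?_⟩
  obtain ⟨p, rfl⟩ := h j v
  refine ⟨∑ a, (Fr f (fun a => 2 * (g a).n) fun _ => True).obj.map (p a)
    (frGen f (fun a => 2 * (g a).n) (fun _ => True) a (g a).n trivial rfl), ?_⟩
  rw [map_sum]
  refine Finset.sum_congr rfl fun a _ => ?_
  rw [Gr.nat]
  congr 1
  refine (hφ a (g a).n trivial rfl).trans ?_
  change M.obj.map (𝟙 (g a)) (m a) = m a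
  rw [CategoryTheory.Functor.map_id]
  rfl

theorem noeth_map_sum (M : Gr f) {i j : Deg k} {β : Type} (T : Finset β) (q : β → (i ⟶ j))
    (s : i ⟶ j) (h : s.1 = ∑ b ∈ T, (q b).1) (m : M.obj.obj i) :
    M.obj.map s m = ∑ b ∈ T, M.obj.map (q b) m := by
  classical
  induction T using Finset.induction_on generalizing s with
  | empty =>
    rw [M.property.2.1 i j 0 s s (by simpa using h), zero_smul]
    rfl
  | insert b T hb ih =>
    rw [Finset.sum_insert hb] at h ⊢
    rw [M.property.1 i j (q b) ⟨∑ b ∈ T, (q b).1, Submodule.sum_mem _ fun b _ => (q b).2⟩ s h,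
      ← ih ⟨∑ b ∈ T, (q b).1, Submodule.sum_mem _ fun b _ => (q b).2⟩ rfl]
    rfl

theorem FG.of_mono' {M N : Gr f} (φ : M ⟶ N) [Mono φ] (h : FG f N) : FG f M := by
  classical
  obtain ⟨n, g, m, h⟩ := h
  let S : Set (Fin n → Q k) := {P | ∃ (j : Deg k) (x : M.obj.obj j) (p : ∀ a, g a ⟶ j),
    P = (fun a => (p a).1) ∧ φ.hom.app j x = ∑ a, N.obj.map (p a) (m a)}
  obtain ⟨T, hT, hS⟩ := (Submodule.fg_span_iff_fg_span_finset_subset S).1
    (IsNoetherian.noetherian (Submodule.span (Q k) S))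
  let e := T.equivFin.symm
  choose d x t ht hx using fun b : Fin T.card => hT (e b).2
  refine ⟨T.card, d, x, fun j v => ?_⟩
  obtain ⟨p, hp⟩ := h j (φ.hom.app j v)
  have hm : (fun a => (p a).1) ∈ Submodule.span (Q k) (T : Set (Fin n → Q k)) :=
    hS ▸ Submodule.subset_span ⟨j, v, p, rfl, hp⟩
  obtain ⟨c, -, hc⟩ := Submodule.mem_span_finset.1 hm
  rw [← Finset.sum_coe_sort, ← e.sum_comp] at hc
  let q : ∀ b, d b ⟶ j := fun b =>
    ⟨weightedHomogeneousComponent (fun _ => (1 : ℤ)) (j.n - (d b).n) (c (e b)),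
      weightedHomogeneousComponent_mem _ _ _⟩
  refine ⟨q, Gr.inj φ j ?_⟩
  rw [hp, map_sum]
  simp only [Gr.nat, hx, map_sum]
  rw [Finset.sum_comm]
  refine Finset.sum_congr rfl fun a _ => ?_
  rw [noeth_map_sum N Finset.univ (fun b => t b a ≫ q b) (p a)]
  · exact Finset.sum_congr rfl fun b _ => by rw [Functor.map_comp]; rfl
  · have h1 := congrArg (weightedHomogeneousComponent (fun _ => (1 : ℤ)) (j.n - (g a).n))
      (congrFun hc a)
    rw [weightedHomogeneousComponent_eq_self (p a).2, Finset.sum_apply, map_sum] at h1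
    rw [← h1]
    refine Finset.sum_congr rfl fun b _ => ?_
    have h2 := comp_mul_left (q := c (e b)) (n := j.n - (d b).n) (t b a).2
    rw [show (d b).n - (g a).n + (j.n - (d b).n) = j.n - (g a).n by ring] at h2
    rw [Pi.smul_apply, smul_eq_mul, mul_comm, congrFun (ht b) a, h2]
    rfl

theorem FG.of_mono (hf : f.IsHomogeneous 3) {M N : Gr f} (φ : M ⟶ N) [Mono φ] (h : FG f N) :
    FG f M := by
  have _ := hf
  exact h.of_mono' φ

theorem FG.homology (hf : f.IsHomogeneous 3) (Y : CochainComplex (Gr f) ℤ) (p : ℤ)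
    (h : FG f (Y.X p)) : FG f (Y.homology p) :=
  (h.of_mono hf (Y.iCycles p)).of_epi (Y.homologyπ p)

end Pool.Agent.Lib.MP_0ba2dd_ag
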