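import Pool.Agent.Lib.MP_0ba2dd_ag.H45Tr
import Pool.Agent.Lib.MP_0ba2dd_ag.H45S1
import Pool.Agent.Lib.MP_0ba2dd_ag.H45GL
import Pool.Agent.Lib.MP_0ba2dd_ag.H45GB
import Pool.Agent.Lib.MP_0ba2dd_ag.H45GC

/-! Serre's theorem in the form needed, and the result for coherent sheaves. -/

namespace Pool.Agent.Lib.MP_0ba2dd_ag

open CategoryTheory Limits AlgebraicGeometry MvPolynomial

universe u

variable {k : Type u} [Field k] {f : Q k} {Y : Scheme.{u}} [IsLocallyNoetherian Y]
  (c : Chart f Y) {A : Type*} [Category A] [Abelian A] (π : Gr f ⥤ A) [π.Additive]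
  [PreservesFiniteLimits π] [PreservesFiniteColimits π] [π.IsLocalization (Tors f).isoModSerre]

/-- The inclusion of coherent sheaves. -/
def cohι (Y : Scheme.{u}) : CohSh Y ⥤ Y.Modules := (IsCoh Y).ι

instance : (cohι Y).Additive := inferInstanceAs (IsCoh Y).ι.Additive

instance : PreservesFiniteLimits (cohι Y) := by
  rw [((Functor.preservesFiniteLimits_tfae (cohι Y)).out 3 2 :)]
  intro _ _ φ
  exact (IsCoh Y).preservesKernels_ι φ

instance : (cohι Y).PreservesEpimorphisms :=
  (IsCoh Y).preservesEpimorphisms_ι_of_isNormalMonoCategory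

instance (F : CohSh Y) : ((cohι Y).obj F).IsQuasicoherent := F.property.1

/-- Serre's functor from coherent sheaves to graded modules modulo torsion. -/
noncomputable def serre : CohSh Y ⥤ A := cohι Y ⋙ c.G ⋙ π

instance : (serre c π).Additive := inferInstanceAs (Functor.Additive (_ ⋙ _ ⋙ _))

theorem bij_G (F : Y.Modules) (M : Gr f) : Bij π M (c.G.obj F) :=
  bij_of_local π (fun w hw => c.G_local F w hw) M

instance : (serre c π).Full := ⟨fun {F F'} φ => by
  obtain ⟨g, hg⟩ := (bij_G c π ((cohι Y).obj F') (c.G.obj ((cohι Y).obj F))).2 φ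
  obtain ⟨ψ, rfl⟩ := c.G_full g
  exact ⟨ObjectProperty.homMk ψ, hg⟩⟩

instance : (serre c π).Faithful := ⟨fun {F F'} φ ψ h => by
  have h' := (bij_G c π ((cohι Y).obj F') (c.G.obj ((cohι Y).obj F))).1 h
  have := c.G_faithful ((cohι Y).map φ - (cohι Y).map ψ) (by rw [Functor.map_sub, h', sub_self])
  exact ObjectProperty.hom_ext _ (sub_eq_zero.1 this)⟩

instance : PreservesFiniteLimits (serre c π) :=
  have := c.G_lex
  have := comp_preservesFiniteLimits c.G π
  comp_preservesFiniteLimits _ _

instance : (serre c π).PreservesEpimorphisms := ⟨fun φ _ =>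
  (ObjectProperty.SerreClassLocalization.epi_map_iff π (Tors f) _).2
    (c.G_epi ((cohι Y).map φ) fun a => surj_of_epi _ (c.aff a))⟩

instance : PreservesFiniteColimits (serre c π) :=
  have := (serre c π).preservesHomology_of_preservesEpis_and_kernels
  (serre c π).preservesFiniteColimits_of_preservesHomology

theorem serre_twist (hf : f.IsHomogeneous 3) {m : ℤ} (F : CohSh Y)
    (h : c.IsTwist m ((cohι Y).obj F)) : Nonempty ((serre c π).obj F ≅ π.obj (twistMod f m)) := by
  obtain ⟨w, hw⟩ := c.twist_iso hf h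
  exact ⟨(Localization.isoOfHom π _ w hw).symm⟩

theorem serre_coh (hf : f.IsHomogeneous 3) (F : CohSh Y) : Coh π ((serre c π).obj F) := by
  obtain ⟨M, w, hM, hw⟩ := c.G_fg hf F.property
  exact ⟨M, hM, ⟨Localization.isoOfHom π _ w hw⟩⟩

theorem indecomposable_coh [IsAlgClosed k] (h2 : (2 : k) ≠ 0) (h3 : (3 : k) ≠ 0)
    [hf : Fact (f.IsHomogeneous 3)] (hs : Smooth f) [HasDerivedCategory (CohSh (Hyp f))] :
    Indecomposable (KuOf (strO (Hyp f)) (twO f 1)) := by
  have := ObjectProperty.SerreClassLocalization.preservesFiniteLimits (sheafOf f) (Tors f)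
  have := ObjectProperty.SerreClassLocalization.preservesFiniteColimits (sheafOf f) (Tors f)
  let _ := HasDerivedCategory.standard (QGr f)
  obtain ⟨c, hc⟩ := exists_projChart f
  have ht := fun m => serre_twist c (sheafOf f) hf.out (twO f m) (isTwist_twist c hc m)
  exact indecomposable_KuOf (sheafOf f) (serre c (sheafOf f)) h2 h3 hf.out hs
    (serre_coh c _ hf.out) (fun m => ⟨_, ht m⟩)
    (serre_twist c (sheafOf f) hf.out (strO _) (isTwist_unit c)).some (ht 1).some

end Pool.Agent.Lib.MP_0ba2dd_ag
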