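import Pool.Agent.Lib.MP_0ba2dd_ag.H45CxA

/-! Orlov's functor is fully faithful into the homotopy category. -/

namespace Pool.Agent.Lib.MP_0ba2dd_ag

open CategoryTheory Limits MvPolynomial Pretriangulated

universe u

variable {k : Type u} [Field k] {f : Q k}

namespace Full

theorem nat_dc {X : Type*} (R : ℕ → X → X → Prop) {x₀ x₁ : X} (h₀ : R 0 x₀ x₁)
    (h : ∀ n x y, R n x y → ∃ z, R (n + 1) y z) :
    ∃ a : ℕ → X, a 0 = x₀ ∧ a 1 = x₁ ∧ ∀ n, R n (a n) (a (n + 1)) := by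
  choose g hg using h
  let s : (n : ℕ) → {q : X × X // R n q.1 q.2} := fun n =>
    Nat.rec ⟨(x₀, x₁), h₀⟩ (fun n q => ⟨(q.1.2, g n _ _ q.2), hg n _ _ q.2⟩) n
  exact ⟨fun n => (s n).1.1, rfl, rfl, fun n => (s n).2⟩

theorem int_dc {X : Type*} (R : ℤ → X → X → Prop) (p₀ : ℤ) {x₀ x₁ : X} (h₀ : R p₀ x₀ x₁)
    (up : ∀ p x y, R p x y → ∃ z, R (p + 1) y z)
    (down : ∀ p y z, p + 1 ≤ p₀ → R (p + 1) y z → ∃ x, R p x y) :
    ∃ H : ℤ → X, ∀ p, R p (H p) (H (p + 1)) := by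
  obtain ⟨a, a0, -, ha⟩ := nat_dc (fun n x y => R (p₀ + n) x y) (x₀ := x₀) (x₁ := x₁)
    (by simpa using h₀) fun n x y h => by
      obtain ⟨z, hz⟩ := up _ _ _ h
      exact ⟨z, by rwa [Nat.cast_succ, ← add_assoc]⟩
  obtain ⟨b, -, b1, hb⟩ := nat_dc (fun n y x => R (p₀ - n) x y) (x₀ := x₁) (x₁ := x₀)
    (by simpa using h₀) fun n y x h =>
      down _ _ y (by push_cast; omega) (by
        rwa [show p₀ - ((n + 1 : ℕ) : ℤ) + 1 = p₀ - n by push_cast; ring])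
  refine ⟨fun p => if p₀ ≤ p then a (p - p₀).toNat else b (p₀ + 1 - p).toNat, fun p => ?_⟩
  by_cases hp : p₀ ≤ p
  · obtain ⟨n, rfl⟩ : ∃ n : ℕ, p = p₀ + n := ⟨(p - p₀).toNat, by omega⟩
    have := ha n
    simp only [if_pos hp, if_pos (show p₀ ≤ p₀ + n + 1 by omega),
      show (p₀ + n - p₀).toNat = n by omega, show (p₀ + n + 1 - p₀).toNat = n + 1 by omega]
    exact this
  · obtain ⟨n, rfl⟩ : ∃ n : ℕ, p = p₀ - n := ⟨(p₀ - p).toNat, by omega⟩
    have := hb n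
    simp only [if_neg hp, show (p₀ + 1 - (p₀ - n)).toNat = n + 1 by omega]
    split_ifs with h1
    · obtain rfl : n = 1 := by omega
      rw [show (p₀ - (1 : ℕ) + 1 - p₀).toNat = 0 by omega, a0, ← b1]
      exact this
    · rw [show (p₀ + 1 - (p₀ - n + 1)).toNat = n by omega]
      exact this

section Mat

variable {ι κ : Type} [Fintype ι] [Fintype κ]

open Classical in
omit [Fintype κ] in
theorem mul_dg (A : Matrix κ ι (Q k)) (U : ι → Prop) (a : κ) (b : ι) :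
    (A * dg k U) a b = if U b then A a b else 0 := by
  rw [Matrix.mul_apply, Finset.sum_eq_single b]
  · by_cases h : U b <;> simp [dg, h]
  · intro c _ hc
    simp [dg, hc]
  · simp

open Classical in
omit [Fintype ι] in
theorem dg_mul (A : Matrix κ ι (Q k)) (U : κ → Prop) (a : κ) (b : ι) :
    (dg k U * A) a b = if U a then A a b else 0 := by
  rw [Matrix.mul_apply, Finset.sum_eq_single a]
  · by_cases h : U a <;> simp [dg, h]
  · intro c _ hc
    simp [dg, hc.symm]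
  · simp

omit [Fintype ι] [Fintype κ] in
theorem exists_smul {A : Matrix κ ι (Q k)} (h : ∀ a b, f ∣ A a b) :
    ∃ Y : Matrix κ ι (Q k), A = f • Y := by
  choose Y hY using h
  exact ⟨Matrix.of Y, by ext a b : 1; simp [hY]⟩

omit [Fintype ι] [Fintype κ] in
theorem smul_cancel (hf0 : f ≠ 0) {A B : Matrix κ ι (Q k)} (h : f • A = f • B) : A = B := by
  ext a b : 1
  exact mul_left_cancel₀ hf0 (congrFun (congrFun h a) b)

omit [Fintype κ] in
theorem mul_DD (E : MF f) (A : Matrix κ E.ι (Q k)) : A * E.D * E.D = f • A := by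
  rw [Matrix.mul_assoc, E.isMF.2, Matrix.mul_smul, Matrix.mul_one]

omit [Fintype ι] in
theorem DD_mul (F : MF f) (A : Matrix F.ι ι (Q k)) : F.D * (F.D * A) = f • A := by
  rw [← Matrix.mul_assoc, F.isMF.2, Matrix.smul_mul, Matrix.one_mul]

omit [Fintype ι] in
theorem D_cancel (hf0 : f ≠ 0) (F : MF f) {A B : Matrix F.ι ι (Q k)} (h : F.D * A = F.D * B) :
    A = B := smul_cancel hf0 (by rw [← DD_mul, h, DD_mul])

end Mat

variable {E F : MF f}

theorem even_of_ne (E : MF f) {a b : E.ι} (h : E.D a b ≠ 0) : Even (E.ν b + 3 - E.ν a) := by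
  by_contra hc
  exact h (IsWH.eq_zero_of_odd N0 N0_wQ (E.isMF.1 a b) (Int.not_even_iff_odd.1 hc))

/-- The projection to the generators that are present in column `p`. -/
noncomputable def Pr (E : MF f) (p : ℤ) : Matrix E.ι E.ι (Q k) :=
  dg k fun b => Even (E.ν b - 3 * p)

theorem Pr_D (E : MF f) {p q : ℤ} (h : Odd (p - q)) : Pr E p * E.D = E.D * Pr E q := by
  ext a b : 1
  rw [Pr, Pr, dg_mul, mul_dg]
  by_cases h0 : E.D a b = 0
  · simp [h0]
  · have h1 := even_of_ne E h0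
    have : Even (E.ν a - 3 * p) ↔ Even (E.ν b - 3 * q) := by
      simp only [Int.even_iff, Int.odd_iff] at *
      omega
    by_cases h2 : Even (E.ν b - 3 * q)
    · rw [if_pos h2, if_pos (this.2 h2)]
    · rw [if_neg h2, if_neg (mt this.1 h2)]

theorem mul_Pr_add {κ : Type} (A : Matrix κ E.ι (Q k)) {p q : ℤ} (h : Odd (p - q)) :
    A * Pr E p + A * Pr E q = A := by
  ext a b : 1
  rw [Matrix.add_apply, Pr, Pr, mul_dg, mul_dg]
  have : Even (E.ν b - 3 * q) ↔ ¬ Even (E.ν b - 3 * p) := by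
    simp only [Int.even_iff, Int.odd_iff] at *
    omega
  by_cases h1 : Even (E.ν b - 3 * p) <;> simp [this, h1]

/-- `A` induces the zero map from column `p` to column `q`. -/
def Z (E F : MF f) (q p : ℤ) (A : Matrix F.ι E.ι (Q k)) : Prop :=
  ∀ a b, GEi F 1 q a → Even (E.ν b - 3 * p) → f ∣ A a b

variable {p q : ℤ} {A B : Matrix F.ι E.ι (Q k)}

theorem Z.add (h : Z E F q p A) (h' : Z E F q p B) : Z E F q p (A + B) := fun a b ha hb =>
  dvd_add (h a b ha hb) (h' a b ha hb)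

theorem Z.neg (h : Z E F q p A) : Z E F q p (-A) := fun a b ha hb => (h a b ha hb).neg_right

theorem Z.smul (A : Matrix F.ι E.ι (Q k)) : Z E F q p (f • A) := fun _ _ _ _ =>
  Dvd.intro _ rfl

theorem Z.left (h : Z E F q p A) : Z E F (q + 1) p (F.D * A) := fun a b ha hb => by
  rw [Matrix.mul_apply]
  refine Finset.dvd_sum fun c _ => ?_
  by_cases h0 : F.D a c = 0
  · simp [h0]
  · have := F.le_of_ne h0
    exact (h c b (by simp only [GEi] at ha ⊢; omega) hb).mul_left _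

theorem Z.right (h : Z E F q (p + 1) A) : Z E F q p (A * E.D) := fun a b ha hb => by
  rw [Matrix.mul_apply]
  refine Finset.dvd_sum fun c _ => ?_
  by_cases h0 : E.D c b = 0
  · simp [h0]
  · have := even_of_ne E h0
    exact (h a c ha (by simp only [Int.even_iff] at *; omega)).mul_right _

theorem Z.ex (h : Z E F q p A) : ∃ Y, dg k (GEi F 1 q) * A * Pr E p = f • Y :=
  exists_smul fun a b => by
    rw [Pr, mul_dg, dg_mul]
    split_ifs with h1 h2
    exacts [h a b h2 h1, dvd_zero _, dvd_zero _]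

theorem Z.ex' (h : Z E F q p A) (hq : ∀ a, GEi F 1 q a) : ∃ Y, A * Pr E p = f • Y :=
  exists_smul fun a b => by
    rw [Pr, mul_dg]
    split_ifs with h1
    exacts [h a b (hq a) h1, dvd_zero _]

theorem hg_Pr (E : MF f) (p : ℤ) : Hg wQ E.ν E.ν 0 (Pr E p) := hg_dg _ _

theorem Z.up (hf0 : f ≠ 0) (hA : Hg wQ E.ν F.ν 0 A) (h : Z E F q p (A * E.D)) :
    ∃ Y, Hg wQ E.ν F.ν (-3) Y ∧ Z E F q (p + 1) (A - Y * E.D) := by
  obtain ⟨Y, hY⟩ := h.ex
  have e1 : dg k (GEi F 1 q) * A * Pr E (p + 1) = Y * E.D := by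
    refine smul_cancel hf0 ?_
    rw [← Matrix.smul_mul f Y, ← hY, ← mul_DD, Matrix.mul_assoc _ (Pr E (p + 1)),
      Pr_D E (q := p) (by simp)]
    simp only [Matrix.mul_assoc]
  have e2 : Hg wQ E.ν F.ν 0 (dg k (GEi F 1 q) * A * Pr E (p + 1)) :=
    ((hg_dg _ _).mul hA (add_zero _)).mul (hg_Pr E _) (add_zero _)
  refine ⟨prj wQ E.ν F.ν (-3) Y, hg_prj _, fun a b ha hb => ?_⟩
  rw [← prj_mul_right E.isMF.1 (γ'' := 0) (by norm_num), ← e1, e2.prj_eq, Matrix.sub_apply, Pr,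
    mul_dg, dg_mul, if_pos hb, if_pos ha, sub_self]
  exact dvd_zero _

theorem Z.down (hf0 : f ≠ 0) (hA : Hg wQ E.ν F.ν 0 A) (h : Z E F q p (F.D * A))
    (hq : ∀ a, GEi F 1 q a) (r : ℤ) :
    ∃ Y, Hg wQ E.ν F.ν (-3) Y ∧ Z E F r p (A - F.D * Y) := by
  obtain ⟨Y, hY⟩ := h.ex' hq
  have e1 : A * Pr E p = F.D * Y :=
    D_cancel hf0 F (by rw [DD_mul, ← hY, Matrix.mul_assoc])
  have e2 : Hg wQ E.ν F.ν 0 (A * Pr E p) := hA.mul (hg_Pr E _) (add_zero _)
  refine ⟨prj wQ E.ν F.ν (-3) Y, hg_prj _, fun a b _ hb => ?_⟩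
  rw [← prj_mul_left F.isMF.1 (γ'' := 0) (by norm_num), ← e1, e2.prj_eq, Matrix.sub_apply, Pr,
    mul_dg, if_pos hb, sub_self]
  exact dvd_zero _

theorem exists_low (F : MF f) : ∃ p₀ : ℤ, ∀ q ≤ p₀, ∀ a, GEi F 1 q a := by
  obtain ⟨B, hB⟩ := (Set.finite_range F.ν).bddBelow
  refine ⟨min B 0 - 1, fun q hq a => ?_⟩
  have := hB (Set.mem_range_self a)
  simp only [GEi]
  omega

/-- Two consecutive components of a chain map determine a closed matrix. -/
theorem exists_closed (hf0 : f ≠ 0) {M₀ M₁ : Matrix F.ι E.ι (Q k)} (h₀ : Hg wQ E.ν F.ν 0 M₀)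
    (hq : ∀ a, GEi F 1 (p + 1) a)
    (h : Z E F (p + 1) p (F.D * M₁ - M₀ * E.D)) :
    ∃ u, Hg wQ E.ν F.ν 0 u ∧ Closed 1 E.D F.D u ∧ Z E F (p + 1) (p + 1) (M₀ - u) := by
  obtain ⟨c, hc⟩ := h.ex' hq
  have g₀ : Hg wQ E.ν F.ν 0 (M₀ * Pr E (p + 1)) := h₀.mul (hg_Pr E _) (add_zero _)
  have e1 : F.D * (M₁ * Pr E p - F.D * c) = M₀ * Pr E (p + 1) * E.D := by
    rw [Matrix.mul_sub, DD_mul, ← hc, Matrix.mul_assoc M₀, Pr_D E (q := p) (by simp),
      Matrix.sub_mul, Matrix.mul_assoc, Matrix.mul_assoc]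
    abel
  set v := prj wQ E.ν F.ν 0 (M₁ * Pr E p - F.D * c)
  have e2 : F.D * v = M₀ * Pr E (p + 1) * E.D := by
    rw [← prj_mul_left F.isMF.1 (γ'' := 3) (add_zero _), e1]
    exact (g₀.mul E.isMF.1 (zero_add _)).prj_eq
  have e3 : F.D * (M₀ * Pr E (p + 1)) = v * E.D :=
    D_cancel hf0 F (by rw [DD_mul, ← Matrix.mul_assoc, e2, mul_DD])
  have e4 : v * Pr E (p + 1) = 0 := by
    refine D_cancel hf0 F ?_
    rw [← Matrix.mul_assoc, e2, Matrix.mul_assoc, ← Pr_D E (p := p) (by simp), Matrix.mul_zero,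
      ← Matrix.mul_assoc]
    have : M₀ * Pr E (p + 1) * Pr E p = 0 := by
      ext a b : 1
      rw [Pr, Pr, mul_dg, mul_dg]
      split_ifs with k1 k2
      · simp only [Int.even_iff] at k1 k2
        omega
      · rfl
      · rfl
    rw [this, Matrix.zero_mul]
  refine ⟨M₀ * Pr E (p + 1) + v, g₀.add (hg_prj _), ?_, fun a b _ hb => ?_⟩
  · rw [Closed, one_smul, Matrix.mul_add, Matrix.add_mul, e2, e3, add_comm]
  · have := congrFun (congrFun e4 a) b
    rw [Pr, mul_dg, if_pos hb] at this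
    rw [Matrix.sub_apply, Matrix.add_apply, this, Pr, mul_dg, if_pos hb]
    simp

theorem comp_ge {H : MF f} {r : ℤ} {M : Matrix F.ι E.ι (Q k)}
    (hM : Hg wQ (colν E.ν p) (colν F.ν q) 0 M) {M' : Matrix H.ι F.ι (Q k)}
    (hM' : Hg wQ (colν F.ν q) (colν H.ν r) 0 M') :
    frMap (f := f) M hM (GEi E 1 p) (GEi F 1 q) ≫ frMap M' hM' (GEi F 1 q) (GEi H 1 r) =
      frMap (M' * M) (hM'.mul hM (add_zero _)) (GEi E 1 p) (GEi H 1 r) :=
  frMap_comp' hM hM' fun a b c ha _ hb => by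
    rw [IsWH.eq_zero_of_neg N0 N0_wQ (hM' a b) (by
      simp only [N0_apply, colν, GEi] at ha hb ⊢
      omega), zero_mul]

theorem Z_of_eq (hA : Hg wQ (colν E.ν p) (colν F.ν q) 0 A)
    (hB : Hg wQ (colν E.ν p) (colν F.ν q) 0 B)
    (h : frMap (f := f) A hA (GEi E 1 p) (GEi F 1 q) = frMap B hB (GEi E 1 p) (GEi F 1 q)) :
    Z E F q p (A - B) := fun a b ha hb => by
  by_cases h1 : GEi E 1 p b
  · exact dvd_of_frMap_eq hA hB h a b ha h1 hb
  · rw [IsWH.eq_zero_of_neg N0 N0_wQ ((hA.sub hB) a b) (by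
      simp only [N0_apply, colν, GEi] at ha h1 ⊢
      omega)]
    exact dvd_zero _

theorem eq_of_Z (hA : Hg wQ (colν E.ν p) (colν F.ν q) 0 A)
    (hB : Hg wQ (colν E.ν p) (colν F.ν q) 0 B) (h : Z E F q p (A - B)) :
    frMap (f := f) A hA (GEi E 1 p) (GEi F 1 q) = frMap B hB (GEi E 1 p) (GEi F 1 q) :=
  frMap_congr hA hB fun a b ha _ hb => h a b ha hb

theorem Φc_d (E : MF f) (h : p + 1 = q) :
    (Φc E).d p q = frMap E.D (E.hg_col h) (GEi E 1 p) (GEi E 1 q) := Cx_d _ _ _ h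

end Full

open Full

theorem Φc_full (hf : f.IsHomogeneous 3) (hf0 : f ≠ 0) {E F : MF f} (φ : Φc E ⟶ Φc F) :
    ∃ (u : Matrix F.ι E.ι (Q k)) (hu : Hg wQ E.ν F.ν 0 u) (cu : Closed 1 E.D F.D u),
      Nonempty (Homotopy φ (ΦcMap u hu cu)) := by
  have _ := hf
  choose M hM hφ _ using fun p => exists_frMap (f := f) (n := colν E.ν p) (n' := colν F.ν p)
    (U := GEi E 1 p) (U' := GEi F 1 p) (φ.f p)
  have hM' : ∀ p, Hg wQ E.ν F.ν 0 (M p) := fun p =>
    (hM p).of_eq fun a b => by simp only [colν]; omega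
  have hc : ∀ p, Z E F (p + 1) p (F.D * M p - M (p + 1) * E.D) := fun p => by
    have e := φ.comm p (p + 1)
    rw [Φc_d E rfl, Φc_d F rfl, hφ, hφ] at e
    exact Z_of_eq _ _ (((comp_ge _ _).symm.trans e).trans (comp_ge _ _))
  obtain ⟨p₀, hp₀⟩ := exists_low F
  obtain ⟨u, hu, cu, hz⟩ := exists_closed hf0 (hM' _) (hp₀ (p₀ - 1 + 1) (by omega))
    (hc (p₀ - 1))
  have cu' : F.D * u = u * E.D := by simpa [Closed] using cu
  obtain ⟨H, hH⟩ := int_dc (fun p x y => Hg wQ E.ν F.ν (-3) x ∧ Hg wQ E.ν F.ν (-3) y ∧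
      Z E F p p (M p - (F.D * x + y * E.D + u))) (p₀ - 1 + 1) (x₀ := 0) (x₁ := 0)
    ⟨Hg.zero, Hg.zero, by simpa using hz⟩
    (by
      rintro p x y ⟨hx, hy, h⟩
      obtain ⟨z, k1, k2⟩ := Z.up (q := p + 1) (p := p) (A := M (p + 1) - u - F.D * y) hf0
        (((hM' _).sub hu).sub (F.isMF.1.mul hy (by norm_num))) (by
          have := ((hc p).neg.add h.left).add (Z.smul x)
          convert this using 1
          simp only [Matrix.sub_mul, Matrix.mul_sub, Matrix.mul_add, DD_mul, cu', Matrix.mul_assoc]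
          abel)
      refine ⟨z, hy, k1, ?_⟩
      convert k2 using 1
      abel)
    (by
      rintro p y z hp ⟨hy, hz, h⟩
      obtain ⟨x, k1, k2⟩ := Z.down (q := p + 1) (p := p) (A := M p - u - y * E.D) hf0
        (((hM' _).sub hu).sub (hy.mul E.isMF.1 (by norm_num))) (by
          have := ((hc p).add h.right).add (Z.smul z)
          convert this using 1
          simp only [Matrix.sub_mul, Matrix.mul_sub, Matrix.add_mul, mul_DD, cu',
            ← Matrix.mul_assoc]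
          abel) (hp₀ _ (by omega)) p
      refine ⟨x, k1, hy, ?_⟩
      convert k2 using 1
      abel)
  refine ⟨u, hu, cu, ⟨{
    hom := fun p q => if h : q + 1 = p then
      frMap (H p) (hg_col (hH p).1 (by omega)) (GEi E 1 p) (GEi F 1 q) else 0
    zero := fun p q h => dif_neg h
    comm := fun p => ?_ }⟩⟩
  have r1 : (ComplexShape.up ℤ).Rel p (p + 1) := rfl
  have r2 : (ComplexShape.up ℤ).Rel (p - 1) p := sub_add_cancel p 1
  rw [dNext_eq _ r1, prevD_eq _ r2, dif_pos rfl, dif_pos (sub_add_cancel p 1), Φc_d E rfl,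
    Φc_d F (sub_add_cancel p 1), hφ, ΦcMap_f]
  refine Eq.trans ?_ (congrArg₂ (· + ·) (congrArg₂ (· + ·) (comp_ge _ _).symm (comp_ge _ _).symm)
    rfl)
  refine Eq.trans ?_ (congrArg₂ (· + ·) (frMap_add _ _) rfl)
  refine Eq.trans ?_ (frMap_add _ _)
  refine eq_of_Z _ _ ?_
  rw [add_comm (H (p + 1) * E.D)]
  exact (hH p).2.2

theorem Φc_faithful (hf : f.IsHomogeneous 3) (hf0 : f ≠ 0) {E F : MF f}
    {u : Matrix F.ι E.ι (Q k)} (hu : Hg wQ E.ν F.ν 0 u) (cu : Closed 1 E.D F.D u)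
    (h : Homotopy (ΦcMap u hu cu) 0) : Exact wQ 3 0 E.ν E.D F.ν F.D 1 u := by
  have _ := hf
  obtain ⟨p, hp⟩ := exists_low F
  obtain ⟨H₁, g₁, e₁, -⟩ := exists_frMap (f := f) (n := colν E.ν (p + 1)) (n' := colν F.ν p)
    (U := GEi E 1 (p + 1)) (U' := GEi F 1 p) (h.hom (p + 1) p)
  obtain ⟨H₀, g₀, e₀, -⟩ := exists_frMap (f := f) (n := colν E.ν p) (n' := colν F.ν (p - 1))
    (U := GEi E 1 p) (U' := GEi F 1 (p - 1)) (h.hom p (p - 1))
  have r1 : (ComplexShape.up ℤ).Rel p (p + 1) := rfl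
  have r2 : (ComplexShape.up ℤ).Rel (p - 1) p := sub_add_cancel p 1
  have e := h.comm p
  rw [dNext_eq _ r1, prevD_eq _ r2, Φc_d E rfl, Φc_d F (sub_add_cancel p 1), e₁, e₀, ΦcMap_f,
    HomologicalComplex.zero_f, add_zero] at e
  have hz := Z_of_eq _ _ ((e.trans (congrArg₂ (· + ·) (comp_ge _ _) (comp_ge _ _))).trans
    (frMap_add _ _).symm)
  obtain ⟨c, hc⟩ := hz.ex' (hp p le_rfl)
  have cu' : F.D * u = u * E.D := by simpa [Closed] using cu
  have k0 : u * Pr E p = H₁ * Pr E (p + 1) * E.D + F.D * (H₀ * Pr E p + F.D * c) := by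
    rw [Matrix.mul_add, DD_mul, ← hc, Matrix.mul_assoc H₁, Pr_D E (q := p) (by simp)]
    simp only [Matrix.sub_mul, Matrix.add_mul, Matrix.mul_assoc]
    abel
  have k1 : u * Pr E (p + 1) = F.D * (H₁ * Pr E (p + 1)) + (H₀ * Pr E p + F.D * c) * E.D := by
    refine D_cancel hf0 F ?_
    rw [← Matrix.mul_assoc, cu', Matrix.mul_assoc, ← Pr_D E (p := p) (by simp),
      ← Matrix.mul_assoc, k0, Matrix.add_mul, mul_DD, Matrix.mul_add F.D (F.D * _), DD_mul,
      Matrix.mul_assoc F.D]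
  refine exact_of_eq E.isMF.1 F.isMF.1 hu
    (h := H₁ * Pr E (p + 1) + (H₀ * Pr E p + F.D * c)) ?_
  rw [one_smul, Matrix.mul_add F.D (H₁ * _), Matrix.add_mul (H₁ * _),
    ← mul_Pr_add u (p := p) (q := p + 1) (by simp), k0, k1]
  abel

end Pool.Agent.Lib.MP_0ba2dd_ag
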