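import Pool.Agent.Lib.MP_0ba2dd_ag.H45QL
import Pool.Agent.Lib.MP_0ba2dd_ag.H45GT

/-! Twisted global sections: extension of sections and exactness. -/

namespace Pool.Agent.Lib.MP_0ba2dd_ag

open CategoryTheory Limits AlgebraicGeometry MvPolynomial Opposite

universe u

variable {k : Type u} [Field k] {f : Q k} {Y : Scheme.{u}} (c : Chart f Y) {F F' : Y.Modules}

namespace GAX

theorem ql_ext {V W : Y.Opens} (q : QL F V) (r : Γ(Y, V)) (hW : W = Y.basicOpen r) (h : W ≤ V)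
    (s : Γ(F, W)) : ∃ (n : ℕ) (t : Γ(F, V)), res F h t = resO h r ^ n • s := by
  subst hW
  exact (q r).1 s

theorem ql_tors {V W : Y.Opens} (q : QL F V) (r : Γ(Y, V)) (hW : W = Y.basicOpen r) (h : W ≤ V)
    (t : Γ(F, V)) (ht : res F h t = 0) : ∃ n : ℕ, r ^ n • t = 0 := by
  subst hW
  exact (q r).2 t ht

theorem pow_smul_zero {R M : Type*} [CommRing R] [AddCommGroup M] [Module R M] {r : R} {t : M}
    {n m : ℕ} (h : r ^ n • t = 0) (hm : n ≤ m) : r ^ m • t = 0 := by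
  obtain ⟨d, rfl⟩ := Nat.exists_eq_add_of_le hm
  rw [add_comm, pow_add, mul_smul, h, smul_zero]

theorem uniform {ι : Type*} [Finite ι] {P : ι → ℕ → Prop}
    (mono : ∀ i n m, P i n → n ≤ m → P i m) (h : ∀ i, ∃ n, P i n) : ∃ n, ∀ i, P i n := by
  choose n hn using h
  obtain ⟨N, hN⟩ := (Set.finite_range n).bddAbove
  exact ⟨N, fun i => mono i _ _ (hn i) (hN ⟨i, rfl⟩)⟩

/-- The transition function restricted to a smaller open set. -/
noncomputable def trW (a b : Fin 5) {W : Y.Opens} (h : W ≤ c.U a ⊓ c.U b) : Γ(Y, W)ˣ :=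
  Units.map (resO h).toMonoidHom (c.tr a b)

theorem trW_val (a b : Fin 5) {W : Y.Opens} (h : W ≤ c.U a ⊓ c.U b) :
    (trW c a b h : Γ(Y, W)) = resO (h.trans inf_le_left) (c.deh a (X b)) :=
  resO_resO _ _ _

theorem resO_tr_zpow (a b : Fin 5) {W : Y.Opens} (h : W ≤ c.U a ⊓ c.U b) (j : ℤ) :
    resO h ((c.tr a b ^ j : _ˣ) : Γ(Y, c.U a ⊓ c.U b)) = ((trW c a b h ^ j : _ˣ) : Γ(Y, W)) := by
  rw [trW, ← map_zpow]
  rfl

theorem trW_cocycle (a b e : Fin 5) {W : Y.Opens} (h₁ : W ≤ c.U b ⊓ c.U a)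
    (h₂ : W ≤ c.U b ⊓ c.U e) (h₃ : W ≤ c.U e ⊓ c.U a) :
    trW c b a h₁ = trW c b e h₂ * trW c e a h₃ := by
  refine Units.ext ?_
  have := congrArg (resO h₂) (c.compat_X b e a)
  rw [map_mul, resO_resO, resO_resO, resO_resO] at this
  rw [Units.val_mul, trW_val, trW_val, trW_val]
  exact this

theorem tr_self (a : Fin 5) : c.tr a a = 1 :=
  Units.ext (by rw [c.tr_val, c.deh_X, map_one, Units.val_one])

theorem aff_inf (a b : Fin 5) : IsAffineOpen (c.U a ⊓ c.U b) := by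
  rw [c.inter]
  exact (c.aff a).basicOpen _

theorem triple (a b e : Fin 5) : (c.U b ⊓ c.U e) ⊓ (c.U b ⊓ c.U a) =
    Y.basicOpen (resO (inf_le_left : c.U b ⊓ c.U e ≤ c.U b) (c.deh b (X a))) := by
  rw [c.inter b a]
  exact (Scheme.basicOpen_res Y _ _).symm

end GAX

namespace Chart

open GAX

theorem G_tors [F.IsQuasicoherent] {j : Deg k} (s : c.GSub F j.n) (a : Fin 5) (h : s.1 a = 0) :
    ∃ n : ℕ, (c.G.obj F).obj.map (xpow a n j) s = 0 := by
  obtain ⟨n, hn⟩ : ∃ n : ℕ, ∀ b, c.deh b (X a) ^ n • s.1 b = 0 := by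
    refine uniform (fun b n m h hm => pow_smul_zero h hm) fun b => ?_
    refine ql_tors (ql_of_qc F (c.aff b)) _ (c.inter b a) inf_le_left _ ?_
    rw [s.2 b a, h, map_zero, smul_zero]
  refine ⟨n, Subtype.ext (funext fun b => ?_)⟩
  change c.deh b (X a ^ n) • s.1 b = 0
  rw [map_pow, hn]

theorem G_ext [F.IsQuasicoherent] (a : Fin 5) (t : Γ(F, c.U a)) (j : ℤ) :
    ∃ (n : ℕ) (s : c.GSub F (j + n)), s.1 a = t := by
  obtain ⟨n, hn⟩ : ∃ n : ℕ, ∀ b, ∃ τ : Γ(F, c.U b), res F inf_le_left τ =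
      ((c.tr b a ^ (j + n) : _ˣ) : Γ(Y, c.U b ⊓ c.U a)) • res F inf_le_right t := by
    refine uniform (fun b n m h hm => ?_) fun b => ?_
    · obtain ⟨τ, hτ⟩ := h
      obtain ⟨d, rfl⟩ := Nat.exists_eq_add_of_le hm
      refine ⟨c.deh b (X a) ^ d • τ, ?_⟩
      rw [res_smul, hτ, smul_smul, map_pow, ← c.tr_val, ← Units.val_pow_eq_pow_val, ← Units.val_mul,
        ← zpow_natCast, ← zpow_add]
      congr 3
      push_cast
      ring
    · obtain ⟨n, τ, hτ⟩ := ql_ext (ql_of_qc F (c.aff b)) _ (c.inter b a) inf_le_left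
        (((c.tr b a ^ j : _ˣ) : Γ(Y, c.U b ⊓ c.U a)) • res F inf_le_right t)
      refine ⟨n, τ, ?_⟩
      rw [hτ, smul_smul, ← c.tr_val, ← Units.val_pow_eq_pow_val, ← Units.val_mul,
        ← zpow_natCast, ← zpow_add, add_comm]
  choose τ hτ using hn
  obtain ⟨m, hm⟩ : ∃ m : ℕ, ∀ be : Fin 5 × Fin 5,
      resO (inf_le_left : c.U be.1 ⊓ c.U be.2 ≤ c.U be.1) (c.deh be.1 (X a)) ^ m •
        (res F inf_le_left (τ be.1) - ((c.tr be.1 be.2 ^ (j + n) : _ˣ) :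
          Γ(Y, c.U be.1 ⊓ c.U be.2)) • res F inf_le_right (τ be.2)) = 0 := by
    refine uniform (fun b n m h hm => pow_smul_zero h hm) fun ⟨b, e⟩ => ?_
    refine ql_tors (ql_of_qc F (aff_inf c b e)) _ (triple c a b e) inf_le_left _ ?_
    have h₃ : (c.U b ⊓ c.U e) ⊓ (c.U b ⊓ c.U a) ≤ c.U e ⊓ c.U a :=
      inf_le_inf inf_le_right inf_le_right
    have e₁ := congrArg (res F (inf_le_right : (c.U b ⊓ c.U e) ⊓ (c.U b ⊓ c.U a) ≤ _)) (hτ b)
    have e₂ := congrArg (res F h₃) (hτ e)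
    rw [res_res, res_smul, res_res, resO_tr_zpow] at e₁ e₂
    rw [map_sub, res_smul, res_res, res_res, resO_tr_zpow, e₁, e₂, smul_smul, ← Units.val_mul,
      ← mul_zpow, ← trW_cocycle c a b e inf_le_right inf_le_left h₃, sub_self]
  refine ⟨n + m, ⟨fun b => c.deh b (X a) ^ m • τ b, fun b e => ?_⟩, ?_⟩
  · have := hm (b, e)
    rw [smul_sub, sub_eq_zero] at this
    rw [res_smul, res_smul, map_pow, map_pow]
    refine this.trans ?_
    rw [smul_smul, smul_smul, c.compat_X b e a, ← c.tr_val, Nat.cast_add, ← add_assoc,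
      zpow_add _ (j + n), zpow_natCast, Units.val_mul, Units.val_pow_eq_pow_val]
    congr 1
    ring
  · change c.deh a (X a) ^ m • τ a = t
    have := congrArg (res F (le_inf le_rfl le_rfl : c.U a ≤ c.U a ⊓ c.U a)) (hτ a)
    rw [tr_self, one_zpow, Units.val_one, one_smul, res_res, res_res, res_self, res_self] at this
    rw [c.deh_X, one_pow, one_smul, this]

theorem G_epi [F.IsQuasicoherent] [F'.IsQuasicoherent] (φ : F ⟶ F')
    (h : ∀ a, Function.Surjective (φ.app (c.U a))) : (Tors f).epiModSerre (c.G.map φ) := by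
  refine (epiModSerre_elem _).2 fun i (s' : c.GSub F' i.n) a => ?_
  obtain ⟨t, ht⟩ := h a (s'.1 a)
  obtain ⟨n, s, hs⟩ := c.G_ext a t i.n
  obtain ⟨m, hm⟩ := c.G_tors (j := ⟨i.n + n⟩)
    (c.gHom φ _ s - c.gAct F' (xpow a n i) s') a (by
      change φ.app _ (s.1 a) - c.deh a (X a ^ n) • s'.1 a = 0
      rw [hs, ht, map_pow, c.deh_X, one_pow, one_smul, sub_self])
  refine ⟨n + m, (⟨(X a ^ m : Q k) • s.1, Glues.smul c s.2 (xpow a m (⟨0⟩ : Deg k)).2
    (by push_cast; ring)⟩ : c.GSub F (i.n + (n + m : ℕ))), Subtype.ext (funext fun b => ?_)⟩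
  have e : c.deh b (X a ^ m) • (φ.app _ (s.1 b) - c.deh b (X a ^ n) • s'.1 b) = 0 :=
    congrArg (fun z : c.GSub F' (i.n + n + m) => z.1 b) hm
  change φ.app _ (c.deh b (X a ^ m) • s.1 b) = c.deh b (X a ^ (n + m)) • s'.1 b
  rw [smul_sub, sub_eq_zero, smul_smul, ← map_mul, ← pow_add, add_comm m n] at e
  rw [Scheme.Modules.Hom.app_smul, e]

theorem G_faithful [F.IsQuasicoherent] (φ : F ⟶ F') (h : c.G.map φ = 0) : φ = 0 := by
  have h₁ : ∀ a (t : Γ(F, c.U a)), φ.app _ t = 0 := fun a t => by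
    obtain ⟨n, s, rfl⟩ := c.G_ext a t 0
    exact congrArg (fun ψ : c.G.obj F ⟶ c.G.obj F' =>
      (show c.GSub F' (0 + n) from ψ.hom.app ⟨0 + n⟩ s).1 a) h
  have h₂ : ∀ a (r : Γ(Y, c.U a)) (s : Γ(F, Y.basicOpen r)), φ.app _ s = 0 := fun a r s => by
    obtain ⟨n, t, ht⟩ := (ql_of_qc F (c.aff a) r).1 s
    have hu : IsUnit (resO (Y.basicOpen_le r) r ^ n) :=
      IsUnit.pow _ (RingedSpace.isUnit_res_basicOpen _ r)
    have e := app_res φ (Y.basicOpen_le r) t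
    rw [ht, h₁, map_zero, Scheme.Modules.Hom.app_smul] at e
    exact (hu.smul_eq_zero).1 e
  refine Scheme.Modules.hom_ext _ _ fun V => ?_
  ext s
  refine sec_ext (F := F') (s := φ.app V s) (t := 0) fun x hx => ?_
  obtain ⟨a, ha⟩ : ∃ a, x ∈ c.U a := by
    have : x ∈ ⨆ a, c.U a := c.cover ▸ trivial
    exact TopologicalSpace.Opens.mem_iSup.1 this
  obtain ⟨r, hr, hx'⟩ := (c.aff a).exists_basicOpen_le ⟨x, hx⟩ ha
  exact ⟨_, hr, hx', by rw [← app_res, h₂, map_zero]⟩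

end Chart

end Pool.Agent.Lib.MP_0ba2dd_ag
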