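import Pool.Agent.Lib.MP_0ba2dd_ag.H45KE
import Pool.Agent.Lib.MP_0ba2dd_ag.H45CxA

/-! Local cohomology of free modules: Koszul exactness in degrees at least -1. -/

namespace Pool.Agent.Lib.MP_0ba2dd_ag

open CategoryTheory Limits MvPolynomial Pretriangulated

universe u

variable {k : Type u} [Field k] {f : Q k}

namespace KEb

open KEaux CochainComplex ZeroObject

variable {d : ℤ} {l : List (Fin 5)}

/-- A complex with zero terms is Koszul exact. -/
theorem ke_of_isZero {Y : CochainComplex (Amb k) ℤ} (h : ∀ p, IsZero (Y.X p)) : KE d l Y :=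
  ExGE.ke (fun j _ _ q _ _ _ _ _ => ⟨0, sub_of_isZero (h q) j _ _⟩)

/-- Two out of three for a cone. -/
theorem ke_cone {Y Y' : CochainComplex (Amb k) ℤ} (φ : Y ⟶ Y') (h : KE d l Y) :
    KE d l (mappingCone φ) ↔ KE d l Y' := by
  have hT : (mappingCone.triangleRotateShortComplex φ).ShortExact :=
    HomologicalComplex.shortExact_of_degreewise_shortExact _ (fun i =>
      (mappingCone.triangleRotateShortComplexSplitting φ i).shortExact)
  have h3 : KE d l (Y⟦(1 : ℤ)⟧) := (KE.shift_iff 1).mpr h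
  have := KE.ses (d := d) (l := l) hT
  exact ⟨fun h2 => this.2.1 h2 h3, fun h1 => this.1 h1 h3⟩

/-- The cone of an injection behaves like the quotient. -/
theorem ke_cone_of_ese {X₁ X₂ X₃ : CochainComplex (Amb k) ℤ} {i : X₁ ⟶ X₂} {π : X₂ ⟶ X₃}
    (h : ESE i π) (h3 : KE d l X₃) : KE d l (mappingCone i) := by
  have z : ∀ p, IsZero ((0 : CochainComplex (Amb k) ℤ).X p) := fun p =>
    (HomologicalComplex.eval _ _ p).map_isZero (isZero_zero _)
  have e0 : ESE (𝟙 X₁) (0 : X₁ ⟶ 0) :=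
    ⟨fun p j => (bij_of_isIso ((𝟙 X₁ : X₁ ⟶ X₁).f p) j).1,
      fun p j y => ⟨0, sub_of_isZero (z p) j _ _⟩, fun p j x => sub_of_isZero (z p) j _ _,
      fun p j y _ => (bij_of_isIso ((𝟙 X₁ : X₁ ⟶ X₁).f p) j).2 y⟩
  have w' : i ≫ π = (0 : X₁ ⟶ 0) ≫ (0 : 0 ⟶ X₃) := by
    rw [comp_zero]
    ext p j x
    exact h.zero p j x
  have e := ESE.cone (φ₁ := 𝟙 X₁) (φ₂ := i) (φ₃ := (0 : 0 ⟶ X₃)) (a := 𝟙 X₁) (b := i)
    rfl w' e0 h
  exact e.ke.1 (exGE_cone_of_bij (𝟙 X₁) (fun p j => bij_of_isIso _ j)).ke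
    ((ke_cone _ (ke_of_isZero z)).mpr h3)

/-- Elementwise short exact sequences of modules. -/
structure MSE {M₁ M₂ M₃ : Amb k} (i : M₁ ⟶ M₂) (π : M₂ ⟶ M₃) : Prop where
  inj : ∀ j, Function.Injective (i.app j)
  surj : ∀ j, Function.Surjective (π.app j)
  zero : ∀ j x, π.app j (i.app j x) = 0
  ex : ∀ j y, π.app j y = 0 → ∃ x, i.app j x = y

theorem MSE.of_isZero {M₁ M₂ M₃ : Amb k} (i : M₁ ⟶ M₂) (π : M₂ ⟶ M₃) (h₁ : IsZero M₁)
    (h₂ : IsZero M₂) (h₃ : IsZero M₃) : MSE i π :=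
  ⟨fun j _ _ _ => sub_of_isZero h₁ j _ _, fun j _ => ⟨0, sub_of_isZero h₃ j _ _⟩,
    fun j _ => sub_of_isZero h₃ j _ _, fun j _ _ => ⟨0, sub_of_isZero h₂ j _ _⟩⟩

theorem MSE.conj {M₁ M₂ M₃ N₁ N₂ N₃ : Amb k} {i : M₁ ⟶ M₂} {π : M₂ ⟶ M₃} (h : MSE i π)
    (e₁ : N₁ ≅ M₁) (e₂ : N₂ ≅ M₂) (e₃ : N₃ ≅ M₃) {i' : N₁ ⟶ N₂} {π' : N₂ ⟶ N₃}
    (hi : i' ≫ e₂.hom = e₁.hom ≫ i) (hπ : π' ≫ e₃.hom = e₂.hom ≫ π) : MSE i' π' := by
  have a : ∀ j x, e₂.hom.app j (i'.app j x) = i.app j (e₁.hom.app j x) := fun j x => ev hi j x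
  have b : ∀ j x, e₃.hom.app j (π'.app j x) = π.app j (e₂.hom.app j x) := fun j x => ev hπ j x
  have b₁ := bij_of_isIso e₁.hom
  have b₂ := bij_of_isIso e₂.hom
  have b₃ := bij_of_isIso e₃.hom
  refine ⟨fun j x y e => (b₁ j).1 (h.inj j (by rw [← a, ← a, e])), fun j z => ?_,
    fun j x => (b₃ j).1 (by rw [b, a, h.zero, map_zero]), fun j y hy => ?_⟩
  · obtain ⟨y, hy⟩ := h.surj j (e₃.hom.app j z)
    obtain ⟨y, rfl⟩ := (b₂ j).2 y
    exact ⟨y, (b₃ j).1 (by rw [b, hy])⟩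
  · obtain ⟨x, hx⟩ := h.ex j (e₂.hom.app j y) (by rw [← b, hy, map_zero])
    obtain ⟨x, rfl⟩ := (b₁ j).2 x
    exact ⟨x, (b₂ j).1 (by rw [a, hx])⟩

theorem ese_of_mse {X₁ X₂ X₃ : CochainComplex (Amb k) ℤ} {i : X₁ ⟶ X₂} {π : X₂ ⟶ X₃}
    (h : ∀ p, MSE (i.f p) (π.f p)) : ESE i π :=
  ⟨fun p => (h p).inj, fun p => (h p).surj, fun p => (h p).zero, fun p => (h p).ex⟩

/-- The complex concentrated in place `0`. -/
noncomputable abbrev Sg (k : Type u) [Field k] : Amb k ⥤ CochainComplex (Amb k) ℤ :=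
  HomologicalComplex.single (Amb k) (ComplexShape.up ℤ) 0

theorem sg_zero (M : Amb k) {p : ℤ} (h : p ≠ 0) : IsZero (((Sg k).obj M).X p) :=
  HomologicalComplex.isZero_single_obj_X _ _ _ _ h

/-- The term in place `0`. -/
noncomputable abbrev sgX (M : Amb k) : ((Sg k).obj M).X 0 ≅ M :=
  HomologicalComplex.singleObjXSelf _ _ M

theorem MSE.ese {M₁ M₂ M₃ : Amb k} {i : M₁ ⟶ M₂} {π : M₂ ⟶ M₃} (h : MSE i π) :
    ESE ((Sg k).map i) ((Sg k).map π) := by
  refine ese_of_mse (fun p => ?_)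
  by_cases hp : p = 0
  · subst hp
    refine h.conj (sgX M₁) (sgX M₂) (sgX M₃) ?_ ?_ <;>
      simp [HomologicalComplex.single_map_f_self]
  · exact MSE.of_isZero _ _ (sg_zero _ hp) (sg_zero _ hp) (sg_zero _ hp)

theorem ke_step (a : Fin 5) {M C : Amb k} {π : (Tw k).obj M ⟶ C}
    (h : MSE (show M ⟶ (Tw k).obj M from (mulX a).app M) π) (hC : KE d l ((Sg k).obj C)) :
    KE d (a :: l) ((Sg k).obj M) := by
  let π' : (TwC k).obj ((Sg k).obj M) ⟶ (Sg k).obj C :=
    (HomologicalComplex.singleMapHomologicalComplex (Tw k) (ComplexShape.up ℤ) 0).hom.app M ≫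
      (Sg k).map π
  have e : ESE (mX a ((Sg k).obj M)) π' := by
    refine ese_of_mse (fun p => ?_)
    by_cases hp : p = 0
    · subst hp
      refine h.conj (sgX M) ((Tw k).mapIso (sgX M)) (sgX C) ?_ ?_
      · exact ((mulX a).naturality (sgX M).hom).symm
      · have key : ∀ {A B B' D D' : Amb k} (u : A ⟶ B) (e : B' ≅ B) (e' : D' ≅ D) (g : B ⟶ D),
            ((u ≫ e.inv) ≫ e.hom ≫ g ≫ e'.inv) ≫ e'.hom = u ≫ g := by
          intros
          simp
        refine Eq.trans ?_ (key _ (sgX ((Tw k).obj M)) (sgX C) π)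
        simp only [π', HomologicalComplex.comp_f, HomologicalComplex.single_map_f_self,
          HomologicalComplex.singleMapHomologicalComplex_hom_app_self]
        rfl
    · exact MSE.of_isZero _ _ (sg_zero _ hp) ((Tw k).map_isZero (sg_zero _ hp)) (sg_zero _ hp)
  exact ke_cone_of_ese e hC

theorem exGE_sg {M : Amb k} (h : ∀ j : Deg k, d ≤ j.n → ∀ x : M.obj j, x = 0) :
    ExGE d ((Sg k).obj M) := by
  intro j hj p q r _ _ y _
  refine ⟨0, ?_⟩
  by_cases hq : q = 0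
  · subst hq
    exact (bij_of_isIso (sgX M).hom j).1 ((h j hj _).trans (h j hj _).symm)
  · exact sub_of_isZero (sg_zero _ hq) j _ _

/-- Setting the variables in `s` to zero. -/
noncomputable def kill (k : Type u) [Field k] (s : Finset (Fin 5)) : Q k →ₐ[k] Q k :=
  aeval (fun j => if j ∈ s then 0 else X j)

theorem kill_X (s : Finset (Fin 5)) (a : Fin 5) :
    kill k s (X a) = if a ∈ s then 0 else X a := aeval_X _ _

theorem kill_kill (s t : Finset (Fin 5)) (p : Q k) :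
    kill k s (kill k t p) = kill k (s ∪ t) p := by
  have : (kill k s).comp (kill k t) = kill k (s ∪ t) := by
    refine MvPolynomial.algHom_ext (fun a => ?_)
    by_cases h1 : a ∈ s <;> by_cases h2 : a ∈ t <;> simp [kill_X, h1, h2]
  exact AlgHom.congr_fun this p

theorem kill_empty (p : Q k) : kill k ∅ p = p := by
  have : kill k ∅ = AlgHom.id k (Q k) := MvPolynomial.algHom_ext (fun a => by simp [kill_X])
  rw [this]
  rfl

theorem kill_univ (p : Q k) : kill k Finset.univ p = C (constantCoeff p) := by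
  have : (kill k Finset.univ : Q k →+* Q k) = (C : k →+* Q k).comp constantCoeff := by
    refine MvPolynomial.ringHom_ext (fun r => ?_) (fun a => ?_)
    · simp [kill]
    · simp [kill_X]
  exact RingHom.congr_fun this p

theorem kill_mem (s : Finset (Fin 5)) {e : ℤ} {p : Q k} (hp : p ∈ Hom5 k e) :
    kill k s p ∈ Hom5 k e := by
  refine IsWH.aeval (AddMonoidHom.id ℤ) _ (fun i => ?_) hp
  split_ifs
  · exact isWeightedHomogeneous_zero _ _ _
  · exact isWeightedHomogeneous_X k _ _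

theorem dvd_sub_kill (a : Fin 5) (p : Q k) : X a ∣ p - kill k {a} p := by
  have : (Ideal.Quotient.mkₐ k (Ideal.span {(X a : Q k)})).comp (kill k {a}) =
      Ideal.Quotient.mkₐ k (Ideal.span {(X a : Q k)}) := by
    refine MvPolynomial.algHom_ext (fun b => ?_)
    by_cases h : b = a
    · subst h
      simp [kill_X]
    · simp [kill_X, h]
  exact Ideal.mem_span_singleton.mp (Ideal.Quotient.eq.mp (AlgHom.congr_fun this p).symm)

/-- Homogeneous polynomials in the variables outside `s`. -/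
noncomputable def Psub (k : Type u) [Field k] (s : Finset (Fin 5)) (e : ℤ) :
    Submodule k (Q k) where
  carrier := {p | p ∈ Hom5 k e ∧ kill k s p = p}
  add_mem' hp hq := ⟨add_mem hp.1 hq.1, by rw [map_add, hp.2, hq.2]⟩
  zero_mem' := ⟨zero_mem _, map_zero _⟩
  smul_mem' r p hp := ⟨Submodule.smul_mem _ r hp.1, by rw [map_smul, hp.2]⟩

theorem mul_mem_Psub {s : Finset (Fin 5)} {e e' e'' : ℤ} {p v : Q k} (hp : p ∈ Hom5 k e)
    (hv : v ∈ Psub k s e') (h : e + e' = e'') : kill k s p * v ∈ Psub k s e'' :=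
  ⟨IsWH.cast (IsWeightedHomogeneous.mul (kill_mem s hp) hv.1) h, by
    rw [map_mul, hv.2, kill_kill, Finset.union_self]⟩

/-- The twisted module `k[x]/(x_s)(m)`. -/
noncomputable def Pm (k : Type u) [Field k] (s : Finset (Fin 5)) (m : ℤ) : Amb k where
  obj j := ModuleCat.of k (Psub k s (j.n + m))
  map {i j} p := ModuleCat.ofHom
    ((LinearMap.mulLeft k (kill k s p.1)).restrict (fun _ hv => mul_mem_Psub p.2 hv (by ring)))
  map_id i := by
    refine ModuleCat.hom_ext (LinearMap.ext fun v => Subtype.ext ?_)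
    change kill k s 1 * v.1 = v.1
    rw [map_one, one_mul]
  map_comp p q := by
    refine ModuleCat.hom_ext (LinearMap.ext fun v => Subtype.ext ?_)
    change kill k s (p.1 * q.1) * v.1 = kill k s q.1 * (kill k s p.1 * v.1)
    rw [map_mul]
    ring

/-- The quotient by one more variable. -/
noncomputable def Pq (s : Finset (Fin 5)) (a : Fin 5) (m : ℤ) :
    (Tw k).obj (Pm k s m) ⟶ Pm k (insert a s) (m + 1) where
  app j := ModuleCat.ofHom ((kill k (insert a s)).toLinearMap.restrict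
    (p := Psub k s (j.n + 1 + m)) (q := Psub k (insert a s) (j.n + (m + 1)))
    (fun v hv => ⟨IsWH.cast (kill_mem _ hv.1) (by ring), by
      change kill k _ (kill k _ v) = kill k _ v
      rw [kill_kill, Finset.union_self]⟩))
  naturality i j p := by
    ext v
    refine Subtype.ext ?_
    change kill k (insert a s) (kill k s p.1 * v.1) =
      kill k (insert a s) p.1 * kill k (insert a s) v.1
    rw [map_mul, kill_kill, Finset.union_eq_left.mpr (Finset.subset_insert a s)]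

theorem mse_Pq {s : Finset (Fin 5)} {a : Fin 5} (ha : a ∉ s) (m : ℤ) :
    MSE (show Pm k s m ⟶ (Tw k).obj (Pm k s m) from (mulX a).app (Pm k s m)) (Pq s a m) := by
  have hX : kill k s (X a) = X a := by rw [kill_X, if_neg ha]
  refine ⟨fun j v w e => ?_, fun j w => ?_, fun j v => ?_, fun j v hv => ?_⟩
  · have e' : kill k s (X a) * v.1 = kill k s (X a) * w.1 := congrArg Subtype.val e
    rw [hX] at e'
    exact Subtype.ext (mul_left_cancel₀ (X_ne_zero a) e')
  · have h2 : kill k (insert a s) w.1 = w.1 := w.2.2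
    refine ⟨⟨w.1, IsWH.cast w.2.1 (by dsimp [shDeg]; ring), ?_⟩, Subtype.ext h2⟩
    rw [← h2, kill_kill, Finset.union_eq_right.mpr (Finset.subset_insert a s)]
  · refine Subtype.ext ?_
    change kill k (insert a s) (kill k s (X a) * v.1) = 0
    rw [hX, map_mul, kill_X, if_pos (Finset.mem_insert_self a s), zero_mul]
  · have h1 : kill k (insert a s) v.1 = 0 := congrArg Subtype.val hv
    have h2 : kill k s v.1 = v.1 := v.2.2
    have h3 : kill k {a} v.1 = 0 := by rw [← h2, kill_kill, ← Finset.insert_eq, h1]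
    obtain ⟨q, hq⟩ := dvd_sub_kill a v.1
    rw [h3, sub_zero] at hq
    have h4 : (X a * q).IsWeightedHomogeneous (fun _ => (1 : ℤ)) (1 + (j.n + m)) :=
      hq ▸ IsWH.cast v.2.1 (by dsimp [shDeg]; ring)
    refine ⟨⟨q, IsWH.of_mul (isWeightedHomogeneous_X k _ a) (X_ne_zero a) h4, ?_⟩,
      Subtype.ext ?_⟩
    · rw [hq, map_mul, hX] at h2
      exact mul_left_cancel₀ (X_ne_zero a) h2
    · change kill k s (X a) * q = v.1
      rw [hX, hq]

theorem ke_Pm (l : List (Fin 5)) : ∀ (s : Finset (Fin 5)) (m : ℤ), l.Nodup → (∀ a ∈ l, a ∉ s) →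
    (∀ a, a ∈ l ∨ a ∈ s) → 0 < d + m + l.length → KE d l ((Sg k).obj (Pm k s m)) := by
  induction l with
  | nil =>
    intro s m _ _ hs hd
    obtain rfl : s = Finset.univ := Finset.eq_univ_of_forall (fun a => by simpa using hs a)
    refine exGE_sg (fun j hj v => Subtype.ext ?_)
    have h2 : kill k Finset.univ v.1 = v.1 := v.2.2
    simp only [List.length_nil, Nat.cast_zero, add_zero] at hd
    change v.1 = 0
    rw [← h2, kill_univ, IsWH.constantCoeff_eq_zero v.2.1 (by omega), map_zero]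
  | cons a l ih =>
    intro s m hn hl hs hd
    rw [List.nodup_cons] at hn
    refine ke_step a (mse_Pq (hl a List.mem_cons_self) m) (ih _ _ hn.2 (fun b hb => ?_)
      (fun b => ?_) ?_)
    · rw [Finset.mem_insert, not_or]
      exact ⟨fun e => hn.1 (e ▸ hb), hl b (List.mem_cons_of_mem _ hb)⟩
    · rw [Finset.mem_insert]
      have := hs b
      rw [List.mem_cons] at this
      tauto
    · simp only [List.length_cons, Nat.cast_add, Nat.cast_one] at hd
      omega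

theorem ke_P {m : ℤ} (h : 0 < d + m + 5) :
    KE d [0, 1, 2, 3, 4] ((Sg k).obj (Pm k ∅ m)) :=
  ke_Pm _ ∅ m (by decide) (by simp) (by decide) (by simpa using h)

/-- Multiplication by `f`. -/
noncomputable def Pf (hf : f ∈ Hom5 k 3) (m : ℤ) : Pm k ∅ (m - 3) ⟶ Pm k ∅ m where
  app j := ModuleCat.ofHom ((LinearMap.mulLeft k (kill k ∅ f)).restrict
    (p := Psub k ∅ (j.n + (m - 3))) (q := Psub k ∅ (j.n + m))
    (fun _ hv => mul_mem_Psub hf hv (by ring)))
  naturality i j p := by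
    ext v
    refine Subtype.ext ?_
    change kill k ∅ f * (kill k ∅ p.1 * v.1) = kill k ∅ p.1 * (kill k ∅ f * v.1)
    ring

/-- The quotient map to `R(m)`. -/
noncomputable def Pr (f : Q k) (m : ℤ) : Pm k ∅ m ⟶ (twistMod f m).obj where
  app j := ModuleCat.ofHom ((mkR f).toLinearMap.restrict
    (p := Psub k ∅ (j.n + m)) (q := Rdeg f (j.n + m)) (fun v hv => ⟨v, hv.1, rfl⟩))
  naturality i j p := by
    ext v
    refine Subtype.ext ?_
    change mkR f (kill k ∅ p.1 * v.1) = mkR f p.1 * mkR f v.1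
    rw [kill_empty, map_mul]

theorem mse_Pf (hf : f ∈ Hom5 k 3) (hf0 : f ≠ 0) (m : ℤ) : MSE (Pf hf m) (Pr f m) := by
  refine ⟨fun j v w e => ?_, fun j w => ?_, fun j v => ?_, fun j v hv => ?_⟩
  · have e' : kill k ∅ f * v.1 = kill k ∅ f * w.1 := congrArg Subtype.val e
    rw [kill_empty] at e'
    exact Subtype.ext (mul_left_cancel₀ hf0 e')
  · obtain ⟨_, p, hp, rfl⟩ := w
    exact ⟨⟨p, hp, kill_empty p⟩, rfl⟩
  · refine Subtype.ext ?_
    change mkR f (kill k ∅ f * v.1) = 0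
    rw [kill_empty]
    exact Ideal.Quotient.eq_zero_iff_mem.mpr (Ideal.mem_span_singleton.mpr (dvd_mul_right _ _))
  · have h1 : mkR f v.1 = 0 := congrArg Subtype.val hv
    obtain ⟨q, hq⟩ : f ∣ v.1 :=
      Ideal.mem_span_singleton.mp (Ideal.Quotient.eq_zero_iff_mem.mp h1)
    have h4 : (f * q).IsWeightedHomogeneous (fun _ => (1 : ℤ)) (3 + (j.n + (m - 3))) :=
      hq ▸ IsWH.cast v.2.1 (by ring)
    refine ⟨⟨q, IsWH.of_mul hf hf0 h4, kill_empty q⟩, Subtype.ext ?_⟩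
    change kill k ∅ f * q = v.1
    rw [kill_empty, hq]

theorem mse_of_shortExact {T : ShortComplex (Gr f)} (hT : T.ShortExact) : MSE T.f.hom T.g.hom :=
  have := hT.mono_f
  have := hT.epi_g
  ⟨Gr.inj T.f, Gr.surj T.g, fun j x => ev (congrArg (fun t => t.hom) T.zero) j x,
    Gr.exact hT.exact⟩

theorem ke_twist (hf : f.IsHomogeneous 3) (hf0 : f ≠ 0) {d m : ℤ} (h : -1 ≤ d + m) :
    KE d [0, 1, 2, 3, 4] ((Sg k).obj (twistMod f m).obj) :=
  (mse_Pf (mem_Hom5_iff.mpr (isWH_wQ_iff.mpr hf)) hf0 m).ese.ke.2.2 (ke_P (by omega))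
    (ke_P (by omega))

theorem ke_Fr_aux (hf : f.IsHomogeneous 3) (hf0 : f ≠ 0) {ι : Type} [Fintype ι] {n : ι → ℤ}
    (t : Finset ι) : ∀ U : ι → Prop, (∀ a, U a → Even (n a) → a ∈ t ∧ n a ≤ 2 * (d + 1)) →
      KE d [0, 1, 2, 3, 4] ((Sg k).obj (Fr f n U).obj) := by
  classical
  induction t using Finset.induction_on with
  | empty =>
    intro U h
    refine ExGE.ke (exGE_sg (fun j _ x => ?_))
    exact (Fr_subsingleton (f := f) (n := n) (U := U) j (fun a ha => Or.inr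
      (Int.not_even_iff_odd.mp (fun he => by simpa using (h a ha he).1)))).elim _ _
  | insert a t _ ih =>
    intro U h
    by_cases ha : U a ∧ Even (n a)
    · obtain ⟨g, hg⟩ := ha.2
      obtain ⟨w, hw⟩ := Fr_ses (f := f) (n := n) (fun b => U b ∧ b = a) U (fun b => U b ∧ ¬ b = a)
        (fun b => b = a) (fun _ => Iff.rfl) (fun _ => Iff.rfl)
      obtain ⟨e⟩ := Fr_iso_twist (f := f) (n := n) (U := fun b => U b ∧ b = a) a g ⟨ha.1, rfl⟩
        (by omega) (fun b hb _ => hb.2)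
      have h1 := (h a ha.1 ha.2).2
      refine (mse_of_shortExact hw).ese.ke.1 ?_ (ih _ (fun b hb he => ⟨?_, (h b hb.1 he).2⟩))
      · exact KE.of_iso ((Sg k).mapIso ((IsGrMod f).ι.mapIso e.symm))
          (ke_twist hf hf0 (by omega))
      · exact (Finset.mem_insert.mp (h b hb.1 he).1).resolve_left hb.2
    · refine ih U (fun b hb he => ⟨?_, (h b hb he).2⟩)
      exact (Finset.mem_insert.mp (h b hb he).1).resolve_left (fun e => ha (e ▸ ⟨hb, he⟩))

end KEb

theorem ke_twistMod (hf : f.IsHomogeneous 3) (hf0 : f ≠ 0) {d m : ℤ} (h : -1 ≤ d + m) :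
    KE d [0, 1, 2, 3, 4] ((CochainComplex.singleFunctor (Amb k) 0).obj (twistMod f m).obj) :=
  KEb.ke_twist hf hf0 h

theorem ke_Fr (hf : f.IsHomogeneous 3) (hf0 : f ≠ 0) {ι : Type} [Fintype ι] {n : ι → ℤ}
    {U : ι → Prop} {d : ℤ} (h : ∀ a, U a → n a ≤ 2 * (d + 1)) :
    KE d [0, 1, 2, 3, 4] ((CochainComplex.singleFunctor (Amb k) 0).obj (Fr f n U).obj) :=
  KEb.ke_Fr_aux hf hf0 Finset.univ U (fun a ha _ => ⟨Finset.mem_univ a, h a ha⟩)

theorem ke_Φc (hf : f.IsHomogeneous 3) (hf0 : f ≠ 0) (E : MF f) :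
    KE (-1) [0, 1, 2, 3, 4] (amb (Φc E)) := by
  obtain ⟨i, q, w, hw⟩ := cx_ses E ((cvx_top E).and_up (up_not_GEi E 1)) (cvx_top E)
    (cvx_GEi E 1) (up_not_GEi E 1) (fun _ _ => Iff.rfl) (fun _ _ => by simp)
  refine (KE.ses (shortExact_amb hw)).2.2 (KE.of_terms (fun p => ?_)) (ExGE.ke ?_)
  · refine KEb.ke_Fr_aux hf hf0 Finset.univ _ (fun a ha he => ⟨Finset.mem_univ a, ?_⟩)
    obtain ⟨r, hr⟩ := he
    have := ha.2
    simp only [GEi, colν] at this hr ⊢
    omega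
  · exact (Gr.acyclic_iff _).mp (fun p => cx_exactAt hf0 E (cvx_top E) p
      (fun _ _ _ _ => trivial)) _

end Pool.Agent.Lib.MP_0ba2dd_ag
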