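import Pool.Agent.Lib.MP_0ba2dd_ag.H45KLa
import Pool.Agent.Lib.MP_0ba2dd_ag.H45KE

/-! The key lemma: morphisms in the derived category of the quotient. -/

namespace Pool.Agent.Lib.MP_0ba2dd_ag

open CategoryTheory Limits MvPolynomial Pretriangulated

universe u

variable {k : Type u} [Field k] {f : Q k}

variable {A : Type*} [Category A] [Abelian A] [HasDerivedCategory A] (π : Gr f ⥤ A) [π.Additive]
  [PreservesFiniteLimits π] [PreservesFiniteColimits π]

namespace KL

theorem ke_shift {d : ℤ} {l : List (Fin 5)} {T : CochainComplex (Gr f) ℤ} (h : KE d l (amb T))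
    (n : ℤ) : KE d l (amb (T⟦n⟧)) :=
  KE.of_iso ((((IsGrMod f).ι.mapHomologicalComplex (ComplexShape.up ℤ)).commShiftIso n).app T).symm
    ((KE.shift_iff n).2 h)

theorem map_neg_deg (M : Gr f) {i j : Deg k} (h : j.n < i.n) (p : i ⟶ j) : M.obj.map p = 0 := by
  have hp : p.1 = 0 := by
    by_contra h0
    obtain ⟨e, he⟩ := MvPolynomial.ne_zero_iff.1 h0
    have h1 : Finsupp.weight (fun _ : Fin 5 => (1 : ℤ)) e = j.n - i.n := p.2 he
    have h2 : 0 ≤ Finsupp.weight (fun _ : Fin 5 => (1 : ℤ)) e := by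
      rw [Finsupp.weight_apply, Finsupp.sum]
      exact Finset.sum_nonneg fun _ _ => by simp
    omega
  rw [M.property.2.1 i j 0 p p (by rw [hp, zero_smul]), zero_smul]

/-- Elements of degree at least `d`. -/
def trSub (d : ℤ) (M : Gr f) (j : Deg k) : Submodule k (M.obj.obj j) where
  carrier := {m | j.n < d → m = 0}
  add_mem' ha hb h := by rw [ha h, hb h, add_zero]
  zero_mem' _ := rfl
  smul_mem' r m hm h := by rw [hm h, smul_zero]

/-- The truncation of a module. -/
noncomputable def trObj (d : ℤ) (M : Gr f) : Gr f where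
  obj :=
    { obj := fun j => ModuleCat.of k (trSub d M j)
      map := fun {i j} p => ModuleCat.ofHom ((M.obj.map p).hom.restrict fun m hm hj => by
        by_cases hi : i.n < d
        · rw [hm hi, map_zero]
        · rw [map_neg_deg M (by omega) p]; rfl)
      map_id := fun i => by
        ext m
        change (M.obj.map (𝟙 i)) m.1 = m.1
        rw [M.obj.map_id]; rfl
      map_comp := fun p q => by
        ext m
        change (M.obj.map (p ≫ q)) m.1 = M.obj.map q (M.obj.map p m.1)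
        rw [M.obj.map_comp]; rfl }
  property := by
    refine ⟨fun i j p q s e => ?_, fun i j r p s e => ?_, fun i j p e => ?_⟩
    · ext m
      change M.obj.map s m.1 = M.obj.map p m.1 + M.obj.map q m.1
      rw [M.property.1 i j p q s e]; rfl
    · ext m
      change M.obj.map s m.1 = r • M.obj.map p m.1
      rw [M.property.2.1 i j r p s e]; rfl
    · ext m
      change M.obj.map p m.1 = 0
      rw [M.property.2.2 i j p e]; rfl

/-- The inclusion of the truncation. -/
noncomputable def trι (d : ℤ) (M : Gr f) : trObj d M ⟶ M :=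
  ObjectProperty.homMk
    { app := fun j => ModuleCat.ofHom (trSub d M j).subtype
      naturality := fun _ _ _ => rfl }

/-- Maps with values in degrees at least `d` lift to the truncation. -/
noncomputable def trLift (d : ℤ) {N M : Gr f} (φ : N ⟶ M)
    (h : ∀ (j : Deg k) (m : N.obj.obj j), j.n < d → φ.hom.app j m = 0) : N ⟶ trObj d M :=
  ObjectProperty.homMk
    { app := fun j => ModuleCat.ofHom ((φ.hom.app j).hom.codRestrict (trSub d M j) (h j))
      naturality := fun i j p => by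
        ext m
        exact Subtype.ext (Gr.nat φ p m) }

theorem trLift_ι (d : ℤ) {N M : Gr f} (φ : N ⟶ M)
    (h : ∀ (j : Deg k) (m : N.obj.obj j), j.n < d → φ.hom.app j m = 0) :
    trLift d φ h ≫ trι d M = φ := rfl

theorem mono_trι (d : ℤ) (M : Gr f) : Mono (trι d M) :=
  Gr.mono_of_inj _ fun _ => Subtype.val_injective

/-- The truncation of a complex. -/
noncomputable def trCx (d : ℤ) (S : CochainComplex (Gr f) ℤ) : CochainComplex (Gr f) ℤ where
  X p := trObj d (S.X p)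
  d p q := trLift d (trι d (S.X p) ≫ S.d p q) fun j m hj => by
    change (S.d p q).hom.app j m.1 = 0
    rw [m.2 hj, map_zero]
  shape p q h := by
    have := mono_trι d (S.X q)
    rw [← cancel_mono (trι d (S.X q)), trLift_ι, S.shape p q h, comp_zero, zero_comp]
  d_comp_d' p q r _ _ := by
    have := mono_trι d (S.X r)
    rw [← cancel_mono (trι d (S.X r)), Category.assoc, trLift_ι, ← Category.assoc, trLift_ι,
      Category.assoc, S.d_comp_d, comp_zero, zero_comp]

theorem trCx_acyclic {d : ℤ} {S : CochainComplex (Gr f) ℤ} (h : ExGE d (amb S)) :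
    (trCx d S).Acyclic := by
  refine (Gr.acyclic_iff _).2 fun d' j _ p q r hp hq y hy => ?_
  by_cases hj : j.n < d
  · exact ⟨0, (map_zero _).trans (Subtype.ext (y.2 hj).symm)⟩
  · obtain ⟨x, hx⟩ := h j (by omega) p q r hp hq y.1 (congrArg Subtype.val hy)
    exact ⟨⟨x, fun h' => absurd h' hj⟩, Subtype.ext hx⟩

theorem comp_ap {M N P : Gr f} (φ : M ⟶ N) (ψ : N ⟶ P) (j : Deg k) (m : M.obj.obj j) :
    (φ ≫ ψ).hom.app j m = ψ.hom.app j (φ.hom.app j m) := rfl

theorem eq_ap {M N : Gr f} {φ ψ : M ⟶ N} (h : φ = ψ) (j : Deg k) (m : M.obj.obj j) :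
    φ.hom.app j m = ψ.hom.app j m := by rw [h]

theorem map_map (M : Gr f) {i j l : Deg k} (p : i ⟶ j) (q : j ⟶ l) (m : M.obj.obj i) :
    M.obj.map (p ≫ q) m = M.obj.map q (M.obj.map p m) := by
  rw [M.obj.map_comp]; rfl

/-- The morphism `s` is a power of `x_a`. -/
def IsPow (a : Fin 5) {i j : Deg k} (s : i ⟶ j) : Prop := ∃ n : ℕ, s.1 = X a ^ n

theorem IsPow.comp {a : Fin 5} {i j l : Deg k} {s : i ⟶ j} {t : j ⟶ l} (hs : IsPow a s)
    (ht : IsPow a t) : IsPow a (s ≫ t) := by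
  obtain ⟨n, hn⟩ := hs
  obtain ⟨m, hm⟩ := ht
  exact ⟨n + m, show s.1 * t.1 = _ by rw [hn, hm, pow_add]⟩

theorem isPow_xpow (a : Fin 5) (n : ℕ) (i : Deg k) : IsPow a (xpow a n i) := ⟨n, rfl⟩

theorem pow_mem (a : Fin 5) (n : ℕ) {d : ℤ} (h : d = n) : (X a ^ n : Q k) ∈ Hom5 k d := by
  rw [h]
  simpa using (isWeightedHomogeneous_X k (fun _ => (1 : ℤ)) a).pow n

theorem mem_all (a : Fin 5) : a ∈ ([0, 1, 2, 3, 4] : List (Fin 5)) := by
  revert a; decide

theorem IsPow.deg {a : Fin 5} {i j : Deg k} {s : i ⟶ j} {n : ℕ} (h : s.1 = X a ^ n) :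
    j = ⟨i.n + n⟩ := by
  have h1 : IsWeightedHomogeneous (fun _ : Fin 5 => (1 : ℤ)) (X a ^ n : Q k) (j.n - i.n) :=
    h ▸ s.2
  have h2 : IsWeightedHomogeneous (fun _ : Fin 5 => (1 : ℤ)) (X a ^ n : Q k) (i.n + n - i.n) :=
    (xpow a n i).2
  have h3 := IsWeightedHomogeneous.inj_right (pow_ne_zero n (X_ne_zero a)) h1 h2
  cases j
  simp only [Deg.mk.injEq] at h3 ⊢
  omega

theorem IsPow.bij {a : Fin 5} {M : Gr f} (hM : Inv a M.obj) {i j : Deg k} {s : i ⟶ j}
    (hs : IsPow a s) : Function.Bijective (M.obj.map s) := by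
  obtain ⟨n, hn⟩ := hs
  induction n generalizing i with
  | zero =>
    obtain rfl : i = j := by rw [IsPow.deg hn]; cases i; simp
    rw [show s = 𝟙 i from Subtype.ext (hn.trans (pow_zero _)), M.obj.map_id]
    exact Function.bijective_id
  | succ n ih =>
    have hj := IsPow.deg hn
    let t : (⟨i.n + 1⟩ : Deg k) ⟶ j := ⟨X a ^ n, pow_mem a n (by rw [hj]; push_cast; ring)⟩
    have e : s = xone a i ≫ t := Subtype.ext (hn.trans (pow_succ' _ _))
    rw [e, M.obj.map_comp]
    exact (ih (s := t) rfl).comp (hM i)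

/-- Flexible form of torsion cohomology. -/
def TH (a : Fin 5) (Y : CochainComplex (Gr f) ℤ) : Prop :=
  ∀ (j : Deg k) (p q r : ℤ), p + 1 = q → q + 1 = r → ∀ y : (Y.X q).obj.obj j,
    (Y.d q r).hom.app j y = 0 → ∃ (j' : Deg k) (s : j ⟶ j') (x : (Y.X p).obj.obj j'),
      IsPow a s ∧ (Y.d p q).hom.app j' x = (Y.X q).obj.map s y

theorem TH.torsH {a : Fin 5} {Y : CochainComplex (Gr f) ℤ} (h : TH a Y) : TorsH a (amb Y) := by
  intro j p q r hp hq y hy
  obtain ⟨j', s, x, ⟨n, hn⟩, e⟩ := h j p q r hp hq y hy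
  obtain rfl := IsPow.deg hn
  obtain rfl : s = xpow a n j := Subtype.ext hn
  exact ⟨n, x, e⟩

open CochainComplex in
theorem th_cone {B B' : CochainComplex (Gr f) ℤ} (φ : B ⟶ B') (a : Fin 5)
    (h : ∀ (j : Deg k) (p q r r' : ℤ), p + 1 = q → q + 1 = r → r + 1 = r' →
      ∀ (m : (B.X r).obj.obj j) (z : (B'.X q).obj.obj j), (B.d r r').hom.app j m = 0 →
      (φ.f r).hom.app j m + (B'.d q r).hom.app j z = 0 →
      ∃ (j' : Deg k) (s : j ⟶ j') (m' : (B.X q).obj.obj j') (z' : (B'.X p).obj.obj j'),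
        IsPow a s ∧ -(B.d q r).hom.app j' m' = (B.X r).obj.map s m ∧
        (φ.f q).hom.app j' m' + (B'.d p q).hom.app j' z' = (B'.X q).obj.map s z) :
    TH a (mappingCone φ) := by
  intro j p q r hp hq y hy
  have e1 := eq_ap (mappingCone.d_fst_v φ q r (r + 1) hq rfl) j y
  have e2 := eq_ap (mappingCone.d_snd_v φ q r hq) j y
  have e3 := eq_ap (mappingCone.id_X φ q r hq) j y
  rw [comp_ap, hy, map_zero] at e1 e2
  obtain ⟨j', s, m', z', hs, h1, h2⟩ := h j p q r (r + 1) hp hq rfl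
    (((mappingCone.fst φ).1.v q r hq).hom.app j y)
    (((mappingCone.snd φ).v q q (add_zero q)).hom.app j y) (neg_eq_zero.1 e1.symm) e2.symm
  refine ⟨j', s, ((mappingCone.inl φ).v q p (by omega)).hom.app j' m' +
    ((mappingCone.inr φ).f p).hom.app j' z', hs, ?_⟩
  have e4 : ((mappingCone φ).d p q).hom.app j'
      (((mappingCone.inl φ).v q p (by omega)).hom.app j' m') =
      ((mappingCone.inr φ).f q).hom.app j' ((φ.f q).hom.app j' m') -
      ((mappingCone.inl φ).v r q (by omega)).hom.app j' ((B.d q r).hom.app j' m') :=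
    eq_ap (mappingCone.inl_v_d φ q p r (by omega) (by omega)) j' m'
  have e5 : ((mappingCone φ).d p q).hom.app j' (((mappingCone.inr φ).f p).hom.app j' z') =
      ((mappingCone.inr φ).f q).hom.app j' ((B'.d p q).hom.app j' z') :=
    eq_ap (mappingCone.inr_f_d φ p q) j' z'
  have e6 : ((mappingCone.inl φ).v r q (by omega)).hom.app j
      (((mappingCone.fst φ).1.v q r hq).hom.app j y) + ((mappingCone.inr φ).f q).hom.app j
      (((mappingCone.snd φ).v q q (add_zero q)).hom.app j y) = y := e3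
  have e7 := congrArg (((mappingCone φ).X q).obj.map s) e6
  rw [map_add, ← Gr.nat ((mappingCone.inl φ).v r q _), ← Gr.nat ((mappingCone.inr φ).f q), ← h1,
    ← h2, map_add, map_neg] at e7
  rw [map_add, e4, e5, ← e7]
  abel

theorem d_nat {B B' : CochainComplex (Gr f) ℤ} (φ : B ⟶ B') (p q : ℤ) (j : Deg k)
    (m : (B.X p).obj.obj j) : (B'.d p q).hom.app j ((φ.f p).hom.app j m) =
      (φ.f q).hom.app j ((B.d p q).hom.app j m) :=
  eq_ap (φ.comm p q) j m

theorem th_cone_both {B B' : CochainComplex (Gr f) ℤ} (φ : B ⟶ B') {a : Fin 5} (h : TH a B)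
    (h' : TH a B') : TH a (CochainComplex.mappingCone φ) := by
  refine th_cone φ a fun j p q r r' hp hq hr m z h1 h2 => ?_
  obtain ⟨j₁, s₁, m₁, hs₁, e₁⟩ := h j q r r' hq hr m h1
  obtain ⟨j₂, s₂, z', hs₂, e₂⟩ := h' j₁ p q r hp hq
    ((B'.X q).obj.map s₁ z + (φ.f q).hom.app j₁ m₁) (by
      rw [map_add, d_nat, e₁, Gr.nat, Gr.nat, ← map_add, add_comm, h2, map_zero])
  refine ⟨j₂, s₁ ≫ s₂, -(B.X q).obj.map s₂ m₁, z', hs₁.comp hs₂, ?_, ?_⟩
  · rw [map_neg, neg_neg, Gr.nat, e₁, map_map]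
  · rw [e₂, map_neg, Gr.nat, map_add, map_map]; abel

section Loc

variable {B B' : CochainComplex (Gr f) ℤ} (φ : B ⟶ B') {a : Fin 5}
  (hk : ∀ (p : ℤ) (i : Deg k) (m : (B.X p).obj.obj i), (φ.f p).hom.app i m = 0 →
    ∃ n : ℕ, (B.X p).obj.map (xpow a n i) m = 0)
  (hc : ∀ (p : ℤ) (i : Deg k) (z : (B'.X p).obj.obj i), ∃ (n : ℕ) (m : (B.X p).obj.obj ⟨i.n + n⟩),
    (φ.f p).hom.app _ m = (B'.X p).obj.map (xpow a n i) z)

include hk hc

theorem th_cone_loc : TH a (CochainComplex.mappingCone φ) := by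
  refine th_cone φ a fun j p q r r' hp hq hr m z h1 h2 => ?_
  obtain ⟨n, m₁, e₁⟩ := hc q j z
  obtain ⟨n', e₂⟩ := hk r _ ((B.X r).obj.map (xpow a n j) m + (B.d q r).hom.app _ m₁) (by
    rw [map_add, ← d_nat, e₁, Gr.nat, Gr.nat, ← map_add, h2, map_zero])
  refine ⟨_, xpow a n j ≫ xpow a n' _, (B.X q).obj.map (xpow a n' _) m₁, 0,
    (isPow_xpow _ _ _).comp (isPow_xpow _ _ _), ?_, ?_⟩
  · rw [map_add] at e₂
    rw [Gr.nat, map_map, neg_eq_iff_add_eq_zero]
    exact (add_comm _ _).trans e₂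
  · rw [map_zero, add_zero, Gr.nat, e₁, map_map]

theorem th_loc (hi : ∀ p, Inv a (B'.X p).obj) {b : Fin 5} (h : TH b B) : TH b B' := by
  intro j p q r hp hq y hy
  obtain ⟨n, m, e₁⟩ := hc q j y
  obtain ⟨n', e₂⟩ := hk r _ ((B.d q r).hom.app _ m) (by
    rw [← d_nat, e₁, Gr.nat, hy, map_zero])
  obtain ⟨j₂, s, w, ⟨N, hN⟩, e₃⟩ := h _ p q r hp hq ((B.X q).obj.map (xpow a n' _) m) (by
    rw [Gr.nat, e₂])
  have hj := IsPow.deg hN
  let t : (⟨j.n + N⟩ : Deg k) ⟶ j₂ := ⟨X a ^ (n + n'), pow_mem a _ (by rw [hj]; push_cast; ring)⟩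
  have ht : IsPow a t := ⟨_, rfl⟩
  obtain ⟨w', hw'⟩ := (ht.bij (hi p)).2 ((φ.f p).hom.app j₂ w)
  refine ⟨_, xpow b N j, w', isPow_xpow _ _ _, (ht.bij (hi q)).1 ?_⟩
  have e : xpow b N j ≫ t = xpow a n j ≫ xpow a n' _ ≫ s := Subtype.ext (by
    change X b ^ N * X a ^ (n + n') = X a ^ n * (X a ^ n' * s.1)
    rw [hN]; ring)
  rw [← Gr.nat, hw', d_nat, e₃, Gr.nat, Gr.nat, e₁, ← map_map, ← map_map, ← map_map, e]

end Loc

theorem bij_iso {C D : Type*} [Category C] [Category D] (F : C ⥤ D) {Y B B' : C} (e : B ≅ B')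
    (h : Function.Bijective (fun φ : Y ⟶ B' => F.map φ)) :
    Function.Bijective (fun φ : Y ⟶ B => F.map φ) := by
  constructor
  · intro φ ψ e'
    have e'' : F.map φ = F.map ψ := e'
    have : φ ≫ e.hom = ψ ≫ e.hom := h.1 (by simp only [F.map_comp, e''])
    exact (cancel_mono e.hom).1 this
  · intro ψ
    obtain ⟨φ, hφ⟩ := h.2 (ψ ≫ F.map e.hom)
    refine ⟨φ ≫ e.inv, ?_⟩
    have hφ' : F.map φ = ψ ≫ F.map e.hom := hφ
    simp only [F.map_comp, hφ', Category.assoc, ← F.map_comp e.hom, e.hom_inv_id, F.map_id,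
      Category.comp_id]

end KL

theorem XGE.shift {d : ℤ} {Y : DerivedCategory (Gr f)} (h : XGE f d Y) (n : ℤ) :
    XGE f d (Y⟦n⟧) := by
  intro T hT φ
  have h1 := h (T⟦-n⟧) (KL.ke_shift (l := []) hT (-n))
    ((shiftFunctorCompIsoId _ n (-n) (add_neg_cancel n)).inv.app Y ≫ φ⟦-n⟧' ≫
      (DerivedCategory.Q.commShiftIso (-n)).inv.app T)
  rw [Preadditive.IsIso.comp_left_eq_zero, Preadditive.IsIso.comp_right_eq_zero] at h1
  exact (shiftFunctor _ (-n)).map_injective (by rw [h1, Functor.map_zero])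

theorem XGE.of_iso {d : ℤ} {Y Y' : DerivedCategory (Gr f)} (e : Y ≅ Y') (h : XGE f d Y) :
    XGE f d Y' := by
  intro T hT φ
  have h1 := h T hT (e.hom ≫ φ)
  rwa [Preadditive.IsIso.comp_left_eq_zero] at h1

theorem xge_of_kproj {d : ℤ} (T : CochainComplex (Gr f) ℤ) [T.IsKProjective]
    (h : ∀ (p : ℤ) (j : Deg k), j.n < d → Subsingleton ((T.X p).obj.obj j)) :
    XGE f d (DerivedCategory.Q.obj T) := by
  intro S hS φ
  obtain ⟨g, hg⟩ := (CochainComplex.IsKProjective.Qh_map_bijective T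
    ((HomotopyCategory.quotient _ _).obj S)).2
    ((DerivedCategory.quotientCompQhIso _).hom.app T ≫ φ ≫
      (DerivedCategory.quotientCompQhIso _).inv.app S)
  obtain ⟨g, rfl⟩ := (HomotopyCategory.quotient _ _).map_surjective g
  let g' : T ⟶ KL.trCx d S :=
    { f := fun p => KL.trLift d (g.f p) fun j m hj => by
        have := h p j hj
        rw [Subsingleton.elim m 0, map_zero]
      comm' := fun p q _ => by
        have := KL.mono_trι d (S.X q)
        exact (cancel_mono (KL.trι d (S.X q))).1 (g.comm p q) }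
  let i : KL.trCx d S ⟶ S := { f := fun p => KL.trι d (S.X p), comm' := fun _ _ _ => rfl }
  have e : g = g' ≫ i := rfl
  have h0 : DerivedCategory.Q.map g = 0 := by
    rw [e, Functor.map_comp, DerivedCategory.Q_map_eq_of_homotopy _
      (CochainComplex.IsKProjective.homotopyZero g' (KL.trCx_acyclic hS)), Functor.map_zero,
      zero_comp]
  have h1 := (DerivedCategory.quotientCompQhIso (Gr f)).hom.naturality g
  rw [Functor.comp_map, hg, h0, comp_zero, Preadditive.IsIso.comp_right_eq_zero, Preadditive.IsIso.comp_left_eq_zero,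
    Preadditive.IsIso.comp_right_eq_zero] at h1
  exact h1

theorem KL.key_aux [π.IsLocalization (Tors f).isoModSerre] {d : ℤ} (l : List (Fin 5)) :
    ∀ B : CochainComplex (Gr f) ℤ, KE d [0, 1, 2, 3, 4] (amb B) → (∀ a, a ∈ l ∨ KL.TH a B) →
      ∀ Y, XGE f d Y → Function.Bijective
        (fun φ : Y ⟶ DerivedCategory.Q.obj B => π.mapDerivedCategory.map φ) := by
  induction l with
  | nil =>
    intro B hB ht Y hY
    have ht' : ∀ a, TorsH a (amb B) := fun a => ((ht a).resolve_left List.not_mem_nil).torsH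
    have h1 := hY B (hB.exGE_of_tors fun a _ => ht' a)
    have h2 := isZero_PD_of_tors π B ht'
    exact ⟨fun φ ψ _ => (h1 φ).trans (h1 ψ).symm, fun ψ => ⟨0, h2.eq_of_tgt _ _⟩⟩
  | cons a l ih =>
    intro B hB ht
    obtain ⟨L, η, _, -, -, hi, hk, hc⟩ := exists_loc f a
    let B' : CochainComplex (Gr f) ℤ := (L.mapHomologicalComplex _).obj B
    let φ : B ⟶ B' := { f := fun p => η.app (B.X p), comm' := fun p q _ => (η.naturality _).symm }
    have hS := shortExact_amb (HomologicalComplex.shortExact_of_degreewise_shortExact _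
      fun n => (CochainComplex.mappingCone.triangleRotateShortComplexSplitting φ n).shortExact)
    have hC : KE d [0, 1, 2, 3, 4] (amb (CochainComplex.mappingCone φ)) :=
      (KE.ses hS).1 (KE.of_inv (KL.mem_all a) fun p => hi (B.X p)) (KL.ke_shift hB 1)
    have h3 := ih _ hC fun b => by
      rcases ht b with h | h
      · rcases List.mem_cons.1 h with rfl | h
        · exact Or.inr (KL.th_cone_loc φ (fun p => hk (B.X p)) fun p => hc (B.X p))
        · exact Or.inl h
      · exact Or.inr (KL.th_cone_both φ h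
          (KL.th_loc φ (fun p => hk (B.X p)) (fun p => hc (B.X p)) (fun p => hi (B.X p)) h))
    have := bij_ses π.mapDerivedCategory (XGE f d) fun Y n h => h.shift n
    obtain ⟨Z, hZ, ⟨e⟩⟩ := ObjectProperty.ext_of_isTriangulatedClosed₁'
      (fun B : DerivedCategory (Gr f) => ∀ Y, XGE f d Y →
        Function.Bijective (fun φ : Y ⟶ B => π.mapDerivedCategory.map φ)) _
      (DerivedCategory.mappingCone_triangle_distinguished φ)
      (fun Y _ => bij_of_inv π a B' (fun p => hi (B.X p)) Y) h3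
    exact fun Y hY => KL.bij_iso _ e (hZ Y hY)

theorem key_lemma [π.IsLocalization (Tors f).isoModSerre] {d : ℤ} {Y : DerivedCategory (Gr f)}
    (hY : XGE f d Y) (B : CochainComplex (Gr f) ℤ) (hB : KE d [0, 1, 2, 3, 4] (amb B)) :
    Function.Bijective
      (fun φ : Y ⟶ DerivedCategory.Q.obj B => π.mapDerivedCategory.map φ) :=
  KL.key_aux π [0, 1, 2, 3, 4] B hB (fun a => Or.inl (KL.mem_all a)) Y hY

end Pool.Agent.Lib.MP_0ba2dd_ag
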