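import Pool.Agent.Lib.MP_0ba2dd_ag.H45Loc

/-! Morphisms in the derived category of the quotient: local targets. -/

namespace Pool.Agent.Lib.MP_0ba2dd_ag

open CategoryTheory Limits MvPolynomial Pretriangulated

universe u

variable {k : Type u} [Field k] {f : Q k}

variable {A : Type*} [Category A] [Abelian A] [HasDerivedCategory A] (π : Gr f ⥤ A) [π.Additive]
  [PreservesFiniteLimits π] [PreservesFiniteColimits π]

section General

variable {C D E : Type*} [Category C] [Category D] [Category E]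

/-- The functor is bijective on morphisms from `Y` to `B`. -/
def Bij (F : C ⥤ D) (Y B : C) : Prop := Function.Bijective (fun φ : Y ⟶ B => F.map φ)

theorem Bij.comp {F : C ⥤ D} {G : D ⥤ E} {Y B : C} (h : Bij F Y B)
    (h' : Bij G (F.obj Y) (F.obj B)) : Bij (F ⋙ G) Y B :=
  Function.Bijective.comp (g := fun φ : F.obj Y ⟶ F.obj B => G.map φ)
    (f := fun φ : Y ⟶ B => F.map φ) h' h

theorem Bij.of_comp {F : C ⥤ D} {G : D ⥤ E} {Y B : C} (h : Bij F Y B) (h' : Bij (F ⋙ G) Y B) :
    Bij G (F.obj Y) (F.obj B) :=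
  (Function.Bijective.of_comp_iff (fun φ : F.obj Y ⟶ F.obj B => G.map φ) h).mp h'

theorem Bij.of_ff (F : C ⥤ D) [F.Full] [F.Faithful] (Y B : C) : Bij F Y B :=
  ⟨F.map_injective, F.map_surjective⟩

theorem Bij.of_natIso {F F' : C ⥤ D} (e : F ≅ F') {Y B : C} (h : Bij F Y B) : Bij F' Y B := by
  have : (fun φ : Y ⟶ B => F'.map φ) =
      (Iso.homCongr (e.app Y) (e.app B)) ∘ (fun φ : Y ⟶ B => F.map φ) := by
    funext φ
    simp
  rw [Bij, this]
  exact (Equiv.bijective _).comp h

theorem Bij.of_iso {F : C ⥤ D} {Y Y' B B' : C} (e : Y ≅ Y') (e' : B ≅ B') (h : Bij F Y B) :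
    Bij F Y' B' := by
  have : (fun φ : Y' ⟶ B' => F.map φ) = (Iso.homCongr (F.mapIso e) (F.mapIso e')) ∘
      (fun φ : Y ⟶ B => F.map φ) ∘ (Iso.homCongr e e').symm := by
    funext φ
    simp [Iso.homCongr]
  rw [Bij, this]
  exact (Equiv.bijective _).comp (Function.Bijective.comp h (Equiv.bijective _))

theorem Bij.shift [HasShift C ℤ] [HasShift D ℤ] {F : C ⥤ D} [F.CommShift ℤ] {Y B : C}
    (h : Bij F Y B) (n : ℤ) : Bij F (Y⟦n⟧) (B⟦n⟧) :=
  (Bij.of_ff (shiftFunctor C n) Y B).of_comp
    ((h.comp (Bij.of_ff (shiftFunctor D n) _ _)).of_natIso (F.commShiftIso n).symm)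

/-- A target on which the unit is invertible. -/
theorem bij_of_unit {F : C ⥤ D} {G : D ⥤ C} (η : 𝟭 C ⟶ F ⋙ G) (θ : 𝟭 D ⟶ G ⋙ F)
    (h : ∀ X, θ.app (F.obj X) = F.map (η.app X)) (Y B : C) [IsIso (η.app B)] : Bij F Y B := by
  refine ⟨fun φ φ' e => ?_, fun ψ => ⟨η.app Y ≫ G.map ψ ≫ inv (η.app B), ?_⟩⟩
  · have e' : F.map φ = F.map φ' := e
    have h1 : φ ≫ η.app B = η.app Y ≫ G.map (F.map φ) := η.naturality φ
    have h2 : φ' ≫ η.app B = η.app Y ≫ G.map (F.map φ') := η.naturality φ'
    rw [← cancel_mono (η.app B), h1, h2, e']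
  · have h1 : ψ ≫ θ.app (F.obj B) = θ.app (F.obj Y) ≫ F.map (G.map ψ) := θ.naturality ψ
    rw [h, h] at h1
    change F.map _ = ψ
    rw [F.map_comp, F.map_comp, ← Category.assoc, ← h1, Category.assoc, ← F.map_comp,
      IsIso.hom_inv_id]
    exact (congrArg (fun t => ψ ≫ t) (F.map_id B)).trans (Category.comp_id _)

end General

section Derived

variable {C D : Type*} [Category C] [Category D] [Abelian C] [Abelian D]
  {F : C ⥤ D} {G : D ⥤ C} [F.Additive] [G.Additive]

/-- A unit on the level of complexes. -/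
noncomputable def cxNat (η : 𝟭 C ⟶ F ⋙ G) : 𝟭 (CochainComplex C ℤ) ⟶
    F.mapHomologicalComplex (ComplexShape.up ℤ) ⋙ G.mapHomologicalComplex (ComplexShape.up ℤ) where
  app K :=
    { f := fun p => η.app (K.X p)
      comm' := fun p q _ => (η.naturality (K.d p q)).symm }
  naturality K K' φ := by
    ext p
    exact η.naturality (φ.f p)

variable [HasDerivedCategory C] [HasDerivedCategory D] [PreservesFiniteLimits F]
  [PreservesFiniteColimits F] [PreservesFiniteLimits G] [PreservesFiniteColimits G]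

theorem exists_derNat (η : 𝟭 C ⟶ F ⋙ G) :
    ∃ τ : 𝟭 (DerivedCategory C) ⟶ F.mapDerivedCategory ⋙ G.mapDerivedCategory,
      ∀ K : CochainComplex C ℤ, τ.app (DerivedCategory.Q.obj K) =
        DerivedCategory.Q.map ((cxNat η).app K) ≫ G.mapDerivedCategoryFactors.inv.app _ ≫
          G.mapDerivedCategory.map (F.mapDerivedCategoryFactors.inv.app K) := by
  have := Localization.full_whiskeringLeft (DerivedCategory.Q (C := C))
    (HomologicalComplex.quasiIso C (ComplexShape.up ℤ)) (DerivedCategory C)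
  let α : DerivedCategory.Q ⋙ 𝟭 (DerivedCategory C) ⟶
      DerivedCategory.Q ⋙ F.mapDerivedCategory ⋙ G.mapDerivedCategory :=
    { app := fun K => DerivedCategory.Q.map ((cxNat η).app K) ≫
        G.mapDerivedCategoryFactors.inv.app _ ≫
          G.mapDerivedCategory.map (F.mapDerivedCategoryFactors.inv.app K)
      naturality := fun K K' φ => by
        have h1 := congrArg DerivedCategory.Q.map ((cxNat η).naturality φ)
        have h2 := G.mapDerivedCategoryFactors.inv.naturality
          ((F.mapHomologicalComplex (ComplexShape.up ℤ)).map φ)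
        have h3 := congrArg G.mapDerivedCategory.map (F.mapDerivedCategoryFactors.inv.naturality φ)
        simp only [Functor.map_comp, Functor.comp_map, Functor.id_map] at h1 h2 h3 ⊢
        rw [reassoc_of% h1, reassoc_of% h2, h3, Category.assoc, Category.assoc] }
  obtain ⟨τ, hτ⟩ := ((Functor.whiskeringLeft _ _ (DerivedCategory C)).obj
    (DerivedCategory.Q (C := C))).map_surjective α
  exact ⟨τ, fun K => NatTrans.congr_app hτ K⟩

theorem bij_derived (η : 𝟭 C ⟶ F ⋙ G) (θ : 𝟭 D ⟶ G ⋙ F)
    (h : ∀ X, θ.app (F.obj X) = F.map (η.app X)) (B : CochainComplex C ℤ)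
    (hB : ∀ p, IsIso (η.app (B.X p))) (Y : DerivedCategory C) :
    Bij F.mapDerivedCategory Y (DerivedCategory.Q.obj B) := by
  obtain ⟨τ, hτ⟩ := exists_derNat η
  obtain ⟨σ, hσ⟩ := exists_derNat θ
  have : IsIso ((cxNat η).app B) := by
    have : ∀ p, IsIso (((cxNat η).app B).f p) := hB
    exact HomologicalComplex.Hom.isIso_of_components _
  have : IsIso (τ.app (DerivedCategory.Q.obj B)) := by
    rw [hτ]
    infer_instance
  refine bij_of_unit τ σ ?_ Y _
  have key : ∀ K : CochainComplex C ℤ,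
      σ.app (F.mapDerivedCategory.obj (DerivedCategory.Q.obj K)) =
        F.mapDerivedCategory.map (τ.app (DerivedCategory.Q.obj K)) := by
    intro K
    have h1 := σ.naturality (F.mapDerivedCategoryFactors.inv.app K)
    have h2 : (cxNat θ).app ((F.mapHomologicalComplex (ComplexShape.up ℤ)).obj K) =
        (F.mapHomologicalComplex (ComplexShape.up ℤ)).map ((cxNat η).app K) := by
      ext p
      exact h (K.X p)
    have h3 := F.mapDerivedCategoryFactors.inv.naturality ((cxNat η).app K)
    simp only [Functor.comp_obj, Functor.comp_map, Functor.id_map, Functor.id_obj] at h1 h3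
    rw [← cancel_epi (F.mapDerivedCategoryFactors.inv.app K)]
    refine h1.trans ?_
    rw [hσ, hτ, h2, Functor.map_comp, Functor.map_comp, Category.assoc, Category.assoc,
      reassoc_of% h3]
  intro X
  have e : (Functor.leftUnitor _).inv ≫ (Functor.leftUnitor _).hom ≫
      (Functor.rightUnitor _).inv ≫ Functor.whiskerLeft F.mapDerivedCategory σ =
      (Functor.leftUnitor _).inv ≫ Functor.whiskerRight τ F.mapDerivedCategory ≫
        (Functor.associator _ _ _).hom :=
    Localization.natTrans_ext DerivedCategory.Q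
      (HomologicalComplex.quasiIso C (ComplexShape.up ℤ)) (fun K => by simpa using key K)
  simpa using NatTrans.congr_app e X

end Derived

/-- The class of targets on which the derived functor is bijective on morphisms from all
objects of a shift-stable class is triangulated (five lemma). -/
theorem bij_ses {C D : Type*} [Category C] [Category D] [HasZeroObject C] [HasZeroObject D]
    [HasShift C ℤ] [HasShift D ℤ] [Preadditive C] [Preadditive D]
    [∀ n : ℤ, (shiftFunctor C n).Additive] [∀ n : ℤ, (shiftFunctor D n).Additive]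
    [Pretriangulated C] [Pretriangulated D] (F : C ⥤ D) [F.CommShift ℤ] [F.IsTriangulated]
    (𝒳 : ObjectProperty C) (h𝒳 : ∀ Y (n : ℤ), 𝒳 Y → 𝒳 (Y⟦n⟧)) :
    ObjectProperty.IsTriangulated
      (fun B : C => ∀ Y, 𝒳 Y → Function.Bijective (fun φ : Y ⟶ B => F.map φ)) := by
  have hs : ∀ (B : C) (n : ℤ), (∀ Y, 𝒳 Y → Bij F Y B) → ∀ Y, 𝒳 Y → Bij F Y (B⟦n⟧) :=
    fun B n h Y hY => ((h _ (h𝒳 Y (-n) hY)).shift n).of_iso (shiftNegShift Y n) (Iso.refl _)
  have inj0 : ∀ {Y B : C}, Bij F Y B → ∀ φ : Y ⟶ B, F.map φ = 0 → φ = 0 :=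
    fun h φ e => h.1 (e.trans (F.map_zero _ _).symm)
  exact
    { exists_zero := ⟨_, isZero_zero C, fun Y _ =>
        ⟨fun φ φ' _ => (isZero_zero C).eq_of_tgt _ _,
          fun ψ => ⟨0, (F.map_isZero (isZero_zero C)).eq_of_tgt _ _⟩⟩⟩
      isStableUnderShiftBy := fun n => ⟨fun B h => hs B n h⟩
      ext₂' := fun T hT h₁ h₃ => ObjectProperty.le_isoClosure _ _ (fun Y hY => by
        refine ⟨(injective_iff_map_eq_zero (F.mapAddHom (X := Y) (Y := T.obj₂))).mpr
          (fun φ hφ => ?_), fun ψ => ?_⟩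
        · have hφ' : F.map φ = 0 := hφ
          obtain ⟨β, rfl⟩ := Triangle.coyoneda_exact₂ T hT φ
            (inj0 (h₃ Y hY) _ (by rw [F.map_comp, hφ', zero_comp]))
          have hT' := inv_rot_of_distTriang T hT
          obtain ⟨χ, hχ⟩ := Triangle.coyoneda_exact₂ _ (F.map_distinguished _ hT') (F.map β)
            ((F.map_comp β T.mor₁).symm.trans hφ')
          obtain ⟨χ', rfl⟩ := (hs _ (-1) h₃ Y hY).2 χ
          have e : β = χ' ≫ T.invRotate.mor₁ :=
            (h₁ Y hY).1 (hχ.trans (F.map_comp χ' T.invRotate.mor₁).symm)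
          rw [e]
          exact (Category.assoc _ _ _).trans
            ((congrArg (fun t => χ' ≫ t) (comp_distTriang_mor_zero₁₂ _ hT')).trans comp_zero)
        · obtain ⟨α, hα⟩ := (h₃ Y hY).2 (ψ ≫ F.map T.mor₂)
          have hα' : F.map α = ψ ≫ F.map T.mor₂ := hα
          obtain ⟨β, rfl⟩ := Triangle.coyoneda_exact₃ T hT α
            (inj0 (hs _ 1 h₁ Y hY) _ (by
              rw [F.map_comp, hα', Category.assoc, ← F.map_comp,
                comp_distTriang_mor_zero₂₃ _ hT, F.map_zero, comp_zero]))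
          obtain ⟨γ, hγ⟩ := Triangle.coyoneda_exact₂ _ (F.map_distinguished _ hT) (ψ - F.map β)
            (by
              change (ψ - F.map β) ≫ F.map T.mor₂ = 0
              rw [Preadditive.sub_comp, ← hα', F.map_comp, sub_self])
          obtain ⟨γ', rfl⟩ := (h₁ Y hY).2 γ
          have hγ' : ψ - F.map β = F.map γ' ≫ F.map T.mor₁ := hγ
          refine ⟨β + γ' ≫ T.mor₁, ?_⟩
          change F.map (β + γ' ≫ T.mor₁) = ψ
          rw [F.map_add, F.map_comp, ← hγ', add_sub_cancel]) }

theorem Inv.bij_pow {a : Fin 5} {M : Amb k} (h : Inv a M) (n : ℕ) {i j : Deg k}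
    (hj : j.n = i.n + n) (p : i ⟶ j) (hp : p.1 = X a ^ n) : Function.Bijective (M.map p) := by
  induction n generalizing j with
  | zero =>
    obtain ⟨i⟩ := i
    obtain ⟨j⟩ := j
    obtain rfl : j = i := by simpa using hj
    have : p = 𝟙 _ := Subtype.ext (hp.trans (pow_zero _))
    rw [this, M.map_id]
    exact Function.bijective_id
  | succ n ih =>
    obtain ⟨j⟩ := j
    obtain rfl : j = i.n + n + 1 := by rw [show j = i.n + (n + 1 : ℕ) from hj]; push_cast; ring
    have : p = xpow a n i ≫ xone a ⟨i.n + n⟩ := Subtype.ext (hp.trans (pow_succ _ _))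
    rw [this, M.map_comp]
    exact (h ⟨i.n + n⟩).comp (ih rfl (xpow a n i) rfl)

theorem Inv.bij_xpow {a : Fin 5} {M : Amb k} (h : Inv a M) (n : ℕ) (i : Deg k) :
    Function.Bijective (M.map (xpow a n i)) := h.bij_pow n rfl _ rfl

theorem bij_of_inv [π.IsLocalization (Tors f).isoModSerre] (a : Fin 5)
    (B : CochainComplex (Gr f) ℤ) (hB : ∀ p, Inv a (B.X p).obj) (Y : DerivedCategory (Gr f)) :
    Function.Bijective
      (fun φ : Y ⟶ DerivedCategory.Q.obj B => π.mapDerivedCategory.map φ) := by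
  obtain ⟨L, η, hadd, hl, hc, hinv, hker, hsur⟩ := exists_loc f a
  have hL : (Tors f).isoModSerre.IsInvertedBy L := by
    rw [ObjectProperty.isoModSerre_isInvertedBy_iff]
    intro M hM
    refine (Gr.isZero_iff (L.obj M)).mpr (fun i => subsingleton_of_forall_eq 0 (fun z => ?_))
    obtain ⟨n, m, hm⟩ := hsur M i z
    obtain ⟨n', hn'⟩ := hM _ m a
    have h1 := Gr.nat (η.app M) (xpow a n' ⟨i.n + n⟩) m
    rw [hm] at h1
    have h2 : (L.obj M).obj.map (xpow a n' ⟨i.n + n⟩) ((L.obj M).obj.map (xpow a n i) z) = 0 := by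
      refine h1.symm.trans ?_
      exact (congrArg ((η.app M).hom.app _) hn').trans (map_zero _)
    have h3 := ((hinv M).bij_xpow n' ⟨i.n + n⟩).1 (h2.trans (map_zero _).symm)
    exact ((hinv M).bij_xpow n i).1 (h3.trans (map_zero _).symm)
  have hη : ∀ N : Gr f, Inv a N.obj → IsIso (η.app N) := by
    intro N hN
    refine Gr.isIso_of_bij _ (fun i => ⟨(injective_iff_map_eq_zero _).mpr (fun m hm => ?_),
      fun z => ?_⟩)
    · obtain ⟨n, hn⟩ := hker N i m hm
      exact (hN.bij_xpow n i).1 (hn.trans (map_zero _).symm)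
    · obtain ⟨n, m, hm⟩ := hsur N i z
      obtain ⟨m', rfl⟩ := (hN.bij_xpow n i).2 m
      exact ⟨m', ((hinv N).bij_xpow n i).1 ((Gr.nat (η.app N) (xpow a n i) m').symm.trans hm)⟩
  let G : A ⥤ Gr f := Localization.lift L hL π
  let e : π ⋙ G ≅ L := Localization.fac L hL π
  have : G.Additive := (Localization.functor_additive_iff π (Tors f).isoModSerre G).mpr
    (Functor.additive_of_iso e.symm)
  have : PreservesFiniteLimits G :=
    (ObjectProperty.SerreClassLocalization.preservesFiniteLimits_comp_iff π (Tors f) G).mp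
      (preservesFiniteLimits_of_natIso e.symm)
  have : PreservesFiniteColimits G :=
    (ObjectProperty.SerreClassLocalization.preservesFiniteColimits_comp_iff π (Tors f) G).mp
      (preservesFiniteColimits_of_natIso e.symm)
  let η' : 𝟭 (Gr f) ⟶ π ⋙ G := η ≫ e.inv
  have := Localization.full_whiskeringLeft π (Tors f).isoModSerre A
  let α : π ⋙ 𝟭 A ⟶ π ⋙ G ⋙ π :=
    { app := fun M => π.map (η'.app M)
      naturality := fun M N φ => by
        have := congrArg π.map (η'.naturality φ)
        simpa only [Functor.map_comp, Functor.comp_map, Functor.id_map] using this }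
  obtain ⟨θ, hθ⟩ := ((Functor.whiskeringLeft _ _ A).obj π).map_surjective α
  refine bij_derived η' θ (fun M => NatTrans.congr_app hθ M) B (fun p => ?_) Y
  have := hη _ (hB p)
  exact inferInstanceAs (IsIso (η.app (B.X p) ≫ e.inv.app (B.X p)))

theorem tors_homology (T : CochainComplex (Gr f) ℤ) (h : ∀ a, TorsH a (amb T)) (q : ℤ) :
    Tors f (T.homology q) := by
  intro i m a
  obtain ⟨c, rfl⟩ := Gr.surj (T.homologyπ q) i m
  have h0 : (T.d q (q + 1)).hom.app i ((T.iCycles q).hom.app i c) = 0 :=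
    congrArg (fun φ : T.cycles q ⟶ T.X (q + 1) => φ.hom.app i c) (T.iCycles_d q (q + 1))
  obtain ⟨n, x, hx⟩ := h a i (q - 1) q (q + 1) (by omega) rfl _ h0
  refine ⟨n, ?_⟩
  have h1 : (T.toCycles (q - 1) q).hom.app _ x = (T.cycles q).obj.map (xpow a n i) c := by
    refine Gr.inj (T.iCycles q) _ ?_
    rw [Gr.nat]
    exact (congrArg (fun φ : T.X (q - 1) ⟶ T.X q => φ.hom.app _ x)
      (T.toCycles_i (q - 1) q)).trans hx
  rw [← Gr.nat, ← h1]
  exact congrArg (fun φ : T.X (q - 1) ⟶ T.homology q => φ.hom.app _ x)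
    (T.toCycles_comp_homologyπ (q - 1) q)

theorem isZero_Q_of_exact {K : CochainComplex A ℤ} (h : ∀ q, K.ExactAt q) :
    IsZero (DerivedCategory.Q.obj K) := by
  have h0 := isZero_zero (CochainComplex A ℤ)
  have : QuasiIso (h0.from_ K) := by
    rw [quasiIso_iff]
    intro q
    rw [quasiIsoAt_iff_exactAt _ _ (h q), HomologicalComplex.exactAt_iff_isZero_homology]
    exact (HomologicalComplex.homologyFunctor A _ q).map_isZero h0
  exact (DerivedCategory.Q.map_isZero h0).of_iso (asIso (DerivedCategory.Q.map (h0.from_ K)))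

theorem isZero_PD_of_tors [π.IsLocalization (Tors f).isoModSerre] (T : CochainComplex (Gr f) ℤ)
    (h : ∀ a, TorsH a (amb T)) : IsZero ((PD π).obj T) := by
  refine IsZero.of_iso (isZero_Q_of_exact (fun q => ?_)) (π.mapDerivedCategoryFactors.app T)
  rw [HomologicalComplex.exactAt_iff_isZero_homology]
  exact ((ObjectProperty.SerreClassLocalization.isZero_obj_iff π (Tors f) _).mpr
    (tors_homology T h q)).of_iso ((T.sc q).mapHomologyIso π)

end Pool.Agent.Lib.MP_0ba2dd_ag
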