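import Pool.Agent.Lib.MP_0ba2dd_ag.H45CxA
import Pool.Agent.Lib.MP_0ba2dd_ag.H45KLa
import Pool.Agent.Lib.MP_0ba2dd_ag.H45HH

/-! All line bundles are generated by O, O(1) and the image of the Orlov functor. -/

namespace Pool.Agent.Lib.MP_0ba2dd_ag

open CategoryTheory Limits MvPolynomial Pretriangulated

universe u

variable {k : Type u} [Field k] {f : Q k}

variable {A : Type*} [Category A] [Abelian A] [HasDerivedCategory A] (π : Gr f ⥤ A) [π.Additive]
  [PreservesFiniteLimits π] [PreservesFiniteColimits π]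

variable (𝒢 : ObjectProperty (DerivedCategory A)) [𝒢.IsTriangulated]
  [𝒢.IsClosedUnderIsomorphisms]

omit [π.Additive] [PreservesFiniteLimits π] [PreservesFiniteColimits π] in
theorem geno_single {X : A} {p q : ℤ} (h : 𝒢 ((DerivedCategory.singleFunctor A p).obj X)) :
    𝒢 ((DerivedCategory.singleFunctor A q).obj X) :=
  𝒢.prop_of_iso (((DerivedCategory.singleFunctors A).shiftIso (p - q) q p (by ring)).app X)
    (𝒢.le_shift (p - q) _ h)

omit [PreservesFiniteLimits π] [PreservesFiniteColimits π] in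
theorem geno_fr_zero {ι : Type} (n : ι → ℤ) (U : ι → Prop) (h : ∀ a, U a → Odd (n a)) :
    𝒢 ((DerivedCategory.singleFunctor A 0).obj (π.obj (Fr f n U))) :=
  𝒢.prop_of_isZero (Functor.map_isZero _ (π.map_isZero
    ((Gr.isZero_iff _).2 fun j => Fr_subsingleton j fun a ha => Or.inr (h a ha))))

theorem geno_fr_card {ι : Type} [Fintype ι] (n : ι → ℤ) (s : Finset ι) : ∀ (U : ι → Prop),
    (∀ a, U a → a ∈ s) → (∀ a g, U a → n a = 2 * g → 𝒢 (lineO π (-g))) →
    𝒢 ((DerivedCategory.singleFunctor A 0).obj (π.obj (Fr f n U))) := by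
  classical
  induction s using Finset.induction_on with
  | empty => exact fun U hU _ => geno_fr_zero π 𝒢 n U fun a ha => absurd (hU a ha) (by simp)
  | insert a₀ s _ ih =>
    intro U hU h
    obtain ⟨w, hw⟩ := Fr_ses (f := f) (n := n) (fun a => U a ∧ a = a₀) U (fun a => U a ∧ ¬ a = a₀)
      (fun a => a = a₀) (fun _ => Iff.rfl) (fun _ => Iff.rfl)
    refine 𝒢.ext_of_isTriangulatedClosed₂ _ (hw.map_of_exact π).singleTriangle_distinguished ?_ ?_
    · change 𝒢 ((DerivedCategory.singleFunctor A 0).obj (π.obj (Fr f n fun a => U a ∧ a = a₀)))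
      by_cases h0 : U a₀ ∧ Even (n a₀)
      · obtain ⟨h1, g, hg⟩ := h0
        have hg' : n a₀ = 2 * g := by omega
        obtain ⟨e⟩ := Fr_iso_twist (f := f) (n := n) (U := fun a => U a ∧ a = a₀) a₀ g ⟨h1, rfl⟩ hg'
          fun a ha _ => ha.2
        exact 𝒢.prop_of_iso ((DerivedCategory.singleFunctor A 0).mapIso (π.mapIso e)).symm
          (h a₀ g h1 hg')
      · refine geno_fr_zero π 𝒢 n _ ?_
        rintro a ⟨ha, rfl⟩
        exact Int.not_even_iff_odd.1 fun e => h0 ⟨ha, e⟩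
    · exact ih (fun a => U a ∧ ¬ a = a₀)
        (fun a ha => (Finset.mem_insert.1 (hU a ha.1)).resolve_left ha.2)
        fun a g ha hg => h a g ha.1 hg

theorem fr_mem {ι : Type} [Fintype ι] (n : ι → ℤ) (U : ι → Prop)
    (h : ∀ a g, U a → n a = 2 * g → 𝒢 (lineO π (-g))) (p : ℤ) :
    𝒢 ((DerivedCategory.singleFunctor A p).obj (π.obj (Fr f n U))) := by
  exact geno_single 𝒢 (geno_fr_card π 𝒢 n Finset.univ U (fun a _ => Finset.mem_univ a) h)

theorem PD_ses {T : ShortComplex (CochainComplex (Gr f) ℤ)} (hT : T.ShortExact) :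
    (𝒢 ((PD π).obj T.X₁) → 𝒢 ((PD π).obj T.X₃) → 𝒢 ((PD π).obj T.X₂)) ∧
    (𝒢 ((PD π).obj T.X₂) → 𝒢 ((PD π).obj T.X₃) → 𝒢 ((PD π).obj T.X₁)) ∧
    (𝒢 ((PD π).obj T.X₁) → 𝒢 ((PD π).obj T.X₂) → 𝒢 ((PD π).obj T.X₃)) := by
  have h := π.mapDerivedCategory.map_distinguished _ (DerivedCategory.triangleOfSES_distinguished hT)
  exact ⟨𝒢.ext_of_isTriangulatedClosed₂ _ h, 𝒢.ext_of_isTriangulatedClosed₁ _ h,
    𝒢.ext_of_isTriangulatedClosed₃ _ h⟩

theorem geno_ses (E : MF f) {P U : ℤ → E.ι → Prop} (c : Cvx E P) (hU : Up E U) :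
    (𝒢 ((PD π).obj (Cx E _ (c.and_up hU))) → 𝒢 ((PD π).obj (Cx E _ (c.and_not_up hU))) →
      𝒢 ((PD π).obj (Cx E P c))) ∧
    (𝒢 ((PD π).obj (Cx E P c)) → 𝒢 ((PD π).obj (Cx E _ (c.and_not_up hU))) →
      𝒢 ((PD π).obj (Cx E _ (c.and_up hU)))) ∧
    (𝒢 ((PD π).obj (Cx E _ (c.and_up hU))) → 𝒢 ((PD π).obj (Cx E P c)) →
      𝒢 ((PD π).obj (Cx E _ (c.and_not_up hU)))) := by
  obtain ⟨i, q, w, h⟩ := cx_ses E (c.and_up hU) c (c.and_not_up hU) hU (fun _ _ => Iff.rfl)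
    (fun _ _ => Iff.rfl)
  exact PD_ses π 𝒢 h

theorem geno_col (E : MF f) {P : ℤ → E.ι → Prop} (c : Cvx E P) (q : ℤ)
    (h : ∀ p a, P p a → Even (E.ν a - 3 * p) → p = q) :
    𝒢 ((PD π).obj (Cx E P c)) ↔
      𝒢 ((DerivedCategory.singleFunctor A q).obj (π.obj (Fr f (colν E.ν q) (P q)))) := by
  obtain ⟨e⟩ := cx_single E c q h
  exact 𝒢.prop_iff_of_iso ((PD π).mapIso e ≪≫ (π.mapDerivedCategorySingleFunctor q).app _)

theorem geno_fin (E : MF f) (a : ℤ) (l : ℕ) : ∀ {P : ℤ → E.ι → Prop} (c : Cvx E P),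
    (∀ p x, P p x → a ≤ p ∧ p < a + l) →
    (∀ p x g, P p x → E.ν x - 3 * p = 2 * g → 𝒢 (lineO π (-g))) →
    𝒢 ((PD π).obj (Cx E P c)) := by
  induction l with
  | zero =>
    intro P c hP _
    exact 𝒢.prop_of_isZero ((PD π).map_isZero (cx_isZero E c fun p x hx => by
      have := hP p x hx
      omega))
  | succ l ih =>
    intro P c hP h
    refine (geno_ses π 𝒢 E c (up_le E (a + l))).1 ?_ (ih _ (fun p x hx => ?_)
      fun p x g hx => h p x g hx.1)
    · rw [geno_col π 𝒢 E _ (a + l) fun p x hx _ => by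
        have := hP p x hx.1
        have := hx.2
        push_cast at *
        omega]
      exact fr_mem π 𝒢 _ _ (fun x g hx => h _ x g hx.1) _
    · have := hP p x hx.1
      have := hx.2
      omega

theorem cx_mem_of_finite (E : MF f) {P : ℤ → E.ι → Prop} (c : Cvx E P)
    (hfin : ∃ a b : ℤ, ∀ p x, P p x → a ≤ p ∧ p ≤ b)
    (h : ∀ p x g, P p x → E.ν x - 3 * p = 2 * g → 𝒢 (lineO π (-g))) :
    𝒢 ((PD π).obj (Cx E P c)) := by
  obtain ⟨a, b, hab⟩ := hfin
  refine geno_fin π 𝒢 E a (b + 1 - a).toNat c (fun p x hx => ?_) h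
  have := hab p x hx
  omega

/-- A column with a single generator can be extracted. -/
theorem geno_extract (E : MF f) {P : ℤ → E.ι → Prop} (c : Cvx E P)
    (hfin : ∃ a b : ℤ, ∀ p x, P p x → a ≤ p ∧ p ≤ b) (hP : 𝒢 ((PD π).obj (Cx E P c))) (q : ℤ)
    (h : ∀ p x g, P p x → p ≠ q → E.ν x - 3 * p = 2 * g → 𝒢 (lineO π (-g)))
    (x₀ : E.ι) (g : ℤ) (h₀ : P q x₀) (hg : E.ν x₀ - 3 * q = 2 * g)
    (hu : ∀ x, P q x → Even (E.ν x - 3 * q) → x = x₀) : 𝒢 (lineO π (-g)) := by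
  obtain ⟨a, b, hab⟩ := hfin
  have h1 := (geno_ses π 𝒢 E c (up_le E q)).2.1 hP (cx_mem_of_finite π 𝒢 E _
    ⟨a, b, fun p x hx => hab p x hx.1⟩ fun p x g hx => h p x g hx.1 (by have := hx.2; omega))
  have h2 := (geno_ses π 𝒢 E (c.and_up (up_le E q)) (up_le E (q + 1))).2.2
    (cx_mem_of_finite π 𝒢 E _ ⟨a, b, fun p x hx => hab p x hx.1.1⟩
      fun p x g hx => h p x g hx.1.1 (by have := hx.2; omega)) h1
  rw [geno_col π 𝒢 E _ q fun p x hx _ => by
    have := hx.1.2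
    have := hx.2
    omega] at h2
  obtain ⟨e⟩ := Fr_iso_twist (f := f) (n := colν E.ν q)
    (U := fun x => (P q x ∧ q ≤ q) ∧ ¬ q + 1 ≤ q) x₀ g ⟨⟨h₀, le_rfl⟩, by omega⟩ hg
    fun x hx he => hu x hx.1.1 he
  exact 𝒢.prop_of_iso ((DerivedCategory.singleFunctor A 0).mapIso (π.mapIso e))
    (geno_single 𝒢 h2)

section Kos

variable {R : Type*} [CommRing R]

theorem geno_KD (z w : ℕ → R) : ∀ (n : ℕ) (a b : Kι n), KD z w n a b ≠ 0 → Kν n a ≤ Kν n b + 1
  | 0, _, _, h => absurd rfl h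
  | n + 1, Sum.inl a, Sum.inl b, h => geno_KD z w n a b h
  | n + 1, Sum.inl a, Sum.inr b, h => by
    have e : a = b := by
      by_contra e
      exact h (show (z n • (1 : Matrix (Kι n) (Kι n) R)) a b = 0 by simp [e])
    subst e
    change Kν n a ≤ Kν n a - 1 + 1
    omega
  | n + 1, Sum.inr a, Sum.inl b, h => by
    have e : a = b := by
      by_contra e
      exact h (show (w n • (1 : Matrix (Kι n) (Kι n) R)) a b = 0 by simp [e])
    subst e
    change Kν n a - 1 ≤ Kν n a + 1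
    omega
  | n + 1, Sum.inr a, Sum.inr b, h => by
    have := geno_KD z w n a b fun e => h (show -KD z w n a b = 0 by rw [e, neg_zero])
    change Kν n a - 1 ≤ Kν n b - 1 + 1
    omega

theorem geno_th : ∀ (n j : ℕ) (a b : Kι n), HH.th R n j a b ≠ 0 → Kν n a + 1 = Kν n b
  | 0, _, _, _, h => absurd rfl h
  | n + 1, j, a, b, h => by
    by_cases e : j = n
    · subst e
      rw [HH.th_last] at h
      rcases a with a | a <;> rcases b with b | b
      · exact absurd rfl h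
      · exact absurd rfl h
      · have e : a = b := by
          by_contra e
          exact h (Matrix.one_apply_ne e)
        subst e
        change Kν j a - 1 + 1 = Kν j a
        omega
      · exact absurd rfl h
    · rw [HH.th_ne e] at h
      rcases a with a | a <;> rcases b with b | b
      · exact geno_th n j a b h
      · exact absurd rfl h
      · exact absurd rfl h
      · have := geno_th n j a b fun e => h (show -HH.th R n j a b = 0 by rw [e, neg_zero])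
        change Kν n a - 1 + 1 = Kν n b - 1
        omega

theorem geno_top : ∀ (n : ℕ) (a : Kι n), Kν n a = 0 → a = Ktop n
  | 0, _, _ => rfl
  | n + 1, Sum.inl a, h => congrArg Sum.inl (geno_top n a h)
  | n + 1, Sum.inr a, h => by
    have := Kν_nonpos n a
    change Kν n a - 1 = 0 at h
    omega

/-- The generator of lowest degree. -/
def genoBot : ∀ n, Kι n
  | 0 => ()
  | n + 1 => Sum.inr (genoBot n)

theorem geno_bot_deg : ∀ n : ℕ, Kν n (genoBot n) = -n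
  | 0 => rfl
  | n + 1 => by
    change Kν n (genoBot n) - 1 = _
    rw [geno_bot_deg n]
    push_cast
    ring

theorem geno_ge : ∀ (n : ℕ) (a : Kι n), -n ≤ Kν n a
  | 0, _ => le_rfl
  | n + 1, Sum.inl a => by
    have := geno_ge n a
    change _ ≤ Kν n a
    push_cast
    omega
  | n + 1, Sum.inr a => by
    have := geno_ge n a
    change _ ≤ Kν n a - 1
    push_cast
    omega

theorem geno_bot : ∀ (n : ℕ) (a : Kι n), Kν n a = -n → a = genoBot n
  | 0, _, _ => rfl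
  | n + 1, Sum.inl a, h => by
    have := geno_ge n a
    change Kν n a = _ at h
    push_cast at h
    omega
  | n + 1, Sum.inr a, h => by
    change Kν n a - 1 = _ at h
    push_cast at h
    exact congrArg Sum.inr (geno_bot n a (by omega))

end Kos

/-- The Koszul factorisation of `f`, twisted. -/
noncomputable def genoK (hf : f.IsHomogeneous 3) (m : ℤ) : MF f where
  ι := Kι 5
  ν := fun a => Kν 5 a + 2 * m
  D := KD (T0 ∘ zK k) (T0 ∘ wK f) 5
  isMF := by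
    have h := IsMF.map_alg T0 (isMF_D0 hf) (isMF_D0 hf).1.map_T0'
    have h0 : constantCoeff f = 0 :=
      IsWH.constantCoeff_eq_zero (isWH_wQ_iff.2 hf) (by norm_num)
    rw [map_sub, T0_inX, T0_inY, h0, C_0, sub_zero] at h
    have e : (D0 f).map T0 = KD (T0 ∘ zK k) (T0 ∘ wK f) 5 :=
      KD_map (T0 : S k →ₐ[k] Q k).toRingHom (zK k) (wK f) 5
    rw [e] at h
    exact h.shift (2 * m)

theorem genoK_up (hf : f.IsHomogeneous 3) (m : ℤ) :
    Up (genoK hf m) (fun p a => Kν 5 a < p) := fun p a b hb h => by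
  have := geno_KD _ _ 5 a b h
  dsimp only at hb ⊢
  omega

theorem geno_tors (E : MF f) (κ : E.ι → ℤ) (c : Cvx E (fun p a => True ∧ ¬ κ a < p)) (j : Fin 5)
    (T : Matrix E.ι E.ι (Q k)) (hT : Hg wQ E.ν E.ν (-1) T) (hκ : ∀ a b, T a b ≠ 0 → κ a + 1 = κ b)
    (hc : E.D * T + T * E.D = (X j : Q k) • (1 : Matrix E.ι E.ι (Q k))) :
    TorsH j (amb (Cx E _ c)) := by
  classical
  intro i p q r hp hq y hy
  change FrSub f (colν E.ν q) (fun a => True ∧ ¬ κ a < q) i.n at y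
  have hy' : ∀ a, ¬ κ a < r → ∑ b, mkR f (E.D a b) * y.1 b = 0 := by
    intro a ha
    have h1 : ((Cx E _ c).d q r).hom.app i y = 0 := hy
    rw [Cx_d _ _ _ hq] at h1
    have h2 := frMap_apply (f := f) _ (E.hg_col hq) _ (fun a => True ∧ ¬ κ a < r) i y a
    rw [if_pos ⟨trivial, ha⟩] at h2
    exact h2.symm.trans (congrFun (congrArg Subtype.val h1) a)
  let x : FrSub f (colν E.ν p) (fun a => True ∧ ¬ κ a < p) (i.n + (1 : ℕ)) :=
    ⟨fun a => ∑ b, mkR f (T a b) * y.1 b, fun a => ⟨Submodule.sum_mem _ fun b _ =>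
      mul_mem_RN (hT a b) (y.2 b).1 (by
        simp only [colν]
        push_cast
        omega), fun ha => Finset.sum_eq_zero fun b _ => by
      by_cases e : T a b = 0
      · simp [e]
      · have := hκ a b e
        rw [(y.2 b).2 (fun hb => ha ⟨trivial, by have := hb.2; omega⟩), mul_zero]⟩⟩
  refine ⟨1, x, ?_⟩
  change ((Cx E _ c).d p q).hom.app ⟨i.n + (1 : ℕ)⟩ x =
    (Fr f (colν E.ν q) (fun a => True ∧ ¬ κ a < q)).obj.map (xpow j 1 i) y
  rw [Cx_d _ _ _ hp]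
  refine Subtype.ext (funext fun a => ?_)
  refine (frMap_apply (f := f) _ (E.hg_col hp) _
    (fun a => True ∧ ¬ κ a < q) ⟨i.n + (1 : ℕ)⟩ x a).trans ?_
  change _ = mkR f (X j ^ 1) * y.1 a
  split_ifs with ha
  · have e1 : ∑ b, mkR f (E.D a b) * x.1 b = ∑ b, mkR f ((E.D * T) a b) * y.1 b := by
      simp only [x, Matrix.mul_apply, map_sum, map_mul, Finset.mul_sum, Finset.sum_mul, mul_assoc]
      exact Finset.sum_comm
    have e2 : ∑ b, mkR f ((T * E.D) a b) * y.1 b = 0 := by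
      simp only [Matrix.mul_apply, map_sum, map_mul, Finset.sum_mul, mul_assoc]
      rw [Finset.sum_comm]
      refine Finset.sum_eq_zero fun b _ => ?_
      rw [← Finset.mul_sum]
      by_cases e : T a b = 0
      · simp [e]
      · have := hκ a b e
        rw [hy' b (by have := ha.2; omega), mul_zero]
    have e3 : ∑ b, mkR f ((E.D * T) a b) * y.1 b + ∑ b, mkR f ((T * E.D) a b) * y.1 b =
        mkR f (X j) * y.1 a := by
      rw [← Finset.sum_add_distrib]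
      have : ∀ b, mkR f ((E.D * T) a b) * y.1 b + mkR f ((T * E.D) a b) * y.1 b =
          if a = b then mkR f (X j) * y.1 b else 0 := fun b => by
        rw [← add_mul, ← map_add, ← Matrix.add_apply, hc]
        by_cases e : a = b <;> simp [e]
      rw [Finset.sum_congr rfl fun b _ => this b]
      simp
    rw [e1, pow_one, ← e3, e2, add_zero]
  · rw [(y.2 a).2 ha, mul_zero]

theorem genoK_tors (hf : f.IsHomogeneous 3) (m : ℤ)
    (c : Cvx (genoK hf m) (fun p a => True ∧ ¬ Kν 5 a < p)) (j : Fin 5) :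
    TorsH j (amb (Cx (genoK hf m) _ c)) := by
  have hc := HH.th_comm (T0 ∘ zK k) (T0 ∘ wK f) 5 j j.2
  have hz : (T0 ∘ zK k) j = (X j : Q k) := by simp [zK, T0]
  rw [hz] at hc
  exact geno_tors (genoK hf m) (Kν 5) c j (HH.th (Q k) 5 j)
    ((HH.hg_th wQ 5 j).of_eq fun a b => by simp only [genoK]; ring) (geno_th 5 j) hc

theorem geno_AB [π.IsLocalization (Tors f).isoModSerre] (hf : f.IsHomogeneous 3)
    (hΦ : ∀ E : MF f, 𝒢 (Φ π E)) (m : ℤ) :
    𝒢 ((PD π).obj (Cx (genoK hf m) _ (((cvx_top _).and_not_up (genoK_up hf m)).and_up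
      (up_not_GEi _ 1)))) ↔
    𝒢 ((PD π).obj (Cx (genoK hf m) _ ((cvx_GEi _ 1).and_up (genoK_up hf m)))) := by
  have h0 := 𝒢.prop_of_isZero (isZero_PD_of_tors π _
    (genoK_tors hf m ((cvx_top _).and_not_up (genoK_up hf m))))
  have s1 := geno_ses π 𝒢 _ ((cvx_top _).and_not_up (genoK_up hf m)) (up_not_GEi _ 1)
  have s2 := geno_ses π 𝒢 _ (cvx_GEi _ 1) (genoK_up hf m)
  obtain ⟨e⟩ := cx_iso_of_iff _ (((cvx_top _).and_not_up (genoK_up hf m)).and_not_up
    (up_not_GEi _ 1)) ((cvx_GEi _ 1).and_not_up (genoK_up hf m)) fun p a _ => by tauto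
  have e' := 𝒢.prop_iff_of_iso ((PD π).mapIso e)
  exact ⟨fun h => s2.2.1 (hΦ _) (e'.1 (s1.2.2 h h0)), fun h => s1.2.1 h0 (e'.2 (s2.2.2 h (hΦ _)))⟩

theorem geno_pos [π.IsLocalization (Tors f).isoModSerre] (hf : f.IsHomogeneous 3)
    (hΦ : ∀ E : MF f, 𝒢 (Φ π E)) (m : ℤ) (hm : m ≤ -2)
    (h : ∀ n, 0 ≤ n → n < -m → 𝒢 (lineO π n)) : 𝒢 (lineO π (-m)) := by
  have hA := (geno_AB π 𝒢 hf hΦ m).2 (𝒢.prop_of_isZero ((PD π).map_isZero
    (cx_isZero _ _ fun p a ha => by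
      have h1 : 2 * 1 ≤ Kν 5 a + 2 * m - 3 * p := ha.1
      have h2 : Kν 5 a < p := ha.2
      have h3 := geno_ge 5 a
      change Odd (Kν 5 a + 2 * m - 3 * p)
      rw [Int.odd_iff]
      omega)))
  have key : ∀ p (a : Kι 5), (True ∧ ¬ Kν 5 a < p) ∧ ¬ GEi (genoK hf m) 1 p a →
      p ≤ Kν 5 a ∧ Kν 5 a + 2 * m - 3 * p < 2 ∧ Kν 5 a ≤ 0 ∧ -5 ≤ Kν 5 a := fun p a ha =>
    ⟨not_lt.1 ha.1.2, not_le.1 ha.2, Kν_nonpos 5 a, geno_ge 5 a⟩
  refine geno_extract π 𝒢 _ _ ⟨m - 5, 0, fun p a ha => ?_⟩ hA 0 (fun p a g ha hp hg => ?_)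
    (Ktop 5) m ⟨⟨trivial, ?_⟩, ?_⟩ ?_ fun a ha _ => geno_top 5 a ?_
  · have := key p a ha
    omega
  · have := key p a ha
    change Kν 5 a + 2 * m - 3 * p = 2 * g at hg
    exact h _ (by omega) (by omega)
  · rw [Kν_top]
    omega
  · change ¬ 2 * 1 ≤ Kν 5 (Ktop 5) + 2 * m - 3 * 0
    rw [Kν_top]
    omega
  · change Kν 5 (Ktop 5) + 2 * m - 3 * 0 = 2 * m
    rw [Kν_top]
    omega
  · have := key 0 a ha
    omega

theorem geno_neg [π.IsLocalization (Tors f).isoModSerre] (hf : f.IsHomogeneous 3)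
    (hΦ : ∀ E : MF f, 𝒢 (Φ π E)) (m : ℤ) (hm : -1 ≤ m)
    (h : ∀ n, -(m + 2) < n → n ≤ 1 → 𝒢 (lineO π n)) : 𝒢 (lineO π (-(m + 2))) := by
  have keyA : ∀ p (a : Kι 5), (True ∧ ¬ Kν 5 a < p) ∧ ¬ GEi (genoK hf m) 1 p a →
      p ≤ Kν 5 a ∧ Kν 5 a + 2 * m - 3 * p < 2 ∧ Kν 5 a ≤ 0 ∧ -5 ≤ Kν 5 a := fun p a ha =>
    ⟨not_lt.1 ha.1.2, not_le.1 ha.2, Kν_nonpos 5 a, geno_ge 5 a⟩
  have hB := (geno_AB π 𝒢 hf hΦ m).1 (cx_mem_of_finite π 𝒢 _ _ ⟨-5, 0, fun p a ha => by
    have := keyA p a ha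
    omega⟩ fun p a g ha hg => by
      have := keyA p a ha
      change Kν 5 a + 2 * m - 3 * p = 2 * g at hg
      exact h _ (by omega) (by omega))
  have key : ∀ p (a : Kι 5), GEi (genoK hf m) 1 p a ∧ Kν 5 a < p →
      2 * 1 ≤ Kν 5 a + 2 * m - 3 * p ∧ Kν 5 a < p ∧ Kν 5 a ≤ 0 ∧ -5 ≤ Kν 5 a := fun p a ha =>
    ⟨ha.1, ha.2, Kν_nonpos 5 a, geno_ge 5 a⟩
  have hb : Kν 5 (genoBot 5) = -5 := geno_bot_deg 5
  refine geno_extract π 𝒢 _ _ ⟨-5, m + 1, fun p a ha => ?_⟩ hB (-3) (fun p a g ha hp hg => ?_)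
    (genoBot 5) (m + 2) ⟨?_, ?_⟩ ?_ fun a ha he => geno_bot 5 a ?_
  · have := key p a ha
    omega
  · have := key p a ha
    change Kν 5 a + 2 * m - 3 * p = 2 * g at hg
    exact h _ (by omega) (by omega)
  · change 2 * 1 ≤ Kν 5 (genoBot 5) + 2 * m - 3 * (-3)
    omega
  · change Kν 5 (genoBot 5) < -3
    omega
  · change Kν 5 (genoBot 5) + 2 * m - 3 * (-3) = 2 * (m + 2)
    omega
  · have := key (-3) a ha
    change Even (Kν 5 a + 2 * m - 3 * (-3)) at he
    rw [Int.even_iff] at he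
    push_cast
    omega

theorem lineO_mem [π.IsLocalization (Tors f).isoModSerre] (hf : f.IsHomogeneous 3)
    (h0 : 𝒢 (lineO π 0)) (h1 : 𝒢 (lineO π 1)) (hΦ : ∀ E : MF f, 𝒢 (Φ π E)) (m : ℤ) :
    𝒢 (lineO π m) := by
  have up : ∀ l : ℕ, ∀ n : ℤ, 0 ≤ n → n ≤ l + 1 → 𝒢 (lineO π n) := by
    intro l
    induction l with
    | zero =>
      intro n a b
      obtain rfl | rfl : n = 0 ∨ n = 1 := by omega
      exacts [h0, h1]
    | succ l ih =>
      intro n a b
      by_cases e : n ≤ l + 1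
      · exact ih n a e
      · have := geno_pos π 𝒢 hf hΦ (-n) (by omega) fun n' a' b' => ih n' a' (by omega)
        rwa [neg_neg] at this
  have down : ∀ l : ℕ, ∀ n : ℤ, -l ≤ n → n ≤ 1 → 𝒢 (lineO π n) := by
    intro l
    induction l with
    | zero => exact fun n a b => up 0 n (by omega) (by omega)
    | succ l ih =>
      intro n a b
      by_cases e : -l ≤ n
      · exact ih n e b
      · have := geno_neg π 𝒢 hf hΦ (-n - 2) (by omega) fun n' a' b' => ih n' (by omega) b'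
        rwa [show -(-n - 2 + 2) = n by ring] at this
  by_cases hm : 0 ≤ m
  · exact up m.toNat m hm (by omega)
  · exact down (-m).toNat m (by omega) (by omega)

end Pool.Agent.Lib.MP_0ba2dd_ag
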