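import Pool.Agent.Lib.MP_0ba2dd_ag.H45Set

/-! Bundled graded matrix factorisations of a cubic. -/

namespace Pool.Agent.Lib.MP_0ba2dd_ag

open MvPolynomial Matrix

variable {k : Type*} [Field k]

/-- A `ℤ`-graded matrix factorisation of `f` (variables of degree `2`, differential of
degree `3`). -/
structure MF (f : Q k) where
  ι : Type
  [fin : Fintype ι]
  [dec : DecidableEq ι]
  ν : ι → ℤ
  D : Matrix ι ι (Q k)
  isMF : IsMF wQ 3 f ν D

attribute [instance] MF.fin MF.dec

variable {f : Q k}

/-- The identity is null-homotopic. -/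
def MF.Contr (E : MF f) : Prop := Exact wQ 3 0 E.ν E.D E.ν E.D 1 (1 : Matrix E.ι E.ι (Q k))

/-- Shift of the generator degrees by `3 p` and a sign on the differential. -/
noncomputable def MF.tw (E : MF f) (p : ℤ) (s : ℤˣ) : MF f where
  ι := E.ι
  ν := fun a => E.ν a + 3 * p
  D := s • E.D
  isMF := by
    rcases Int.units_eq_one_or s with rfl | rfl
    · simpa using E.isMF.shift (3 * p)
    · simpa using (E.isMF.shift (3 * p)).neg

/-- The mapping cone. -/
noncomputable def MF.cone {E F : MF f} (u : Matrix F.ι E.ι (Q k)) (hu : Hg wQ E.ν F.ν 0 u)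
    (cu : Closed 1 E.D F.D u) : MF f where
  ι := F.ι ⊕ E.ι
  ν := coneν 3 E.ν F.ν
  D := coneD E.D F.D u
  isMF := E.isMF.cone F.isMF hu cu

/-- The zero object. -/
noncomputable def MF.zero (f : Q k) : MF f where
  ι := Empty
  ν := fun _ => 0
  D := 0
  isMF := ⟨Hg.zero, Subsingleton.elim _ _⟩

end Pool.Agent.Lib.MP_0ba2dd_ag
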