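import Pool.Agent.Lib.MP_0ba2dd_ag.H45Defs
import Pool.Agent.Lib.MP_0ba2dd_ag.H45MF
import Mathlib.Algebra.Homology.DerivedCategory.ExactFunctor
import Mathlib.Algebra.Homology.DerivedCategory.KProjective
import Mathlib.Algebra.Homology.DerivedCategory.ShortExact
import Mathlib.Algebra.Homology.DerivedCategory.Fractions
import Mathlib.Algebra.Homology.DerivedCategory.SingleTriangle
import Mathlib.CategoryTheory.Triangulated.Orthogonal

/-! Graded modules: elementwise criteria, finite free modules and matrices (definitions). -/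

namespace Pool.Agent.Lib.MP_0ba2dd_ag

open CategoryTheory Limits MvPolynomial

universe u

variable {k : Type u} [Field k] {f : Q k}

noncomputable instance instHasDerivedCategoryGr (f : Q k) : HasDerivedCategory (Gr f) :=
  HasDerivedCategory.standard _

theorem mem_Hom5_iff {p : Q k} {d : ℤ} : p ∈ Hom5 k d ↔ p.IsWeightedHomogeneous wQ (2 * d) := by
  have key : ∀ e : Fin 5 →₀ ℕ, Finsupp.weight wQ e = 2 * Finsupp.weight (fun _ => (1 : ℤ)) e := by
    intro e
    simp only [Finsupp.weight_apply, Finsupp.sum, wQ, Finset.mul_sum]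
    exact Finset.sum_congr rfl (fun _ _ => by simp [mul_comm])
  refine ⟨fun h e he => ?_, fun h e he => ?_⟩
  · rw [key, h he]
  · have := h he
    rw [key] at this
    omega

/-- The ring `R = k[x]/(f)`. -/
abbrev Rf (f : Q k) := Q k ⧸ Ideal.span {f}

/-- The quotient map. -/
noncomputable abbrev mkR (f : Q k) : Q k →ₐ[k] Rf f := Ideal.Quotient.mkₐ k (Ideal.span {f})

/-- The part of `R` of `wQ`-degree `m` (zero for odd or negative `m`). -/
noncomputable def RN (f : Q k) (m : ℤ) : Submodule k (Rf f) :=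
  (weightedHomogeneousSubmodule k wQ m).map (mkR f).toLinearMap

theorem mul_mem_RN {d e e' : ℤ} {p : Q k} (hp : p.IsWeightedHomogeneous wQ d) {v : Rf f}
    (hv : v ∈ RN f e) (h : d + e = e') : mkR f p * v ∈ RN f e' := by
  obtain ⟨q, hq, rfl⟩ := hv
  exact ⟨p * q, h ▸ IsWeightedHomogeneous.mul hp hq, by simp⟩

section Free

variable {ι κ : Type} [Fintype ι] [Fintype κ]

/-- Degree `j` part of the free module on the generators in `U`, generator `a` having
`wQ`-degree `n a` (it is absent when `n a` is odd). -/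
noncomputable def FrSub (f : Q k) (n : ι → ℤ) (U : ι → Prop) (j : ℤ) :
    Submodule k (ι → Rf f) where
  carrier := {v | ∀ a, v a ∈ RN f (2 * j - n a) ∧ (¬ U a → v a = 0)}
  add_mem' hv hw a := ⟨add_mem (hv a).1 (hw a).1, fun h => by
    simp [(hv a).2 h, (hw a).2 h]⟩
  zero_mem' a := ⟨zero_mem _, fun _ => rfl⟩
  smul_mem' r v hv a := ⟨Submodule.smul_mem _ r (hv a).1, fun h => by simp [(hv a).2 h]⟩

/-- Multiplication by a homogeneous polynomial. -/
noncomputable def frAct (f : Q k) (n : ι → ℤ) (U : ι → Prop) {i j : Deg k} (p : i ⟶ j) :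
    FrSub f n U i.n →ₗ[k] FrSub f n U j.n where
  toFun v := ⟨fun a => mkR f p.1 * v.1 a, fun a =>
    ⟨mul_mem_RN (mem_Hom5_iff.mp p.2) (v.2 a).1 (by ring), fun h => by simp [(v.2 a).2 h]⟩⟩
  map_add' v w := by ext a; simp [mul_add]
  map_smul' r v := by
    ext a
    exact Algebra.mul_smul_comm r (mkR f p.1) (v.1 a)

/-- The finite free graded module on the generators in `U`. -/
noncomputable def Fr (f : Q k) (n : ι → ℤ) (U : ι → Prop) : Gr f where
  obj :=
    { obj := fun j => ModuleCat.of k (FrSub f n U j.n)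
      map := fun p => ModuleCat.ofHom (frAct f n U p)
      map_id := fun i => by
        ext v a
        change mkR f 1 * v.1 a = v.1 a
        simp
      map_comp := fun p q => by
        ext v a
        change mkR f (p.1 * q.1) * v.1 a = mkR f q.1 * (mkR f p.1 * v.1 a)
        rw [map_mul]; ring }
  property := by
    refine ⟨fun i j p q s e => ?_, fun i j r p s e => ?_, fun i j p e => ?_⟩
    · ext v a
      change mkR f s.1 * v.1 a = mkR f p.1 * v.1 a + mkR f q.1 * v.1 a
      rw [e, map_add, add_mul]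
    · ext v a
      change mkR f s.1 * v.1 a = r • (mkR f p.1 * v.1 a)
      rw [e, map_smul, smul_mul_assoc]
    · ext v a
      change mkR f p.1 * v.1 a = 0
      rw [e, Ideal.Quotient.mkₐ_eq_mk,
        Ideal.Quotient.eq_zero_iff_mem.mpr (Ideal.mem_span_singleton_self f), zero_mul]

open Classical in
/-- A homogeneous matrix of degree `0` acting on degree `j` parts, followed by the projection to
the generators in `U'`. -/
noncomputable def frLin {n : ι → ℤ} {n' : κ → ℤ} (M : Matrix κ ι (Q k)) (hM : Hg wQ n n' 0 M)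
    (U : ι → Prop) (U' : κ → Prop) (j : ℤ) : FrSub f n U j →ₗ[k] FrSub f n' U' j where
  toFun v := ⟨fun a => if U' a then ∑ b, mkR f (M a b) * v.1 b else 0, fun a => ⟨by
    dsimp only
    split_ifs
    · exact Submodule.sum_mem _ (fun b _ => mul_mem_RN (hM a b) (v.2 b).1 (by ring))
    · exact zero_mem _, fun h => if_neg h⟩⟩
  map_add' v w := by
    ext a
    by_cases h : U' a <;> simp [h, mul_add, Finset.sum_add_distrib]
  map_smul' r v := by
    ext a
    by_cases h : U' a
    · simp only [h, if_true, Submodule.coe_smul, Pi.smul_apply, RingHom.id_apply, Finset.smul_sum]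
      exact Finset.sum_congr rfl (fun b _ => Algebra.mul_smul_comm r (mkR f (M a b)) (v.1 b))
    · simp [h]

/-- The morphism of free modules given by a homogeneous matrix of degree `0`. -/
noncomputable def frMap {n : ι → ℤ} {n' : κ → ℤ} (M : Matrix κ ι (Q k)) (hM : Hg wQ n n' 0 M)
    (U : ι → Prop) (U' : κ → Prop) : Fr f n U ⟶ Fr f n' U' :=
  ObjectProperty.homMk
    { app := fun j => ModuleCat.ofHom (frLin M hM U U' j.n)
      naturality := fun i j p => by
        classical
        ext v
        refine Subtype.ext (funext fun a => ?_)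
        change (if U' a then ∑ b, mkR f (M a b) * (mkR f p.1 * v.1 b) else 0) =
          mkR f p.1 * (if U' a then ∑ b, mkR f (M a b) * v.1 b else 0)
        split_ifs
        · rw [Finset.mul_sum]
          exact Finset.sum_congr rfl (fun _ _ => by ring)
        · simp }

omit [Fintype ι] in
theorem Fr.hom_ext {M : Gr f} {n : ι → ℤ} {U : ι → Prop} {φ ψ : M ⟶ Fr f n U}
    (h : ∀ (j : Deg k) (v : M.obj.obj j) (a : ι),
      (φ.hom.app j v : FrSub f n U j.n).1 a = (ψ.hom.app j v : FrSub f n U j.n).1 a) : φ = ψ := by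
  ext j v
  exact Subtype.ext (funext (h j v))

open Classical in
omit [Fintype κ] in
theorem frMap_apply {n : ι → ℤ} {n' : κ → ℤ} (M : Matrix κ ι (Q k)) (hM : Hg wQ n n' 0 M)
    (U : ι → Prop) (U' : κ → Prop) (j : Deg k) (v : FrSub f n U j.n) (a : κ) :
    ((frMap (f := f) M hM U U').hom.app j v).1 a =
      if U' a then ∑ b, mkR f (M a b) * v.1 b else 0 := rfl

omit [Fintype ι] in
theorem Fr_map_apply (n : ι → ℤ) (U : ι → Prop) {i j : Deg k} (p : i ⟶ j) (v : FrSub f n U i.n)
    (a : ι) : ((Fr f n U).obj.map p v).1 a = mkR f p.1 * v.1 a := rfl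

omit [Fintype ι] in
/-- The generator `a`, of internal degree `g`. -/
noncomputable def frGen [DecidableEq ι] (f : Q k) (n : ι → ℤ) (U : ι → Prop) (a : ι) (g : ℤ)
    (ha : U a) (hg : n a = 2 * g) : FrSub f n U g :=
  ⟨Pi.single a 1, fun b => by
    by_cases h : b = a
    · subst h
      refine ⟨⟨1, IsWH.cast (isWeightedHomogeneous_one k wQ) (by omega), by simp⟩, fun h => ?_⟩
      exact absurd ha h
    · simp [h]⟩

open Classical in
/-- The diagonal matrix of the indicator of `U`. -/
noncomputable def dg (k : Type u) [Field k] (U : ι → Prop) : Matrix ι ι (Q k) :=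
  Matrix.of fun a b => if a = b ∧ U a then 1 else 0

omit [Fintype ι] in
theorem hg_dg (n : ι → ℤ) (U : ι → Prop) : Hg wQ n n 0 (dg k U) := fun a b => by
  simp only [dg, Matrix.of_apply]
  split_ifs with h
  · rw [h.1]; simpa using isWeightedHomogeneous_one k wQ
  · exact isWeightedHomogeneous_zero _ _ _

end Free

section Complexes

/-- Generator degrees in column `p` of the unfolded complex. -/
def colν {ι : Type} (ν : ι → ℤ) (p : ℤ) : ι → ℤ := fun a => ν a - 3 * p

theorem MF.hg_col (E : MF f) {p q : ℤ} (h : p + 1 = q) :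
    Hg wQ (colν E.ν p) (colν E.ν q) 0 E.D :=
  E.isMF.1.of_eq (fun a b => by simp only [colν]; omega)

theorem hg_col {ι κ : Type} {ν : ι → ℤ} {μ : κ → ℤ} {γ : ℤ} {u : Matrix κ ι (Q k)}
    (hu : Hg wQ ν μ γ u) {p q : ℤ} (h : 3 * p + γ = 3 * q) : Hg wQ (colν ν p) (colν μ q) 0 u :=
  hu.of_eq (fun a b => by simp only [colν]; omega)

/-- Convex sets of generators give subquotient complexes. -/
def Cvx (E : MF f) (P : ℤ → E.ι → Prop) : Prop :=
  ∀ p a b c, P p c → P (p + 2) a → E.D a b ≠ 0 → E.D b c ≠ 0 → P (p + 1) b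

/-- Sets of generators closed under the differential give subcomplexes. -/
def Up (E : MF f) (U : ℤ → E.ι → Prop) : Prop :=
  ∀ p a b, U p b → E.D a b ≠ 0 → U (p + 1) a

theorem frMap_D_D (E : MF f) {P : ℤ → E.ι → Prop} (hP : Cvx E P) {p q r : ℤ} (h : p + 1 = q)
    (h' : q + 1 = r) :
    frMap (f := f) E.D (E.hg_col h) (P p) (P q) ≫ frMap E.D (E.hg_col h') (P q) (P r) = 0 := by
  classical
  obtain rfl := h
  obtain rfl : r = p + 2 := by omega
  refine Fr.hom_ext (fun j v a => ?_)
  change (if P (p + 2) a then ∑ b, mkR f (E.D a b) *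
    (if P (p + 1) b then ∑ c, mkR f (E.D b c) * v.1 c else 0) else 0) = 0
  split_ifs with ha
  · have h1 : ∀ b, mkR f (E.D a b) * (if P (p + 1) b then ∑ c, mkR f (E.D b c) * v.1 c else 0) =
        ∑ c, mkR f (E.D a b * E.D b c) * v.1 c := by
      intro b
      split_ifs with hb
      · rw [Finset.mul_sum]
        exact Finset.sum_congr rfl (fun _ _ => by rw [map_mul]; ring)
      · rw [mul_zero]
        refine (Finset.sum_eq_zero (fun c _ => ?_)).symm
        by_cases hc : P p c
        · by_cases h1 : E.D a b = 0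
          · simp [h1]
          · by_cases h2 : E.D b c = 0
            · simp [h2]
            · exact absurd (hP p a b c hc ha h1 h2) hb
        · simp [(v.2 c).2 hc]
    simp_rw [h1]
    rw [Finset.sum_comm]
    refine Finset.sum_eq_zero (fun c _ => ?_)
    rw [← Finset.sum_mul, ← map_sum, ← Matrix.mul_apply, E.isMF.2, Matrix.smul_apply, smul_eq_mul,
      map_mul, Ideal.Quotient.mkₐ_eq_mk,
      Ideal.Quotient.eq_zero_iff_mem.mpr (Ideal.mem_span_singleton_self f), zero_mul, zero_mul]
  · rfl

/-- The subquotient of the unfolded complex of `E` on the generators in `P`. -/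
noncomputable def Cx (E : MF f) (P : ℤ → E.ι → Prop) (hP : Cvx E P) :
    CochainComplex (Gr f) ℤ where
  X p := Fr f (colν E.ν p) (P p)
  d p q := if h : p + 1 = q then frMap E.D (E.hg_col h) (P p) (P q) else 0
  shape p q h := dif_neg h
  d_comp_d' p q r h h' := by
    rw [dif_pos (show p + 1 = q from h), dif_pos (show q + 1 = r from h')]
    exact frMap_D_D E hP h h'

theorem Cx_d (E : MF f) (P : ℤ → E.ι → Prop) (hP : Cvx E P) {p q : ℤ} (h : p + 1 = q) :
    (Cx E P hP).d p q = frMap E.D (E.hg_col h) (P p) (P q) := dif_pos h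

/-- Generators of internal degree at least `i`. -/
def GEi (E : MF f) (i : ℤ) : ℤ → E.ι → Prop := fun p a => 2 * i ≤ E.ν a - 3 * p

theorem MF.le_of_ne (E : MF f) {a b : E.ι} (h : E.D a b ≠ 0) : E.ν a ≤ E.ν b + 3 := by
  by_contra hc
  exact h (IsWH.eq_zero_of_neg N0 N0_wQ (E.isMF.1 a b) (by simp only [N0_apply]; omega))

theorem up_not_GEi (E : MF f) (i : ℤ) : Up E (fun p a => ¬ GEi E i p a) := by
  intro p a b hb h
  have := E.le_of_ne h
  simp only [GEi] at hb ⊢
  omega

theorem cvx_top (E : MF f) : Cvx E (fun _ _ => True) := fun _ _ _ _ _ _ _ _ => trivial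

theorem Cvx.and_up {E : MF f} {P U : ℤ → E.ι → Prop} (hP : Cvx E P) (hU : Up E U) :
    Cvx E (fun p a => P p a ∧ U p a) := fun p a b c hc ha h1 h2 =>
  ⟨hP p a b c hc.1 ha.1 h1 h2, hU p b c hc.2 h2⟩

theorem Cvx.and_not_up {E : MF f} {P U : ℤ → E.ι → Prop} (hP : Cvx E P) (hU : Up E U) :
    Cvx E (fun p a => P p a ∧ ¬ U p a) := fun p a b c hc ha h1 h2 =>
  ⟨hP p a b c hc.1 ha.1 h1 h2, fun hb => ha.2 (by
    have := hU (p + 1) a b hb h1
    rwa [add_assoc] at this)⟩

theorem cvx_GEi (E : MF f) (i : ℤ) : Cvx E (GEi E i) := fun p a b c _ ha h1 _ => by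
  have := E.le_of_ne h1
  simp only [GEi] at ha ⊢
  omega

theorem up_le (E : MF f) (q : ℤ) : Up E (fun p _ => q ≤ p) := fun _ _ _ h _ => by omega

/-- Orlov's truncation of the unfolded complex. -/
noncomputable def Φc (E : MF f) : CochainComplex (Gr f) ℤ := Cx E (GEi E 1) (cvx_GEi E 1)

/-- A chain map between subquotient complexes given by one matrix. -/
noncomputable def cxMap {E F : MF f} {P : ℤ → E.ι → Prop} {hP : Cvx E P} {P' : ℤ → F.ι → Prop}
    {hP' : Cvx F P'} (u : Matrix F.ι E.ι (Q k)) (hu : Hg wQ E.ν F.ν 0 u)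
    (comm : ∀ p q (h : p + 1 = q),
      frMap (f := f) u (hg_col hu (add_zero _)) (P p) (P' p) ≫
        frMap F.D (F.hg_col h) (P' p) (P' q) =
      frMap E.D (E.hg_col h) (P p) (P q) ≫ frMap u (hg_col hu (add_zero _)) (P q) (P' q)) :
    Cx E P hP ⟶ Cx F P' hP' where
  f p := frMap u (hg_col hu (add_zero _)) (P p) (P' p)
  comm' p q h := by
    rw [Cx_d _ _ _ h, Cx_d _ _ _ h]
    exact comm p q h

end Complexes

section Koszul

/-- The ambient functor category. -/
abbrev Amb (k : Type u) [Field k] := Deg k ⥤ ModuleCat.{u} k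

/-- The shift `i ↦ i + 1` on degrees. -/
noncomputable def shDeg (k : Type u) [Field k] : Deg k ⥤ Deg k where
  obj i := ⟨i.n + 1⟩
  map {i j} p := ⟨p.1, IsWH.cast p.2 (by ring)⟩

/-- The twist `M ↦ M(1)`. -/
noncomputable def Tw (k : Type u) [Field k] : Amb k ⥤ Amb k :=
  (Functor.whiskeringLeft _ _ _).obj (shDeg k)

instance : (Tw k).Additive where

/-- Multiplication by `x_a`, from degree `i` to degree `i + 1`. -/
noncomputable def xone (a : Fin 5) (i : Deg k) : i ⟶ ⟨i.n + 1⟩ :=
  ⟨X a, by simpa using isWeightedHomogeneous_X k (fun _ => (1 : ℤ)) a⟩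

/-- Multiplication by `x_a` as a natural map `M ⟶ M(1)`. -/
noncomputable def mulX (a : Fin 5) : 𝟭 (Amb k) ⟶ Tw k where
  app M :=
    { app := fun i => M.map (xone a i)
      naturality := fun i j p => by
        change M.map p ≫ M.map (xone a j) = M.map (xone a i) ≫ M.map ((shDeg k).map p)
        rw [← M.map_comp, ← M.map_comp]
        congr 1
        exact Subtype.ext (mul_comm _ _) }
  naturality M N φ := by
    ext i : 2
    exact (φ.naturality (xone a i)).symm

/-- The cone of multiplication by `x_a` on a complex. -/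
noncomputable def Kc (a : Fin 5) (Y : CochainComplex (Amb k) ℤ) : CochainComplex (Amb k) ℤ :=
  CochainComplex.mappingCone
    (show Y ⟶ ((Tw k).mapHomologicalComplex _).obj Y from
      (NatTrans.mapHomologicalComplex (mulX a) _).app Y)

/-- Exactness in all internal degrees `≥ d`. -/
def ExGE (d : ℤ) (Y : CochainComplex (Amb k) ℤ) : Prop :=
  ∀ (j : Deg k), d ≤ j.n → ∀ (p q r : ℤ), p + 1 = q → q + 1 = r → ∀ y : (Y.X q).obj j,
    (Y.d q r).app j y = 0 → ∃ x : (Y.X p).obj j, (Y.d p q).app j x = y

/-- The iterated Koszul cone is exact in internal degrees `≥ d`. -/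
def KE (d : ℤ) : List (Fin 5) → CochainComplex (Amb k) ℤ → Prop
  | [], Y => ExGE d Y
  | a :: l, Y => KE d l (Kc a Y)

/-- The underlying complex in the ambient category. -/
noncomputable abbrev amb (Y : CochainComplex (Gr f) ℤ) : CochainComplex (Amb k) ℤ :=
  ((IsGrMod f).ι.mapHomologicalComplex _).obj Y

/-- `x_a` acts bijectively. -/
def Inv (a : Fin 5) (M : Amb k) : Prop := ∀ i : Deg k, Function.Bijective (M.map (xone a i))

/-- The cohomology is `x_a`-power torsion. -/
def TorsH (a : Fin 5) (Y : CochainComplex (Amb k) ℤ) : Prop :=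
  ∀ (j : Deg k) (p q r : ℤ), p + 1 = q → q + 1 = r → ∀ y : (Y.X q).obj j,
    (Y.d q r).app j y = 0 → ∃ (n : ℕ) (x : (Y.X p).obj ⟨j.n + n⟩),
      (Y.d p q).app _ x = (Y.X q).map (xpow a n j) y

/-- Objects with no maps to complexes that are exact in internal degrees `≥ d`. -/
def XGE (f : Q k) (d : ℤ) : ObjectProperty (DerivedCategory (Gr f)) := fun Y =>
  ∀ T : CochainComplex (Gr f) ℤ, ExGE d (amb T) → ∀ φ : Y ⟶ DerivedCategory.Q.obj T, φ = 0

end Koszul

section Orlov

variable {A : Type*} [Category A] [Abelian A] [HasDerivedCategory A] (π : Gr f ⥤ A) [π.Additive]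
  [PreservesFiniteLimits π] [PreservesFiniteColimits π]

/-- From complexes of graded modules to the derived category of the quotient. -/
noncomputable abbrev PD : CochainComplex (Gr f) ℤ ⥤ DerivedCategory A :=
  DerivedCategory.Q ⋙ π.mapDerivedCategory

/-- Orlov's functor on objects. -/
noncomputable abbrev Φ (E : MF f) : DerivedCategory A := (PD π).obj (Φc E)

end Orlov

end Pool.Agent.Lib.MP_0ba2dd_ag
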