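import Pool.Agent.Lib.MP_0ba2dd_ag.H45GrA1

/-! Elementwise criteria in the category of graded modules, and the calculus of free modules. -/

namespace Pool.Agent.Lib.MP_0ba2dd_ag

open CategoryTheory Limits MvPolynomial Pretriangulated

universe u

variable {k : Type u} [Field k] {f : Q k}

theorem gra2_odd {m : ℤ} (hm : Odd m) {v : Rf f} (hv : v ∈ RN f m) : v = 0 := by
  obtain ⟨p, hp, rfl⟩ := hv
  rw [IsWH.eq_zero_of_odd N0 N0_wQ hp hm, map_zero]

theorem gra2_neg {m : ℤ} (hm : m < 0) {v : Rf f} (hv : v ∈ RN f m) : v = 0 := by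
  obtain ⟨p, hp, rfl⟩ := hv
  rw [IsWH.eq_zero_of_neg N0 N0_wQ hp hm, map_zero]

theorem gra2_mk_eq {p q : Q k} : mkR f p = mkR f q ↔ f ∣ p - q :=
  Ideal.Quotient.eq.trans Ideal.mem_span_singleton

theorem gra2_mem {d : ℤ} {v : Rf f} : v ∈ Rdeg f d ↔ v ∈ RN f (2 * d) :=
  ⟨fun ⟨p, hp, e⟩ => ⟨p, mem_Hom5_iff.mp hp, e⟩, fun ⟨p, hp, e⟩ => ⟨p, mem_Hom5_iff.mpr hp, e⟩⟩

theorem gra2_kill (hf : f.IsHomogeneous 3) (M : Gr f) {i j : Deg k} (p : i ⟶ j)
    (h : mkR f p.1 = 0) : M.obj.map p = 0 := by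
  obtain ⟨q, hq⟩ : f ∣ p.1 := Ideal.mem_span_singleton.mp (Ideal.Quotient.eq_zero_iff_mem.mp h)
  by_cases h0 : f = 0
  · exact M.property.2.2 i j p (by rw [hq, h0, zero_mul])
  have hf' : f.IsWeightedHomogeneous wQ (2 * 3) := isWH_wQ_iff.mpr hf
  have hq' : q.IsWeightedHomogeneous wQ (2 * (j.n - (i.n + 3))) :=
    IsWH.of_mul hf' h0 (IsWH.cast (hq ▸ mem_Hom5_iff.mp p.2) (by ring))
  let a : i ⟶ (⟨i.n + 3⟩ : Deg k) := ⟨f, mem_Hom5_iff.mpr (IsWH.cast hf' (by ring))⟩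
  let b : (⟨i.n + 3⟩ : Deg k) ⟶ j := ⟨q, mem_Hom5_iff.mpr hq'⟩
  rw [show p = a ≫ b from Subtype.ext hq, Functor.map_comp, M.property.2.2 _ _ a rfl, zero_comp]

theorem gra2_psi (hf : f.IsHomogeneous 3) (M : Gr f) (i j : Deg k) (m : M.obj.obj i) (e : ℤ)
    (he : 2 * (j.n - i.n) = e) : ∃ ψ : RN f e →ₗ[k] M.obj.obj j,
      ∀ (p : i ⟶ j) (v : RN f e), mkR f p.1 = v.1 → ψ v = M.obj.map p m := by
  subst he
  let σ : Hom5 k (j.n - i.n) →ₗ[k] RN f (2 * (j.n - i.n)) :=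
    (mkR f).toLinearMap.restrict fun p hp => ⟨p, mem_Hom5_iff.mp hp, rfl⟩
  let act : Hom5 k (j.n - i.n) →ₗ[k] M.obj.obj j :=
    { toFun := fun p => M.obj.map (show i ⟶ j from p) m
      map_add' := fun p q => by
        rw [M.property.1 i j p q (p + q) rfl]
        rfl
      map_smul' := fun r p => by
        rw [M.property.2.1 i j r p (r • p) rfl]
        rfl }
  obtain ⟨s, hs⟩ := σ.exists_rightInverse_of_surjective (LinearMap.range_eq_top.mpr
    fun ⟨_, p, hp, e⟩ => ⟨⟨p, mem_Hom5_iff.mpr hp⟩, Subtype.ext e⟩)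
  refine ⟨act ∘ₗ s, fun p v h => ?_⟩
  have h1 : mkR f (s v).1 = v.1 := congrArg Subtype.val (LinearMap.congr_fun hs v)
  have h2 : act (s v - p) = 0 := by
    change M.obj.map (show i ⟶ j from s v - p) m = 0
    rw [gra2_kill hf M _ (show mkR f ((s v).1 - p.1) = 0 by rw [map_sub, h1, h, sub_self])]
    rfl
  rw [map_sub, sub_eq_zero] at h2
  exact h2

section Free

variable {ι κ ρ : Type} [Fintype ι] [Fintype κ] [Fintype ρ] {n : ι → ℤ} {n' : κ → ℤ}
  {n'' : ρ → ℤ} {U : ι → Prop} {U' : κ → Prop} {U'' : ρ → Prop}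

omit [Fintype ι] in
theorem gra2_zero {j : ℤ} (v : FrSub f n U j) {a : ι} (h : ¬ (U a ∧ Even (n a))) : v.1 a = 0 := by
  by_cases ha : U a
  · refine gra2_odd ?_ (v.2 a).1
    obtain ⟨r, hr⟩ := Int.not_even_iff_odd.mp fun c => h ⟨ha, c⟩
    exact ⟨j - r - 1, by omega⟩
  · exact (v.2 a).2 ha

omit [Fintype ι] in
theorem gra2_half (a : {a // U a ∧ Even (n a)}) : n a = 2 * (n a / 2) := by
  obtain ⟨r, hr⟩ := a.2.2
  omega

omit [Fintype ι] in
theorem gra2_lift {j : Deg k} (v : FrSub f n U j.n) (a : {a // U a ∧ Even (n a)}) :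
    ∃ p : (⟨n a / 2⟩ : Deg k) ⟶ j, mkR f p.1 = v.1 a := by
  obtain ⟨p, hp, e⟩ := (v.2 a).1
  exact ⟨⟨p, mem_Hom5_iff.mpr (IsWH.cast hp (by have := gra2_half a; dsimp only; omega))⟩, e⟩

open Classical in
omit [Fintype κ] in
theorem gra2_gen [DecidableEq ι] (M : Matrix κ ι (Q k)) (hM : Hg wQ n n' 0 M) (b : ι) (g : ℤ)
    (hb : U b) (hg : n b = 2 * g) (a : κ) :
    ((frMap (f := f) M hM U U').hom.app ⟨g⟩ (frGen f n U b g hb hg)).1 a =
      if U' a then mkR f (M a b) else 0 := by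
  rw [frMap_apply]
  split_ifs
  · rw [Finset.sum_eq_single b (fun c _ hc => by simp [frGen, hc]) (by simp)]
    simp [frGen]
  · rfl

open Classical in
theorem gra2_one [DecidableEq ι] (U₁ U₂ : ι → Prop) (j : Deg k) (v : FrSub f n U₁ j.n) (a : ι) :
    ((frMap (f := f) (1 : Matrix ι ι (Q k)) (Hg.one (ν := n)) U₁ U₂).hom.app j v).1 a =
      if U₂ a then v.1 a else 0 := by
  rw [frMap_apply]
  split_ifs
  · rw [Finset.sum_eq_single a (fun c _ hc => by simp [Matrix.one_apply_ne' hc]) (by simp)]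
    simp
  · rfl

open Classical in
omit [Fintype ι] in
theorem gra2_dg (M : Matrix κ ι (Q k)) (a : κ) (b : ι) :
    (dg k U' * M) a b = if U' a then M a b else 0 := by
  rw [Matrix.mul_apply, Finset.sum_eq_single a (fun c _ hc => by simp [dg, Ne.symm hc]) (by simp)]
  simp [dg]

omit [Fintype ι] in
theorem gra2_decomp [DecidableEq ι] [Fintype {a // U a ∧ Even (n a)}] (j : Deg k)
    (v : (Fr f n U).obj.obj j) : ∃ p : ∀ a : {a // U a ∧ Even (n a)}, (⟨n a / 2⟩ : Deg k) ⟶ j,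
      v = ∑ a, (Fr f n U).obj.map (p a) (frGen f n U a (n a / 2) a.2.1 (gra2_half a)) := by
  choose p hp using gra2_lift (f := f) (n := n) (U := U) v
  refine ⟨p, Subtype.ext (funext fun b => ?_)⟩
  have e : ∀ x : {a // U a ∧ Even (n a)} → FrSub f n U j.n, (∑ a, x a).1 b = ∑ a, (x a).1 b :=
    fun x => by rw [Submodule.coe_sum, Finset.sum_apply]
  refine Eq.trans ?_ (e _).symm
  simp only [Fr_map_apply, hp]
  by_cases hb : U b ∧ Even (n b)
  · rw [Finset.sum_eq_single ⟨b, hb⟩ (fun c _ hc => by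
      have : b ≠ c.1 := fun h => hc (Subtype.ext h.symm)
      simp [frGen, this]) (by simp)]
    simp [frGen]
  · rw [gra2_zero v hb]
    refine (Finset.sum_eq_zero fun c _ => ?_).symm
    have : b ≠ c.1 := fun h => hb (h ▸ c.2)
    simp [frGen, this]

omit [Fintype κ] in
theorem frMap_congr {M M' : Matrix κ ι (Q k)} (hM : Hg wQ n n' 0 M) (hM' : Hg wQ n n' 0 M')
    (h : ∀ a b, U' a → U b → Even (n b) → f ∣ M a b - M' a b) :
    frMap (f := f) M hM U U' = frMap M' hM' U U' := by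
  refine Fr.hom_ext fun j v a => ?_
  rw [frMap_apply, frMap_apply]
  split_ifs with ha
  · refine Finset.sum_congr rfl fun b _ => ?_
    by_cases hb : U b ∧ Even (n b)
    · rw [gra2_mk_eq.mpr (h a b ha hb.1 hb.2)]
    · rw [gra2_zero v hb, mul_zero, mul_zero]
  · rfl

omit [Fintype κ] in
theorem dvd_of_frMap_eq {M M' : Matrix κ ι (Q k)} (hM : Hg wQ n n' 0 M) (hM' : Hg wQ n n' 0 M')
    (h : frMap (f := f) M hM U U' = frMap M' hM' U U') :
    ∀ a b, U' a → U b → Even (n b) → f ∣ M a b - M' a b := by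
  classical
  intro a b ha hb he
  have h1 := gra2_gen (f := f) (U' := U') M hM b _ hb (gra2_half ⟨b, hb, he⟩) a
  rw [h, gra2_gen, if_pos ha, if_pos ha] at h1
  exact gra2_mk_eq.mp h1.symm

omit [Fintype ρ] in
theorem frMap_comp {M : Matrix κ ι (Q k)} (hM : Hg wQ n n' 0 M) {M' : Matrix ρ κ (Q k)}
    (hM' : Hg wQ n' n'' 0 M') :
    frMap (f := f) M hM U U' ≫ frMap M' hM' U' U'' =
      frMap (M' * (dg k U' * M)) (hM'.mul ((hg_dg n' U').mul hM (add_zero _)) (add_zero _))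
        U U'' := by
  classical
  refine Fr.hom_ext fun j v c => ?_
  change (if U'' c then ∑ a, mkR f (M' c a) *
    (if U' a then ∑ b, mkR f (M a b) * v.1 b else 0) else 0) =
    if U'' c then ∑ b, mkR f ((M' * (dg k U' * M)) c b) * v.1 b else 0
  split_ifs
  · simp only [Matrix.mul_apply (M := M'), gra2_dg, map_sum, Finset.sum_mul]
    rw [Finset.sum_comm]
    refine Finset.sum_congr rfl fun a _ => ?_
    split_ifs
    · simp only [Finset.mul_sum, map_mul, mul_assoc]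
    · simp
  · rfl

omit [Fintype ρ] in
theorem frMap_comp' {M : Matrix κ ι (Q k)} (hM : Hg wQ n n' 0 M) {M' : Matrix ρ κ (Q k)}
    (hM' : Hg wQ n' n'' 0 M') (h : ∀ a b c, U'' a → U c → ¬ U' b → M' a b * M b c = 0) :
    frMap (f := f) M hM U U' ≫ frMap M' hM' U' U'' =
      frMap (M' * M) (hM'.mul hM (add_zero _)) U U'' := by
  classical
  rw [frMap_comp]
  refine frMap_congr _ _ fun a c ha hc _ => ?_
  rw [Matrix.mul_apply, Matrix.mul_apply, Finset.sum_congr rfl (g := fun b => M' a b * M b c)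
    fun b _ => by
      rw [gra2_dg]
      split_ifs with hb
      · rfl
      · rw [h a b c ha hc hb, mul_zero], sub_self]
  exact dvd_zero _

omit [Fintype κ] in
theorem frMap_add {M M' : Matrix κ ι (Q k)} (hM : Hg wQ n n' 0 M) (hM' : Hg wQ n n' 0 M') :
    frMap (f := f) (M + M') (hM.add hM') U U' = frMap M hM U U' + frMap M' hM' U U' := by
  classical
  refine Fr.hom_ext fun j v a => ?_
  change (if U' a then ∑ b, mkR f (M a b + M' a b) * v.1 b else 0) =
    (if U' a then ∑ b, mkR f (M a b) * v.1 b else 0) +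
      if U' a then ∑ b, mkR f (M' a b) * v.1 b else 0
  split_ifs
  · simp only [map_add, add_mul, Finset.sum_add_distrib]
  · simp

omit [Fintype κ] in
theorem frMap_neg {M : Matrix κ ι (Q k)} (hM : Hg wQ n n' 0 M) :
    frMap (f := f) (-M) hM.neg U U' = -frMap M hM U U' := by
  classical
  refine Fr.hom_ext fun j v a => ?_
  change (if U' a then ∑ b, mkR f (-M a b) * v.1 b else 0) =
    -(if U' a then ∑ b, mkR f (M a b) * v.1 b else 0)
  split_ifs
  · rw [← Finset.sum_neg_distrib]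
    exact Finset.sum_congr rfl fun b _ => by rw [map_neg]; ring
  · simp

omit [Fintype κ] in
theorem frMap_zero : frMap (f := f) (0 : Matrix κ ι (Q k)) (Hg.zero (ν := n) (μ := n')) U U' = 0 := by
  classical
  refine Fr.hom_ext fun j v a => ?_
  change (if U' a then ∑ b, mkR f 0 * v.1 b else 0) = 0
  simp

theorem frMap_one [DecidableEq ι] :
    frMap (f := f) (1 : Matrix ι ι (Q k)) (Hg.one (ν := n)) U U = 𝟙 _ := by
  refine Fr.hom_ext fun j v a => (gra2_one U U j v a).trans ?_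
  split_ifs with ha
  · rfl
  · exact ((v.2 a).2 ha).symm

theorem Fr.hom_ext_gen [DecidableEq ι] {M : Gr f} {φ ψ : Fr f n U ⟶ M}
    (h : ∀ a g ha hg, φ.hom.app ⟨g⟩ (frGen f n U a g ha hg) =
      ψ.hom.app ⟨g⟩ (frGen f n U a g ha hg)) : φ = ψ := by
  classical
  ext j v
  obtain ⟨p, rfl⟩ := gra2_decomp j v
  change φ.hom.app j _ = ψ.hom.app j _
  rw [map_sum, map_sum]
  exact Finset.sum_congr rfl fun a _ => by rw [Gr.nat, Gr.nat, h]

theorem Fr.exists_desc [DecidableEq ι] (hf : f.IsHomogeneous 3) (M : Gr f)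
    (m : ∀ (a : ι) (g : ℤ), U a → n a = 2 * g → M.obj.obj ⟨g⟩) :
    ∃ φ : Fr f n U ⟶ M, ∀ a g ha hg, φ.hom.app ⟨g⟩ (frGen f n U a g ha hg) = m a g ha hg := by
  classical
  choose ψ hψ using fun (a : {a // U a ∧ Even (n a)}) (j : Deg k) =>
    gra2_psi hf M ⟨n a / 2⟩ j (m a _ a.2.1 (gra2_half a)) (2 * j.n - n a)
      (by have := gra2_half a; dsimp only; omega)
  let c : ∀ (j : Deg k) (a : ι), FrSub f n U j.n →ₗ[k] RN f (2 * j.n - n a) := fun j a =>
    ((LinearMap.proj a).comp (FrSub f n U j.n).subtype).codRestrict _ fun v => (v.2 a).1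
  refine ⟨ObjectProperty.homMk
    { app := fun j => ModuleCat.ofHom (∑ a : {a // U a ∧ Even (n a)}, ψ a j ∘ₗ c j a)
      naturality := fun i j q => ?_ }, fun a g ha hg => ?_⟩
  · ext v
    change (∑ a : {a // U a ∧ Even (n a)}, ψ a j ∘ₗ c j a) (frAct f n U q v) =
      M.obj.map q ((∑ a : {a // U a ∧ Even (n a)}, ψ a i ∘ₗ c i a) v)
    rw [LinearMap.sum_apply, LinearMap.sum_apply, map_sum]
    refine Finset.sum_congr rfl fun a _ => ?_
    obtain ⟨p, hp⟩ := gra2_lift (f := f) (n := n) (U := U) v a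
    rw [LinearMap.comp_apply, LinearMap.comp_apply, hψ a i p _ hp, hψ a j (p ≫ q) _ (by
      change mkR f (p.1 * q.1) = mkR f q.1 * v.1 a
      rw [map_mul, hp, mul_comm]), Functor.map_comp, ModuleCat.comp_apply]
  · obtain rfl : g = n a / 2 := by omega
    change (∑ b : {a // U a ∧ Even (n a)}, ψ b ⟨n a / 2⟩ ∘ₗ c ⟨n a / 2⟩ b)
      (frGen f n U a _ ha hg) = _
    rw [LinearMap.sum_apply, Finset.sum_eq_single ⟨a, ha, ⟨n a / 2, by omega⟩⟩
      (fun b _ hb => ?_) (by simp), LinearMap.comp_apply, hψ _ _ (𝟙 _) _ (by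
        change mkR f 1 = (Pi.single a 1 : ι → Rf f) a
        simp), CategoryTheory.Functor.map_id]
    · rfl
    · have h1 : c ⟨n a / 2⟩ b (frGen f n U a _ ha hg) = 0 :=
        Subtype.ext (Pi.single_eq_of_ne (M := fun _ => Rf f) (fun h => hb (Subtype.ext h)) 1)
      rw [LinearMap.comp_apply, h1, map_zero]

omit [Fintype κ] in
theorem exists_frMap (φ : Fr f n U ⟶ Fr f n' U') :
    ∃ (M : Matrix κ ι (Q k)) (hM : Hg wQ n n' 0 M), φ = frMap M hM U U' ∧
      ∀ a b, ¬ (U' a ∧ U b ∧ Even (n b)) → M a b = 0 := by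
  classical
  choose P hP hP' using fun (a : κ) (b : {b // U b ∧ Even (n b)}) =>
    ((φ.hom.app ⟨n b / 2⟩ (frGen f n U b _ b.2.1 (gra2_half b)) : FrSub f n' U' _).2 a).1
  refine ⟨Matrix.of fun a b => if h : U' a ∧ U b ∧ Even (n b) then P a ⟨b, h.2⟩ else 0,
    fun a b => ?_, Fr.hom_ext_gen fun b g hb hg => Subtype.ext (funext fun a => ?_),
    fun a b h => dif_neg h⟩
  · rw [Matrix.of_apply]
    split_ifs with h
    · exact IsWH.cast (hP a ⟨b, h.2⟩) (by have := gra2_half ⟨b, h.2⟩; dsimp only at *; omega)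
    · exact isWeightedHomogeneous_zero _ _ _
  · obtain rfl : g = n b / 2 := by omega
    rw [gra2_gen, Matrix.of_apply]
    split_ifs with h1 h2
    · exact (hP' a ⟨b, h2.2⟩).symm
    · exact absurd ⟨h1, hb, ⟨n b / 2, by omega⟩⟩ h2
    · exact ((φ.hom.app ⟨n b / 2⟩ (frGen f n U b _ hb hg) : FrSub f n' U' _).2 a).2 h1

theorem projective_Fr (hf : f.IsHomogeneous 3) (n : ι → ℤ) (U : ι → Prop) :
    Projective (Fr f n U) := by
  classical
  refine ⟨fun {E X} φ e _ => ?_⟩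
  choose m hm using fun a g ha hg => Gr.surj e ⟨g⟩ (φ.hom.app ⟨g⟩ (frGen f n U a g ha hg))
  obtain ⟨ψ, hψ⟩ := Fr.exists_desc hf E m
  refine ⟨ψ, Fr.hom_ext_gen fun a g ha hg => ?_⟩
  rw [← hm, ← hψ]
  rfl

theorem fg_Fr (n : ι → ℤ) (U : ι → Prop) : FG f (Fr f n U) := by
  classical
  let e := (Fintype.equivFin {a // U a ∧ Even (n a)}).symm
  refine ⟨_, fun i => ⟨n (e i) / 2⟩, fun i => frGen f n U (e i) _ (e i).2.1 (gra2_half _),
    fun j v => ?_⟩
  obtain ⟨p, hp⟩ := gra2_decomp j v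
  exact ⟨fun i => p (e i), hp.trans (Equiv.sum_comp e _).symm⟩

omit [Fintype ι] in
theorem Fr_subsingleton (j : Deg k) (h : ∀ a, U a → 2 * j.n < n a ∨ Odd (n a)) :
    Subsingleton ((Fr f n U).obj.obj j) := by
  have key : ∀ (v : FrSub f n U j.n) a, v.1 a = 0 := fun v a => by
    by_cases ha : U a
    · rcases h a ha with h1 | h1
      · exact gra2_neg (by omega) (v.2 a).1
      · exact gra2_zero v fun c => Int.not_even_iff_odd.mpr h1 c.2
    · exact (v.2 a).2 ha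
  exact ⟨fun v w => Subtype.ext (funext fun a => (key v a).trans (key w a).symm)⟩

theorem Fr_iso_twist (a₀ : ι) (g : ℤ) (h₀ : U a₀) (hg : n a₀ = 2 * g)
    (h : ∀ a, U a → Even (n a) → a = a₀) : Nonempty (Fr f n U ≅ twistMod f (-g)) := by
  classical
  have e : ∀ j : Deg k, 2 * j.n - n a₀ = 2 * (j.n + -g) := fun j => by omega
  let φ : Fr f n U ⟶ twistMod f (-g) := ObjectProperty.homMk
    { app := fun j => ModuleCat.ofHom
        (((LinearMap.proj a₀).comp (FrSub f n U j.n).subtype).codRestrict (Rdeg f (j.n + -g))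
          fun v => gra2_mem.mpr (e j ▸ (v.2 a₀).1))
      naturality := fun i j q => by
        ext v
        rfl }
  have := Gr.isIso_of_bij φ fun j => ⟨fun v w hvw => Subtype.ext (funext fun a => ?_),
    fun w => ⟨⟨Pi.single a₀ w.1, fun a => ?_⟩,
      Subtype.ext (Pi.single_eq_same (M := fun _ => Rf f) a₀ w.1)⟩⟩
  · exact ⟨asIso φ⟩
  · by_cases ha : U a ∧ Even (n a)
    · rw [h a ha.1 ha.2]
      exact congrArg Subtype.val hvw
    · exact (gra2_zero v ha).trans (gra2_zero w ha).symm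
  · by_cases ha : a = a₀
    · subst ha
      rw [Pi.single_eq_same]
      exact ⟨e j ▸ gra2_mem.mp w.2, fun c => absurd h₀ c⟩
    · rw [Pi.single_eq_of_ne ha]
      exact ⟨zero_mem _, fun _ => rfl⟩

/-- Splitting the set of generators. -/
theorem Fr_ses [DecidableEq ι] (U₁ U₂ U₃ V : ι → Prop) (h₁ : ∀ a, U₁ a ↔ U₂ a ∧ V a)
    (h₃ : ∀ a, U₃ a ↔ U₂ a ∧ ¬ V a) :
    ∃ w, (ShortComplex.mk (frMap (f := f) (1 : Matrix ι ι (Q k)) (Hg.one (ν := n)) U₁ U₂)
      (frMap (1 : Matrix ι ι (Q k)) (Hg.one (ν := n)) U₂ U₃) w).ShortExact := by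
  classical
  refine ⟨Fr.hom_ext fun j v a => (gra2_one U₂ U₃ j _ a).trans ?_, ShortComplex.ShortExact.mk'
    (Gr.exact_of fun j v hv => ?_) (Gr.mono_of_inj _ fun j v w hvw => ?_)
    (Gr.epi_of_surj _ fun j v => ?_)⟩
  · change _ = 0
    split_ifs with ha
    · refine (gra2_one U₁ U₂ j v a).trans ?_
      rw [(v.2 a).2 fun c => ((h₃ a).mp ha).2 ((h₁ a).mp c).2, ite_self]
    · rfl
  · have h0 : ∀ a, U₃ a → v.1 a = 0 := fun a ha => by
      have := gra2_one U₂ U₃ j v a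
      rw [if_pos ha] at this
      exact this.symm.trans (congrFun (congrArg Subtype.val hv) a)
    refine ⟨⟨v.1, fun a => ⟨(v.2 a).1, fun ha => ?_⟩⟩,
      Subtype.ext (funext fun a => (gra2_one U₁ U₂ j _ a).trans ?_)⟩
    · by_cases h2 : U₂ a
      · exact h0 a ((h₃ a).mpr ⟨h2, fun c => ha ((h₁ a).mpr ⟨h2, c⟩)⟩)
      · exact (v.2 a).2 h2
    · split_ifs with h2
      · rfl
      · exact ((v.2 a).2 h2).symm
  · refine Subtype.ext (funext fun a => ?_)
    by_cases ha : U₁ a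
    · have := congrFun (congrArg Subtype.val hvw) a
      rwa [gra2_one, gra2_one, if_pos ((h₁ a).mp ha).1, if_pos ((h₁ a).mp ha).1] at this
    · exact ((v.2 a).2 ha).trans ((w.2 a).2 ha).symm
  · refine ⟨⟨v.1, fun a => ⟨(v.2 a).1, fun ha => (v.2 a).2 fun c => ha ((h₃ a).mp c).1⟩⟩,
      Subtype.ext (funext fun a => (gra2_one U₂ U₃ j _ a).trans ?_)⟩
    split_ifs with h2
    · rfl
    · exact ((v.2 a).2 h2).symm

end Free

end Pool.Agent.Lib.MP_0ba2dd_ag
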