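import Pool.Agent.Lib.MP_0ba2dd_ag.H45Tens

/-! The Koszul factorisation of the diagonal and the lifting lemmas LL. -/

namespace Pool.Agent.Lib.MP_0ba2dd_ag

open MvPolynomial Matrix Kronecker

variable {k : Type*} [Field k] {ι κ : Type*} [Fintype ι] [Fintype κ]
  [DecidableEq ι] [DecidableEq κ]

theorem mix_zero (f : Q k) : mix 0 f = inX f := by
  have : (mix 0 : Q k →ₐ[k] S k) = inX := by
    ext i : 1; simp [mix, inX]
  rw [this]

theorem mix_five (f : Q k) : mix 5 f = inY f := by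
  have : (mix 5 : Q k →ₐ[k] S k) = inY := by
    ext i : 1; simp [mix, inY]
  rw [this]

/-- The substitution `y n := x n`. -/
noncomputable def tauK (n : ℕ) : S k →ₐ[k] S k :=
  aeval (Sum.elim (fun i => X (Sum.inl i))
    (fun j : Fin 5 => if (j : ℕ) = n then X (Sum.inl j) else X (Sum.inr j)))

/-- The substitution `y j := x j` for all `j < n`. -/
noncomputable def tauL (n : ℕ) : S k →ₐ[k] S k :=
  aeval (Sum.elim (fun i => X (Sum.inl i))
    (fun j : Fin 5 => if (j : ℕ) < n then X (Sum.inl j) else X (Sum.inr j)))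

theorem tauK_tauK (n : ℕ) (p : S k) : tauK n (tauK n p) = tauK n p := by
  have : (tauK n : S k →ₐ[k] S k).comp (tauK n) = tauK n := by
    ext i : 1
    rcases i with i | i
    · simp [tauK]
    · by_cases h : (i : ℕ) = n <;> simp [tauK, h]
  exact congrArg (fun φ : S k →ₐ[k] S k => φ p) this

theorem tauL_tauK (n : ℕ) (p : S k) : tauL n (tauK n p) = tauL (n + 1) p := by
  have : (tauL n : S k →ₐ[k] S k).comp (tauK n) = tauL (n + 1) := by
    ext i : 1
    rcases i with i | i
    · simp [tauK, tauL]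
    · by_cases h : (i : ℕ) = n
      · simp [tauK, tauL, h]
      · by_cases h' : (i : ℕ) < n
        · have : (i : ℕ) ≤ n := by omega
          simp [tauK, tauL, h, h', this]
        · have : ¬ (i : ℕ) ≤ n := by omega
          simp [tauK, tauL, h, h', this]
  exact congrArg (fun φ : S k →ₐ[k] S k => φ p) this

theorem tauL_tauL {n m : ℕ} (hnm : n ≤ m) (p : S k) : tauL m (tauL n p) = tauL m p := by
  have : (tauL m : S k →ₐ[k] S k).comp (tauL n) = tauL m := by
    ext i : 1
    rcases i with i | i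
    · simp [tauL]
    · by_cases h' : (i : ℕ) < n
      · have : (i : ℕ) < m := by omega
        simp [tauL, h', this]
      · simp [tauL, h']
  exact congrArg (fun φ : S k →ₐ[k] S k => φ p) this

theorem tauL_zero (p : S k) : tauL 0 p = p := by
  have : (tauL 0 : S k →ₐ[k] S k) = AlgHom.id k _ := by
    ext i : 1
    rcases i with i | i <;> simp [tauL]
  rw [this]; rfl

theorem tauL_five (p : S k) : tauL 5 p = inX (TD p) := by
  have : (tauL 5 : S k →ₐ[k] S k) = inX.comp TD := by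
    ext i : 1
    rcases i with i | i <;> simp [tauL, inX, TD]
  rw [this]; rfl

theorem tauK_inX (n : ℕ) (p : Q k) : tauK n (inX p) = inX p := by
  have : (tauK n : S k →ₐ[k] S k).comp inX = inX := by
    ext i : 1; simp [tauK, inX]
  exact congrArg (fun φ : Q k →ₐ[k] S k => φ p) this

theorem tauK_mix_succ (n : ℕ) (p : Q k) : tauK n (mix (n + 1) p) = mix n p := by
  have : (tauK n : S k →ₐ[k] S k).comp (mix (n + 1)) = mix n := by
    ext i : 1
    by_cases h : (i : ℕ) = n
    · simp [tauK, mix, h]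
    · by_cases h' : (i : ℕ) < n
      · have : (i : ℕ) ≤ n := by omega
        simp [tauK, mix, h, h', this]
      · have : ¬ (i : ℕ) ≤ n := by omega
        simp [tauK, mix, h', this]
  exact congrArg (fun φ : Q k →ₐ[k] S k => φ p) this

theorem tauK_mix {j n : ℕ} (hj : j ≤ n) (p : Q k) : tauK n (mix j p) = mix j p := by
  have : (tauK n : S k →ₐ[k] S k).comp (mix j) = mix j := by
    ext i : 1
    by_cases h' : (i : ℕ) < j
    · have : (i : ℕ) ≠ n := by omega
      simp [tauK, mix, h', this]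
    · simp [tauK, mix, h']
  exact congrArg (fun φ : Q k →ₐ[k] S k => φ p) this

theorem tauK_zK_self (n : ℕ) : tauK n (zK k n) = 0 := by
  unfold zK
  split_ifs with h
  · simp [tauK]
  · simp

theorem tauK_zK {j n : ℕ} (hj : j ≠ n) : tauK n (zK k j) = zK k j := by
  unfold zK
  split_ifs with h
  · simp [tauK, hj]
  · simp

theorem zK_ne_zero {n : ℕ} (hn : n < 5) : zK k n ≠ 0 := by
  rw [zK, dif_pos hn, sub_ne_zero]
  intro h
  have := X_injective h
  simp at this

theorem sub_tauK (n : ℕ) (p : S k) : ∃ q, p - tauK n p = zK k n * q := by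
  induction p using MvPolynomial.induction_on with
  | C a => exact ⟨0, by simp [tauK]⟩
  | add p q hp hq =>
    obtain ⟨a, ha⟩ := hp
    obtain ⟨b, hb⟩ := hq
    exact ⟨a + b, by rw [map_add, mul_add, ← ha, ← hb]; ring⟩
  | mul_X p i hp =>
    obtain ⟨a, ha⟩ := hp
    have : ∃ b, X i - tauK n (X i) = zK k n * b := by
      rcases i with i | i
      · exact ⟨0, by simp [tauK]⟩
      · by_cases h : (i : ℕ) = n
        · subst h
          exact ⟨-1, by simp [tauK, zK]⟩
        · exact ⟨0, by simp [tauK, h]⟩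
    obtain ⟨b, hb⟩ := this
    exact ⟨a * X i + tauK n p * b, by
      rw [map_mul]; linear_combination X i * ha + tauK n p * hb⟩

theorem dvd_of_tauK {n : ℕ} {p : S k} (h : tauK n p = 0) : ∃ q, p = zK k n * q := by
  obtain ⟨q, hq⟩ := sub_tauK n p
  exact ⟨q, by rw [← hq, h, sub_zero]⟩

theorem zK_mul_wK (f : Q k) {n : ℕ} (hn : n < 5) :
    zK k n * wK f n = mix n f - mix (n + 1) f := by
  have _ := hn
  have h : ∃ u : S k, zK k n * u = mix n f - mix (n + 1) f := by
    obtain ⟨q, hq⟩ := dvd_of_tauK (n := n) (p := mix n f - mix (n + 1) f)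
      (by rw [map_sub, tauK_mix_succ, tauK_mix le_rfl, sub_self])
    exact ⟨q, hq.symm⟩
  rw [wK, dif_pos h]
  exact h.choose_spec

theorem tauK_wK (f : Q k) {j n : ℕ} (hj : j < n) (h5 : j < 5) : tauK n (wK f j) = wK f j := by
  apply mul_left_cancel₀ (zK_ne_zero (k := k) h5)
  have := congrArg (tauK n) (zK_mul_wK f h5)
  rw [map_mul, map_sub, tauK_zK hj.ne, tauK_mix hj.le, tauK_mix hj] at this
  rw [this, zK_mul_wK f h5]

theorem isWH_zK (n : ℕ) : (zK k n).IsWeightedHomogeneous w0 2 := by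
  unfold zK
  split_ifs with h
  · exact (isWeightedHomogeneous_X k w0 _).sub (isWeightedHomogeneous_X k w0 _)
  · exact isWeightedHomogeneous_zero _ _ _

theorem isWH_mix {f : Q k} (hf : f.IsHomogeneous 3) (n : ℕ) :
    (mix n f).IsWeightedHomogeneous w0 6 := by
  have h := isWH_wQ_iff.mpr hf
  refine IsWH.aeval (AddMonoidHom.id ℤ) _ (fun i => ?_) h
  split_ifs
  · exact isWeightedHomogeneous_X k w0 _
  · exact isWeightedHomogeneous_X k w0 _

theorem isWH_wK {f : Q k} (hf : f.IsHomogeneous 3) {n : ℕ} (hn : n < 5) :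
    (wK f n).IsWeightedHomogeneous w0 4 := by
  refine IsWH.of_mul (isWH_zK n) (zK_ne_zero hn) ?_
  rw [zK_mul_wK f hn]
  exact (isWH_mix hf n).sub (isWH_mix hf (n + 1))

theorem TD_zK (n : ℕ) : TD (zK k n) = 0 := by
  unfold zK
  split_ifs with h
  · simp [TD]
  · simp

theorem TD_mix (n : ℕ) (p : Q k) : TD (mix n p) = p := by
  have : (TD : S k →ₐ[k] Q k).comp (mix n) = AlgHom.id k _ := by
    ext i : 1
    by_cases h : (i : ℕ) < n <;> simp [TD, mix, h]
  exact congrArg (fun φ : Q k →ₐ[k] Q k => φ p) this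

theorem TD_pderiv_mix (n : ℕ) (i : Fin 5) (p : Q k) :
    TD (pderiv (Sum.inl i) (mix n p)) = if (i : ℕ) < n then 0 else pderiv i p := by
  induction p using MvPolynomial.induction_on with
  | C a => simp [mix]
  | add p q hp hq =>
    rw [map_add, map_add, map_add, hp, hq]
    split_ifs <;> simp
  | mul_X p j hp =>
    have hX : TD (pderiv (Sum.inl i) (mix n (X j : Q k)))
        = if (i : ℕ) < n then 0 else pderiv i (X j : Q k) := by
      by_cases h : (j : ℕ) < n
      · by_cases hij : i = j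
        · subst hij
          simp [mix, h]
        · simp [mix, h, pderiv_X, Ne.symm hij]
      · by_cases hij : i = j
        · subst hij
          simp [mix, h]
        · simp [mix, h, pderiv_X, Ne.symm hij]
    rw [map_mul, Derivation.leibniz, Derivation.leibniz, smul_eq_mul, smul_eq_mul, map_add,
      map_mul, map_mul, hp, hX, TD_mix, TD_mix]
    split_ifs <;> simp

theorem TD_wK (f : Q k) (n : Fin 5) : TD (wK f n) = pderiv n f := by
  have h := congrArg (fun p => TD (pderiv (Sum.inl n) p)) (zK_mul_wK f n.2)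
  simp only [Derivation.leibniz, smul_eq_mul, map_add, map_mul, map_sub, TD_zK, zero_mul,
    zero_add, TD_pderiv_mix] at h
  have e : pderiv (Sum.inl n) (zK k n) = 1 := by
    simp [zK, pderiv_X]
  rw [e] at h
  simpa using h

theorem KD_map {R R' : Type*} [CommRing R] [CommRing R'] (g : R →+* R') (z w : ℕ → R) (n : ℕ) :
    (KD z w n).map g = KD (g ∘ z) (g ∘ w) n := by
  induction n with
  | zero =>
    ext a b
    exact map_zero g
  | succ n ih =>
    have hs : ∀ r : R, (r • (1 : Matrix (Kι n) (Kι n) R)).map g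
        = g r • (1 : Matrix (Kι n) (Kι n) R') := by
      intro r
      ext a b
      by_cases hab : a = b <;> simp [hab]
    show (Matrix.fromBlocks _ _ _ _).map g = Matrix.fromBlocks _ _ _ _
    rw [Matrix.fromBlocks_map, Matrix.map_neg _ (map_neg g), ih, hs, hs]
    rfl

theorem KD_congr {R : Type*} [CommRing R] {z w z' w' : ℕ → R} {n : ℕ}
    (hz : ∀ j < n, z j = z' j) (hw : ∀ j < n, w j = w' j) : KD z w n = KD z' w' n := by
  induction n with
  | zero => rfl
  | succ n ih =>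
    have := ih (fun j hj => hz j (by omega)) (fun j hj => hw j (by omega))
    show Matrix.fromBlocks _ _ _ _ = Matrix.fromBlocks _ _ _ _
    rw [this, hz n (by omega), hw n (by omega)]

theorem Kν_nonpos (n : ℕ) (a : Kι n) : Kν n a ≤ 0 := by
  induction n with
  | zero => exact le_rfl
  | succ n ih =>
    rcases a with a | a
    · exact ih a
    · have := ih a
      show Kν n a - 1 ≤ 0
      omega

theorem Kν_top (n : ℕ) : Kν n (Ktop n) = 0 := by
  induction n with
  | zero => rfl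
  | succ n ih => exact ih

/-- Doubling a factorisation. -/
theorem IsMF.double {σ ρ : Type*} [Fintype ρ] [DecidableEq ρ] {w : σ → ℤ}
    {V z u : MvPolynomial σ k} {μ : ρ → ℤ} {T : Matrix ρ ρ (MvPolynomial σ k)}
    (h : IsMF w 3 V μ T) (hz : z.IsWeightedHomogeneous w 2) (hu : u.IsWeightedHomogeneous w 4) :
    IsMF w 3 (V + z * u) (Sum.elim μ (fun a => μ a - 1))
      (Matrix.fromBlocks T (z • 1) (u • 1) (-T)) := by
  refine ⟨h.1.fromBlocks ((Hg.smul_one (ν := μ) hz).of_eq (fun a b => by ring))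
    ((Hg.smul_one (ν := μ) hu).of_eq (fun a b => by ring))
    (h.1.neg.of_eq (fun a b => by ring)), ?_⟩
  rw [Matrix.fromBlocks_multiply, neg_mul_neg, h.2, ← Matrix.fromBlocks_one,
    Matrix.fromBlocks_smul]
  simp only [Matrix.mul_smul, Matrix.smul_mul, Matrix.mul_one, Matrix.one_mul, smul_smul,
    smul_neg, add_neg_cancel, smul_zero, add_smul, mul_comm u z]
  rw [add_comm ((z * u) • (1 : Matrix ρ ρ (MvPolynomial σ k)))]

theorem isMF_KD {σ : Type*} {w : σ → ℤ} {z u : ℕ → MvPolynomial σ k} {n : ℕ}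
    (hz : ∀ j < n, (z j).IsWeightedHomogeneous w 2)
    (hu : ∀ j < n, (u j).IsWeightedHomogeneous w 4) :
    IsMF w 3 (∑ j ∈ Finset.range n, z j * u j) (Kν n) (KD z u n) := by
  induction n with
  | zero =>
    refine ⟨Hg.zero, ?_⟩
    show (0 : Matrix (Kι 0) (Kι 0) _) * 0 = _
    simp
  | succ n ih =>
    rw [Finset.sum_range_succ]
    exact (ih (fun j hj => hz j (by omega)) (fun j hj => hu j (by omega))).double
      (hz n (by omega)) (hu n (by omega))

theorem isMF_Kn {f : Q k} (hf : f.IsHomogeneous 3) {n : ℕ} (hn : n ≤ 5) :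
    IsMF w0 3 (inX f - mix n f) (Kν n) (KD (zK k) (wK f) n) := by
  have h := isMF_KD (w := w0) (z := zK k) (u := wK f) (n := n) (fun j _ => isWH_zK j)
    (fun j hj => isWH_wK hf (by omega))
  have e : ∑ j ∈ Finset.range n, zK k j * wK f j = inX f - mix n f := by
    rw [Finset.sum_congr rfl (fun j hj => zK_mul_wK f (n := j)
      (by have := Finset.mem_range.mp hj; omega)), Finset.sum_range_sub' (fun j => mix j f),
      mix_zero]
  rwa [e] at h

theorem isMF_D0 {f : Q k} (hf : f.IsHomogeneous 3) :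
    IsMF w0 3 (inX f - inY f) (Kν 5) (D0 f) := by
  rw [← mix_five]
  exact isMF_Kn hf le_rfl

theorem map_KD_top {R R' : Type*} [CommRing R] [CommRing R'] (g : R →+* R') (z w : ℕ → R)
    (hz : ∀ j, g (z j) = 0) (n : ℕ) (b : Kι n) : g (KD z w n (Ktop n) b) = 0 := by
  induction n with
  | zero => exact map_zero g
  | succ n ih =>
    rcases b with b | b
    · exact ih b
    · show g ((z n • (1 : Matrix (Kι n) (Kι n) R)) (Ktop n) b) = 0
      rw [Matrix.smul_apply, smul_eq_mul, map_mul, hz, zero_mul]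

/-- The top row of `D0` restricts to zero on the diagonal. -/
theorem TD_D0_top (f : Q k) (b : Kι 5) : TD (D0 f (Ktop 5) b) = 0 :=
  map_KD_top (TD : S k →ₐ[k] Q k).toRingHom (zK k) (wK f) TD_zK 5 b

omit [Fintype ι] [DecidableEq ι] in
/-- Projection to the top rows and restriction to the diagonal is a chain map. -/
theorem ll_top (f : Q k) (E : Matrix κ κ (S k)) (φ : Matrix (Kι 5 × κ) ι (S k)) :
    (topRows (tensD N0 (Kν 5) (D0 f) E * φ)).map TD = (E * topRows φ).map TD := by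
  ext j b : 1
  simp only [topRows, Matrix.map_apply, Matrix.submatrix_apply, id, Matrix.mul_apply, tensD,
    Matrix.add_apply, Matrix.kronecker_apply, map_sum, map_mul, map_add, TD_D0_top, zero_mul,
    zero_add, Fintype.sum_prod_type]
  rw [Finset.sum_eq_single (Ktop 5)]
  · simp [eps, Kν_top]
  · intro a _ ha
    simp [eps, Matrix.diagonal_apply_ne _ (Ne.symm ha)]
  · simp

section step

variable {ρ : Type*} [Fintype ρ] [DecidableEq ρ]

omit [Fintype ι] [DecidableEq ι] [Fintype ρ] [DecidableEq ρ] in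
theorem kos_mat_dvd {n : ℕ} {M : Matrix ρ ι (S k)} (h : M.map (tauK n) = 0) :
    ∃ q : Matrix ρ ι (S k), M = zK k n • q := by
  have : ∀ a b, ∃ q, M a b = zK k n * q := fun a b => dvd_of_tauK (congrFun (congrFun h a) b)
  choose q hq using this
  exact ⟨Matrix.of q, by ext a b : 1; simp [hq]⟩

omit [Fintype ι] [DecidableEq ι] [Fintype ρ] [DecidableEq ρ] in
theorem kos_mat_cancel {z : S k} (hz : z ≠ 0) {A B : Matrix ρ ι (S k)} (h : z • A = z • B) :
    A = B := by
  ext a b : 1
  exact mul_left_cancel₀ hz (congrFun (congrFun h a) b)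

theorem kos_step_surj {n : ℕ} (hn : n < 5) {V u : S k} {μ : ρ → ℤ} {T : Matrix ρ ρ (S k)}
    (hT : IsMF w0 3 V μ T) {ν : ι → ℤ} {D : Matrix ι ι (S k)}
    (hD : IsMF w0 3 (V + zK k n * u) ν D) (s : ℤˣ) {γ : ℤ} {p : Matrix ρ ι (S k)}
    (hp : Hg w0 ν μ γ p) (h : (T * p - s • (p * D)).map (tauK n) = 0) :
    ∃ q : Matrix ρ ι (S k), Hg w0 ν (fun a => μ a - 1) γ q ∧
      Closed s D (Matrix.fromBlocks T (zK k n • 1) (u • 1) (-T)) (Matrix.fromRows p q) := by
  obtain ⟨q, hq⟩ := kos_mat_dvd h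
  have hg : Hg w0 ν μ (γ + 3) (zK k n • q) := by
    rw [← hq]
    exact (hT.1.mul hp (add_comm _ _)).sub ((hp.mul hD.1 rfl).units_smul s)
  have hg' : Hg w0 ν μ (γ + 1) q := hg.of_smul (isWH_zK n) (zK_ne_zero hn) (by ring)
  refine ⟨-q, hg'.neg.of_eq (fun a b => by ring), ?_⟩
  have e1 : T * p + zK k n • (-q) = s • (p * D) := by
    rw [smul_neg, ← hq]; abel
  have e2 : u • p + -T * -q = s • (-q * D) := by
    apply kos_mat_cancel (zK_ne_zero hn)
    have a1 : zK k n • (T * q) = V • p - s • (T * p * D) := by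
      rw [← Matrix.mul_smul, ← hq, Matrix.mul_sub, ← Matrix.mul_assoc, hT.2, Matrix.smul_mul,
        Matrix.one_mul, Matrix.mul_smul, Matrix.mul_assoc]
    have a2 : zK k n • (q * D) = T * p * D - s • ((V + zK k n * u) • p) := by
      rw [← Matrix.smul_mul, ← hq, Matrix.sub_mul, Matrix.smul_mul, Matrix.mul_assoc p, hD.2,
        Matrix.mul_smul, Matrix.mul_one]
    rw [Matrix.neg_mul, Matrix.mul_neg, neg_neg, smul_add, a1, Matrix.neg_mul, smul_comm (zK k n) s,
      smul_neg, a2, smul_neg, smul_sub, smul_smul s s, Int.units_mul_self, one_smul, add_smul,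
      smul_smul]
    abel
  unfold Closed
  rw [Matrix.fromBlocks_mul_fromRows, Matrix.fromRows_mul]
  simp only [Matrix.smul_mul, Matrix.one_mul]
  rw [e1, e2]
  ext (a | a) b <;> simp

theorem kos_step_inj {n : ℕ} (hn : n < 5) {V u : S k} {μ : ρ → ℤ} {T : Matrix ρ ρ (S k)}
    (hT : IsMF w0 3 V μ T) {ν : ι → ℤ} {D : Matrix ι ι (S k)}
    (hD : IsMF w0 3 (V + zK k n * u) ν D) (s : ℤˣ) {γ : ℤ} {p p' : Matrix ρ ι (S k)}
    (hp : Hg w0 ν μ γ p) (c1 : T * p + zK k n • p' = s • (p * D)) {h : Matrix ρ ι (S k)}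
    (hh : Hg w0 ν μ (γ - 3) h) (e : (p - (T * h + s • (h * D))).map (tauK n) = 0) :
    Exact w0 3 γ ν D (Sum.elim μ (fun a => μ a - 1))
      (Matrix.fromBlocks T (zK k n • 1) (u • 1) (-T)) s (Matrix.fromRows p p') := by
  obtain ⟨q, hq⟩ := kos_mat_dvd e
  have hg : Hg w0 ν μ γ (zK k n • q) := by
    rw [← hq]
    exact hp.sub ((hT.1.mul hh (by ring)).add ((hh.mul hD.1 (by ring)).units_smul s))
  have hg' : Hg w0 ν μ (γ - 2) q := hg.of_smul (isWH_zK n) (zK_ne_zero hn) (by ring)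
  refine ⟨Matrix.fromRows h q, hh.fromRows (hg'.of_eq (fun a b => by ring)), ?_⟩
  have e1 : p = T * h + zK k n • q + s • (h * D) := by
    rw [← hq]; abel
  have e2 : p' = u • h + -T * q + s • (q * D) := by
    apply kos_mat_cancel (zK_ne_zero hn)
    have c2 : zK k n • p' = s • (p * D) - T * p := by rw [← c1]; abel
    have a1 : zK k n • (T * q) = T * p - (V • h + s • (T * h * D)) := by
      rw [← Matrix.mul_smul, ← hq, Matrix.mul_sub, Matrix.mul_add, ← Matrix.mul_assoc, hT.2,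
        Matrix.smul_mul, Matrix.one_mul, Matrix.mul_smul, Matrix.mul_assoc]
    have a2 : zK k n • (q * D) = p * D - (T * h * D + s • ((V + zK k n * u) • h)) := by
      rw [← Matrix.smul_mul, ← hq, Matrix.sub_mul, Matrix.add_mul, Matrix.smul_mul,
        Matrix.mul_assoc h, hD.2, Matrix.mul_smul, Matrix.mul_one]
    rw [c2, smul_add, smul_add, Matrix.neg_mul, smul_neg, a1, smul_comm (zK k n) s, a2, smul_sub,
      smul_add, smul_smul s s, Int.units_mul_self, one_smul, add_smul, smul_smul]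
    abel
  rw [Matrix.fromBlocks_mul_fromRows, Matrix.fromRows_mul]
  simp only [Matrix.smul_mul, Matrix.one_mul]
  ext (a | a) b
  · conv_lhs => rw [e1]
    simp
  · conv_lhs => rw [e2]
    simp

omit [DecidableEq ι] [DecidableEq ρ] [DecidableEq κ] in
theorem Closed.kos_reindex {R : Type*} [CommRing R] {s : ℤˣ} {D : Matrix ι ι R} {T : Matrix ρ ρ R}
    {φ : Matrix ρ ι R} (e : κ ≃ ρ) :
    Closed s D (T.submatrix e e) (φ.submatrix e id) ↔ Closed s D T φ := by
  unfold Closed
  rw [Matrix.submatrix_mul_equiv]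
  have : s • (φ.submatrix e id * D) = (s • (φ * D)).submatrix e id := by
    ext a b
    simp [Matrix.mul_apply]
  rw [this]
  constructor
  · intro h
    ext a b
    have := congrFun (congrFun h (e.symm a)) b
    simpa using this
  · intro h
    rw [h]

omit [DecidableEq ι] [DecidableEq ρ] [DecidableEq κ] in
theorem Exact.kos_reindex {s : ℤˣ} {γ : ℤ} {ν : ι → ℤ} {μ : ρ → ℤ} {D : Matrix ι ι (S k)}
    {T : Matrix ρ ρ (S k)} {φ : Matrix ρ ι (S k)} (e : κ ≃ ρ)
    (h : Exact w0 3 γ ν D μ T s φ) :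
    Exact w0 3 γ ν D (μ ∘ e) (T.submatrix e e) s (φ.submatrix e id) := by
  obtain ⟨a, ha, rfl⟩ := h
  refine ⟨a.submatrix e id, ha.submatrix e id, ?_⟩
  rw [Matrix.submatrix_mul_equiv]
  ext x b : 1
  simp [Matrix.mul_apply]

end step

/-- The target of the `n`-th lifting lemma. -/
noncomputable def TK (f : Q k) (n : ℕ) (E : Matrix κ κ (S k)) :
    Matrix (Kι n × κ) (Kι n × κ) (S k) := tensD N0 (Kν n) (KD (zK k) (wK f) n) E

/-- Splitting of the index set of the doubling. -/
def eK (n : ℕ) (κ : Type*) : Kι (n + 1) × κ ≃ (Kι n × κ) ⊕ (Kι n × κ) :=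
  Equiv.sumProdDistrib (Kι n) (Kι n) κ

omit [Fintype κ] in
theorem kos_eps_ne (μ : κ → ℤ) {a b : κ} (h : a ≠ b) : (eps N0 μ a b : S k) = 0 :=
  Matrix.diagonal_apply_ne _ h

omit [Fintype κ] in
theorem TK_succ (f : Q k) (n : ℕ) (E : Matrix κ κ (S k)) :
    TK f (n + 1) E = (Matrix.fromBlocks (TK f n E) (zK k n • 1) (wK f n • 1)
      (-TK f n E)).submatrix (eK n κ) (eK n κ) := by
  have hneg : ∀ m : ℤ, (m - 1).negOnePow = -m.negOnePow := by
    intro m
    rw [Int.negOnePow_sub, Int.negOnePow_one, mul_neg_one]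
  ext ⟨a | a, i⟩ ⟨b | b, j⟩ : 1
  · show KD (zK k) (wK f) n a b * (1 : Matrix κ κ (S k)) i j
        + eps N0 (Kν (n + 1)) (Sum.inl a) (Sum.inl b) * E i j
      = KD (zK k) (wK f) n a b * (1 : Matrix κ κ (S k)) i j + eps N0 (Kν n) a b * E i j
    congr 2
    by_cases hab : a = b
    · subst hab
      simp only [eps, Matrix.diagonal_apply_eq]
      rfl
    · exact (kos_eps_ne _ (fun h => hab (Sum.inl_injective h))).trans (kos_eps_ne _ hab).symm
  · show (zK k n • (1 : Matrix (Kι n) (Kι n) (S k))) a b * (1 : Matrix κ κ (S k)) i j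
        + eps N0 (Kν (n + 1)) (Sum.inl a) (Sum.inr b) * E i j
      = (zK k n • (1 : Matrix (Kι n × κ) (Kι n × κ) (S k))) (a, i) (b, j)
    have : (eps N0 (Kν (n + 1)) (Sum.inl a) (Sum.inr b) : S k) = 0 := kos_eps_ne _ Sum.inl_ne_inr
    rw [this]
    by_cases hab : a = b <;> by_cases hij : i = j <;> simp [hab, hij, Matrix.one_apply]
  · show (wK f n • (1 : Matrix (Kι n) (Kι n) (S k))) a b * (1 : Matrix κ κ (S k)) i j
        + eps N0 (Kν (n + 1)) (Sum.inr a) (Sum.inl b) * E i j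
      = (wK f n • (1 : Matrix (Kι n × κ) (Kι n × κ) (S k))) (a, i) (b, j)
    have : (eps N0 (Kν (n + 1)) (Sum.inr a) (Sum.inl b) : S k) = 0 := kos_eps_ne _ Sum.inr_ne_inl
    rw [this]
    by_cases hab : a = b <;> by_cases hij : i = j <;> simp [hab, hij, Matrix.one_apply]
  · show -KD (zK k) (wK f) n a b * (1 : Matrix κ κ (S k)) i j
        + eps N0 (Kν (n + 1)) (Sum.inr a) (Sum.inr b) * E i j
      = -(KD (zK k) (wK f) n a b * (1 : Matrix κ κ (S k)) i j + eps N0 (Kν n) a b * E i j)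
    have : (eps N0 (Kν (n + 1)) (Sum.inr a) (Sum.inr b) : S k) = -eps N0 (Kν n) a b := by
      by_cases hab : a = b
      · subst hab
        simp only [eps, Matrix.diagonal_apply_eq]
        show (Kν n a - 1).negOnePow • (1 : S k) = -((Kν n a).negOnePow • (1 : S k))
        rw [hneg, Units.neg_smul]
      · rw [kos_eps_ne _ hab, neg_zero]
        exact kos_eps_ne _ (fun h => hab (Sum.inr_injective h))
    rw [this]
    ring

omit [Fintype κ] [DecidableEq κ] in
theorem tensν_succ (n : ℕ) (l : κ → ℤ) :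
    tensν (Kν (n + 1)) l
      = (Sum.elim (tensν (Kν n) l) (fun a => tensν (Kν n) l a - 1)) ∘ eK n κ := by
  funext ⟨a, i⟩
  rcases a with a | a
  · rfl
  · show Kν n a - 1 + l i = Kν n a + l i - 1
    ring

omit [Fintype κ] in
theorem TK_zero (f : Q k) (E : Matrix κ κ (S k)) :
    TK f 0 E = E.submatrix (Equiv.uniqueProd κ Unit) (Equiv.uniqueProd κ Unit) := by
  ext ⟨a, i⟩ ⟨b, j⟩ : 1
  show 0 * (1 : Matrix κ κ (S k)) i j + eps N0 (Kν 0) a b * E i j = E i j
  have : (eps N0 (Kν 0) a b : S k) = 1 := by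
    obtain rfl : a = b := rfl
    simp only [eps, Matrix.diagonal_apply_eq]
    show (0 : ℤ).negOnePow • (1 : S k) = 1
    simp
  rw [this]
  ring

omit [Fintype κ] in
theorem TK_map (f : Q k) {n : ℕ} (hn : n ≤ 5) (E : Matrix κ κ (S k)) :
    (TK f n E).map (tauK n) = TK f n (E.map (tauK n)) := by
  rw [TK, tensD_map, TK]
  congr 1
  have := KD_map (tauK n : S k →ₐ[k] S k).toRingHom (zK k) (wK f) n
  refine this.trans (KD_congr (fun j hj => ?_) (fun j hj => ?_))
  · exact tauK_zK hj.ne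
  · exact tauK_wK f hj (by omega)

theorem isMF_TK {f : Q k} (hf : f.IsHomogeneous 3) {n : ℕ} (hn : n ≤ 5) {U : S k} {l : κ → ℤ}
    {E : Matrix κ κ (S k)} (hE : IsMF w0 3 U l E) :
    IsMF w0 3 (inX f - mix n f + U) (tensν (Kν n) l) (TK f n E) :=
  IsMF.tens N0 N0_w0 (by decide) (isMF_Kn hf hn) hE

theorem Hg.map_tauK {ι κ : Type*} (n : ℕ) {ν : ι → ℤ} {μ : κ → ℤ} {γ : ℤ}
    {M : Matrix κ ι (S k)} (h : Hg w0 ν μ γ M) : Hg w0 ν μ γ (M.map (tauK n)) :=
  h.map_aeval' _ (by
    rintro (i | i)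
    · exact isWeightedHomogeneous_X k w0 _
    · simp only [Sum.elim_inr]
      split_ifs <;> exact isWeightedHomogeneous_X k w0 _)

theorem kos_map_bd {R R' : Type*} [CommRing R] [CommRing R'] [Algebra k R] [Algebra k R']
    (g : R →ₐ[k] R') {ι κ : Type*} [Fintype ι] [Fintype κ] (s : ℤˣ) (E : Matrix κ κ R)
    (D : Matrix ι ι R) (a : Matrix κ ι R) :
    (E * a + s • (a * D)).map g = E.map g * a.map g + s • (a.map g * D.map g) := by
  ext x y
  rcases Int.units_eq_one_or s with rfl | rfl <;> simp [Matrix.mul_apply]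

theorem kos_map_cl {R R' : Type*} [CommRing R] [CommRing R'] [Algebra k R] [Algebra k R']
    (g : R →ₐ[k] R') {ι κ : Type*} [Fintype ι] [Fintype κ] (s : ℤˣ) (E : Matrix κ κ R)
    (D : Matrix ι ι R) (a : Matrix κ ι R) :
    (E * a - s • (a * D)).map g = E.map g * a.map g - s • (a.map g * D.map g) := by
  ext x y
  rcases Int.units_eq_one_or s with rfl | rfl <;> simp [Matrix.mul_apply]

theorem map_tauK_tauK {ι κ : Type*} (n : ℕ) (M : Matrix κ ι (S k)) :
    (M.map (tauK n)).map (tauK n) = M.map (tauK n) := by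
  ext a b : 1
  exact tauK_tauK n _

theorem map_tauL_tauK {ι κ : Type*} (n : ℕ) (M : Matrix κ ι (S k)) :
    (M.map (tauK n)).map (tauL n) = M.map (tauL (n + 1)) := by
  ext a b : 1
  exact tauL_tauK n _

theorem isMF_tauK {f : Q k} {n : ℕ} {U : S k} {ν : ι → ℤ} {D : Matrix ι ι (S k)}
    (h : IsMF w0 3 (inX f - mix (n + 1) f + U) ν D) :
    IsMF w0 3 (inX f - mix n f + tauK n U) ν (D.map (tauK n)) := by
  have := h.map_alg (tauK n) (h.1.map_tauK n)
  rwa [map_add, map_sub, tauK_inX, tauK_mix_succ] at this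

/-- The rows of the top generator. -/
def topK {R α κ : Type*} (n : ℕ) (φ : Matrix (Kι n × κ) α R) : Matrix κ α R :=
  φ.submatrix (fun j => (Ktop n, j)) id

theorem ll_surj_n {f : Q k} (hf : f.IsHomogeneous 3) (s : ℤˣ) {γ : ℤ} {ν : ι → ℤ} {l : κ → ℤ}
    (n : ℕ) (hn : n ≤ 5) :
    ∀ {U : S k} {D : Matrix ι ι (S k)} (_ : IsMF w0 3 (inX f - mix n f + U) ν D)
      {E : Matrix κ κ (S k)} (_ : IsMF w0 3 U l E) {ψ : Matrix κ ι (S k)} (_ : Hg w0 ν l γ ψ)
      (_ : (E * ψ - s • (ψ * D)).map (tauL n) = 0),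
      ∃ φ : Matrix (Kι n × κ) ι (S k), Hg w0 ν (tensν (Kν n) l) γ φ ∧
        Closed s D (TK f n E) φ ∧ (topK n φ).map (tauL n) = ψ.map (tauL n) := by
  induction n with
  | zero =>
    intro U D _ E _ ψ hψ cψ
    refine ⟨ψ.submatrix (Equiv.uniqueProd κ Unit) id, ?_, ?_, rfl⟩
    · exact (hψ.submatrix (Equiv.uniqueProd κ Unit) id).of_eq (fun a b => by
        show ν b + γ - l a.2 = ν b + γ - (0 + l a.2)
        ring)
    · rw [TK_zero]
      refine (Closed.kos_reindex (Equiv.uniqueProd κ Unit)).mpr ?_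
      unfold Closed
      rw [← sub_eq_zero]
      ext a b : 1
      have := congrFun (congrFun cψ a) b
      rwa [Matrix.map_apply, tauL_zero] at this
  | succ n ih =>
    intro U D hD E hE ψ hψ cψ
    obtain ⟨p, hp, cp, tp⟩ := ih (by omega) (isMF_tauK hD)
      (hE.map_alg (tauK n) (hE.1.map_tauK n)) (hψ.map_tauK n)
      (by rw [← kos_map_cl, map_tauL_tauK, cψ])
    have hD' : IsMF w0 3 (inX f - mix n f + U + zK k n * wK f n) ν D := by
      rw [zK_mul_wK f (by omega)]
      convert hD using 1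
      ring
    obtain ⟨q, hq, cq⟩ := kos_step_surj (by omega) (isMF_TK hf (by omega) hE) hD' s hp (by
      have h0 : (TK f n (E.map (tauK n)) * p - s • (p * D.map (tauK n))).map (tauK n) = 0 := by
        unfold Closed at cp
        rw [cp, sub_self]
        simp
      rw [kos_map_cl, TK_map f (by omega), map_tauK_tauK, map_tauK_tauK] at h0
      rw [kos_map_cl, TK_map f (by omega), h0])
    refine ⟨(Matrix.fromRows p q).submatrix (eK n κ) id, ?_, ?_, ?_⟩
    · rw [tensν_succ]
      exact (hp.fromRows hq).submatrix (eK n κ) id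
    · rw [TK_succ]
      exact (Closed.kos_reindex (eK n κ)).mpr cq
    · ext a b : 1
      have := congrFun (congrFun tp a) b
      have h1 : tauL n (p (Ktop n, a) b) = tauL n (tauK n (ψ a b)) := this
      show tauL (n + 1) (p (Ktop n, a) b) = tauL (n + 1) (ψ a b)
      rw [← tauL_tauL (Nat.le_succ n), h1, tauL_tauK, tauL_tauL le_rfl]

theorem ll_inj_n {f : Q k} (hf : f.IsHomogeneous 3) (s : ℤˣ) {γ : ℤ} {ν : ι → ℤ} {l : κ → ℤ}
    (n : ℕ) (hn : n ≤ 5) :
    ∀ {U : S k} {D : Matrix ι ι (S k)} (_ : IsMF w0 3 (inX f - mix n f + U) ν D)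
      {E : Matrix κ κ (S k)} (_ : IsMF w0 3 U l E) {φ : Matrix (Kι n × κ) ι (S k)}
      (_ : Hg w0 ν (tensν (Kν n) l) γ φ) (_ : Closed s D (TK f n E) φ)
      {a : Matrix κ ι (S k)} (_ : Hg w0 ν l (γ - 3) a)
      (_ : (topK n φ).map (tauL n) = (E * a + s • (a * D)).map (tauL n)),
      Exact w0 3 γ ν D (tensν (Kν n) l) (TK f n E) s φ := by
  induction n with
  | zero =>
    intro U D _ E _ φ _ _ a ha e
    have e' : φ = (E * a + s • (a * D)).submatrix (Equiv.uniqueProd κ Unit) id := by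
      ext ⟨x, i⟩ b : 1
      have := congrFun (congrFun e i) b
      rw [Matrix.map_apply, Matrix.map_apply, tauL_zero, tauL_zero] at this
      exact this
    have h1 : Exact w0 3 γ ν D l E s (E * a + s • (a * D)) := ⟨a, ha, rfl⟩
    have h2 := h1.kos_reindex (Equiv.uniqueProd κ Unit)
    have e2 : tensν (Kν 0) l = l ∘ (Equiv.uniqueProd κ Unit) := by
      funext x
      show 0 + l x.2 = l x.2
      ring
    rw [TK_zero, e', e2]
    exact h2
  | succ n ih =>
    intro U D hD E hE φ hφ cφ a ha e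
    set φ' : Matrix ((Kι n × κ) ⊕ (Kι n × κ)) ι (S k) := φ.submatrix (eK n κ).symm id with hφ'
    have eφ : φ = (Matrix.fromRows φ'.toRows₁ φ'.toRows₂).submatrix (eK n κ) id := by
      rw [Matrix.fromRows_toRows, hφ']
      ext x b : 1
      simp
    have hp : Hg w0 ν (tensν (Kν n) l) γ φ'.toRows₁ := fun x b => hφ (Sum.inl x.1, x.2) b
    rw [TK_succ, eφ, Closed.kos_reindex] at cφ
    have c1 : TK f n E * φ'.toRows₁ + zK k n • φ'.toRows₂ = s • (φ'.toRows₁ * D) := by
      unfold Closed at cφ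
      rw [Matrix.fromBlocks_mul_fromRows, Matrix.fromRows_mul] at cφ
      have := congrArg Matrix.toRows₁ cφ
      rw [Matrix.toRows₁_fromRows, Matrix.smul_mul, Matrix.one_mul] at this
      rw [this]
      ext x b
      simp
    have c2 : Closed s (D.map (tauK n)) (TK f n (E.map (tauK n))) (φ'.toRows₁.map (tauK n)) := by
      unfold Closed
      rw [← sub_eq_zero, ← TK_map f (by omega), ← kos_map_cl, ← c1]
      ext x b : 1
      simp [tauK_zK_self]
    obtain ⟨h, hh, eh⟩ := ih (by omega) (isMF_tauK hD)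
      (hE.map_alg (tauK n) (hE.1.map_tauK n)) (hp.map_tauK n) c2 (ha.map_tauK n)
      (by
        rw [← kos_map_bd, map_tauL_tauK, ← e]
        ext i b : 1
        exact tauL_tauK n _)
    have hD' : IsMF w0 3 (inX f - mix n f + U + zK k n * wK f n) ν D := by
      rw [zK_mul_wK f (by omega)]
      convert hD using 1
      ring
    have key := kos_step_inj (by omega) (isMF_TK hf (by omega) hE) hD' s hp c1 hh (by
      have h0 := congrArg (fun M => M.map (tauK n)) eh
      simp only [kos_map_bd, TK_map f (show n ≤ 5 by omega), map_tauK_tauK] at h0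
      rw [Matrix.map_sub _ (map_sub _), kos_map_bd, TK_map f (by omega), h0, sub_self])
    rw [TK_succ, eφ, tensν_succ]
    exact key.kos_reindex (eK n κ)

theorem map_tauL_five {ι κ : Type*} {A B : Matrix κ ι (S k)} :
    A.map (tauL 5) = B.map (tauL 5) ↔ A.map TD = B.map TD := by
  constructor
  · intro h
    ext a b : 1
    have := congrArg TD (congrFun (congrFun h a) b)
    rwa [Matrix.map_apply, Matrix.map_apply, tauL_five, tauL_five, TD_inX, TD_inX] at this
  · intro h
    ext a b : 1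
    have : TD (A a b) = TD (B a b) := congrFun (congrFun h a) b
    rw [Matrix.map_apply, Matrix.map_apply, tauL_five, tauL_five, this]

theorem ll_surj {f : Q k} (hf : f.IsHomogeneous 3) {U : S k} {ν : ι → ℤ} {D : Matrix ι ι (S k)}
    (h : IsMF w0 3 (inX f - inY f + U) ν D) {l : κ → ℤ} {E : Matrix κ κ (S k)}
    (hE : IsMF w0 3 U l E) (s : ℤˣ) {γ : ℤ} {ψ : Matrix κ ι (S k)} (hψ : Hg w0 ν l γ ψ)
    (cψ : (E * ψ - s • (ψ * D)).map TD = 0) :
    ∃ φ : Matrix (Kι 5 × κ) ι (S k), Hg w0 ν (tensν (Kν 5) l) γ φ ∧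
      Closed s D (tensD N0 (Kν 5) (D0 f) E) φ ∧ (topRows φ).map TD = ψ.map TD := by
  rw [← mix_five] at h
  obtain ⟨φ, h1, h2, h3⟩ := ll_surj_n hf s 5 le_rfl h hE hψ (by
    have := (map_tauL_five (A := E * ψ - s • (ψ * D)) (B := 0)).mpr (by rw [cψ]; simp)
    rw [this]
    simp)
  exact ⟨φ, h1, h2, map_tauL_five.mp h3⟩

theorem ll_inj {f : Q k} (hf : f.IsHomogeneous 3) {U : S k} {ν : ι → ℤ} {D : Matrix ι ι (S k)}
    (h : IsMF w0 3 (inX f - inY f + U) ν D) {l : κ → ℤ} {E : Matrix κ κ (S k)}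
    (hE : IsMF w0 3 U l E) (s : ℤˣ) {γ : ℤ} {φ : Matrix (Kι 5 × κ) ι (S k)}
    (hφ : Hg w0 ν (tensν (Kν 5) l) γ φ) (cφ : Closed s D (tensD N0 (Kν 5) (D0 f) E) φ)
    {a : Matrix κ ι (S k)} (ha : Hg w0 ν l (γ - 3) a)
    (e : (topRows φ).map TD = (E * a + s • (a * D)).map TD) :
    Exact w0 3 γ ν D (tensν (Kν 5) l) (tensD N0 (Kν 5) (D0 f) E) s φ := by
  rw [← mix_five] at h
  exact ll_inj_n hf s 5 le_rfl h hE hφ cφ ha (map_tauL_five.mpr e)

/-- `ll_inj` for the trivial second factor. -/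
theorem ll_inj_D0 {f : Q k} (hf : f.IsHomogeneous 3) {ν : ι → ℤ} {D : Matrix ι ι (S k)}
    (h : IsMF w0 3 (inX f - inY f) ν D) (s : ℤˣ) {γ : ℤ} {φ : Matrix (Kι 5) ι (S k)}
    (hφ : Hg w0 ν (Kν 5) γ φ) (cφ : Closed s D (D0 f) φ)
    (e : ∀ b, TD (φ (Ktop 5) b) = 0) : Exact w0 3 γ ν D (Kν 5) (D0 f) s φ := by
  let u : Kι 5 × Unit ≃ Kι 5 := Equiv.prodUnique (Kι 5) Unit
  have hE : IsMF w0 3 (0 : S k) (fun _ : Unit => (0 : ℤ)) (0 : Matrix Unit Unit (S k)) :=
    ⟨Hg.zero, by simp⟩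
  have eT : tensD N0 (Kν 5) (D0 f) (0 : Matrix Unit Unit (S k)) = (D0 f).submatrix u u := by
    ext ⟨a, i⟩ ⟨b, j⟩ : 1
    simp [tensD, u]
  have eν : tensν (Kν 5) (fun _ : Unit => (0 : ℤ)) = Kν 5 ∘ u := by
    funext x
    simp [tensν, u]
  have key := ll_inj hf (U := 0) (by rwa [add_zero]) hE s (γ := γ) (φ := φ.submatrix u id)
    (by rw [eν]; exact hφ.submatrix u id) (by rw [eT]; exact (Closed.kos_reindex u).mpr cφ)
    (a := 0) Hg.zero (by
      ext i b : 1
      simpa [topRows, u] using e b)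
  rw [eT, eν] at key
  have := key.kos_reindex u.symm
  exact this

end Pool.Agent.Lib.MP_0ba2dd_ag
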