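import Pool.Agent.Lib.MP_0ba2dd_ag.H45Chart

/-! The standard charts of the projective hypersurface. -/

namespace Pool.Agent.Lib.MP_0ba2dd_ag

open CategoryTheory Limits AlgebraicGeometry MvPolynomial Opposite

universe u

variable {k : Type u} [Field k] (f : Q k) [Fact (f.IsHomogeneous 3)]

/-- On points, `deh a p` is the fraction `p / x_a ^ d`. -/
def ProjSpec (c : Chart f (Hyp f)) : Prop :=
  ∀ (a : Fin 5) (p : Q k) (d : ℕ), p.IsHomogeneous d → ∀ x : c.U a,
    ∃ h : mkR f (X a) ^ d ∈ cmpl (grR f) x.1,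
      toFam (grR f) (c.U a) (c.deh a p) x = Localization.mk (mkR f p) ⟨mkR f (X a) ^ d, h⟩

namespace H19P

open HomogeneousLocalization

theorem hom_scale {R : Type*} [CommRing R] (φ ψ : Q k →+* R) (t : R)
    (hC : ∀ r, φ (C r) = ψ (C r)) (hX : ∀ e, φ (X e) = t * ψ (X e)) {p : Q k} {d : ℕ}
    (hp : p.IsHomogeneous d) : φ p = t ^ d * ψ p := by
  rw [p.as_sum]
  simp only [map_sum, Finset.mul_sum]
  refine Finset.sum_congr rfl fun m hm => ?_
  have hd : ∑ e, m e = d := by
    rw [← hp (mem_support_iff.1 hm), Finsupp.weight_apply, Finsupp.sum_fintype _ _ (by simp)]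
    simp
  rw [monomial_eq, Finsupp.prod_fintype _ _ (by simp)]
  simp only [map_mul, map_prod, map_pow, hC, hX, mul_pow, Finset.prod_mul_distrib,
    Finset.prod_pow_eq_pow_sum, hd]
  ring

omit [Fact (f.IsHomogeneous 3)] in
theorem mem_gr {p : Q k} {d : ℕ} (hp : p.IsHomogeneous d) : mkR f p ∈ grR f d := ⟨p, hp, rfl⟩

omit [Fact (f.IsHomogeneous 3)] in
theorem xa_mem (a : Fin 5) : mkR f (X a) ∈ grR f 1 := mem_gr f (isHomogeneous_X _ _)

/-- Constants, in degree zero. -/
noncomputable def cst : k →+* grR f 0 where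
  toFun r := ⟨mkR f (C r), mem_gr f (isHomogeneous_C _ _)⟩
  map_one' := Subtype.ext (by simp)
  map_mul' r s := Subtype.ext ((congrArg (mkR f) (map_mul C r s)).trans (map_mul (mkR f) _ _))
  map_zero' := Subtype.ext (by simp)
  map_add' r s := Subtype.ext ((congrArg (mkR f) (map_add C r s)).trans (map_add (mkR f) _ _))

/-- Dehomogenisation, with values in the degree zero part of the localisation. -/
noncomputable def dehA (a : Fin 5) : Q k →+* Away (grR f) (mkR f (X a)) :=
  eval₂Hom ((fromZeroRingHom _ _).comp (cst f)) fun b =>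
    Away.mk (grR f) (xa_mem f a) 1 (mkR f (X b)) (xa_mem f b)

theorem val_dehA (a : Fin 5) {p : Q k} {d : ℕ} (hp : p.IsHomogeneous d) :
    (dehA f a p).val =
      Localization.mk (mkR f p) ⟨mkR f (X a) ^ d, pow_mem (Submonoid.mem_powers _) d⟩ := by
  have := hom_scale ((algebraMap _ (Localization.Away (mkR f (X a)))).comp (dehA f a))
    ((algebraMap _ _).comp (mkR f).toRingHom) (Localization.mk 1 ⟨mkR f (X a) ^ 1, 1, rfl⟩)
    (fun r => by
      rw [RingHom.comp_apply, dehA, eval₂Hom_C]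
      rfl)
    (fun e => by
      rw [RingHom.comp_apply, dehA, eval₂Hom_X', RingHom.comp_apply,
        ← Localization.mk_one_eq_algebraMap, Localization.mk_mul, one_mul, mul_one]
      rfl) hp
  rw [RingHom.comp_apply, RingHom.comp_apply, ← Localization.mk_one_eq_algebraMap,
    Localization.mk_pow, Localization.mk_mul, one_pow, one_mul, mul_one] at this
  refine this.trans ?_
  congr 1
  exact Subtype.ext (congrArg (· ^ d) (pow_one _))

/-- The chart `x_a ≠ 0`. -/
noncomputable def U (a : Fin 5) : (Hyp f).Opens := Proj.basicOpen (grR f) (mkR f (X a))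

/-- Dehomogenisation. -/
noncomputable def deh (a : Fin 5) : Q k →+* Γ(Hyp f, U f a) :=
  (Proj.awayToSection (grR f) (mkR f (X a))).hom.comp (dehA f a)

theorem pow_mem_cmpl (a : Fin 5) (d : ℕ) (x : U f a) : mkR f (X a) ^ d ∈ cmpl (grR f) x.1 :=
  pow_mem (show mkR f (X a) ∈ cmpl (grR f) x.1 from x.2) d

theorem toFam_deh (a : Fin 5) {p : Q k} {d : ℕ} (hp : p.IsHomogeneous d) (x : U f a) :
    toFam (grR f) (U f a) (deh f a p) x =
      Localization.mk (mkR f p) ⟨mkR f (X a) ^ d, pow_mem_cmpl f a d x⟩ := by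
  refine (ProjectiveSpectrum.Proj.awayToSection_apply (grR f) _ (dehA f a p) x).trans ?_
  rw [val_dehA f a hp, Localization.mk_eq_mk', IsLocalization.map_mk', Localization.mk_eq_mk']
  rfl

theorem toFam_inj {V : (Hyp f).Opens} {s t : Γ(Hyp f, V)}
    (h : ∀ x, toFam (grR f) V s x = toFam (grR f) V t x) : s = t :=
  Subtype.ext (funext fun x => val_injective _ (h x))

theorem toFam_res {V W : (Hyp f).Opens} (h : W ≤ V) (s : Γ(Hyp f, V)) (x : W) :
    toFam (grR f) W (resO h s) x = toFam (grR f) V s ⟨x.1, h x.2⟩ := rfl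

theorem bij (a : Fin 5) : Function.Bijective (Proj.awayToSection (grR f) (mkR f (X a))).hom :=
  (Proj.basicOpenIsoAway (grR f) _ (xa_mem f a) one_pos).commRingCatIsoToRingEquiv.bijective

theorem surjA (a : Fin 5) : Function.Surjective (dehA f a) := fun z => by
  obtain ⟨n, _, ⟨p, hp, rfl⟩, rfl⟩ := Away.mk_surjective (grR f) (xa_mem f a) z
  refine ⟨p, val_injective _ ?_⟩
  rw [val_dehA f a (d := n) (by simpa using hp)]
  rfl

theorem mem_basic {V : (Hyp f).Opens} (s : Γ(Hyp f, V)) (x : V) :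
    x.1 ∈ (Hyp f).basicOpen s ↔ IsUnit (toFam (grR f) V s x) := by
  rw [Scheme.mem_basicOpen _ _ _ x.2,
    ← isUnit_map_iff (Proj.stalkIso (grR f) x.1).commRingCatIsoToRingEquiv]
  refine Iff.trans (Iff.of_eq (congrArg IsUnit (Proj.stalkIso'_germ (grR f) V x.1 x.2 s))) ?_
  exact (isUnit_iff_isUnit_val (grR f) _ (s.1 x)).symm

theorem inter (a b : Fin 5) : U f a ⊓ U f b = (Hyp f).basicOpen (deh f a (X b)) := by
  have key : ∀ x : U f a, x.1 ∈ (Hyp f).basicOpen (deh f a (X b)) ↔ x.1 ∈ U f b := fun x => by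
    rw [mem_basic, toFam_deh f a (isHomogeneous_X k b), Localization.mk_eq_mk']
    exact IsLocalization.AtPrime.isUnit_mk'_iff _ _ _ _
  exact le_antisymm (fun x hx => (key ⟨x, hx.1⟩).2 hx.2) fun x hx =>
    ⟨(Hyp f).basicOpen_le _ hx, (key ⟨x, (Hyp f).basicOpen_le _ hx⟩).1 hx⟩

theorem cover : ⨆ a, U f a = ⊤ := by
  refine Proj.iSup_basicOpen_eq_top' (grR f) _ (fun a => ⟨1, xa_mem f a⟩) (eq_top_iff.2 ?_)
  rintro z -
  obtain ⟨p, rfl⟩ : ∃ p, mkR f p = z := Ideal.Quotient.mk_surjective z
  induction p using MvPolynomial.induction_on with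
  | C r => exact Subalgebra.algebraMap_mem _ (cst f r)
  | add p q hp hq => rw [map_add]; exact add_mem hp hq
  | mul_X p a hp => rw [map_mul]; exact mul_mem hp (Algebra.subset_adjoin ⟨a, rfl⟩)

/-- The standard charts. -/
noncomputable def chart : Chart f (Hyp f) where
  U := U f
  deh := deh f
  aff a := Proj.isAffineOpen_basicOpen (grR f) _ (xa_mem f a) one_pos
  cover := cover f
  deh_f a := toFam_inj f fun x => by
    rw [toFam_deh f a (Fact.out : f.IsHomogeneous 3), map_zero,
      show mkR f f = 0 from Ideal.Quotient.eq_zero_iff_mem.2 (Ideal.mem_span_singleton_self f),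
      Localization.mk_zero]
    rfl
  deh_X a := toFam_inj f fun x => by
    rw [toFam_deh f a (isHomogeneous_X k a), map_one]
    exact (Localization.mk_eq_mk_iff.2 (Localization.r_of_eq (by simp))).trans Localization.mk_one
  inter := inter f
  compat_C a b r := toFam_inj f fun x => by
    rw [toFam_res, toFam_res, toFam_deh f a (isHomogeneous_C _ r),
      toFam_deh f b (isHomogeneous_C _ r)]
    exact Localization.mk_eq_mk_iff.2 (Localization.r_of_eq (by simp))
  compat_X a b e := toFam_inj f fun x => by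
    rw [map_mul]
    change _ = toFam (grR f) _ _ x * toFam (grR f) _ _ x
    rw [toFam_res, toFam_res, toFam_res, toFam_deh f a (isHomogeneous_X k e),
      toFam_deh f a (isHomogeneous_X k b), toFam_deh f b (isHomogeneous_X k e),
      Localization.mk_mul]
    exact Localization.mk_eq_mk_iff.2 (Localization.r_of_eq (by simp; ring))
  surj a := (bij f a).2.comp (surjA f a)
  ker a p d hp h := by
    have h1 := congrArg val ((bij f a).1 (h.trans (map_zero _).symm))
    rw [val_dehA f a hp, val_zero, Localization.mk_eq_mk', IsLocalization.mk'_eq_zero_iff] at h1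
    obtain ⟨⟨_, n, rfl⟩, h2⟩ := h1
    refine ⟨n, Ideal.mem_span_singleton.1 (Ideal.Quotient.eq_zero_iff_mem.1 ?_)⟩
    rw [map_mul, map_pow]
    exact h2

end H19P

theorem exists_projChart : ∃ c : Chart f (Hyp f), ProjSpec f c :=
  ⟨H19P.chart f, fun a _ d hp x => ⟨H19P.pow_mem_cmpl f a d x, H19P.toFam_deh f a hp x⟩⟩

end Pool.Agent.Lib.MP_0ba2dd_ag
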