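import Pool.Agent.Lib.MP_0ba2dd_ag.H45Bridge

/-! The Kuznetsov component of a smooth cubic threefold is indecomposable. -/

namespace Pool.Agent.Lib.MP_0ba2dd_ag.QGrVariant

open CategoryTheory MvPolynomial Pool.Agent.Lib.MP_0ba2dd_ag

universe u w

theorem qgr_variant (k : Type u) [Field k] [IsAlgClosed k] (h2 : (2 : k) ≠ 0) (h3 : (3 : k) ≠ 0)
    (f : MvPolynomial (Fin 5) k) (hf : f.IsHomogeneous 3)
    (smooth : ∀ p : Fin 5 → k, eval p f = 0 → (∀ i, eval p (pderiv i f) = 0) → p = 0)
    [HasDerivedCategory.{w} (QGr f)] : Indecomposable (Ku (sheafOf f)) := by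
  have := ObjectProperty.SerreClassLocalization.preservesFiniteLimits (sheafOf f) (Tors f)
  have := ObjectProperty.SerreClassLocalization.preservesFiniteColimits (sheafOf f) (Tors f)
  exact indecomposable_Ku (sheafOf f) h2 h3 hf smooth

end Pool.Agent.Lib.MP_0ba2dd_ag.QGrVariant
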