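import Pool.Agent.Lib.MP_0ba2dd_ag.H45Chart

/-! Quasi-coherence in terms of localisation of sections. -/

namespace Pool.Agent.Lib.MP_0ba2dd_ag

open CategoryTheory Limits AlgebraicGeometry MvPolynomial Opposite

universe u

variable {Y : Scheme.{u}}

namespace QLX

/-- The localisation condition at one function, for opens given up to equality. -/
def QL1 (F : Y.Modules) {V : Y.Opens} (r : Γ(Y, V)) {T B : Y.Opens} (hT : T ≤ V) (hB : B ≤ T) :
    Prop :=
  (∀ s : Γ(F, B), ∃ (n : ℕ) (t : Γ(F, T)), res F hB t = resO (hB.trans hT) r ^ n • s) ∧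
    (∀ t : Γ(F, T), res F hB t = 0 → ∃ n : ℕ, resO hT r ^ n • t = 0)

theorem ql1_iff (F : Y.Modules) {V : Y.Opens} (r : Γ(Y, V)) {T B : Y.Opens} (hT : T ≤ V)
    (hB : B ≤ T) (eT : T = V) (eB : B = Y.basicOpen r) :
    QL1 F r hT hB ↔ QL1 F r le_rfl (Y.basicOpen_le r) := by
  subst eT eB
  rfl

theorem ql_iff (F : Y.Modules) (V : Y.Opens) :
    QL F V ↔ ∀ r : Γ(Y, V), QL1 F r le_rfl (Y.basicOpen_le r) := by
  unfold QL QL1
  simp only [resO_self]

variable {V : Y.Opens} (hV : IsAffineOpen V)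

theorem image_top : hV.fromSpec ''ᵁ ⊤ = V :=
  hV.fromSpec.image_top_eq_opensRange.trans hV.opensRange_fromSpec

theorem image_le (W : (Spec Γ(Y, V)).Opens) : hV.fromSpec ''ᵁ W ≤ V :=
  (hV.fromSpec.image_mono le_top).trans (image_top hV).le

theorem comp_appIso_inv (W : (Spec Γ(Y, V)).Opens) :
    (Scheme.ΓSpecIso Γ(Y, V)).inv ≫ (Spec Γ(Y, V)).presheaf.map W.leTop.op ≫
      (hV.fromSpec.appIso W).inv = Y.presheaf.map (homOfLE (image_le hV W)).op := by
  have e : W ≤ hV.fromSpec ⁻¹ᵁ V := by rw [hV.fromSpec_preimage_self]; exact le_top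
  rw [← Scheme.Hom.appLE_appIso_inv hV.fromSpec e, Scheme.Hom.appLE, hV.fromSpec_app_self,
    Category.assoc, Category.assoc, ← Functor.map_comp_assoc]
  rfl

theorem smul_eq (F : Y.Modules) (W : (Spec Γ(Y, V)).Opens) (r : Γ(Y, V))
    (x : Γ(F.restrict hV.fromSpec, W)) :
    (F.restrictAppIso hV.fromSpec W).hom (r • x) =
      resO (image_le hV W) r • (F.restrictAppIso hV.fromSpec W).hom x := by
  rw [Scheme.Modules.smul_Spec_def]
  refine (Scheme.Modules.smul_restrictAppIso_hom_apply hV.fromSpec F W _ x).trans ?_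
  exact congrArg (fun φ : Γ(Y, V) ⟶ Γ(Y, hV.fromSpec ''ᵁ W) =>
    φ r • (F.restrictAppIso hV.fromSpec W).hom x) (comp_appIso_inv hV W)

theorem loc_iff (F : Y.Modules) :
    IsLocalizing (modulesSpecToSheaf.obj (F.restrict hV.fromSpec)) ↔ QL F V := by
  rw [ql_iff]
  refine forall_congr' fun r => ?_
  rw [← ql1_iff F r (image_le hV ⊤) (hV.fromSpec.image_mono le_top) (image_top hV)
    (hV.fromSpec_image_basicOpen r)]
  let φ := ((modulesSpecToSheaf.obj (F.restrict hV.fromSpec)).obj.map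
    (PrimeSpectrum.basicOpen r).leTop.op).hom
  refine ⟨fun h => ⟨fun s => ?_, fun t ht => ?_⟩,
    fun h => IsLocalizedModule.Away.mk_of_addCommGroup ?_ ?_ ?_⟩
  · have hf : IsLocalizedModule.Away r φ := h
    obtain ⟨n, y, hy⟩ := hf.surj _ _ s
    refine ⟨n, y, ?_⟩
    have := smul_eq hV F (PrimeSpectrum.basicOpen r) (r ^ n) s
    rw [map_pow] at this
    exact hy.symm.trans this
  · obtain ⟨⟨_, n, rfl⟩, hn⟩ := (IsLocalizedModule.eq_zero_iff (.powers r) φ).mp ht
    refine ⟨n, ?_⟩
    have := smul_eq hV F ⊤ (r ^ n) t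
    rw [map_pow] at this
    exact this.symm.trans hn
  · exact Scheme.Modules.isUnit_algebraMap_end_of_le_basicOpen r le_rfl
  · intro s
    obtain ⟨n, t, ht⟩ := h.1 s
    refine ⟨n, t, ?_⟩
    have := smul_eq hV F (PrimeSpectrum.basicOpen r) (r ^ n) s
    rw [map_pow] at this
    exact this.trans ht.symm
  · intro t ht
    obtain ⟨n, hn⟩ := h.2 t ht
    refine ⟨n, ?_⟩
    have := smul_eq hV F ⊤ (r ^ n) t
    rw [map_pow] at this
    exact this.trans hn

include hV in
set_option backward.isDefEq.respectTransparency false in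
theorem pres (F : Y.Modules) (h : QL F V) : Nonempty (F.over V).Presentation := by
  have h1 : IsIso (F.restrict hV.fromSpec).fromTildeΓ :=
    (isIso_fromTildeΓ_iff_isLocalizing _).2 ((loc_iff hV F).2 h)
  let P1 : (F.restrict hV.fromSpec).Presentation :=
    SheafOfModules.Presentation.ofIsIso.{u, u, u} (F.restrict hV.fromSpec).fromTildeΓ
      (presentationTilde.{u} _ .univ (by simp) _ (Submodule.span_eq _))
  let e1 : Scheme.Modules.restrictFunctor hV.fromSpec ⋙
      Scheme.Modules.restrictFunctor hV.isoSpec.hom ≅ Scheme.Modules.restrictFunctor V.ι :=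
    (Scheme.Modules.restrictFunctorComp _ _).symm ≪≫
      Scheme.Modules.restrictFunctorCongr hV.isoSpec_hom_fromSpec
  let P2 : (F.restrict V.ι).Presentation :=
    SheafOfModules.Presentation.ofIsIso.{u, u, u} (e1.app F).hom
      (Scheme.Modules.presentationRestrict hV.isoSpec.hom P1)
  let E := Scheme.Modules.overEquiv V
  let e2 : E.inverse.obj (F.restrict V.ι) ≅ F.over V :=
    E.inverse.mapIso ((Scheme.Modules.overFunctorEquiv V).app F).symm ≪≫
      (E.unitIso.app (F.over V)).symm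
  have : PreservesColimitsOfSize.{u, u} E.inverse := inferInstance
  exact ⟨SheafOfModules.Presentation.ofIsIso.{u, u, u} e2.hom
    (P2.map E.inverse (V.sheafOfModulesEquivOverInverseUnit Y.ringCatSheaf).symm)⟩

end QLX

theorem ql_of_qc (F : Y.Modules) [F.IsQuasicoherent] {V : Y.Opens} (hV : IsAffineOpen V) :
    QL F V :=
  (QLX.loc_iff hV F).1 ((isIso_fromTildeΓ_iff_isLocalizing _).1 inferInstance)

theorem qc_of_ql (F : Y.Modules) {ι : Type*} (U : ι → Y.Opens) (hU : ⨆ i, U i = ⊤)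
    (aff : ∀ i, IsAffineOpen (U i)) (h : ∀ i, QL F (U i)) : F.IsQuasicoherent :=
  SheafOfModules.QuasicoherentData.isQuasicoherent (M := F)
    { I := ι
      X := U
      coversTop := (_root_.Opens.coversTop_iff _ U).2 hU
      presentation := fun i => (QLX.pres (aff i) F (h i)).some }

end Pool.Agent.Lib.MP_0ba2dd_ag
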