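import Pool.Agent.Lib.MP_0ba2dd_ag.H45Basic

/-! The concrete setting: rings, gradings, tensor products, the Koszul factorisation of the
diagonal and its threefold cover. -/

namespace Pool.Agent.Lib.MP_0ba2dd_ag

open MvPolynomial Matrix Kronecker

abbrev Q (k : Type*) [Field k] := MvPolynomial (Fin 5) k
abbrev S (k : Type*) [Field k] := MvPolynomial (Fin 5 ⊕ Fin 5) k
abbrev G := ℤ × ZMod 3

def wQ : Fin 5 → ℤ := fun _ => 2
def wX : Fin 5 → G := fun _ => (2, 0)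
def wS : Fin 5 ⊕ Fin 5 → G := Sum.elim (fun _ => (2, 0)) (fun _ => (2, 2))
def w0 : Fin 5 ⊕ Fin 5 → ℤ := fun _ => 2
def wY : Fin 5 ⊕ Fin 5 → ZMod 3 := Sum.elim (fun _ => 0) (fun _ => 2)
def cG : G := (3, 0)
def cls (γ : G) : ZMod 3 := (γ.1 : ZMod 3) - γ.2
def N1 : G →+ ℤ := AddMonoidHom.fst ℤ (ZMod 3)
def N0 : ℤ →+ ℤ := AddMonoidHom.id ℤ
/-- `n ↦ (n, 0)`. -/
def eX : ℤ →+ G := AddMonoidHom.inl ℤ (ZMod 3)
/-- `n ↦ (n, n)`. -/
def eY : ℤ →+ G := (AddMonoidHom.id ℤ).prod (Int.castAddHom (ZMod 3))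

@[simp] theorem N1_apply (γ : G) : N1 γ = γ.1 := rfl
@[simp] theorem N0_apply (n : ℤ) : N0 n = n := rfl
@[simp] theorem eX_apply (n : ℤ) : eX n = (n, 0) := rfl
@[simp] theorem eY_apply (n : ℤ) : eY n = (n, (n : ZMod 3)) := rfl
theorem N1_wX (i : Fin 5) : N1 (wX i) = 2 := rfl
theorem N1_wS (i : Fin 5 ⊕ Fin 5) : N1 (wS i) = 2 := by cases i <;> rfl
theorem N0_wQ (i : Fin 5) : N0 (wQ i) = 2 := rfl
theorem N0_w0 (i : Fin 5 ⊕ Fin 5) : N0 (w0 i) = 2 := rfl
theorem N1_comp_wS : N1 ∘ wS = w0 := by funext i; cases i <;> rfl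
theorem N1_comp_wX : N1 ∘ wX = wQ := rfl
theorem eX_three : eX 3 = cG := rfl
theorem eY_three : eY 3 = cG := rfl
theorem cls_add (a b : G) : cls (a + b) = cls a + cls b := by
  simp only [cls, Prod.fst_add, Prod.snd_add, Int.cast_add]; ring
theorem cls_sub (a b : G) : cls (a - b) = cls a - cls b := by
  simp only [cls, Prod.fst_sub, Prod.snd_sub, Int.cast_sub]; ring
theorem cls_eY (n : ℤ) : cls (eY n) = 0 := by simp [cls]
theorem cls_cG : cls cG = 0 := by decide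

variable {k : Type*} [Field k]

noncomputable def inX : Q k →ₐ[k] S k := aeval fun i => X (Sum.inl i)
noncomputable def inY : Q k →ₐ[k] S k := aeval fun i => X (Sum.inr i)
/-- Restriction to `y = 0`. -/
noncomputable def T0 : S k →ₐ[k] Q k := aeval (Sum.elim X fun _ => 0)
/-- Restriction to the diagonal `y = x`. -/
noncomputable def TD : S k →ₐ[k] Q k := aeval (Sum.elim X X)

theorem T0_inX (p : Q k) : T0 (inX p) = p := by
  have : (T0 : S k →ₐ[k] Q k).comp inX = AlgHom.id k _ := by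
    ext i : 1; simp [T0, inX]
  exact congrArg (fun φ : Q k →ₐ[k] Q k => φ p) this

theorem TD_inX (p : Q k) : TD (inX p) = p := by
  have : (TD : S k →ₐ[k] Q k).comp inX = AlgHom.id k _ := by
    ext i : 1; simp [TD, inX]
  exact congrArg (fun φ : Q k →ₐ[k] Q k => φ p) this

theorem TD_inY (p : Q k) : TD (inY p) = p := by
  have : (TD : S k →ₐ[k] Q k).comp inY = AlgHom.id k _ := by
    ext i : 1; simp [TD, inY]
  exact congrArg (fun φ : Q k →ₐ[k] Q k => φ p) this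

theorem T0_inY (p : Q k) : T0 (inY p) = C (constantCoeff p) := by
  have : ((T0 : S k →ₐ[k] Q k).comp inY).toRingHom = (C : k →+* Q k).comp constantCoeff := by
    ext i : 1
    · ext a : 1; simp [T0, inY]
    · simp [T0, inY]
  exact congrArg (fun φ : Q k →+* Q k => φ p) this

/-- Ordinary homogeneity of degree `n` is `wQ`-homogeneity of degree `2 n`. -/
theorem isWH_wQ_iff {p : Q k} {n : ℕ} :
    p.IsWeightedHomogeneous wQ (2 * (n : ℤ)) ↔ p.IsHomogeneous n := by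
  have key : ∀ d : Fin 5 →₀ ℕ, Finsupp.weight wQ d = 2 * (n : ℤ) ↔ Finsupp.weight 1 d = n := by
    intro d
    have := N_weight (w := wQ) N0 N0_wQ d
    rw [N0_apply] at this
    have h1 : Finsupp.weight (1 : Fin 5 → ℕ) d = d.degree := by
      rw [Finsupp.degree_eq_weight_one]; rfl
    rw [this, h1]
    omega
  exact ⟨fun h d hd => (key d).mp (h hd), fun h d hd => (key d).mpr (h hd)⟩

section Maps

variable {ι κ : Type*}

theorem Hg.map_T0 {ν : ι → G} {μ : κ → G} {γ : G} {M : Matrix κ ι (S k)} (h : Hg wS ν μ γ M) :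
    Hg wX ν μ γ (M.map T0) :=
  h.map_aeval' _ (by
    rintro (i | i)
    · exact isWeightedHomogeneous_X k wX i
    · exact isWeightedHomogeneous_zero _ _ _)

theorem Hg.map_T0' {ν : ι → ℤ} {μ : κ → ℤ} {γ : ℤ} {M : Matrix κ ι (S k)} (h : Hg w0 ν μ γ M) :
    Hg wQ ν μ γ (M.map T0) :=
  h.map_aeval' _ (by
    rintro (i | i)
    · exact isWeightedHomogeneous_X k wQ i
    · exact isWeightedHomogeneous_zero _ _ _)

theorem Hg.map_TD {ν : ι → ℤ} {μ : κ → ℤ} {γ : ℤ} {M : Matrix κ ι (S k)} (h : Hg w0 ν μ γ M) :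
    Hg wQ ν μ γ (M.map TD) :=
  h.map_aeval' _ (by rintro (i | i) <;> exact isWeightedHomogeneous_X k wQ i)

theorem Hg.map_inX {ν : ι → G} {μ : κ → G} {γ : G} {M : Matrix κ ι (Q k)} (h : Hg wX ν μ γ M) :
    Hg wS ν μ γ (M.map inX) :=
  h.map_aeval' _ (fun i => isWeightedHomogeneous_X k wS (Sum.inl i))

theorem Hg.map_inX' {ν : ι → ℤ} {μ : κ → ℤ} {γ : ℤ} {M : Matrix κ ι (Q k)} (h : Hg wQ ν μ γ M) :
    Hg w0 ν μ γ (M.map inX) :=
  h.map_aeval' _ (fun i => isWeightedHomogeneous_X k w0 (Sum.inl i))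

theorem Hg.map_inY {ν : ι → ℤ} {μ : κ → ℤ} {γ : ℤ} {M : Matrix κ ι (Q k)} (h : Hg wQ ν μ γ M) :
    Hg wS (eY ∘ ν) (eY ∘ μ) (eY γ) (M.map inY) :=
  h.map_aeval eY _ (fun i => isWeightedHomogeneous_X k wS (Sum.inr i))

theorem Hg.map_inY' {ν : ι → ℤ} {μ : κ → ℤ} {γ : ℤ} {M : Matrix κ ι (Q k)} (h : Hg wQ ν μ γ M) :
    Hg w0 ν μ γ (M.map inY) :=
  h.map_aeval' _ (fun i => isWeightedHomogeneous_X k w0 (Sum.inr i))

theorem Hg.forget {ν : ι → G} {μ : κ → G} {γ : G} {M : Matrix κ ι (S k)} (h : Hg wS ν μ γ M) :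
    Hg w0 (N1 ∘ ν) (N1 ∘ μ) γ.1 M := N1_comp_wS ▸ h.coarsen N1

theorem isWH_wX_iff {p : Q k} {n : ℤ} :
    p.IsWeightedHomogeneous wX (n, 0) ↔ p.IsWeightedHomogeneous wQ n :=
  ⟨fun h => IsWH.coarsen N1 h, fun h => IsWH.coarsen eX h⟩

theorem isWH_wX_eq_zero {p : Q k} {γ : G} (h : p.IsWeightedHomogeneous wX γ) (h2 : γ.2 ≠ 0) :
    p = 0 := by
  by_contra hp
  obtain ⟨d, hd⟩ := ne_zero_iff.mp hp
  have h1 := IsWH.coarsen (AddMonoidHom.snd ℤ (ZMod 3)) h hd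
  apply h2
  change (AddMonoidHom.snd ℤ (ZMod 3)) γ = 0
  rw [← h1, Finsupp.weight_apply, Finsupp.sum]
  exact Finset.sum_eq_zero (fun i _ => by simp [wX])

theorem isWH_inX {p : Q k} {n : ℤ} (h : p.IsWeightedHomogeneous wQ n) :
    (inX p).IsWeightedHomogeneous wS (n, 0) :=
  IsWH.aeval eX _ (fun i => isWeightedHomogeneous_X k wS (Sum.inl i)) h

theorem isWH_inY {p : Q k} {n : ℤ} (h : p.IsWeightedHomogeneous wQ n) :
    (inY p).IsWeightedHomogeneous wS (n, (n : ZMod 3)) :=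
  IsWH.aeval eY _ (fun i => isWeightedHomogeneous_X k wS (Sum.inr i)) h

theorem IsMF.map_alg {σ τ Γ Γ' : Type*} [AddCommGroup Γ] [AddCommGroup Γ'] {w : σ → Γ}
    {w' : τ → Γ'} {c : Γ} {c' : Γ'} [Fintype ι] [DecidableEq ι] {ν : ι → Γ} {ν' : ι → Γ'}
    {W : MvPolynomial σ k} {D : Matrix ι ι (MvPolynomial σ k)}
    (g : MvPolynomial σ k →ₐ[k] MvPolynomial τ k) (h : IsMF w c W ν D)
    (hg : Hg w' ν' ν' c' (D.map g)) : IsMF w' c' (g W) ν' (D.map g) := by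
  refine ⟨hg, ?_⟩
  rw [← Matrix.map_mul, h.2]
  ext a b : 1
  by_cases hab : a = b <;> simp [hab]

end Maps

section Van

variable {σ ι κ : Type*} [Fintype ι] [Fintype κ]

/-- The Hom complex is exact in all degrees of class `r`. -/
def Van (w : σ → G) (r : ZMod 3) (ν : ι → G) (D : Matrix ι ι (MvPolynomial σ k)) (μ : κ → G)
    (D' : Matrix κ κ (MvPolynomial σ k)) : Prop :=
  ∀ γ : G, cls γ = r → Acyc w cG γ ν D μ D'

/-- The same for `ℤ`-graded factorisations over `Q`. -/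
def VanZ (r : ZMod 3) (ν : ι → ℤ) (D : Matrix ι ι (Q k)) (μ : κ → ℤ) (D' : Matrix κ κ (Q k)) :
    Prop :=
  ∀ n : ℤ, (n : ZMod 3) = r → Acyc wQ 3 n ν D μ D'

/-- A `ℤ`-graded object placed in `y`-class `t`. -/
def emb (t : ℤ) (ν : ι → ℤ) : ι → G := fun a => (ν a + t, (t : ZMod 3))

omit [Fintype ι] [Fintype κ] in
theorem Hg.emb {ν : ι → ℤ} {μ : κ → ℤ} {n : ℤ} {M : Matrix κ ι (Q k)} (h : Hg wQ ν μ n M)
    (t : ℤ) : Hg wX (emb t ν) (emb t μ) (n, 0) M := fun a b => by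
  have := isWH_wX_iff.mpr (h a b)
  refine IsWH.cast this ?_
  simp only [Pool.Agent.Lib.MP_0ba2dd_ag.emb, Prod.mk_add_mk, Prod.mk_sub_mk, Prod.mk.injEq]
  constructor <;> ring

omit [Fintype κ] in
theorem IsMF.emb [DecidableEq ι] {ν : ι → ℤ} {D : Matrix ι ι (Q k)} {f : Q k}
    (h : IsMF wQ 3 f ν D) (t : ℤ) : IsMF wX cG f (emb t ν) D := ⟨h.1.emb t, h.2⟩

theorem VanZ.emb {r : ZMod 3} {ν : ι → ℤ} {D : Matrix ι ι (Q k)} {μ : κ → ℤ}
    {D' : Matrix κ κ (Q k)} (h : VanZ r ν D μ D') (t t' : ℤ) :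
    Van wX r (emb t ν) D (emb t' μ) D' := by
  intro γ hγ s φ hφ cφ
  by_cases h0 : (t : ZMod 3) + γ.2 - (t' : ZMod 3) = 0
  · have hn : ((γ.1 + t - t' : ℤ) : ZMod 3) = r := by
      rw [← hγ, cls]; push_cast; linear_combination h0
    obtain ⟨a, ha, e⟩ := h _ hn s φ (fun a b => by
      have := IsWH.coarsen N1 (hφ a b)
      refine IsWH.cast this ?_
      simp only [Pool.Agent.Lib.MP_0ba2dd_ag.emb, map_sub, map_add, N1_apply]; ring) cφ
    refine ⟨a, fun i j => IsWH.cast (isWH_wX_iff.mpr (ha i j)) ?_, e⟩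
    obtain ⟨g1, g2⟩ := γ
    simp only [Pool.Agent.Lib.MP_0ba2dd_ag.emb, cG, Prod.mk_add_mk, Prod.mk_sub_mk,
      Prod.mk.injEq] at h0 ⊢
    exact ⟨by ring, by linear_combination -h0⟩
  · have : φ = 0 := by
      ext a b : 1
      exact isWH_wX_eq_zero (hφ a b) (by simpa [Pool.Agent.Lib.MP_0ba2dd_ag.emb] using h0)
    rw [this]; exact Exact.zero

theorem Van.toZ {r : ZMod 3} {ν : ι → ℤ} {D : Matrix ι ι (Q k)} {μ : κ → ℤ}
    {D' : Matrix κ κ (Q k)} (h : Van wX r (emb 0 ν) D (emb 0 μ) D') : VanZ r ν D μ D' := by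
  intro n hn s φ hφ cφ
  obtain ⟨a, ha, e⟩ := h (n, 0) (by simp [cls, hn]) s φ (hφ.emb 0) cφ
  refine ⟨a, fun i j => IsWH.cast (IsWH.coarsen N1 (ha i j)) ?_, e⟩
  simp [Pool.Agent.Lib.MP_0ba2dd_ag.emb, cG]

end Van

section Tensor

variable {σ Γ ι κ : Type*} [AddCommGroup Γ]

def tensν (μ : ι → Γ) (l : κ → Γ) : ι × κ → Γ := fun x => μ x.1 + l x.2

/-- Tensor product differential `D ⊗ 1 + ε ⊗ E`. -/
noncomputable def tensD [DecidableEq ι] [DecidableEq κ] (N : Γ →+ ℤ) (μ : ι → Γ)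
    (D : Matrix ι ι (MvPolynomial σ k)) (E : Matrix κ κ (MvPolynomial σ k)) :
    Matrix (ι × κ) (ι × κ) (MvPolynomial σ k) :=
  D ⊗ₖ (1 : Matrix κ κ (MvPolynomial σ k)) + (eps N μ : Matrix ι ι (MvPolynomial σ k)) ⊗ₖ E

end Tensor

section Koszul

/-- Generators of the `n`-fold doubling. -/
def Kι : ℕ → Type
  | 0 => Unit
  | n + 1 => Kι n ⊕ Kι n

instance instFintypeKι : ∀ n, Fintype (Kι n)
  | 0 => inferInstanceAs (Fintype Unit)
  | n + 1 => @instFintypeSum _ _ (instFintypeKι n) (instFintypeKι n)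

instance instDecidableEqKι : ∀ n, DecidableEq (Kι n)
  | 0 => inferInstanceAs (DecidableEq Unit)
  | n + 1 => @instDecidableEqSum _ _ (instDecidableEqKι n) (instDecidableEqKι n)

def Kν : ∀ n, Kι n → ℤ
  | 0 => fun _ => 0
  | n + 1 => Sum.elim (Kν n) (fun a => Kν n a - 1)

def Ktop : ∀ n, Kι n
  | 0 => ()
  | n + 1 => Sum.inl (Ktop n)

/-- The Koszul factorisation of `∑_{j < n} z j * w j`. -/
def KD {R : Type*} [CommRing R] (z w : ℕ → R) : ∀ n, Matrix (Kι n) (Kι n) R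
  | 0 => 0
  | n + 1 => Matrix.fromBlocks (KD z w n) (z n • (1 : Matrix (Kι n) (Kι n) R))
      (w n • (1 : Matrix (Kι n) (Kι n) R)) (-KD z w n)

noncomputable def zK (k : Type*) [Field k] (n : ℕ) : S k :=
  if h : n < 5 then X (Sum.inl ⟨n, h⟩) - X (Sum.inr ⟨n, h⟩) else 0

/-- Substitute `y j` for the variables `j < n` and `x j` for the others. -/
noncomputable def mix (n : ℕ) : Q k →ₐ[k] S k :=
  aeval fun j : Fin 5 => if (j : ℕ) < n then X (Sum.inr j) else X (Sum.inl j)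

open Classical in
/-- Difference quotients of `f`. -/
noncomputable def wK (f : Q k) (n : ℕ) : S k :=
  if h : ∃ u : S k, zK k n * u = mix n f - mix (n + 1) f then h.choose else 0

/-- The stabilised diagonal, `ℤ`-graded. -/
noncomputable def D0 (f : Q k) : Matrix (Kι 5) (Kι 5) (S k) := KD (zK k) (wK f) 5

/-- The rows of the top generator of the Koszul factor. -/
def topRows {R α κ : Type*} (φ : Matrix (Kι 5 × κ) α R) : Matrix κ α R :=
  φ.submatrix (fun j => (Ktop 5, j)) id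

end Koszul

section Cover

variable {ι ι' : Type*}

def covν (ν : ι → ℤ) : ι × ZMod 3 → G := fun x => (ν x.1, x.2)

/-- The threefold cover of a `ℤ`-graded matrix over `S`. -/
noncomputable def cov (D : Matrix ι ι (S k)) : Matrix (ι × ZMod 3) (ι × ZMod 3) (S k) :=
  Matrix.of fun x y => weightedHomogeneousComponent wY (y.2 - x.2) (D x.1 y.1)

/-- Summation over the three sheets. -/
noncomputable def Sm (k : Type*) [Field k] [DecidableEq ι] (e : ι' ≃ ι × ZMod 3) :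
    Matrix ι ι' (S k) :=
  Matrix.of fun a x => if (e x).1 = a then 1 else 0

abbrev Δι := Kι 5 × ZMod 3
def Δν : Δι → G := covν (Kν 5)
noncomputable def ΔD (f : Q k) : Matrix Δι Δι (S k) := cov (D0 f)

end Cover

/-- The cubic hypersurface `f = 0` is smooth. -/
def Smooth (f : Q k) : Prop :=
  ∀ p : Fin 5 → k, eval p f = 0 → (∀ i, eval p (pderiv i f) = 0) → p = 0

end Pool.Agent.Lib.MP_0ba2dd_ag
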