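import Pool.Agent.Lib.MP_0ba2dd_ag.H45Set

/-! Tensor products and threefold covers. -/

namespace Pool.Agent.Lib.MP_0ba2dd_ag

open MvPolynomial Matrix Kronecker

section Tensor

variable {k : Type*} [Field k] {σ Γ ι ι' κ : Type*} [AddCommGroup Γ] {w : σ → Γ} {c : Γ}
  [Fintype ι] [Fintype ι'] [Fintype κ] [DecidableEq ι] [DecidableEq ι'] [DecidableEq κ]

omit [Fintype ι] [Fintype ι'] [Fintype κ] [DecidableEq ι] [DecidableEq ι'] [DecidableEq κ] in
theorem Hg.kronecker {κ' : Type*} {μ : ι → Γ} {μ' : ι' → Γ} {l : κ → Γ} {l' : κ' → Γ}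
    {γ γ' γ'' : Γ} {m : Matrix ι' ι (MvPolynomial σ k)} {m' : Matrix κ' κ (MvPolynomial σ k)}
    (h : Hg w μ μ' γ m) (h' : Hg w l l' γ' m') (e : γ + γ' = γ'') :
    Hg w (tensν μ l) (tensν μ' l') γ'' (m ⊗ₖ m') := by
  intro a b
  refine IsWH.cast ((h a.1 b.1).mul (h' a.2 b.2)) ?_
  rw [← e, tensν, tensν]; abel

theorem neg_kron {R a b c d : Type*} [Ring R] (A : Matrix a b R) (B : Matrix c d R) :
    (-A) ⊗ₖ B = -(A ⊗ₖ B) := by
  ext; simp

theorem IsMF.tens (N : Γ →+ ℤ) (hN : ∀ i, N (w i) = 2) (hc : Odd (N c))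
    {U U' : MvPolynomial σ k} {μ : ι → Γ} {D : Matrix ι ι (MvPolynomial σ k)} {l : κ → Γ}
    {E : Matrix κ κ (MvPolynomial σ k)} (h : IsMF w c U μ D) (h' : IsMF w c U' l E) :
    IsMF w c (U + U') (tensν μ l) (tensD N μ D E) := by
  refine ⟨(h.1.kronecker Hg.one (add_zero _)).add ((hg_eps N).kronecker h'.1 (zero_add _)), ?_⟩
  have h1 := h.1.eps_mul N hN
  rw [Int.negOnePow_odd _ hc, Units.neg_smul, one_smul] at h1
  simp only [tensD, Matrix.add_mul, Matrix.mul_add, ← mul_kronecker_mul, Matrix.mul_one,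
    Matrix.one_mul, h.2, h'.2, h1, eps_mul_eps, smul_kronecker, kronecker_smul, one_kronecker_one,
    add_smul, neg_kron]
  abel

theorem Closed.tens (N : Γ →+ ℤ) (hN : ∀ i, N (w i) = 2) {μ : ι → Γ} {μ' : ι' → Γ} {γ : Γ}
    (hγ : Even (N γ)) {D : Matrix ι ι (MvPolynomial σ k)} {D' : Matrix ι' ι' (MvPolynomial σ k)}
    {m : Matrix ι' ι (MvPolynomial σ k)} (hm : Hg w μ μ' γ m) (cm : Closed 1 D D' m)
    (E : Matrix κ κ (MvPolynomial σ k)) :
    Closed 1 (tensD N μ D E) (tensD N μ' D' E) (m ⊗ₖ (1 : Matrix κ κ (MvPolynomial σ k))) := by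
  have h1 := hm.eps_mul N hN
  rw [Int.negOnePow_even _ hγ, one_smul] at h1
  simp only [Closed, one_smul] at cm ⊢
  simp only [tensD, Matrix.add_mul, Matrix.mul_add, ← mul_kronecker_mul, Matrix.mul_one,
    Matrix.one_mul, cm, h1]

theorem Exact.tens (N : Γ →+ ℤ) (hN : ∀ i, N (w i) = 2) (hc : Odd (N c)) {μ : ι → Γ}
    {μ' : ι' → Γ} {γ : Γ} (hγ : Even (N γ)) {D : Matrix ι ι (MvPolynomial σ k)}
    {D' : Matrix ι' ι' (MvPolynomial σ k)} {m : Matrix ι' ι (MvPolynomial σ k)}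
    (h : Exact w c γ μ D μ' D' 1 m) (l : κ → Γ) (E : Matrix κ κ (MvPolynomial σ k)) :
    Exact w c γ (tensν μ l) (tensD N μ D E) (tensν μ' l) (tensD N μ' D' E) 1
      (m ⊗ₖ (1 : Matrix κ κ (MvPolynomial σ k))) := by
  obtain ⟨a, ha, rfl⟩ := h
  have h1 := ha.eps_mul N hN
  rw [Int.negOnePow_odd _ (by rw [map_sub]; exact hγ.sub_odd hc), Units.neg_smul, one_smul] at h1
  refine ⟨a ⊗ₖ 1, ha.kronecker Hg.one (add_zero _), ?_⟩
  simp only [tensD, Matrix.add_mul, Matrix.mul_add, ← mul_kronecker_mul, Matrix.mul_one,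
    Matrix.one_mul, h1, one_smul, add_kronecker, neg_kron]
  abel

omit [Fintype ι] [Fintype κ] in
theorem tensD_map {τ : Type*} (g : MvPolynomial σ k →ₐ[k] MvPolynomial τ k) (N : Γ →+ ℤ)
    (μ : ι → Γ) (D : Matrix ι ι (MvPolynomial σ k)) (E : Matrix κ κ (MvPolynomial σ k)) :
    (tensD N μ D E).map g = tensD N μ (D.map g) (E.map g) := by
  ext ⟨a, i⟩ ⟨b, j⟩ : 1
  simp only [tensD, eps, Matrix.map_apply, Matrix.add_apply, kroneckerMap_apply, map_add, map_mul,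
    Matrix.one_apply, Matrix.diagonal_apply, apply_ite g, map_one, map_zero, Units.smul_def,
    map_zsmul]

end Tensor

section Cover

variable {k : Type*} [Field k] {ι ι' κ : Type*} [Fintype ι] [Fintype ι'] [Fintype κ]
  [DecidableEq ι] [DecidableEq ι'] [DecidableEq κ]

theorem isWH_wS_iff {p : S k} {γ : G} : p.IsWeightedHomogeneous wS γ ↔
    p.IsWeightedHomogeneous w0 γ.1 ∧ p.IsWeightedHomogeneous wY γ.2 := by
  have key : ∀ d : Fin 5 ⊕ Fin 5 →₀ ℕ,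
      Finsupp.weight wS d = (Finsupp.weight w0 d, Finsupp.weight wY d) := fun d => by
    simp only [Finsupp.weight_apply, Finsupp.sum, Prod.ext_iff, Prod.fst_sum, Prod.snd_sum]
    constructor <;> refine Finset.sum_congr rfl ?_ <;> rintro (i | i) - <;> rfl
  refine ⟨fun h => ⟨fun d hd => ?_, fun d hd => ?_⟩, fun h d hd => ?_⟩
  · rw [← h hd, key]
  · rw [← h hd, key]
  · rw [key, h.1 hd, h.2 hd]

theorem isWH_comp {p : S k} {n : ℤ} (h : p.IsWeightedHomogeneous w0 n) (t : ZMod 3) :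
    (weightedHomogeneousComponent wY t p).IsWeightedHomogeneous w0 n := fun d hd => by
  rw [coeff_weightedHomogeneousComponent] at hd
  exact h fun h0 => hd (by rw [h0, ite_self])

theorem sum_comp_wY (p : S k) : ∑ t, weightedHomogeneousComponent wY t p = p := by
  ext d
  simp [coeff_sum, coeff_weightedHomogeneousComponent]

omit [Fintype ι] [Fintype κ] [DecidableEq ι'] [DecidableEq κ] in
theorem sm_apply (e : ι' ≃ ι × ZMod 3) (φ : Matrix ι' κ (S k)) (a : ι) (b : κ) :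
    (Sm k e * φ) a b = ∑ t, φ (e.symm (a, t)) b := by
  classical
  have := Fintype.ofSurjective (fun x => (e x).1) (Prod.fst_surjective.comp e.surjective)
  rw [Matrix.mul_apply, ← e.symm.sum_comp, Fintype.sum_prod_type, Finset.sum_comm]
  simp [Sm]

omit [Fintype ι] [Fintype κ] [DecidableEq ι'] [DecidableEq κ] in
theorem sm_comp (e : ι' ≃ ι × ZMod 3) {ν : ι → ℤ} {ν' : ι' → G}
    (hν : ∀ x, ν' x = (ν (e x).1, (e x).2)) {μ : κ → G} {γ : G} {φ : Matrix ι' κ (S k)}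
    (h : Hg wS μ ν' γ φ) (x : ι') (b : κ) :
    φ x b = weightedHomogeneousComponent wY ((μ b + γ).2 - (e x).2) ((Sm k e * φ) (e x).1 b) := by
  have h1 : ∀ y, (φ y b).IsWeightedHomogeneous wY ((μ b + γ).2 - (e y).2) := fun y =>
    IsWH.cast (isWH_wS_iff.1 (h y b)).2 (by simp [hν])
  rw [sm_apply, map_sum, Finset.sum_eq_single (e x).2 (fun t _ ht =>
    (h1 _).weightedHomogeneousComponent_ne _ (by simpa using ht.symm)) (by simp), Prod.mk.eta,
    e.symm_apply_apply, (h1 x).weightedHomogeneousComponent_same]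

omit [Fintype ι] [Fintype κ] [DecidableEq ι'] [DecidableEq κ] in
theorem sm_hg (e : ι' ≃ ι × ZMod 3) {ν : ι → ℤ} {ν' : ι' → G}
    (hν : ∀ x, ν' x = (ν (e x).1, (e x).2)) {μ : κ → G} {γ : G} {φ : Matrix ι' κ (S k)}
    (h : Hg wS μ ν' γ φ) : Hg w0 (N1 ∘ μ) ν γ.1 (Sm k e * φ) := by
  intro a b
  rw [sm_apply]
  refine IsWeightedHomogeneous.sum _ _ _ fun t _ => IsWH.cast (isWH_wS_iff.1 (h _ b)).1 ?_
  simp [hν]

omit [Fintype ι] [Fintype κ] [DecidableEq ι'] [DecidableEq κ] in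
theorem sm_inj (e : ι' ≃ ι × ZMod 3) {ν : ι → ℤ} {ν' : ι' → G}
    (hν : ∀ x, ν' x = (ν (e x).1, (e x).2)) {μ : κ → G} {γ : G} {φ : Matrix ι' κ (S k)}
    (h : Hg wS μ ν' γ φ) (h0 : Sm k e * φ = 0) : φ = 0 := by
  ext x b : 1
  rw [sm_comp e hν h, h0, Matrix.zero_apply, map_zero, Matrix.zero_apply]

omit [Fintype ι] [Fintype κ] [DecidableEq ι'] [DecidableEq κ] in
theorem sm_surj (e : ι' ≃ ι × ZMod 3) {ν : ι → ℤ} {ν' : ι' → G}
    (hν : ∀ x, ν' x = (ν (e x).1, (e x).2)) {μ : κ → G} {γ : G} {ψ : Matrix ι κ (S k)}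
    (h : Hg w0 (N1 ∘ μ) ν γ.1 ψ) : ∃ φ : Matrix ι' κ (S k), Hg wS μ ν' γ φ ∧ Sm k e * φ = ψ := by
  refine ⟨Matrix.of fun x b => weightedHomogeneousComponent wY ((μ b + γ).2 - (e x).2)
    (ψ (e x).1 b), fun x b => isWH_wS_iff.2 ⟨IsWH.cast (isWH_comp (h _ b) _) ?_,
      IsWH.cast (weightedHomogeneousComponent_isWeightedHomogeneous _ _) ?_⟩, ?_⟩
  · simp [hν]
  · simp [hν]
  · ext a b : 1
    simp only [sm_apply, Matrix.of_apply, Equiv.apply_symm_apply]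
    exact ((Equiv.subLeft _).sum_comp fun t => weightedHomogeneousComponent wY t (ψ a b)).trans
      (sum_comp_wY _)

omit [DecidableEq ι'] [DecidableEq κ] in
/-- Closed maps lift to the cover. -/
theorem sm_closed (e : ι' ≃ ι × ZMod 3) {ν : ι → ℤ} {ν' : ι' → G}
    (hν : ∀ x, ν' x = (ν (e x).1, (e x).2)) {D : Matrix ι ι (S k)} {D' : Matrix ι' ι' (S k)}
    (hD' : Hg wS ν' ν' cG D') (hS : Sm k e * D' = D * Sm k e) {μ : κ → G}
    {P : Matrix κ κ (S k)} (hP : Hg wS μ μ cG P) {γ : G} {s : ℤˣ} {φ : Matrix ι' κ (S k)}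
    (h : Hg wS μ ν' γ φ) : Closed s P D' φ ↔ Closed s P D (Sm k e * φ) := by
  unfold Closed
  rw [← Matrix.mul_assoc, ← hS, Matrix.mul_assoc, Matrix.mul_assoc, ← Matrix.mul_smul (Sm k e)]
  refine ⟨congrArg _, fun h1 => sub_eq_zero.1 (sm_inj e hν ((hD'.mul h rfl).sub
    ((h.mul hP (add_comm _ _)).units_smul s)) ?_)⟩
  rw [Matrix.mul_sub, h1, sub_self]

omit [DecidableEq ι'] [DecidableEq κ] in
/-- Homotopies lift to the cover. -/
theorem sm_exact (e : ι' ≃ ι × ZMod 3) {ν : ι → ℤ} {ν' : ι' → G}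
    (hν : ∀ x, ν' x = (ν (e x).1, (e x).2)) {D : Matrix ι ι (S k)} {D' : Matrix ι' ι' (S k)}
    (hD' : Hg wS ν' ν' cG D') (hS : Sm k e * D' = D * Sm k e) {μ : κ → G}
    {P : Matrix κ κ (S k)} (hP : Hg wS μ μ cG P) {γ : G} {s : ℤˣ} {φ : Matrix ι' κ (S k)}
    (h : Hg wS μ ν' γ φ) :
    Exact wS cG γ μ P ν' D' s φ ↔ Exact w0 3 γ.1 (N1 ∘ μ) P ν D s (Sm k e * φ) := by
  have key : ∀ a : Matrix ι' κ (S k), Sm k e * (D' * a + s • (a * P)) =
      D * (Sm k e * a) + s • (Sm k e * a * P) := fun a => by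
    rw [Matrix.mul_add, ← Matrix.mul_assoc, hS, Matrix.mul_smul, Matrix.mul_assoc,
      Matrix.mul_assoc]
  refine ⟨fun ⟨a, ha, h1⟩ => ⟨_, sm_hg e hν ha, h1 ▸ key a⟩, fun ⟨a, ha, h1⟩ => ?_⟩
  obtain ⟨a, hb, rfl⟩ := sm_surj e hν (γ := γ - cG) ha
  refine ⟨a, hb, sub_eq_zero.1 (sm_inj e hν (h.sub ((hD'.mul hb (by abel)).add
    ((hb.mul hP (by abel)).units_smul s))) ?_)⟩
  rw [Matrix.mul_sub, key, h1, sub_self]

omit [Fintype ι] [DecidableEq ι] in
theorem hg_cov {ν : ι → ℤ} {D : Matrix ι ι (S k)} (h : Hg w0 ν ν 3 D) :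
    Hg wS (covν ν) (covν ν) cG (cov D) := by
  intro x y
  refine isWH_wS_iff.2 ⟨isWH_comp (h _ _) _,
    IsWH.cast (weightedHomogeneousComponent_isWeightedHomogeneous _ _) ?_⟩
  simp [covν, cG]

theorem sm_cov (D : Matrix ι ι (S k)) :
    Sm k (Equiv.refl (ι × ZMod 3)) * cov D = D * Sm k (Equiv.refl (ι × ZMod 3)) := by
  ext a y : 1
  rw [sm_apply]
  refine (((Equiv.subLeft _).sum_comp fun t => weightedHomogeneousComponent wY t (D a y.1)).trans
    (sum_comp_wY _)).trans ?_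
  rw [Matrix.mul_apply, Finset.sum_eq_single y.1 (fun j _ hj => by simp [Sm, hj.symm]) (by simp)]
  simp [Sm]

theorem isMF_cov {f : Q k} (hf : f.IsHomogeneous 3) {ν : ι → ℤ} {D : Matrix ι ι (S k)}
    (h : IsMF w0 3 (inX f - inY f) ν D) : IsMF wS cG (inX f - inY f) (covν ν) (cov D) := by
  have h1 := hg_cov h.1
  have h2 : f.IsWeightedHomogeneous wQ 6 := isWH_wQ_iff.2 hf
  refine ⟨h1, sub_eq_zero.1 (sm_inj (Equiv.refl _) (ν := ν) (fun _ => rfl) (γ := (6, 0))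
    ((h1.mul h1 (by decide)).sub (Hg.smul_one ((isWH_inX h2).sub (isWH_inY h2)))) ?_)⟩
  rw [Matrix.mul_sub, ← Matrix.mul_assoc, sm_cov, Matrix.mul_assoc, sm_cov, ← Matrix.mul_assoc,
    h.2, Matrix.mul_smul, Matrix.smul_mul, Matrix.mul_one, Matrix.one_mul, sub_self]

omit [Fintype ι] [DecidableEq ι] in
theorem cov_T0 (D : Matrix ι ι (S k)) (x y : ι × ZMod 3) :
    T0 (cov D x y) = if x.2 = y.2 then T0 (D x.1 y.1) else 0 := by
  have h0 : ∀ (t : ZMod 3) (p : S k), t ≠ 0 → T0 (weightedHomogeneousComponent wY t p) = 0 :=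
    fun t p ht => isWH_wX_eq_zero (γ := (0, t)) (fun d hd => (ht ?_).elim) ht
  · simp only [cov, Matrix.of_apply]
    split_ifs with h
    · conv_rhs => rw [← sum_comp_wY (D x.1 y.1), map_sum,
        Finset.sum_eq_single 0 (fun t _ ht => h0 t _ ht) (by simp)]
      rw [h, sub_self]
    · exact h0 _ _ (sub_ne_zero.2 (Ne.symm h))
  · have := IsWH.aeval (w := wY) (w' := fun _ : Fin 5 => (0 : ZMod 3)) (AddMonoidHom.id _)
      (Sum.elim X fun _ => (0 : Q k)) (by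
        rintro (i | i)
        · exact isWeightedHomogeneous_X k _ i
        · exact isWeightedHomogeneous_zero _ _ _)
      (weightedHomogeneousComponent_isWeightedHomogeneous t p) hd
    simpa [Finsupp.weight_apply, Finsupp.sum] using this.symm

/-- The cover structure on `cov D ⊗ E(y)`. -/
def tensEquiv (ι : Type*) (l : κ → ℤ) : (ι × ZMod 3) × κ ≃ (ι × κ) × ZMod 3 where
  toFun x := ((x.1.1, x.2), x.1.2 + (l x.2 : ZMod 3))
  invFun y := ((y.1.1, y.2 - (l y.1.2 : ZMod 3)), y.1.2)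
  left_inv x := by simp
  right_inv y := by simp

omit [Fintype ι] [Fintype κ] [DecidableEq ι] [DecidableEq κ] in
theorem tensEquiv_deg (ν : ι → ℤ) (l : κ → ℤ) (x : (ι × ZMod 3) × κ) :
    tensν (covν ν) (eY ∘ l) x = (tensν ν l (tensEquiv ι l x).1, (tensEquiv ι l x).2) := by
  rfl

omit [Fintype ι] [Fintype κ] in
theorem sm_tensEquiv (l : κ → ℤ) :
    Sm k (tensEquiv ι l) = Sm k (Equiv.refl (ι × ZMod 3)) ⊗ₖ (1 : Matrix κ κ (S k)) := by
  ext ⟨a, i⟩ ⟨x, j⟩ : 1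
  by_cases h1 : x.1 = a <;> by_cases h2 : i = j <;>
    simp [Sm, tensEquiv, h1, h2, eq_comm]

theorem sm_tens (ν : ι → ℤ) (l : κ → ℤ) (D : Matrix ι ι (S k)) (E : Matrix κ κ (S k)) :
    Sm k (tensEquiv ι l) * tensD N1 (covν ν) (cov D) E = tensD N0 ν D E * Sm k (tensEquiv ι l) := by
  have h : Sm k (Equiv.refl (ι × ZMod 3)) * eps N1 (covν ν) =
      eps N0 ν * Sm k (Equiv.refl (ι × ZMod 3)) := by
    ext a x : 1
    simp only [eps, Matrix.mul_diagonal, Matrix.diagonal_mul, Sm, Matrix.of_apply, Equiv.refl_apply]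
    by_cases h : x.1 = a <;> simp [h, covν]
  simp only [sm_tensEquiv, tensD, Matrix.add_mul, Matrix.mul_add, ← mul_kronecker_mul,
    Matrix.mul_one, Matrix.one_mul, sm_cov, h]

end Cover

end Pool.Agent.Lib.MP_0ba2dd_ag
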