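import Pool.Agent.Lib.MP_0ba2dd_ag.H45DevB
import Pool.Agent.Lib.MP_0ba2dd_ag.H45Ess
import Pool.Agent.Lib.MP_0ba2dd_ag.H45Bridge

/-! Transfer of indecomposability along an exact fully faithful functor. -/

namespace Pool.Agent.Lib.MP_0ba2dd_ag

open CategoryTheory Limits MvPolynomial Pretriangulated

universe u

section

variable {C D : Type*} [Category C] [HasZeroObject C] [HasShift C ℤ] [Preadditive C]
  [∀ n : ℤ, (shiftFunctor C n).Additive] [Pretriangulated C]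
  [Category D] [HasZeroObject D] [HasShift D ℤ] [Preadditive D]
  [∀ n : ℤ, (shiftFunctor D n).Additive] [Pretriangulated D]
  (F : C ⥤ D) [F.CommShift ℤ] [F.IsTriangulated]

theorem isTriangulated_map (𝒜 : ObjectProperty C) [𝒜.IsTriangulated]
    (hb : ∀ K L, 𝒜 K → 𝒜 L → Bij F K L) : (𝒜.map F).IsTriangulated := by
  have : (𝒜.ι ⋙ F).Full := ⟨fun {X Y} φ => by
    obtain ⟨ψ, e⟩ := (hb _ _ X.property Y.property).2 φ
    exact ⟨ObjectProperty.homMk ψ, e⟩⟩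
  rw [← F.essImage_ι_comp]
  infer_instance

theorem Indecomposable.transfer {T : ObjectProperty C} {T' : ObjectProperty D}
    (hb : ∀ K L, T K → T L → Bij F K L) (h1 : ∀ K Z, T K → Nonempty (F.obj K ≅ Z) → T' Z)
    (h2 : ∀ Z, T' Z → ∃ K, T K ∧ Nonempty (F.obj K ≅ Z)) (h : Indecomposable T') :
    Indecomposable T := by
  intro 𝒜 ℬ _ _ hA hB h0 hT
  have key : ∀ 𝒞 : ObjectProperty C, 𝒞 ≤ T → (∀ Z, 𝒞.map F Z → IsZero Z) → ∀ K, 𝒞 K → IsZero K :=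
    fun 𝒞 hC hz K hK => (IsZero.iff_id_eq_zero _).2 ((hb K K (hC _ hK) (hC _ hK)).1
      ((hz _ ⟨K, hK, ⟨Iso.refl _⟩⟩).eq_of_src _ _))
  refine (h (𝒜.map F) (ℬ.map F)
    (isTriangulated_map F 𝒜 fun K L hK hL => hb K L (hA _ hK) (hA _ hL))
    (isTriangulated_map F ℬ fun K L hK hL => hb K L (hB _ hK) (hB _ hL))
    ?_ ?_ ?_ ?_).imp (key 𝒜 hA) (key ℬ hB)
  · rintro Z ⟨K, hK, e⟩
    exact h1 K Z (hA _ hK) e
  · rintro Z ⟨K, hK, e⟩
    exact h1 K Z (hB _ hK) e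
  · rintro A B ⟨A₀, hA₀, ⟨e⟩⟩ ⟨B₀, hB₀, ⟨e'⟩⟩ φ
    obtain ⟨ψ, hψ⟩ := (hb B₀ A₀ (hB _ hB₀) (hA _ hA₀)).2 (e'.hom ≫ φ ≫ e.inv)
    rw [← cancel_epi e'.hom, ← cancel_mono e.inv, Category.assoc, comp_zero, zero_comp, ← hψ]
    change F.map ψ = 0
    rw [h0 _ _ hA₀ hB₀ ψ, F.map_zero]
  · intro E hE
    obtain ⟨K, hK, ⟨e⟩⟩ := h2 E hE
    obtain ⟨B, A, u, v, w, hB₀, hA₀, hd⟩ := hT K hK
    refine ⟨F.obj B, F.obj A, F.map u ≫ e.hom, e.inv ≫ F.map v,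
      F.map w ≫ (F.commShiftIso (1 : ℤ)).hom.app B, ⟨B, hB₀, ⟨Iso.refl _⟩⟩, ⟨A, hA₀, ⟨Iso.refl _⟩⟩,
      isomorphic_distinguished _ (F.map_distinguished _ hd) _
        (Triangle.isoMk _ _ (Iso.refl _) e.symm (Iso.refl _) ?_ ?_ ?_)⟩
    · change (F.map u ≫ e.hom) ≫ e.inv = 𝟙 _ ≫ F.map u
      simp
    · exact Category.comp_id _
    · change (F.map w ≫ (F.commShiftIso (1 : ℤ)).hom.app B) ≫ (𝟙 (F.obj B))⟦(1 : ℤ)⟧' =
        𝟙 _ ≫ F.map w ≫ (F.commShiftIso (1 : ℤ)).hom.app B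
      simp

end

variable {k : Type u} [Field k] {f : Q k} {A : Type*} [Category A] [Abelian A]
  [HasDerivedCategory A] (π : Gr f ⥤ A) [π.Additive] [PreservesFiniteLimits π]
  [PreservesFiniteColimits π] [π.IsLocalization (Tors f).isoModSerre]
  {C : Type*} [Category C] [Abelian C] [HasDerivedCategory C] (ι : C ⥤ A) [ι.Additive]
  [PreservesFiniteLimits ι] [PreservesFiniteColimits ι] [ι.Full] [ι.Faithful]

theorem Bdd.shift {K : DerivedCategory C} (h : Bdd K) (n : ℤ) : Bdd (K⟦n⟧) := by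
  obtain ⟨a, b, _, _⟩ := h
  exact ⟨a - n, b - n, DerivedCategory.TStructure.t.isGE_shift K a n _ (by omega),
    DerivedCategory.TStructure.t.isLE_shift K b n _ (by omega)⟩

theorem bdd_single (L : C) : Bdd ((DerivedCategory.singleFunctor C 0).obj L) :=
  ⟨0, 0, inferInstance, inferInstance⟩

theorem hom_zero_iff (hl : Lifts ι) {L : C} {L' : A} (e : ι.obj L ≅ L') {K : DerivedCategory C}
    (hK : Bdd K) {Z : DerivedCategory A} (e' : ι.mapDerivedCategory.obj K ≅ Z) (n : ℤ) :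
    (∀ φ : (DerivedCategory.singleFunctor C 0).obj L ⟶ K⟦n⟧, φ = 0) ↔
      ∀ φ : (DerivedCategory.singleFunctor A 0).obj L' ⟶ Z⟦n⟧, φ = 0 := by
  have hb := dev_bij ι hl (bdd_single L) (hK.shift n)
  have e₁ := (ι.mapDerivedCategorySingleFunctor 0).app L ≪≫
    (DerivedCategory.singleFunctor A 0).mapIso e
  have e₂ := (ι.mapDerivedCategory.commShiftIso n).app K ≪≫ (shiftFunctor _ n).mapIso e'
  constructor
  · intro h φ
    obtain ⟨ψ, hψ⟩ := hb.2 (e₁.hom ≫ φ ≫ e₂.inv)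
    rw [← cancel_epi e₁.hom, ← cancel_mono e₂.inv, Category.assoc, comp_zero, zero_comp, ← hψ]
    change ι.mapDerivedCategory.map ψ = 0
    rw [h ψ, Functor.map_zero]
  · intro h φ
    refine hb.1 ?_
    change ι.mapDerivedCategory.map φ = ι.mapDerivedCategory.map 0
    rw [Functor.map_zero, ← cancel_epi e₁.inv, ← cancel_mono e₂.hom, comp_zero, zero_comp,
      Category.assoc]
    exact h _

theorem indecomposable_KuOf [IsAlgClosed k] (h2 : (2 : k) ≠ 0) (h3 : (3 : k) ≠ 0)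
    (hf : f.IsHomogeneous 3) (hs : Smooth f) (hc : ∀ X : C, Coh π (ι.obj X))
    (ht : ∀ m, ι.essImage (π.obj (twistMod f m))) {O₀ O₁ : C}
    (e₀ : ι.obj O₀ ≅ π.obj (twistMod f 0)) (e₁ : ι.obj O₁ ≅ π.obj (twistMod f 1)) :
    Indecomposable (KuOf O₀ O₁) := by
  have hl : Lifts ι := by
    intro M P p _
    obtain ⟨N, hN, ⟨e⟩⟩ := hc M
    obtain ⟨M', q, hM', hq⟩ := lifts_fg π hf hN (p ≫ e.inv)
    obtain ⟨X, ⟨e'⟩⟩ := ess_fg π hf ι ht hM'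
    refine ⟨X, e'.hom ≫ q, ?_⟩
    rw [show (e'.hom ≫ q) ≫ p = e'.hom ≫ (q ≫ p ≫ e.inv) ≫ e.hom by simp]
    infer_instance
  refine Indecomposable.transfer ι.mapDerivedCategory (fun K L hK hL => dev_bij ι hl hK.1 hL.1)
    ?_ ?_ (indecomposable_Ku π h2 h3 hf hs)
  · rintro K Z hK ⟨e⟩
    refine ⟨⟨?_, fun n => ?_⟩, ?_⟩
    · obtain ⟨a, b, _, _⟩ := dev_bdd ι hK.1
      exact ⟨a, b, DerivedCategory.TStructure.t.isGE_of_iso e a,
        DerivedCategory.TStructure.t.isLE_of_iso e b⟩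
    · obtain ⟨e'⟩ := dev_homology ι K n
      obtain ⟨N, hN, ⟨e''⟩⟩ := hc ((DerivedCategory.homologyFunctor C n).obj K)
      exact ⟨N, hN, ⟨e'' ≪≫ e'.symm ≪≫ (DerivedCategory.homologyFunctor A n).mapIso e⟩⟩
    · rintro m (rfl | rfl) n
      · exact (hom_zero_iff ι hl e₀ hK.1 e n).1 (hK.2 _ (Or.inl rfl) n)
      · exact (hom_zero_iff ι hl e₁ hK.1 e n).1 (hK.2 _ (Or.inr rfl) n)
  · intro Z hZ
    obtain ⟨K, hK, ⟨e⟩⟩ := dev_ess ι hl hZ.1.1 fun n => by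
      obtain ⟨N, hN, ⟨e⟩⟩ := hZ.1.2 n
      exact ι.essImage.prop_of_iso e (ess_fg π hf ι ht hN)
    refine ⟨K, ⟨hK, ?_⟩, ⟨e⟩⟩
    rintro L (rfl | rfl) n
    · exact (hom_zero_iff ι hl e₀ hK e n).2 (hZ.2 0 (Or.inl rfl) n)
    · exact (hom_zero_iff ι hl e₁ hK e n).2 (hZ.2 1 (Or.inr rfl) n)

end Pool.Agent.Lib.MP_0ba2dd_ag
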