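import Pool.Agent.Lib.MP_0ba2dd_ag.H45Proj
import Pool.Agent.Lib.MP_0ba2dd_ag.H45CohB

/-! The twisting sheaves are line bundles. -/

namespace Pool.Agent.Lib.MP_0ba2dd_ag

open CategoryTheory Limits AlgebraicGeometry MvPolynomial Opposite

universe u

namespace Tw

open TopologicalSpace

set_option linter.overlappingInstances false
set_option linter.unusedSectionVars false

variable {A σ : Type u} [CommRing A] [SetLike σ A] [AddSubgroupClass σ A] [AddSubmonoidClass σ A]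
  (𝒜 : ℕ → σ) [GradedRing 𝒜]

/-- An element outside the prime ideal as a unit of the localisation. -/
noncomputable def un {x : ProjectiveSpectrum.top 𝒜} {y : A} (h : y ∈ cmpl 𝒜 x) : (LocAt 𝒜 x)ˣ :=
  (IsLocalization.map_units (LocAt 𝒜 x) (⟨y, h⟩ : cmpl 𝒜 x)).unit

theorem un_val {x : ProjectiveSpectrum.top 𝒜} {y : A} (h : y ∈ cmpl 𝒜 x) :
    (un 𝒜 h : LocAt 𝒜 x) = algebraMap A _ y := rfl

theorem mk_eq {x : ProjectiveSpectrum.top 𝒜} (a : A) {b : A} (h : b ∈ cmpl 𝒜 x) :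
    (Localization.mk a ⟨b, h⟩ : LocAt 𝒜 x) = algebraMap A _ a * ((un 𝒜 h)⁻¹ : _ˣ) := by
  rw [Units.eq_mul_inv_iff_mul_eq, un_val, Localization.mk_eq_mk']
  exact IsLocalization.mk'_spec _ a (⟨b, h⟩ : cmpl 𝒜 x)

theorem un_mul_pow {x : ProjectiveSpectrum.top 𝒜} {b y : A} (hb : b ∈ cmpl 𝒜 x)
    (h : y ∈ cmpl 𝒜 x) (n : ℕ) :
    un 𝒜 (mul_mem hb (pow_mem h n)) = un 𝒜 hb * un 𝒜 h ^ n :=
  Units.ext (by rw [Units.val_mul, Units.val_pow_eq_pow_val, un_val, un_val, un_val, map_mul,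
    map_pow])

theorem mk_mul_zpow {x : ProjectiveSpectrum.top 𝒜} (a : A) {b y : A} (hb : b ∈ cmpl 𝒜 x)
    (h : y ∈ cmpl 𝒜 x) (m : ℤ) :
    (Localization.mk a ⟨b, hb⟩ : LocAt 𝒜 x) * ((un 𝒜 h ^ m : _ˣ) : LocAt 𝒜 x) =
      Localization.mk (a * y ^ m.toNat) ⟨b * y ^ (-m).toNat, mul_mem hb (pow_mem h _)⟩ := by
  have e : un 𝒜 h ^ m = un 𝒜 h ^ m.toNat * (un 𝒜 h ^ (-m).toNat)⁻¹ := by
    rw [← zpow_natCast, ← zpow_natCast, ← zpow_sub, Int.toNat_sub_toNat_neg]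
  rw [mk_eq, mk_eq, un_mul_pow 𝒜 hb h, e, map_mul, map_pow, ← un_val 𝒜 h, mul_inv,
    Units.val_mul, Units.val_mul, Units.val_pow_eq_pow_val]
  ring

/-- The section `y ^ m` of `O(m)` for `y` of degree one. -/
noncomputable def tws (m : ℤ) {y : A} (hy : y ∈ 𝒜 1) (U : Opens (ProjectiveSpectrum.top 𝒜))
    (h : ∀ x : U, y ∈ cmpl 𝒜 x.1) : twSec 𝒜 m U :=
  ⟨fun x => ((un 𝒜 (h x) ^ m : _ˣ) : LocAt 𝒜 x.1), fun x =>
    ⟨U, x.2, 𝟙 U, m.toNat • 1, (-m).toNat • 1, 1 * y ^ m.toNat, 1 * y ^ (-m).toNat,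
      by rw [one_mul]; exact SetLike.pow_mem_graded _ hy,
      by rw [one_mul]; exact SetLike.pow_mem_graded _ hy,
      by simp only [smul_eq_mul, mul_one]; omega,
      fun z => ⟨mul_mem (one_mem _) (pow_mem (h z) _), by
        rw [← mk_mul_zpow 𝒜 1 (one_mem _) (h z) m]
        exact ((congrArg (· * _) Localization.mk_one).trans (one_mul _)).symm⟩⟩⟩

theorem tws_bij (m : ℤ) {y : A} (hy : y ∈ 𝒜 1) (U : Opens (ProjectiveSpectrum.top 𝒜))
    (h : ∀ x : U, y ∈ cmpl 𝒜 x.1) :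
    Function.Bijective fun r : OSec 𝒜 U => r • tws 𝒜 m hy U h := by
  constructor
  · intro r r' e
    refine Subtype.ext (funext fun x => HomogeneousLocalization.val_injective _ ?_)
    have e1 : (r.1 x).val * ((un 𝒜 (h x) ^ m : _ˣ) : LocAt 𝒜 x.1) =
        (r'.1 x).val * ((un 𝒜 (h x) ^ m : _ˣ) : LocAt 𝒜 x.1) :=
      congrFun (congrArg Subtype.val e) x
    exact (Units.mul_left_inj _).1 e1
  · intro s
    have key : ∀ (V : Opens (ProjectiveSpectrum.top 𝒜)) (i : V ⟶ U),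
        IsFrac 𝒜 m (Fam.res 𝒜 i s.1) → ∃ (d : ℕ) (a b : 𝒜 d)
          (hb : ∀ z : V, b.1 ∈ cmpl 𝒜 z.1), ∀ z : V,
          (HomogeneousLocalization.mk ⟨d, a, b, hb z⟩ :
            HomogeneousLocalization 𝒜 (cmpl 𝒜 z.1)).val =
            s.1 (i z) * ((un 𝒜 (h (i z)) ^ (-m) : _ˣ) : LocAt 𝒜 z.1) := by
      rintro V i ⟨p, q, a, b, ha, hb, e, w⟩
      refine ⟨q + m.toNat • 1, ⟨a * y ^ (-m).toNat, ?_⟩,
        ⟨b * y ^ (- -m).toNat, ?_⟩, fun z => mul_mem (w z).1 (pow_mem (h (i z)) _), fun z => ?_⟩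
      · rw [show q + m.toNat • 1 = p + (-m).toNat • 1 by simp only [smul_eq_mul, mul_one]; omega]
        exact SetLike.mul_mem_graded ha (SetLike.pow_mem_graded _ hy)
      · rw [neg_neg]
        exact SetLike.mul_mem_graded hb (SetLike.pow_mem_graded _ hy)
      · exact ((congrArg (· * _) (w z).2).trans (mk_mul_zpow 𝒜 a (w z).1 (h (i z)) (-m))).symm
    have ex : ∀ x : U, ∃ z : HomogeneousLocalization 𝒜 (cmpl 𝒜 x.1),
        z.val = s.1 x * ((un 𝒜 (h x) ^ (-m) : _ˣ) : LocAt 𝒜 x.1) := by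
      intro x
      obtain ⟨V, hV, i, w⟩ := s.2 x
      obtain ⟨d, a, b, hb, e⟩ := key V i w
      exact ⟨_, e ⟨x.1, hV⟩⟩
    choose r hr using ex
    refine ⟨⟨r, fun x => ?_⟩, Subtype.ext (funext fun x => ?_)⟩
    · obtain ⟨V, hV, i, w⟩ := s.2 x
      obtain ⟨d, a, b, hb, e⟩ := key V i w
      exact ⟨V, hV, i, d, a, b, hb, fun z => HomogeneousLocalization.val_injective _
        ((hr (i z)).trans (e z).symm)⟩
    · change (r x).val * ((un 𝒜 (h x) ^ m : _ˣ) : LocAt 𝒜 x.1) = s.1 x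
      rw [hr, mul_assoc, ← Units.val_mul, ← zpow_add, neg_add_cancel, zpow_zero, Units.val_one,
        mul_one]

/-- Evaluation of a function at a point. -/
noncomputable def ev (U : Opens (ProjectiveSpectrum.top 𝒜)) (x : U) : OSec 𝒜 U →+* LocAt 𝒜 x.1 :=
  (Pi.evalRingHom (fun x : U => LocAt 𝒜 x.1) x).comp (toFam 𝒜 U)

theorem tws_glue (m : ℤ) {y z : A} (hy : y ∈ 𝒜 1) (hz : z ∈ 𝒜 1)
    (U : Opens (ProjectiveSpectrum.top 𝒜)) (h : ∀ x : U, y ∈ cmpl 𝒜 x.1)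
    (h' : ∀ x : U, z ∈ cmpl 𝒜 x.1) (t : (OSec 𝒜 U)ˣ)
    (ht : ∀ x : U, ev 𝒜 U x t = Localization.mk z ⟨y, h x⟩) :
    tws 𝒜 m hy U h = ((t ^ (-m) : _ˣ) : OSec 𝒜 U) • tws 𝒜 m hz U h' := by
  refine Subtype.ext (funext fun x => ?_)
  have e : Units.map (ev 𝒜 U x : OSec 𝒜 U →* LocAt 𝒜 x.1) t = un 𝒜 (h' x) * (un 𝒜 (h x))⁻¹ :=
    Units.ext ((ht x).trans (mk_eq 𝒜 z (h x)))
  change ((un 𝒜 (h x) ^ m : _ˣ) : LocAt 𝒜 x.1) =
    (Units.map (ev 𝒜 U x : OSec 𝒜 U →* LocAt 𝒜 x.1) (t ^ (-m)) : LocAt 𝒜 x.1) *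
      ((un 𝒜 (h' x) ^ m : _ˣ) : LocAt 𝒜 x.1)
  rw [map_zpow, e, ← Units.val_mul, mul_zpow, inv_zpow', neg_neg, mul_right_comm, ← zpow_add,
    neg_add_cancel, zpow_zero, one_mul]

end Tw

variable {k : Type u} [Field k] {f : Q k} {Y : Scheme.{u}}

theorem isTwist_twist [Fact (f.IsHomogeneous 3)] (c : Chart f (Hyp f)) (hc : ProjSpec f c)
    (m : ℤ) : c.IsTwist m (twist (grR f) m) := by
  have hy : ∀ a : Fin 5, mkR f (X a) ∈ grR f 1 := fun a => ⟨X a, isHomogeneous_X _ a, rfl⟩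
  have h : ∀ (a : Fin 5) (x : c.U a), mkR f (X a) ∈ cmpl (grR f) x.1 := fun a x => by
    have := (hc a (X a) 1 (isHomogeneous_X _ a) x).1
    rwa [pow_one] at this
  refine ⟨fun a => Tw.tws (grR f) m (hy a) (c.U a) (h a), fun a b => ?_, fun a V hV => ?_⟩
  · refine Tw.tws_glue (grR f) m (hy a) (hy b) (c.U a ⊓ c.U b) (fun x => h a ⟨x.1, x.2.1⟩)
      (fun x => h b ⟨x.1, x.2.2⟩) (c.tr a b) fun x => ?_
    obtain ⟨h1, e⟩ := hc a (X b) 1 (isHomogeneous_X _ b) ⟨x.1, x.2.1⟩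
    simp only [pow_one] at e
    exact e
  · exact Tw.tws_bij (grR f) m (hy a) V fun x => h a ⟨x.1, hV x.2⟩

theorem isTwist_unit (c : Chart f Y) : c.IsTwist 0 (SheafOfModules.unit Y.ringCatSheaf) := by
  have one : ∀ {U V : Y.Opens} (h : V ≤ U),
      res (SheafOfModules.unit Y.ringCatSheaf) h (1 : Γ(Y, U)) = (1 : Γ(Y, V)) :=
    fun h => (resO h).map_one
  refine ⟨fun a => (1 : Γ(Y, c.U a)), fun a b => ?_, fun a V hV => ?_⟩
  · rw [neg_zero, zpow_zero, Units.val_one, one_smul]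
    exact (one _).trans (one _).symm
  · have e : ∀ r : Γ(Y, V), r * resO hV 1 = r := fun r => by rw [map_one, mul_one]
    exact ⟨fun r r' w => (e r).symm.trans (w.trans (e r')), fun r => ⟨r, e r⟩⟩

theorem Chart.IsTwist.isCoh {c : Chart f Y} {m : ℤ} {F : Y.Modules} (h : c.IsTwist m F) :
    IsCoh Y F := by
  obtain ⟨e, -, h⟩ := h
  have ql : ∀ a, QL F (c.U a) := by
    intro a r
    have loc := (c.aff a).isLocalization_basicOpen r
    have alg : ∀ x : Γ(Y, c.U a),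
        algebraMap _ Γ(Y, Y.basicOpen r) x = resO (Y.basicOpen_le r) x := fun _ => rfl
    refine ⟨fun s => ?_, fun t ht => ?_⟩
    · obtain ⟨z, rfl⟩ := (h a _ (Y.basicOpen_le r)).2 s
      obtain ⟨⟨x, _, n, rfl⟩, w⟩ := IsLocalization.surj (Submonoid.powers r) z
      refine ⟨n, x • e a, ?_⟩
      rw [res_smul, smul_smul, ← map_pow, ← alg, ← alg, ← w, mul_comm]
    · obtain ⟨x, rfl⟩ := (h a _ le_rfl).2 t
      simp only [res_self] at ht ⊢
      rw [res_smul, ← zero_smul Γ(Y, Y.basicOpen r) (res F (Y.basicOpen_le r) (e a))] at ht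
      have := (h a _ (Y.basicOpen_le r)).1 ht
      rw [← alg] at this
      obtain ⟨⟨_, n, rfl⟩, w⟩ := (IsLocalization.map_eq_zero_iff (Submonoid.powers r) _ x).1 this
      exact ⟨n, by rw [smul_smul, show r ^ n * x = 0 from w, zero_smul]⟩
  have qc := qc_of_ql F c.U c.cover c.aff ql
  refine ⟨qc, fun V hV => finite_of_cover c.U c.cover c.aff (fun a => ?_) hV⟩
  exact Module.Finite.of_surjective (LinearMap.toSpanSingleton Γ(Y, c.U a) _ (res F le_rfl (e a)))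
    (h a _ le_rfl).2

theorem Chart.isLocallyNoetherian (c : Chart f Y) : IsLocallyNoetherian Y :=
  isLocallyNoetherian_of_affine_cover (S := fun a => ⟨c.U a, c.aff a⟩) c.cover fun a =>
    isNoetherianRing_of_surjective _ _ (c.deh a) (c.surj a)

end Pool.Agent.Lib.MP_0ba2dd_ag
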